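import Pool.Agent.H56.T5.LB
import Pool.Agent.H56.SMC.UDefs

/-!
# CFG5: the configuration for T5 (no walls)
-/

set_option autoImplicit false

namespace Pool.Agent.H56.T5

open Finset AddMonoidAlgebra
open Pool.Agent.H56.SMC Pool.Agent.H37.T5

/-- No walls. -/
def noW (n : ℕ) : Fin 0 → Fin n → ℤ := fun k => k.elim0

/-- The exponents `(1,0;a_i)`, `(0,1;0)`, `(0,1;M e_j)`. -/
def A5 {n r : ℕ} (a : Fin r → (Fin n →₀ ℕ)) (M : ℤ) :
    Fin r ⊕ (Option (Fin n) ⊕ Fin 0) → Lat (n + 2) := cA a (bbM (noW n) M)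

/-- The functional `(-N(w),0;w)`. -/
noncomputable def h5 {n r : ℕ} (a : Fin r → (Fin n →₀ ℕ)) (w : Fin n → ℕ) : Lat (n + 2) :=
  vec (-(H22.wmin a w : ℤ)) 0 (fun j => (w j : ℤ))

/-- The region `{u : m0 u + y0 ∈ cone}`. -/
def RG {d : ℕ} {ι : Type} (a : ι → Lat d) (m0 : ℤ) (y0 : Lat d) : Set (Lat d) :=
  {u | InC a (m0 • u + y0)}

theorem A5_inl {n r : ℕ} (a : Fin r → (Fin n →₀ ℕ)) (M : ℤ) (i : Fin r) :
    A5 a M (Sum.inl i) = vec 1 0 (fun j => (a i j : ℤ)) := rfl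

theorem A5_none {n r : ℕ} (a : Fin r → (Fin n →₀ ℕ)) (M : ℤ) :
    A5 a M (Sum.inr (Sum.inl none)) = vec 0 1 0 := rfl

theorem A5_some {n r : ℕ} (a : Fin r → (Fin n →₀ ℕ)) (M : ℤ) (j : Fin n) :
    A5 a M (Sum.inr (Sum.inl (some j))) = vec 0 1 (M • ev j) := rfl

end Pool.Agent.H56.T5
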