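import Pool.Agent.H56.T5.LB
import Pool.Agent.H56.T5.CFG5
import Pool.Agent.H56.SMC.KEXG

/-!
# Definitions for the exactness of the mixed complex of the symbols
-/

set_option autoImplicit false

namespace Pool.Agent.H56.T5

open Finset AddMonoidAlgebra
open Pool.Agent.H56.SMC Pool.Agent.H37.T5

/-- Exactness at `H_1` of the complex of the symbols of the functionals `ℓ_k`, one support `S`. -/
def KExS {d s : ℕ} {ι : Type} [Fintype ι] (a : ι → Lat d) (c : ι → ℂ) (ℓ : Fin s → Lat d)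
    (S : Set (Lat d)) : Prop :=
  ∀ x : Fin s → LP ℂ d, (∀ k, Supp S (x k)) → ∑ k, gs a c (ℓ k) * x k = 0 →
    ∃ y : Fin s → Fin s → LP ℂ d, (∀ j k, Supp S (y j k)) ∧ (∀ j k, y j k = -y k j) ∧
      ∀ j, x j = ∑ k, gs a c (ℓ k) * y j k

/-- The functionals `ℓ_k`, `k ∈ J`, are linearly independent on the exponents `a i` with
`H·a_i = 0`. -/
def IndOn {d s : ℕ} {ι : Type} (a : ι → Lat d) (H : Lat d) (ℓ : Fin s → Lat d)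
    (J : Finset (Fin s)) : Prop :=
  ∀ n : Fin s → ℤ, (∀ i, dt H (a i) = 0 → ∑ k ∈ J, n k * dt (ℓ k) (a i) = 0) → ∀ k ∈ J, n k = 0

/-- The layer `{u : m0 u + y0 ∈ Sset h, H(m0 u + y0) = 0}`. -/
def Lay {d : ℕ} {κ : Type} (h : κ → Lat d) (H : Lat d) (m0 : ℤ) (y0 : Lat d) : Set (Lat d) :=
  {u | m0 • u + y0 ∈ Sset h ∧ dt H (m0 • u + y0) = 0}

/-- The points of `S` with `ℓ_i = -1` for `i ∈ Z` and `ℓ_i ≥ 0` for `i ∈ E`, `i ∉ K`. -/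
def NN {d s : ℕ} (S : Set (Lat d)) (ℓ : Fin s → Lat d) (Z E K : Finset (Fin s)) : Set (Lat d) :=
  {u | u ∈ S ∧ (∀ i ∈ Z, dt (ℓ i) u = -1) ∧ ∀ i ∈ E, i ∉ K → 0 ≤ dt (ℓ i) u}

/-- The functional of the face `{H = 0, ℓ_i = 0 (i ∈ Z)}`. -/
def HZ {d s : ℕ} (H : Lat d) (ℓ : Fin s → Lat d) (Z : Finset (Fin s)) : Lat d :=
  H + ∑ i ∈ Z, ℓ i

/-- (A): exactness of the complex of the face `HZ` with supports `NN`, components in `J`. -/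
def StA {d s : ℕ} {ι : Type} [Fintype ι] (a : ι → Lat d) (c : ι → ℂ) (H : Lat d)
    (S : Set (Lat d)) (ℓ : Fin s → Lat d) (Z E J : Finset (Fin s)) : Prop :=
  ∀ r : Fin s → LP ℂ d, (∀ k ∈ J, Supp (NN S ℓ Z E {k}) (r k)) →
    ∑ k ∈ J, gs a (cF a c (HZ H ℓ Z)) (ℓ k) * r k = 0 →
    ∃ y : Fin s → Fin s → LP ℂ d, (∀ k ∈ J, ∀ l ∈ J, Supp (NN S ℓ Z E {k, l}) (y k l)) ∧
      (∀ k l, y k l = -y l k) ∧
      ∀ k ∈ J, r k = ∑ l ∈ J, gs a (cF a c (HZ H ℓ Z)) (ℓ l) * y k l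

/-- (B): `g_m r0 = ∑_J g_k r_k` implies `r0 = ∑_J g_k y_k`. -/
def StB {d s : ℕ} {ι : Type} [Fintype ι] (a : ι → Lat d) (c : ι → ℂ) (H : Lat d)
    (S : Set (Lat d)) (ℓ : Fin s → Lat d) (Z E J : Finset (Fin s)) (m : Fin s) : Prop :=
  ∀ (r0 : LP ℂ d) (r : Fin s → LP ℂ d), Supp (NN S ℓ Z E ∅) r0 →
    (∀ k ∈ J, Supp (NN S ℓ Z E {k}) (r k)) →
    gs a (cF a c (HZ H ℓ Z)) (ℓ m) * r0 = ∑ k ∈ J, gs a (cF a c (HZ H ℓ Z)) (ℓ k) * r k →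
    ∃ y : Fin s → LP ℂ d, (∀ k ∈ J, Supp (NN S ℓ Z E {k}) (y k)) ∧
      r0 = ∑ k ∈ J, gs a (cF a c (HZ H ℓ Z)) (ℓ k) * y k

theorem NN_mono {d s : ℕ} (S : Set (Lat d)) (ℓ : Fin s → Lat d) (Z : Finset (Fin s))
    {E E' K K' : Finset (Fin s)} (hE : E' ⊆ E) (hK : K ⊆ K') :
    NN S ℓ Z E K ⊆ NN S ℓ Z E' K' := by
  rintro u ⟨h1, h2, h3⟩
  exact ⟨h1, h2, fun i hi hiK => h3 i (hE hi) fun h => hiK (hK h)⟩

theorem cF_ne {d : ℕ} {ι : Type} {a : ι → Lat d} {c : ι → ℂ} {H : Lat d} {i : ι}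
    (h : cF a c H i ≠ 0) : dt H (a i) = 0 := by
  unfold cF at h
  by_contra h1
  exact h (if_neg h1)

theorem dt_HZ {d s : ℕ} (H : Lat d) (ℓ : Fin s → Lat d) (Z : Finset (Fin s)) (u : Lat d) :
    dt (HZ H ℓ Z) u = dt H u + ∑ i ∈ Z, dt (ℓ i) u := by
  unfold HZ
  rw [dt_comm, dt_add, dt_sum, dt_comm]
  congr 1
  exact sum_congr rfl fun i _ => dt_comm _ _

/-- An exponent lies on the face `HZ` iff it lies on `H` and on all `ℓ_i`, `i ∈ Z`. -/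
theorem dt_HZ_eq_zero {d s : ℕ} (H : Lat d) (ℓ : Fin s → Lat d) (Z : Finset (Fin s)) (v : Lat d)
    (h0 : 0 ≤ dt H v) (h1 : ∀ i ∈ Z, 0 ≤ dt (ℓ i) v) :
    dt (HZ H ℓ Z) v = 0 ↔ dt H v = 0 ∧ ∀ i ∈ Z, dt (ℓ i) v = 0 := by
  rw [dt_HZ]
  constructor
  · intro h
    have h2 : 0 ≤ ∑ i ∈ Z, dt (ℓ i) v := sum_nonneg h1
    have h3 : ∑ i ∈ Z, dt (ℓ i) v = 0 := by omega
    exact ⟨by omega, (sum_eq_zero_iff_of_nonneg h1).1 h3⟩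
  · rintro ⟨h2, h3⟩
    rw [h2, sum_eq_zero h3, add_zero]

end Pool.Agent.H56.T5
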