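import Pool.Agent.H56.T5.KXL
import Pool.Agent.H56.SMC.APPG

/-!
# GKX: exactness of the mixed complex, all exponents

Proof.  `fspan`, `fac` give `h` with `hh`, `hfac` for `A5 a M = cA a (bbM (noW n) M)` (as in `appL`, `Pool/Agent/H56/T5/APPL.lean`), `δ = vec 1 1 0`
(`appg_delta`).  Apply `kexL` with `H = 0`, `ℓ = ev`, `P = sh D`, `k0 = 0` (not in `sh D`); `cF a c 0 = c`, and the set of `kexL` is `RG (A5 a M) m0 y0`
(`appg_sset`, `dt 0 u = 0`).  `hPa`: the coordinates `q_j` of the exponents are nonnegative (`appg_bbM_nonneg`).  `hyP`: `hyD`.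
`hA`, `hB`: let `∑ k ∈ J, n k * (A i) k = 0` for all exponents `A i` with `(A i) k = 0` for `k ∈ Z` (`dt_HZ_eq_zero`, `dt_ev`).  `A = (0,1;0)` (it vanishes on
`Z ⊆ sh D`): `n 1 = 0` if `1 ∈ J`.  `A = (0,1;M e_j)`, `j.succ.succ ∉ Z`: `n 1 + M n (j+2) = 0` so `n (j+2) = 0`.  For `hA` (`Z = ∅`) also `A = (1,0;a_0)`
(`hr`): `n 0 = 0`.
-/

set_option autoImplicit false

namespace Pool.Agent.H56.T5

open Finset AddMonoidAlgebra
open Pool.Agent.H56.SMC Pool.Agent.H37.T5

theorem GKX_dt_zero_left {d : ℕ} (u : Lat d) : dt (0 : Lat d) u = 0 := by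
  rw [dt_comm, dt_zero]

theorem GKX_vec010 {n : ℕ} (k : Fin (n + 2)) :
    (vec 0 1 0 : Lat (n + 2)) k = if k = Fin.succ 0 then 1 else 0 := by
  refine Fin.cases ?_ (fun k => Fin.cases ?_ (fun k => ?_) k) k
  · rw [if_neg (Fin.succ_ne_zero 0).symm]
    simp [vec]
  · rw [if_pos rfl]
    simp [vec]
  · rw [if_neg (fun h => Fin.succ_ne_zero k (Fin.succ_injective _ h))]
    simp [vec]

theorem GKX_vecM {n : ℕ} (M : ℤ) (j : Fin n) (k : Fin (n + 2)) :
    (vec 0 1 (M • ev j) : Lat (n + 2)) k =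
      (if k = Fin.succ 0 then 1 else 0) + (if k = j.succ.succ then M else 0) := by
  refine Fin.cases ?_ (fun k => Fin.cases ?_ (fun k => ?_) k) k
  · rw [if_neg (Fin.succ_ne_zero 0).symm, if_neg (Fin.succ_ne_zero _).symm]
    simp [vec]
  · rw [if_pos rfl, if_neg (fun h => Fin.succ_ne_zero j (Fin.succ_injective _ h).symm)]
    simp [vec]
  · rw [if_neg (fun h => Fin.succ_ne_zero k (Fin.succ_injective _ h))]
    by_cases h : k = j
    · subst h
      rw [if_pos rfl]
      simp [vec, ev]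
    · rw [if_neg (fun h' => h (Fin.succ_injective _ (Fin.succ_injective _ h')))]
      simp [vec, ev, h]

/-- The exponents of the second kind determine all coefficients but the first. -/
theorem GKX_ind {n r : ℕ} (a : Fin r → (Fin n →₀ ℕ)) (M : ℤ) (hM : 0 < M)
    (Z J : Finset (Fin (n + 2))) (hZ : ∀ k ∈ Z, ∃ j : Fin n, j.succ.succ = k)
    (hJZ : ∀ k ∈ J, k ∉ Z) (nn : Fin (n + 2) → ℤ)
    (hn : ∀ i, (∀ k ∈ Z, A5 a M i k = 0) → ∑ k ∈ J, nn k * A5 a M i k = 0) :
    ∀ k ∈ J, k ≠ 0 → nn k = 0 := by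
  have h1 : Fin.succ 0 ∈ J → nn (Fin.succ 0) = 0 := by
    intro hJ
    have h2 := hn (Sum.inr (Sum.inl none)) (by
      intro k hk
      obtain ⟨j, rfl⟩ := hZ k hk
      rw [A5_none, GKX_vec010, if_neg (fun h => Fin.succ_ne_zero j (Fin.succ_injective _ h))])
    rw [A5_none] at h2
    simp only [GKX_vec010, mul_ite, mul_one, mul_zero] at h2
    rw [Finset.sum_ite_eq' J (Fin.succ 0) nn, if_pos hJ] at h2
    exact h2
  intro k hk hk0
  obtain ⟨k', rfl⟩ := Fin.exists_succ_eq.2 hk0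
  by_cases hk1 : k' = 0
  · subst hk1
    exact h1 hk
  · obtain ⟨j, rfl⟩ := Fin.exists_succ_eq.2 hk1
    have h2 := hn (Sum.inr (Sum.inl (some j))) (by
      intro k hkZ
      obtain ⟨j', rfl⟩ := hZ k hkZ
      rw [A5_some, GKX_vecM, if_neg (fun h => Fin.succ_ne_zero j' (Fin.succ_injective _ h)),
        if_neg, add_zero]
      intro h
      rw [h] at hkZ
      exact hJZ _ hk hkZ)
    rw [A5_some] at h2
    simp only [GKX_vecM, mul_add, mul_ite, mul_one, mul_zero, sum_add_distrib] at h2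
    rw [Finset.sum_ite_eq' J (Fin.succ 0) nn,
      Finset.sum_ite_eq' J j.succ.succ (fun k => nn k * M), if_pos hk] at h2
    have h3 : (if (Fin.succ 0 : Fin (n + 2)) ∈ J then nn (Fin.succ 0) else 0) = 0 := by
      split_ifs with h
      · exact h1 h
      · rfl
    rw [h3, zero_add] at h2
    rcases mul_eq_zero.1 h2 with h4 | h4
    · exact h4
    · exact absurd h4 hM.ne'

/-- GKX -/
theorem gkx {n r : ℕ} (hr : 0 < r) (a : Fin r → (Fin n →₀ ℕ)) (κ : Fin r → ℂ) (M : ℤ)
    (hM : 0 < M) (lam : Option (Fin n) ⊕ Fin 0 → ℂ) (hnd : TorusND (A5 a M) (cC κ lam))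
    (D : Finset (Fin n)) (m0 : ℤ) (hm0 : 0 < m0) (y0 : Lat (n + 2))
    (hyD : ∀ j ∈ D, y0 j.succ.succ = m0) :
    KExactL (A5 a M) (cC κ lam) ev (sh D) (RG (A5 a M) m0 y0) := by
  classical
  have hδ := appg_delta a (noW n) M
  obtain ⟨e, he⟩ := fspan hr a (noW n) M hM
  obtain ⟨mf, h, hh, -, -, hfac⟩ := fac (cA a (bbM (noW n) M)) (vec 1 1 0) hδ ⟨e, he⟩
  have hS := appg_sset (cA a (bbM (noW n) M)) h hh hfac
  have hcoord : ∀ (j : Fin n) i, 0 ≤ dt (ev j.succ.succ) (A5 a M i) := by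
    intro j i
    rw [dt_ev]
    rcases i with i | (o | k)
    · simp [A5, cA, vec]
    · simp only [A5, cA, vec, Fin.cons_succ]
      exact appg_bbM_nonneg (noW n) M hM o j
    · exact k.elim0
  have hsh : ∀ k ∈ sh D, ∃ j : Fin n, j.succ.succ = k := by
    intro k hk
    obtain ⟨j, -, hj⟩ := mem_sh.1 hk
    exact ⟨j, hj⟩
  have key := kexL (A5 a M) (cC κ lam) h (vec 1 1 0) hδ hh hfac hnd 0
    (fun i => by rw [GKX_dt_zero_left]) (ev : Fin (n + 2) → Lat (n + 2)) (sh D)
    (by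
      intro k hk i
      obtain ⟨j, rfl⟩ := hsh k hk
      exact hcoord j i)
    m0 hm0 y0 (GKX_dt_zero_left _)
    (by
      intro k hk
      obtain ⟨j, hj, rfl⟩ := mem_sh.1 hk
      rw [dt_ev]
      exact hyD j hj)
    0
    (by
      intro h0
      obtain ⟨j, hj⟩ := hsh 0 h0
      exact Fin.succ_ne_zero _ hj)
    (by
      intro nn hn
      have h1 := GKX_ind a M hM ∅ univ (by simp) (by simp) nn (by
        intro i _
        have := hn i (GKX_dt_zero_left _)
        simpa only [dt_ev] using this)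
      intro k _
      by_cases hk : k = 0
      · subst hk
        have h2 := hn (Sum.inl ⟨0, hr⟩) (GKX_dt_zero_left _)
        simp only [dt_ev] at h2
        rw [Finset.sum_eq_single (0 : Fin (n + 2))] at h2
        · rw [A5_inl] at h2
          simpa [vec] using h2
        · intro k _ hk
          rw [h1 k (mem_univ _) hk, zero_mul]
        · intro h; exact absurd (mem_univ _) h
      · exact h1 k (mem_univ _) hk)
    (by
      intro Z hZ nn hn
      have hZ' : ∀ k ∈ Z, ∃ j : Fin n, j.succ.succ = k := fun k hk => hsh k (hZ hk)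
      have h1 := GKX_ind a M hM Z ((univ \ Z).erase 0) hZ' (by
        intro k hk
        exact (mem_sdiff.1 (mem_of_mem_erase hk)).2) nn (by
        intro i hi
        have h2 : dt (HZ 0 ev Z) (A5 a M i) = 0 := by
          rw [dt_HZ_eq_zero]
          · refine ⟨GKX_dt_zero_left _, fun k hk => ?_⟩
            rw [dt_ev]
            exact hi k hk
          · rw [GKX_dt_zero_left]
          · intro k hk
            obtain ⟨j, rfl⟩ := hZ' k hk
            exact hcoord j i
        have := hn i h2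
        simpa only [dt_ev] using this)
      intro k hk
      exact h1 k hk (ne_of_mem_erase hk))
  have hc : cF (A5 a M) (cC κ lam) 0 = cC κ lam := by
    funext i
    unfold cF
    rw [if_pos (GKX_dt_zero_left _)]
  have hset : {u : Lat (n + 2) | m0 • u + y0 ∈ Sset h ∧ dt 0 u = 0} = RG (A5 a M) m0 y0 := by
    ext u
    constructor
    · rintro ⟨h1, -⟩
      exact (hS _).1 h1
    · intro h1
      exact ⟨(hS _).2 h1, GKX_dt_zero_left _⟩
  rw [hc, hset] at key
  exact key

/-- The cone over the exponents. -/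
theorem facI {n r : ℕ} (hr : 0 < r) (a : Fin r → (Fin n →₀ ℕ)) (M : ℤ) (hM : 0 < M)
    (u : Lat (n + 2)) (hu : InC (A5 a M) u) :
    ∃ N : ℕ, 0 < N ∧ ∃ k : Fin r ⊕ (Option (Fin n) ⊕ Fin 0) → ℕ,
      N • u = ∑ i, k i • A5 a M i := by
  have hδ := appg_delta a (noW n) M
  obtain ⟨e, he⟩ := fspan hr a (noW n) M hM
  obtain ⟨mf, h, hh, -, -, hfac⟩ := fac (cA a (bbM (noW n) M)) (vec 1 1 0) hδ ⟨e, he⟩
  have hS := appg_sset (cA a (bbM (noW n) M)) h hh hfac
  exact hfac u ((hS u).2 hu)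

end Pool.Agent.H56.T5
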