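import Pool.Agent.H56.T5.LB

/-!
# RKL: raising of the levels over a field without resonance, mixed supports

ADAPT the proof of `rk` (`Pool/Agent/H56/SMC/RK.lean`; there `ℓ = ev`, `P = ∅`, `S0 = univ`).

Proof.  `x = ∑ D_k z_k` (`D_k = Dop (ℓ k)`).  One functional `g v` after the other (induction on a finset `V` of functionals: all `z_k` supported in
`S0 ∩ LL ℓ P {k} ∩ {l v ≤ dt (g v) u for v ∈ V}`), and for the new `v` downward induction on the lowest level: let `dt (g v) u ≥ m` on all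
supports with `m < l v`, let `t_k` be the part of `z_k` at level `m` exactly, `ρ = (pv p (g v) + m)⁻¹` (`hnr`), `Y = ∑_k D_k t_k`, and
  `z'_k = z_k - ρ • (Dop (g v) t_k - θ v k • Y)`.
(i) `∑_k D_k z'_k = ∑_k D_k z_k`: by `Dop_comm` and `Dop_fam` both `∑_k D_k Dop (g v) t_k` and `∑_k θ v k • D_k Y` equal `Dop (g v) Y`.
(ii) levels of `z'_k` with respect to `v` are `≥ m+1`: the operators do not lower levels (`hh`), `Dop (g v)` acts on level `m` as the scalar
`pv p (g v) + m` plus terms of higher level, and the part of `Y` of level `m` is the part of `x = ∑_k D_k z_k` of level `m`, which vanishes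
(`hx`).  (iii) the levels of the other functionals of `V` stay `≥ l`.  (iv) mixed supports: `t_k` is supported in `S0 ∩ LL ℓ P {k}`, so is
`Dop (g v) t_k` (`LL_Dop_any`); `D_k t_k` and hence `Y` is supported in `S0 ∩ LL ℓ P ∅ ⊆ S0 ∩ LL ℓ P {k}` (`LL_Dop` with `K = ∅`,
`insert k ∅ = {k}`; `LL_empty`).
-/

set_option autoImplicit false

namespace Pool.Agent.H56.T5

open Finset AddMonoidAlgebra
open Pool.Agent.H56.SMC Pool.Agent.H37.T5

/-- RKL -/
theorem rkL {K : Type} [Field K] {d s : ℕ} {ι κ : Type} [Fintype ι] [Fintype κ] (a : ι → Lat d)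
    (c : ι → K) (p : Fin d → K) (ℓ : Fin s → Lat d) (P : Finset (Fin s))
    (hP1 : ∀ k ∈ P, pv p (ℓ k) = 1) (hPa : ∀ k ∈ P, ∀ i, 0 ≤ dt (ℓ k) (a i))
    (g : κ → Lat d) (θ : κ → Fin s → ℤ) (hθ : ∀ v, g v = ∑ k, θ v k • ℓ k)
    (hh : ∀ v i, c i ≠ 0 → 0 ≤ dt (g v) (a i)) (l : κ → ℤ)
    (hnr : ∀ v, ∀ m : ℤ, m < l v → pv p (g v) + (m : K) ≠ 0)
    (S0 : Set (Lat d)) (hS0 : ∀ u ∈ S0, ∀ i, c i ≠ 0 → u + a i ∈ S0)
    (x : LP K d) (hx : Supp (Sc g l) x)
    (hex : ExL p a c ℓ P S0 x) : ExL p a c ℓ P (S0 ∩ Sc g l) x := by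
  classical
  have step : ∀ (V : Finset κ) (w : κ) (n : ℕ) (z : Fin s → LP K d),
      (∀ k, Supp ((S0 ∩ {u | (∀ v ∈ V, l v ≤ dt (g v) u) ∧ l w - n ≤ dt (g w) u}) ∩ LL ℓ P {k})
        (z k)) →
      x = ∑ k, Dop p a c (ℓ k) (z k) →
      ∃ z' : Fin s → LP K d,
        (∀ k, Supp ((S0 ∩ {u | (∀ v ∈ V, l v ≤ dt (g v) u) ∧ l w ≤ dt (g w) u}) ∩ LL ℓ P {k})
          (z' k)) ∧
        x = ∑ k, Dop p a c (ℓ k) (z' k) := by
    intro V w n
    induction n with
    | zero =>
      intro z hz hxz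
      refine ⟨z, fun k => (hz k).mono ?_, hxz⟩
      rintro u ⟨⟨h0, h1, h2⟩, h3⟩
      exact ⟨⟨h0, h1, by simpa using h2⟩, h3⟩
    | succ n ih =>
      intro z hz hxz
      set m : ℤ := l w - (n + 1 : ℕ) with hm
      have hml : m < l w := by rw [hm]; push_cast; omega
      have hρ := hnr w m hml
      set S : Set (Lat d) := S0 ∩ {u | (∀ v ∈ V, l v ≤ dt (g v) u) ∧ m ≤ dt (g w) u} with hS
      set S' : Set (Lat d) := S0 ∩ {u | (∀ v ∈ V, l v ≤ dt (g v) u) ∧ m + 1 ≤ dt (g w) u} with hS'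
      have hcl : ∀ u ∈ S, ∀ i, c i ≠ 0 → u + a i ∈ S := by
        rintro u ⟨h0, h1, h2⟩ i hi
        refine ⟨hS0 u h0 i hi, fun v hv => ?_, ?_⟩
        · rw [dt_add]; have := h1 v hv; have := hh v i hi; omega
        · rw [dt_add]; have := hh w i hi; omega
      have hcl' : ∀ u ∈ S', ∀ i, c i ≠ 0 → u + a i ∈ S' := by
        rintro u ⟨h0, h1, h2⟩ i hi
        refine ⟨hS0 u h0 i hi, fun v hv => ?_, ?_⟩
        · rw [dt_add]; have := h1 v hv; have := hh v i hi; omega
        · rw [dt_add]; have := hh w i hi; omega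
      -- the part of level exactly `m`
      let t : Fin s → LP K d := fun k => dg (fun u => if dt (g w) u = m then (1 : K) else 0) (z k)
      have ht : ∀ k u, (t k).coeff u = (if dt (g w) u = m then (1 : K) else 0) * (z k).coeff u :=
        fun k u => dg_coeff _ _ _
      have htS : ∀ k, Supp (S ∩ LL ℓ P {k}) (t k) := fun k => (hz k).dg _
      have hzt : ∀ k, Supp (S' ∩ LL ℓ P {k}) (z k - t k) := by
        intro k u hu
        rw [coeff_sub', ht] at hu
        have h1 : (z k).coeff u ≠ 0 := by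
          intro h0; apply hu; rw [h0, mul_zero, sub_zero]
        obtain ⟨⟨h0, h2, h3⟩, h4⟩ := hz k u h1
        refine ⟨⟨h0, h2, ?_⟩, h4⟩
        by_contra h5
        have h6 : dt (g w) u = m := by omega
        apply hu
        rw [if_pos h6, one_mul, sub_self]
      let Y : LP K d := ∑ k, Dop p a c (ℓ k) (t k)
      have hYS : Supp (S ∩ LL ℓ P ∅) Y := by
        refine Supp.sum _ fun k _ => ?_
        refine LL_Dop p a c ℓ P ∅ hP1 hPa S hcl k (t k) ?_
        rw [insert_empty_eq]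
        exact htS k
      have hY0 : ∀ u, dt (g w) u = m → Y.coeff u = 0 := by
        intro u hu
        have h1 : Supp S' (x - Y) := by
          have : x - Y = ∑ k, Dop p a c (ℓ k) (z k - t k) := by
            rw [hxz]
            simp only [Dop_sub, sum_sub_distrib, Y]
          rw [this]
          refine Supp.sum _ fun k _ => ?_
          exact (LL_Dop_any p a c ℓ P {k} hPa S' hcl' (ℓ k) _ (hzt k)).mono fun u hu => hu.1
        have h2 : (x - Y).coeff u = 0 := by
          by_contra h3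
          have := (h1 u h3).2.2
          omega
        have h3 : x.coeff u = 0 := by
          by_contra h4
          have := hx u h4 w
          omega
        rw [coeff_sub', h3, zero_sub, neg_eq_zero] at h2
        exact h2
      have hYk : ∀ k, Supp (S ∩ LL ℓ P {k}) Y := fun k =>
        hYS.mono (fun (u : Lat d) (hu : u ∈ S ∩ LL ℓ P ∅) =>
          (⟨hu.1, LL_empty ℓ P {k} hu.2⟩ : u ∈ S ∩ LL ℓ P {k}))
      refine ih (fun k => z k - (pv p (g w) + (m : K))⁻¹ •
        (Dop p a c (g w) (t k) - ((θ w k : ℤ) : K) • Y)) ?_ ?_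
      · intro k
        have hsup : Supp (S ∩ LL ℓ P {k}) (z k - (pv p (g w) + (m : K))⁻¹ •
            (Dop p a c (g w) (t k) - ((θ w k : ℤ) : K) • Y)) :=
          (hz k).sub (((LL_Dop_any p a c ℓ P {k} hPa S hcl (g w) _ (htS k)).sub
            ((hYk k).smul _)).smul _)
        intro u hu
        obtain ⟨⟨h0, h1, h2⟩, h8⟩ := hsup u hu
        refine ⟨⟨h0, h1, ?_⟩, h8⟩
        by_contra h3
        have h4 : dt (g w) u = m := by
          rw [hm] at h2 ⊢
          push_cast at h2 ⊢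
          omega
        apply hu
        have h5 : ∑ i, c i * (dt (g w) (a i) : K) * (t k).coeff (u - a i) = 0 := by
          refine Finset.sum_eq_zero fun i _ => ?_
          by_cases h9 : c i = 0
          · rw [h9, zero_mul, zero_mul]
          by_cases h6 : dt (g w) (a i) = 0
          · rw [h6, Int.cast_zero, mul_zero, zero_mul]
          · have h7 : dt (g w) (u - a i) ≠ m := by
              rw [dt_sub]
              omega
            rw [ht, if_neg h7, zero_mul, mul_zero]
        rw [coeff_sub', coeff_smul', coeff_sub', coeff_smul', Dop_coeff, h5, hY0 u h4, ht,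
          if_pos h4, h4, one_mul, mul_zero, sub_zero, sub_zero, ← mul_assoc, inv_mul_cancel₀ hρ,
          one_mul, sub_self]
      · have e1 : ∑ k, Dop p a c (ℓ k) (Dop p a c (g w) (t k)) = Dop p a c (g w) Y := by
          simp only [Y, Dop_sum]
          exact Finset.sum_congr rfl fun k _ => Dop_comm p a c _ _ _
        have e2 : ∑ k, ((θ w k : ℤ) : K) • Dop p a c (ℓ k) Y = Dop p a c (g w) Y := by
          rw [hθ w]
          exact (Dop_fam p a c ℓ (θ w) Y).symm
        simp only [Dop_sub, Dop_smul, sum_sub_distrib, ← smul_sum]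
        rw [e1, e2, sub_self, smul_zero, sub_zero, ← hxz]
  have main : ∀ V : Finset κ, ∃ z : Fin s → LP K d,
      (∀ k, Supp ((S0 ∩ {u | ∀ v ∈ V, l v ≤ dt (g v) u}) ∩ LL ℓ P {k}) (z k)) ∧
      x = ∑ k, Dop p a c (ℓ k) (z k) := by
    intro V
    induction V using Finset.induction_on with
    | empty =>
      obtain ⟨z, hz0, hz⟩ := hex
      exact ⟨z, fun k u hu => ⟨⟨(hz0 k u hu).1, fun v hv => absurd hv (Finset.notMem_empty v)⟩,
        (hz0 k u hu).2⟩, hz⟩
    | insert w V hw ih =>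
      obtain ⟨z, hz, hxz⟩ := ih
      have hz2 : ∀ k, Supp ((S0 ∩ {u | (∀ v ∈ V, l v ≤ dt (g v) u) ∧
          l w - ((∑ k, ∑ u ∈ (z k).coeff.support, (l w - dt (g w) u).toNat : ℕ) : ℤ) ≤
            dt (g w) u}) ∩ LL ℓ P {k}) (z k) := by
        intro k u hu
        obtain ⟨⟨h0, h1⟩, h2⟩ := hz k u hu
        refine ⟨⟨h0, h1, ?_⟩, h2⟩
        have h3 : (l w - dt (g w) u).toNat ≤
            ∑ k, ∑ u ∈ (z k).coeff.support, (l w - dt (g w) u).toNat := by
          refine le_trans ?_ (Finset.single_le_sum (f := fun k => ∑ u ∈ (z k).coeff.support,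
            (l w - dt (g w) u).toNat) (fun _ _ => Nat.zero_le _) (Finset.mem_univ k))
          exact Finset.single_le_sum (f := fun u => (l w - dt (g w) u).toNat)
            (fun _ _ => Nat.zero_le _) (Finsupp.mem_support_iff.2 hu)
        omega
      obtain ⟨z', hz', hxz'⟩ := step V w _ z hz2 hxz
      refine ⟨z', fun k u hu => ?_, hxz'⟩
      obtain ⟨⟨h0, h1, h2⟩, h3⟩ := hz' k u hu
      refine ⟨⟨h0, fun v hv => ?_⟩, h3⟩
      rcases Finset.mem_insert.1 hv with rfl | hv
      · exact h2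
      · exact h1 v hv
  obtain ⟨z, hz, hxz⟩ := main Finset.univ
  exact ⟨z, fun k u hu => ⟨⟨(hz k u hu).1.1, fun v => (hz k u hu).1.2 v (Finset.mem_univ v)⟩,
    (hz k u hu).2⟩, hxz⟩

end Pool.Agent.H56.T5
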