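import Pool.Agent.H56.T5.TFL
import Pool.Agent.H56.T5.RKL
import Pool.Agent.H56.T5.RAL
import Pool.Agent.H56.SMC.CORE

/-!
# COREL: the main algebraic argument, mixed supports

ADAPT the proofs of `core`, `core_clear`, `core_tf` (`Pool/Agent/H56/SMC/CORE.lean`) and of the first step of `sl`
(`Pool/Agent/H56/SMC/SL.lean`, restriction to the slice).

Proof.  `raL` over `PA`: `x'` supported in `Sc h l ∩ {0 < dt h0 u} ∩ LL ev P ∅` with `ExL univ (x - x')`; hence over `KA`:
`ExL univ (lmap jK (single 0 b - x'))` (`ExL.lmap`, `ExL.add`), and this element is supported in `Sc h l` (`0 ∈ Sc h l` by `hl0`).  `rkL` over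
`KA` (`ℓ = ev`, `g = h`, `θ v = h v`, `S0 = univ`; `core_pv`, `core_jK_inj`; `pv` at `ev k` is `p k`): exact with supports in
`Sc h l ∩ LL ev P {j}`.  Clear denominators (as `core_clear`): `ExL (Sc h l) (X^N • (single 0 b - x'))` over `PA` for some `N`.  `tfL`
`N` times (as `core_tf`): `ExL (Sc h l) (single 0 b - x')` over `PA`.  Reduce modulo `X` (`ExL.lmap PowerSeries.constantCoeff`):
`single 0 b̄ - x̄' = ∑_j D_j z_j` over `ℂ`, `z_j` supported in `Sc h l ∩ LL ev P {j}`, and `x̄'` in `{0 < dt h0 u}`.  Slice: let `z̄_j` be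
the part of `z_j` with `dt h0 u = 0`.  Since `dt h0 u ≥ 0` on `Sc h l` (`hS0`) and `dt h0 (a i) ≥ 0`, the part of the equation with
`dt h0 u = 0` is `single 0 b̄ = ∑ D^F_j z̄_j` with `D^F_j = Dop p̄ a (cF a c h0) (ev j)` (exactly as in `sl`).
-/

set_option autoImplicit false

namespace Pool.Agent.H56.T5

open Finset AddMonoidAlgebra
open Pool.Agent.H56.SMC Pool.Agent.H37.T5

theorem COREL_fam {d : ℕ} (h : Lat d) : h = ∑ k, h k • (ev k : Lat d) := by
  funext j
  simp [ev, Finset.sum_apply, Pi.single_apply]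

theorem COREL_pv_ev {R : Type} [CommRing R] {d : ℕ} (p : Fin d → R) (k : Fin d) :
    pv p (ev k) = p k := by
  simp [pv, ev, Pi.single_apply]

/-- Clearing denominators. -/
theorem COREL_clear {d s : ℕ} {ι : Type} [Fintype ι] (a : ι → Lat d) (c : ι → PA)
    (p : Fin d → PA) (ℓ : Fin s → Lat d) (P : Finset (Fin s))
    (S : Set (Lat d)) (y : LP PA d)
    (h : ExL (fun j => jK (p j)) a (fun i => jK (c i)) ℓ P S (lmap jK y)) :
    ∃ N : ℕ, ExL p a c ℓ P S ((PowerSeries.X : PA) ^ N • y) := by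
  classical
  obtain ⟨z, hz, hzy⟩ := h
  obtain ⟨b, hb⟩ := IsLocalization.exist_integer_multiples (nonZeroDivisors PA)
    (univ.sigma (fun j : Fin s => (z j).coeff.support)) (fun q => (z q.1).coeff q.2)
  have hb' : ∀ j u, ∃ t : PA, jK t = jK (b : PA) * (z j).coeff u := by
    intro j u
    by_cases hu : (z j).coeff u = 0
    · exact ⟨0, by rw [hu, mul_zero, map_zero]⟩
    · obtain ⟨t, ht⟩ := hb ⟨j, u⟩ (by simp [hu])
      refine ⟨t, ?_⟩
      change algebraMap PA KA t = _
      rw [ht, Algebra.smul_def]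
      rfl
  choose t ht using hb'
  have ht0 : ∀ j u, (z j).coeff u = 0 → t j u = 0 := by
    intro j u hu
    apply core_jK_inj
    rw [ht, hu, mul_zero, map_zero]
  let z' : Fin s → LP PA d := fun j => ofCoeff (Finsupp.onFinset (z j).coeff.support (t j)
    (fun u hu => by
      rw [Finsupp.mem_support_iff]
      intro h0
      exact hu (ht0 j u h0)))
  have hz' : ∀ j, lmap jK (z' j) = jK (b : PA) • z j := by
    intro j
    apply lp_ext; intro u
    rw [lmap_coeff, coeff_smul']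
    exact ht j u
  have hEx : ExL p a c ℓ P S ((b : PA) • y) := by
    refine ⟨z', fun j u hu => hz j u (fun h0 => hu (ht0 j u h0)), ?_⟩
    apply core_lmap_inj
    rw [lmap_smul, hzy, lmap_sum, smul_sum]
    refine sum_congr rfl fun j _ => ?_
    rw [lmap_Dop, hz', Dop_smul]
  have hb0 : (b : PA) ≠ 0 := nonZeroDivisors.coe_ne_zero b
  refine ⟨(b : PA).order.toNat, ?_⟩
  obtain ⟨v, hv⟩ : ∃ v : PA, v * (b : PA) = (PowerSeries.X : PA) ^ (b : PA).order.toNat := by
    refine ⟨PowerSeries.Inv_divided_by_X_pow_order hb0, ?_⟩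
    have h1 := PowerSeries.X_pow_order_mul_divXPowOrder (f := (b : PA))
    have h2 := PowerSeries.Inv_divided_by_X_pow_order_leftInv hb0
    calc PowerSeries.Inv_divided_by_X_pow_order hb0 * (b : PA)
        = PowerSeries.Inv_divided_by_X_pow_order hb0 * ((PowerSeries.X : PA) ^
          (b : PA).order.toNat * PowerSeries.divXPowOrder (b : PA)) := by rw [h1]
      _ = (PowerSeries.X : PA) ^ (b : PA).order.toNat *
          (PowerSeries.Inv_divided_by_X_pow_order hb0 * PowerSeries.divXPowOrder (b : PA)) := by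
            ring
      _ = (PowerSeries.X : PA) ^ (b : PA).order.toNat := by rw [h2, mul_one]
  have := ExL.smul v hEx
  rwa [smul_smul, hv] at this

theorem COREL_tf {d s : ℕ} {ι : Type} [Fintype ι] (a : ι → Lat d) (c : ι → ℂ) (p : Fin d → PA)
    (ℓ : Fin s → Lat d) (P : Finset (Fin s)) (hP1 : ∀ k ∈ P, pv p (ℓ k) = 1)
    (hPa : ∀ k ∈ P, ∀ i, 0 ≤ dt (ℓ k) (a i))
    (S : Set (Lat d)) (δ : Lat d) (hδ : ∀ i, dt δ (a i) = 1) (C : ℤ) (hSδ : ∀ u ∈ S, C ≤ dt δ u)
    (hS : ∀ u ∈ S, ∀ i, u + a i ∈ S) (hK : KExactL a c ℓ P S) (x : LP PA d) (N : ℕ)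
    (h : ExL p a (fun i => PowerSeries.C (c i)) ℓ P S ((PowerSeries.X : PA) ^ N • x)) :
    ExL p a (fun i => PowerSeries.C (c i)) ℓ P S x := by
  induction N with
  | zero => rwa [pow_zero, one_smul] at h
  | succ N ih =>
    apply ih
    apply tfL a c p ℓ P hP1 hPa S δ hδ C hSδ hS hK
    rwa [smul_smul, ← pow_succ']

/-- Restriction to the slice. -/
theorem COREL_slice {d : ℕ} {ι : Type} [Fintype ι] (a : ι → Lat d) (c : ι → ℂ) (p : Fin d → ℂ)
    (P : Finset (Fin d)) (S : Set (Lat d)) (h0 : Lat d)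
    (hh0 : ∀ i, 0 ≤ dt h0 (a i)) (hS0 : ∀ u ∈ S, 0 ≤ dt h0 u) (b : ℂ) (x : LP ℂ d)
    (hx : Supp {u | 0 < dt h0 u} x) (hex : ExL p a c ev P S (single 0 b + x)) :
    ExL p a (cF a c h0) ev P (S ∩ {u | dt h0 u = 0}) (single 0 b) := by
  classical
  set c' : ι → ℂ := cF a c h0 with hc'
  have hc1 : ∀ i, dt h0 (a i) = 0 → c' i = c i := fun i hi => by
    rw [hc']; unfold cF; rw [if_pos hi]
  have hc2 : ∀ i, dt h0 (a i) ≠ 0 → c' i = 0 := fun i hi => by
    rw [hc']; unfold cF; rw [if_neg hi]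
  obtain ⟨z, hz, hxz⟩ := hex
  let z0 : Fin d → LP ℂ d := fun j => dg (fun u => if dt h0 u = 0 then (1 : ℂ) else 0) (z j)
  have hz0 : ∀ j u, (z0 j).coeff u = (if dt h0 u = 0 then (1 : ℂ) else 0) * (z j).coeff u :=
    fun j u => dg_coeff _ _ _
  refine ⟨z0, ?_, ?_⟩
  · intro j u hu
    rw [hz0] at hu
    have h1 := hz j u (fun h => hu (by rw [h, mul_zero]))
    refine ⟨⟨h1.1, ?_⟩, h1.2⟩
    show dt h0 u = 0
    by_contra h
    exact hu (by rw [if_neg h, zero_mul])
  apply lp_ext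
  intro u
  rw [coeff_finsum]
  by_cases hu : dt h0 u = 0
  · have h1 : (single 0 b + x : LP ℂ d).coeff u = (single 0 b : LP ℂ d).coeff u := by
      rw [coeff_add']
      have : x.coeff u = 0 := by
        by_contra h
        have h2 : 0 < dt h0 u := hx u h
        omega
      rw [this, add_zero]
    rw [← h1, hxz, coeff_finsum]
    refine Finset.sum_congr rfl fun j _ => ?_
    rw [Dop_coeff, Dop_coeff, hz0, if_pos hu, one_mul]
    congr 1
    refine Finset.sum_congr rfl fun i _ => ?_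
    by_cases hi : dt h0 (a i) = 0
    · have h3 : dt h0 (u - a i) = 0 := by rw [dt_sub, hu, hi, sub_zero]
      rw [hc1 i hi, hz0, if_pos h3, one_mul]
    · have h3 : (z j).coeff (u - a i) = 0 := by
        by_contra h
        have h4 := hS0 _ (hz j _ h).1
        have h5 := hh0 i
        rw [dt_sub] at h4
        omega
      rw [h3, hc2 i hi, mul_zero, zero_mul, zero_mul]
  · have h1 : (single 0 b : LP ℂ d).coeff u = 0 := by
      rw [coeff_single', if_neg]
      rintro rfl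
      exact hu (dt_zero h0)
    rw [h1]
    symm
    refine Finset.sum_eq_zero fun j _ => ?_
    rw [Dop_coeff, hz0, if_neg hu, zero_mul, mul_zero, zero_sub, neg_eq_zero]
    refine Finset.sum_eq_zero fun i _ => ?_
    by_cases hi : dt h0 (a i) = 0
    · have h3 : dt h0 (u - a i) ≠ 0 := by rw [dt_sub, hi, sub_zero]; exact hu
      rw [hz0, if_neg h3, zero_mul, mul_zero]
    · rw [hc2 i hi, zero_mul, zero_mul]

/-- COREL -/
theorem coreL {d : ℕ} {ι κ : Type} [Fintype ι] [Fintype κ] (a : ι → Lat d) (c : ι → ℂ)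
    (p : Fin d → PA) (P : Finset (Fin d)) (hP1 : ∀ k ∈ P, p k = 1)
    (hPa : ∀ k ∈ P, ∀ i, 0 ≤ dt (ev k) (a i))
    (h : κ → Lat d) (l : κ → ℤ) (hl0 : ∀ v, l v ≤ 0) (good : κ → Prop)
    (δ h0 : Lat d)
    (hδ : ∀ i, dt δ (a i) = 1) (C : ℤ) (hSδ : ∀ u ∈ Sc h l, C ≤ dt δ u)
    (hh : ∀ v i, 0 ≤ dt (h v) (a i)) (hh0 : ∀ i, 0 ≤ dt h0 (a i))
    (hS0 : ∀ u ∈ Sc h l, 0 ≤ dt h0 u)
    (hnr : ∀ v, ∀ m : ℤ, m < l v → pv p (h v) + (m : PA) ≠ 0)
    (hbad : ∀ v, ¬ good v → ∀ m : ℤ, m < l v → IsUnit (pv p (h v) + (m : PA)))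
    (hK : KExactL a c ev P (Sc h l)) (b : PA) (x : LP PA d)
    (hx : Supp {u | (∀ v, good v → l v ≤ dt (h v) u) ∧ 0 < dt h0 u} x)
    (hxP : Supp (LL ev P ∅) x)
    (hex : ExL (fun j => jK (p j)) a (fun i => jK (PowerSeries.C (c i))) ev P Set.univ
      (lmap jK (single 0 b - x))) :
    ExL (fun j => PowerSeries.constantCoeff (p j)) a (cF a c h0) ev P
      (Sc h l ∩ {u | dt h0 u = 0}) (single 0 (PowerSeries.constantCoeff b)) := by
  have hS : ∀ u ∈ Sc h l, ∀ i, u + a i ∈ Sc h l := by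
    intro u hu i v
    have h1 := hu v
    have h2 := hh v i
    rw [dt_add]
    linarith
  have hPp : ∀ k ∈ P, pv p (ev k) = 1 := fun k hk => by rw [COREL_pv_ev, hP1 k hk]
  obtain ⟨x', hx'P, hx', hex'⟩ := raL a (fun i => PowerSeries.C (c i)) p P hPa h good hh l hbad h0
    hh0 x hxP hx
  have hsum : ExL (fun j => jK (p j)) a (fun i => jK (PowerSeries.C (c i))) ev P Set.univ
      (lmap jK (single 0 b - x')) := by
    have e : (single 0 b - x' : LP PA d) = (single 0 b - x) + (x - x') := by abel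
    rw [e, lmap_add]
    exact ExL.add hex (ExL.lmap jK hex')
  have hsupp : Supp (Sc h l) (lmap jK (single 0 b - x')) := by
    apply Supp.lmap
    apply Supp.sub
    · apply Supp.single
      intro v
      rw [dt_zero]
      exact hl0 v
    · exact hx'.mono fun u hu => hu.1
  have hK1 := rkL a (fun i => jK (PowerSeries.C (c i))) (fun j => jK (p j)) ev P
    (fun k hk => by rw [COREL_pv_ev, hP1 k hk, map_one]) hPa h (fun v => h v)
    (fun v => COREL_fam (h v)) (fun v i _ => hh v i) l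
    (fun v m hm => by
      rw [core_pv jK p (h v) m]
      intro h0
      exact hnr v m hm (core_jK_inj (by rw [h0, map_zero])))
    Set.univ (fun _ _ _ _ => Set.mem_univ _) _ hsupp hsum
  have hK2 := ExL.mono (T := Sc h l) (P' := P) (fun u hu => hu.2) (Finset.Subset.refl P) hK1
  obtain ⟨N, hN⟩ := COREL_clear a (fun i => PowerSeries.C (c i)) p ev P (Sc h l) _ hK2
  have hP := COREL_tf a c p ev P hPp hPa (Sc h l) δ hδ C hSδ hS hK _ N hN
  have hC := ExL.lmap (PowerSeries.constantCoeff (R := ℂ)) hP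
  have e1 : (fun i => (PowerSeries.constantCoeff (R := ℂ)) (PowerSeries.C (c i))) = c := by
    funext i; simp
  rw [e1] at hC
  have e2 : lmap (PowerSeries.constantCoeff (R := ℂ)) (single 0 b - x') =
      single 0 (PowerSeries.constantCoeff b) + -lmap (PowerSeries.constantCoeff (R := ℂ)) x' := by
    rw [lmap_sub, sub_eq_add_neg]
    congr 1
    apply lp_ext; intro u
    rw [lmap_coeff, coeff_single', coeff_single']
    split_ifs
    · rfl
    · exact map_zero _
  rw [e2] at hC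
  exact COREL_slice a c (fun j => PowerSeries.constantCoeff (p j)) P (Sc h l) h0 hh0 hS0
    (PowerSeries.constantCoeff b) _
    (Supp.neg (Supp.lmap _ (hx'.mono fun u hu => hu.2))) hC

end Pool.Agent.H56.T5
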