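import Pool.Agent.H56.T5.LB
import Pool.Agent.H56.SMC.BFB

/-!
# BFBL: integration by parts, polynomial supports

ADAPT `bfb_aux` (`Pool/Agent/H56/SMC/BFB.lean`); the statement on the exponents is now simply polynomial.

`I i m g` is a formal version of `∫ F^{s+i} H^{t+m} g`.
Proof.  First: sums, products and derivatives `dL j` of polynomially supported Laurent polynomials are polynomially supported (`dL j` lowers
the exponent `u_j` by one and multiplies with `u_j`, so terms with `u_j = 0` disappear; `bfb_mul_coeff`, `bfb_dL_ne`), hence so is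
`GG F s L` (induction on `L`).  Then `q' = Q L`, `Q [] = q`, and for `j :: L`: by `h1`, `h3`
`I(1-|L|-1) m (q GG(j::L)) = I(-|L|) m (q F ∂_j GG_L) + (s+1-|L|) I(-|L|) m (q GG_L ∂_j F) = I(1-|L|) m (q ∂_j GG_L) + (s+1-|L|) I(-|L|) m (∂_j F q GG_L)`, and `h3` for
`g = q GG_L`, `i = 1-|L|` gives
`= I(1-|L|) m (q ∂_j GG_L) - I(1-|L|) m (∂_j (q GG_L)) - (t+m) I(1-|L|) (m-1) (∂_j H q GG_L) = I(1-|L|) (m-1) ((-H ∂_j q - (t+m) ∂_j H q) GG_L)`
(Leibniz for `dL`, `bfb_leibniz`; `h2`).  So by induction on `L`, for all `m` and all polynomially supported `q`: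
`I(1-|L|) m (q GG_L) = I 1 (m-|L|) q'`, `q'` polynomially supported.
-/

set_option autoImplicit false

namespace Pool.Agent.H56.T5

open Finset AddMonoidAlgebra
open Pool.Agent.H56.SMC Pool.Agent.H37.T5

theorem pos_mul {n : ℕ} {A : Type} [CommRing A] {f g : LP A n} (hf : Supp (Pos n) f)
    (hg : Supp (Pos n) g) : Supp (Pos n) (f * g) := by
  intro u hu
  obtain ⟨a, b, ha, hb, rfl⟩ := bfb_mul_coeff _ _ _ hu
  intro j
  have h1 := hf a ha j
  have h2 := hg b hb j
  have h3 : (a + b) j = a j + b j := rfl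
  rw [h3]
  omega

theorem pos_dL {n : ℕ} {A : Type} [CommRing A] (j : Fin n) {g : LP A n}
    (hg : Supp (Pos n) g) : Supp (Pos n) (dL j g) := by
  intro u hu
  obtain ⟨h1, h2⟩ := bfb_dL_ne j g u hu
  have h3 := hg _ h1
  intro k
  have h4 := h3 k
  by_cases hk : k = j
  · subst hk
    have h5 : (u + ev k) k = u k + 1 := by simp [ev]
    rw [h5] at h4 h2
    omega
  · have h5 : (u + ev j) k = u k := by simp [ev, hk]
    rw [h5] at h4
    exact h4

theorem BFBL_add {n : ℕ} {A : Type} [CommRing A] {f g : LP A n} (hf : Supp (Pos n) f)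
    (hg : Supp (Pos n) g) : Supp (Pos n) (f + g) := by
  intro u hu
  rw [coeff_add'] at hu
  by_cases h : f.coeff u = 0
  · rw [h, zero_add] at hu
    exact hg u hu
  · exact hf u h

theorem BFBL_smul {n : ℕ} {A : Type} [CommRing A] {f : LP A n} (c : A)
    (hf : Supp (Pos n) f) : Supp (Pos n) (c • f) := by
  intro u hu
  rw [coeff_smul'] at hu
  exact hf u (right_ne_zero_of_mul hu)

theorem BFBL_neg {n : ℕ} {A : Type} [CommRing A] {f : LP A n}
    (hf : Supp (Pos n) f) : Supp (Pos n) (-f) := by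
  intro u hu
  rw [coeff_neg'] at hu
  exact hf u (neg_ne_zero.1 hu)

theorem BFBL_sub {n : ℕ} {A : Type} [CommRing A] {f g : LP A n} (hf : Supp (Pos n) f)
    (hg : Supp (Pos n) g) : Supp (Pos n) (f - g) := by
  rw [sub_eq_add_neg]
  exact BFBL_add hf (BFBL_neg hg)

theorem pos_GG {n : ℕ} {A : Type} [CommRing A] (F : LP A n) (hF : Supp (Pos n) F) (s : A)
    (L : List (Fin n)) : Supp (Pos n) (GG F s L) := by
  induction L with
  | nil =>
    intro u hu j
    have e : (GG F s [] : LP A n) = single 0 1 := rfl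
    rw [e, coeff_single'] at hu
    by_cases h : u = 0
    · rw [h]
      exact le_rfl
    · rw [if_neg h] at hu
      exact absurd rfl hu
  | cons j L ih =>
    have e4 : GG F s (j :: L) = F * dL j (GG F s L) +
      (s + 1 - (L.length : A)) • (GG F s L * dL j F) := rfl
    rw [e4]
    exact BFBL_add (pos_mul hF (pos_dL j ih)) (BFBL_smul _ (pos_mul ih (pos_dL j hF)))

/-- BFBL -/
theorem bfbL {n : ℕ} {A W : Type} [CommRing A] [AddCommGroup W] [Module A W] (s t : A)
    (F H : LP A n) (hF : Supp (Pos n) F) (hH : Supp (Pos n) H) (I : ℤ → ℤ → LP A n →ₗ[A] W)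
    (h1 : ∀ i m g, Supp (Pos n) g → I i m g = I (i - 1) m (F * g))
    (h2 : ∀ i m g, Supp (Pos n) g → I i m g = I i (m - 1) (H * g))
    (h3 : ∀ i m j g, Supp (Pos n) g → I i m (dL j g) +
      (s + (i : A)) • I (i - 1) m (dL j F * g) + (t + (m : A)) • I i (m - 1) (dL j H * g) = 0)
    (L : List (Fin n)) (m : ℤ) (q : LP A n) (hq : Supp (Pos n) q) :
    ∃ q' : LP A n, I (1 - L.length) m (q * GG F s L) = I 1 (m - L.length) q' ∧
      Supp (Pos n) q' := by
  induction L generalizing m q with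
  | nil =>
    refine ⟨q, ?_, hq⟩
    simp [GG]
  | cons j L ih =>
    have hGG := pos_GG F hF s L
    obtain ⟨q', hq', hex⟩ := ih (m - 1) (-(H * dL j q) - (t + (m : A)) • (dL j H * q))
      (BFBL_sub (BFBL_neg (pos_mul hH (pos_dL j hq))) (BFBL_smul _ (pos_mul (pos_dL j hH) hq)))
    refine ⟨q', ?_, hex⟩
    have e1 : (m - ((j :: L).length : ℤ)) = m - 1 - (L.length : ℤ) := by
      rw [List.length_cons]; push_cast; ring
    have e2 : (1 - ((j :: L).length : ℤ)) = 1 - (L.length : ℤ) - 1 := by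
      rw [List.length_cons]; push_cast; ring
    rw [e1, ← hq', e2]
    have e3 : q * GG F s (j :: L) = F * (q * dL j (GG F s L)) +
        (s + ((1 - (L.length : ℤ) : ℤ) : A)) • (dL j F * (q * GG F s L)) := by
      have e4 : GG F s (j :: L) = F * dL j (GG F s L) +
        (s + 1 - (L.length : A)) • (GG F s L * dL j F) := rfl
      have e5 : (s + ((1 - (L.length : ℤ) : ℤ) : A)) = s + 1 - (L.length : A) := by
        push_cast; ring
      rw [e4, e5, mul_add, mul_smul_comm]
      congr 1
      · ring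
      · congr 1; ring
    rw [e3, map_add, map_smul, ← h1 _ _ _ (pos_mul hq (pos_dL j hGG))]
    have e6 := h3 (1 - (L.length : ℤ)) m j (q * GG F s L) (pos_mul hq hGG)
    rw [bfb_leibniz, map_add] at e6
    have e7 : (-(H * dL j q) - (t + (m : A)) • (dL j H * q)) * GG F s L =
        -(H * (dL j q * GG F s L)) - (t + (m : A)) • (dL j H * (q * GG F s L)) := by
      rw [sub_mul, smul_mul_assoc, neg_mul, mul_assoc, mul_assoc]
    rw [e7, map_sub, map_neg, map_smul, ← h2 _ _ _ (pos_mul (pos_dL j hq) hGG)]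
    have e8 : ∀ a b c d e : W, a + b + c + d = 0 → e = -a - d → b + c = e := by
      intro a b c d e h he
      rw [he]
      have : b + c = (a + b + c + d) - a - d := by abel
      rw [this, h]; abel
    exact e8 _ _ _ _ _ e6 rfl

end Pool.Agent.H56.T5
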