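import Pool.Agent.H56.T5.JFL
import Pool.Agent.H56.T5.BFBL
import Pool.Agent.H56.SMC.MREL

/-!
# MRELL: the relation obtained from the functional equation, with mixed supports

ADAPT `MREL.lean` (`Pool/Agent/H56/SMC/MREL.lean`): `mrel_iter1`, `mrel_iter2`, `mrel_key`, `mrel_fin`, `mrel_exp`, `mrel`.

Proof.  `A = PA`, `s = C s0 + X`, `t = C t0`, `F = lmap (algebraMap ℂ PA) (toL ℂ f)`, `H = lmap (algebraMap ℂ PA) (Hl bb lam)` (both polynomially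
supported: `mrel_toL_nonneg`, `hbb`), `W`, `I` from `jfL`, `R` from `bfa`.
`b(s) I 0 0 1 = I (1-R) 0 (b(s) F^{R-1})` (`h1` iterated, all elements polynomially supported) `= ∑_β I (1-R) 0 (p_β GG_β F^{R-|β|}) = ∑_β I (1-|β|) 0 (p_β GG_β) = ∑_β I 1 (-|β|) q_β` (`bfbL` with
`q = p_β`) `= ∑_β I 1 (-R) (H^{R-|β|} q_β) = I 0 (-R) (F G)`, `G = ∑_β H^{R-|β|} q_β`, and `jfL` gives `= mk (lmap jK (C ρ • emb R (F G)))`.
`x = C ρ • emb R (F G)`.  Exponents of `F G`: `ρ' + a_i` with `ρ'` an exponent of `G`, `ρ' ≥ 0`.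
-/

set_option autoImplicit false

namespace Pool.Agent.H56.T5

open Finset AddMonoidAlgebra
open Pool.Agent.H56.SMC Pool.Agent.H37.T5

theorem mrelL_one {n : ℕ} {A : Type} [CommRing A] : Supp (Pos n) (1 : LP A n) := by
  rw [AddMonoidAlgebra.one_def]
  have h : (0 : Lat n) ∈ Pos n := fun _ => le_rfl
  exact Supp.single h 1

theorem mrelL_pow {n : ℕ} {A : Type} [CommRing A] {F : LP A n} (hF : Supp (Pos n) F) (k : ℕ) :
    Supp (Pos n) (F ^ k) := by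
  induction k with
  | zero => rw [pow_zero]; exact mrelL_one
  | succ k ih => rw [pow_succ]; exact pos_mul ih hF

theorem mrelL_iter1 {n : ℕ} {A W : Type} [CommRing A] [AddCommGroup W] [Module A W] (F : LP A n)
    (hF : Supp (Pos n) F) (I : ℤ → ℤ → LP A n →ₗ[A] W)
    (h1 : ∀ i m g, Supp (Pos n) g → I i m g = I (i - 1) m (F * g)) (k : ℕ) :
    ∀ i m g, Supp (Pos n) g → I i m g = I (i - k) m (F ^ k * g) := by
  induction k with
  | zero => intro i m g _; simp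
  | succ k ih =>
    intro i m g hg
    rw [ih i m g hg, h1 _ _ _ (pos_mul (mrelL_pow hF k) hg), ← mul_assoc, ← pow_succ']
    congr 2
    push_cast
    ring

theorem mrelL_iter2 {n : ℕ} {A W : Type} [CommRing A] [AddCommGroup W] [Module A W] (H : LP A n)
    (hH : Supp (Pos n) H) (I : ℤ → ℤ → LP A n →ₗ[A] W)
    (h2 : ∀ i m g, Supp (Pos n) g → I i m g = I i (m - 1) (H * g)) (k : ℕ) :
    ∀ i m g, Supp (Pos n) g → I i m g = I i (m - k) (H ^ k * g) := by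
  induction k with
  | zero => intro i m g _; simp
  | succ k ih =>
    intro i m g hg
    rw [ih i m g hg, h2 _ _ _ (pos_mul (mrelL_pow hH k) hg), ← mul_assoc, ← pow_succ']
    congr 2
    push_cast
    ring

/-- the relation, for abstract `I` -/
theorem mrelL_key {n : ℕ} {A W : Type} [CommRing A] [AddCommGroup W] [Module A W] (s c : A)
    (F H : LP A n) (hF : Supp (Pos n) F) (hH : Supp (Pos n) H) (I : ℤ → ℤ → LP A n →ₗ[A] W)
    (h1 : ∀ i m g, Supp (Pos n) g → I i m g = I (i - 1) m (F * g))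
    (h2 : ∀ i m g, Supp (Pos n) g → I i m g = I i (m - 1) (H * g))
    (R : ℕ) (hR0 : 0 < R) (S : Finset (Fin n →₀ ℕ)) (hRl : ∀ β ∈ S, (lst β).length ≤ R)
    (pb q : (Fin n →₀ ℕ) → LP A n) (hpb : ∀ β, Supp (Pos n) (pb β)) (hq : ∀ β, Supp (Pos n) (q β))
    (hb : ∑ β ∈ S, pb β * GG F s (lst β) * F ^ (R - (lst β).length) = c • F ^ (R - 1))
    (hq1 : ∀ β, I (1 - ((lst β).length : ℤ)) 0 (pb β * GG F s (lst β)) =
      I 1 (0 - ((lst β).length : ℤ)) (q β)) :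
    c • I 0 0 1 = I 0 (-(R : ℤ)) (F * ∑ β ∈ S, H ^ (R - (lst β).length) * q β) := by
  have e2 : c • I 0 0 1 = I (1 - (R : ℤ)) 0 (c • F ^ (R - 1)) := by
    rw [mrelL_iter1 F hF I h1 (R - 1) 0 0 1 mrelL_one, mul_one, ← map_smul]
    congr 2
    rw [Nat.cast_sub hR0]
    push_cast
    ring
  have hsum : Supp (Pos n) (∑ β ∈ S, H ^ (R - (lst β).length) * q β) :=
    Supp.sum S fun β _ => pos_mul (mrelL_pow hH _) (hq β)
  rw [e2, ← hb, map_sum]
  have e3 : I 0 (-(R : ℤ)) (F * ∑ β ∈ S, H ^ (R - (lst β).length) * q β) =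
      I 1 (-(R : ℤ)) (∑ β ∈ S, H ^ (R - (lst β).length) * q β) := by
    rw [h1 1 (-(R : ℤ)) _ hsum, sub_self]
  rw [e3, map_sum]
  refine sum_congr rfl fun β hβ => ?_
  have hl := hRl β hβ
  have e4 := hq1 β
  rw [zero_sub] at e4
  have e5 := mrelL_iter1 F hF I h1 (R - (lst β).length) (1 - ((lst β).length : ℤ)) 0
    (pb β * GG F s (lst β)) (pos_mul (hpb β) (pos_GG F hF s _))
  have e6 := mrelL_iter2 H hH I h2 (R - (lst β).length) 1 (-((lst β).length : ℤ)) (q β) (hq β)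
  have e7 : (1 - ((lst β).length : ℤ)) - ((R - (lst β).length : ℕ) : ℤ) = 1 - (R : ℤ) := by
    rw [Nat.cast_sub hl]; ring
  have e8 : (-((lst β).length : ℤ)) - ((R - (lst β).length : ℕ) : ℤ) = -(R : ℤ) := by
    rw [Nat.cast_sub hl]; ring
  rw [e7] at e5
  rw [e8] at e6
  rw [← e6, ← e4, e5]
  congr 1
  rw [mul_comm]

/-- from the quotient to `ExL` -/
theorem mrelL_fin {d s : ℕ} {ι : Type} [Fintype ι] (p : Fin d → KA) (a : ι → Lat d) (c : ι → KA)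
    (ℓ : Fin s → Lat d) (P : Finset (Fin s)) (S : Set (Lat d))
    (r : PA) (x : LP PA d)
    (h : r • (Submodule.Quotient.mk (single 0 1) : LP KA d ⧸ exLS p a c ℓ P S) =
      Submodule.Quotient.mk (lmap jK x)) :
    ExL p a c ℓ P S (lmap jK (single 0 r - x)) := by
  rw [← mem_exLS, lmap_sub, ← Submodule.Quotient.mk_eq_zero, Submodule.Quotient.mk_sub, ← h,
    sub_eq_zero, JF_lmap_single]
  have e9 : r • (Submodule.Quotient.mk (single 0 1) : LP KA d ⧸ exLS p a c ℓ P S) =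
      Submodule.Quotient.mk (r • single 0 1) := rfl
  rw [e9]
  congr 1
  apply lp_ext
  intro u
  rw [coeff_single']
  have e10 : (r • (single 0 1 : LP KA d)).coeff u = r • ((single 0 1 : LP KA d).coeff u) := rfl
  rw [e10, coeff_single', Algebra.smul_def]
  split_ifs
  · rw [mul_one]; rfl
  · rw [mul_zero]

theorem mrelL_H {n : ℕ} {ϑ : Type} [Fintype ϑ] (bb : ϑ → Lat n) (hbb : ∀ k j, 0 ≤ bb k j)
    (lam : ϑ → ℂ) : Supp (Pos n) (lmap (algebraMap ℂ PA) (Hl bb lam)) := by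
  intro u hu
  rw [JF_mapH] at hu
  obtain ⟨k, rfl⟩ := mrel_singles _ _ _ hu
  exact hbb k

theorem mrelL_F {n : ℕ} (f : MvPolynomial (Fin n) ℂ) :
    Supp (Pos n) (lmap (algebraMap ℂ PA) (toL ℂ f)) :=
  Supp.lmap _ fun u hu => mrel_toL_nonneg f u hu

/-- the exponents -/
theorem mrelL_exp {n r : ℕ} (a : Fin r → (Fin n →₀ ℕ)) (κ : Fin r → ℂ) (R : ℕ) (g : LP PA n)
    (hg : Supp (Pos n) g) (ρ0 : PA) (u : Lat (n + 2))
    (hu : (ρ0 • emb (R : ℤ) (lmap (algebraMap ℂ PA) (toL ℂ (fpoly a κ)) * g)).coeff u ≠ 0) :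
    ∃ (ρ : Lat n) (i : Fin r), u = vec 0 R (ρ + fun j => (a i j : ℤ)) ∧ ∀ j, 0 ≤ ρ j := by
  classical
  rw [coeff_smul'] at hu
  have hu1 := right_ne_zero_of_mul hu
  obtain ⟨w, hw, rfl⟩ : ∃ w, (lmap (algebraMap ℂ PA) (toL ℂ (fpoly a κ)) * g).coeff w ≠ 0 ∧
        u = vec 0 (R : ℤ) w := by
    have h6 : u ∈ (Finsupp.mapDomain (vec 0 (R : ℤ))
      (lmap (algebraMap ℂ PA) (toL ℂ (fpoly a κ)) * g).coeff).support :=
      Finsupp.mem_support_iff.2 hu1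
    have h7 := Finsupp.mapDomain_support h6
    obtain ⟨w, hw, rfl⟩ := Finset.mem_image.1 h7
    exact ⟨w, Finsupp.mem_support_iff.1 hw, rfl⟩
  obtain ⟨a', ρ, ha', hρ, rfl⟩ := bfb_mul_coeff _ _ _ hw
  rw [JF_mapf] at ha'
  obtain ⟨i, rfl⟩ := mrel_singles _ _ _ ha'
  exact ⟨ρ, i, congrArg (vec 0 (R : ℤ)) (add_comm _ _), hg ρ hρ⟩

/-- MRELL -/
theorem mrelL {n r : ℕ} {ϑ : Type} [Fintype ϑ] (a : Fin r → (Fin n →₀ ℕ)) (κ : Fin r → ℂ)
    (bb : ϑ → Lat n) (hbb : ∀ k j, 0 ≤ bb k j) (lam : ϑ → ℂ) (b : Polynomial ℂ) (P : H22.WeylS n)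
    (hfe : H22.FunctionalEquation (fpoly a κ) b P)
    (s0 t0 : ℂ) (ht0 : ∀ m : ℤ, t0 ≠ (m : ℂ)) :
    ∃ (R : ℕ) (x : LP PA (n + 2)),
      ExL (fun j => jK (pp (PowerSeries.C s0 + PowerSeries.X) (PowerSeries.C t0) j)) (cA a bb)
        (fun i => jK (PowerSeries.C (cC κ lam i))) ev (sh univ) Set.univ
        (lmap jK (single 0 (Polynomial.aeval (PowerSeries.C s0 + PowerSeries.X : PA) b) - x)) ∧
      ∀ u, x.coeff u ≠ 0 → ∃ (ρ : Lat n) (i : Fin r),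
        u = vec 0 R (ρ + fun j => (a i j : ℤ)) ∧ ∀ j, 0 ≤ ρ j := by
  obtain ⟨R, hR0, hRl, hbfa⟩ := bfa (fpoly a κ) b P hfe
  obtain ⟨I, h1, h2, h3, h4, h5⟩ := jfL a κ bb hbb lam s0 t0 ht0
  have hb := hbfa PA (PowerSeries.C s0 + PowerSeries.X)
  have hF := mrelL_F (fpoly a κ)
  have hH := mrelL_H bb hbb lam
  have hpb : ∀ β : Fin n →₀ ℕ, Supp (Pos n) (toL PA (MvPolynomial.map
      (Polynomial.aeval (PowerSeries.C s0 + PowerSeries.X : PA) :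
      Polynomial ℂ →ₐ[ℂ] PA).toRingHom (P β))) := fun β => mrel_toL_nonneg _
  have hq := fun β : Fin n →₀ ℕ => bfbL (PowerSeries.C s0 + PowerSeries.X) (PowerSeries.C t0)
    (lmap (algebraMap ℂ PA) (toL ℂ (fpoly a κ))) (lmap (algebraMap ℂ PA) (Hl bb lam)) hF hH
    I h1 h2 h3 (lst β) 0 (toL PA (MvPolynomial.map
      (Polynomial.aeval (PowerSeries.C s0 + PowerSeries.X : PA) :
      Polynomial ℂ →ₐ[ℂ] PA).toRingHom (P β))) (hpb β)
  choose q hq1 hq2 using hq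
  obtain ⟨ρ0, hρ0⟩ := h5 R
  have e1 := mrelL_key _ _ _ _ hF hH I h1 h2 R hR0 P.support hRl _ q hpb hq2 hb hq1
  rw [h4, hρ0] at e1
  exact ⟨R, _, mrelL_fin _ _ _ _ _ _ _ _ e1, fun u hu => mrelL_exp a κ R _
    (Supp.sum _ fun β _ => pos_mul (mrelL_pow hH _) (hq2 β)) _ u hu⟩

end Pool.Agent.H56.T5
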