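import Pool.Agent.H56.T5.CFG5
import Pool.Agent.H56.T5.COREL
import Pool.Agent.H56.T5.MRELL
import Pool.Agent.H56.SMC.APPG

/-!
# APPL: the relation on the slice of a weight vector `w`

ADAPT the proof of `appg` (`Pool/Agent/H56/SMC/APPG.lean`); here there are no walls `β`, `w` is any weight vector with `N(w) > 0` (not
necessarily a facet normal), and the conclusion is the relation on the slice with mixed supports.

Write `A = A5 a M = cA a (bbM (noW n) M)`, `c = cC κ lam`, `h0 = h5 a w`, `N = wmin a w`, `δ = vec 1 1 0`, `s0 = -|w|/N`.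
Proof.  (0) `0 < r` (`appg_pos`).  (1) `fspan`, `fac` (with `d + 1 = n + 2`): the functionals `h_v`, `hfac`.  `Sset h = {u : InC A u}`
(`appg_sset`).  `l = lev h m0 y0`; `l v ≤ 0` since `dt (h v) y0 ≥ 0` (`hy0c`).  `Sc h l = RG A m0 y0` (`mem_Sc_lev`, `appg_sset`).
(2) lower bound for `dt δ` on `Sc h l` as in `appg`; `0 ≤ dt h0 u` on `Sc h l` (`hy0`, `appg_h0`).
(3) For every index `v`: either `h_v` has second coordinate `≠ 0`, or `fnr` applies: `h_v = vec 1 0 0` or `h_v = vec (-wmin a v') 0 v'` with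
`v' : Fin n → ℕ`.  `hnr`: `appn`; in the last case, if `wmin a v' = 0` then some `i` has `∑ a_i j v'_j = 0`, so every `j` with
`v'_j ≠ 0` has `a_i j = 0` and `hyj` gives `m0 |v'| ≤ ∑_j v'_j (y0)_j = dt (h v) y0`, so `l v ≤ -|v'|` (`appg_lev`).
(4) `good v` iff the second coordinate of `h_v` is `0`.  Not good: `appu` (first case).  `x`, `R` from `mrelL` (`t0 = I`, not an integer;
`hbb`: `bbM` has nonnegative entries, `appg_bbM_nonneg`, no `Sum.inr (Sum.inr _)`): an exponent of `x` is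
`u = vec 0 R (ρ + a_i)`, `ρ ≥ 0`; for `vec 1 0 0`: `dt = 0 ≥ l v`; for `v'`: `dt (h v) u = v'·ρ + v'·a_i ≥ 0 ≥ l v`;
`dt h0 u = w·ρ + w·a_i ≥ N > 0` (`appg_wmin_le`).  `x` is supported in `LL ev (sh D) ∅` (`vec_mem_LL`).
(5) `coreL` with `P = sh D` (`p k = 1` for `k ∈ sh D`; `0 ≤ dt (ev k) (A i)`), `ExL.mono` (`sh_mono`) for the relation of `mrelL`,
`constantCoeff (aeval (C s0 + X) b) = b.eval s0` (`appg_aeval`), and `constantCoeff (pp (C s0 + X) (C I) j) = pp s0 I j`.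
-/

set_option autoImplicit false

namespace Pool.Agent.H56.T5

open Finset AddMonoidAlgebra
open Pool.Agent.H56.SMC Pool.Agent.H37.T5

theorem APPL_sum_add {n r : ℕ} (a : Fin r → (Fin n →₀ ℕ)) (w : Fin n → ℕ) (ρ : Lat n)
    (i : Fin r) (R l l2 : ℤ) (hρ : ∀ j, 0 ≤ ρ j) :
    l2 * R + (H22.wmin a w : ℤ) ≤ dt (vec l l2 (fun j => (w j : ℤ)))
      (vec 0 R (ρ + fun j => (a i j : ℤ))) := by
  rw [dt_vec]
  have h2 := appg_wmin_le a w i
  have h3 : ∑ j, (w j : ℤ) * (ρ + fun j => (a i j : ℤ)) j =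
      ∑ j, (w j : ℤ) * ρ j + ∑ j, (w j : ℤ) * (a i j : ℤ) := by
    simp only [Pi.add_apply, mul_add, sum_add_distrib]
  have h4 : 0 ≤ ∑ j, (w j : ℤ) * ρ j :=
    sum_nonneg fun j _ => mul_nonneg (by positivity) (hρ j)
  rw [h3]
  linarith

/-- If `wmin a v = 0` then the coordinates of `y0` bound `|v|`. -/
theorem APPL_wsum {n r : ℕ} (hr : 0 < r) (a : Fin r → (Fin n →₀ ℕ)) (m0 : ℤ)
    (y0 : Lat (n + 2))
    (hyj : ∀ j, (∃ i, a i j = 0) → m0 ≤ y0 j.succ.succ) (v : Fin n → ℕ)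
    (hv : H22.wmin a v = 0) :
    m0 * H22.wsum v ≤ dt (vec (-(H22.wmin a v : ℤ)) 0 (fun j => (v j : ℤ))) y0 := by
  have hex : ∃ i, ∑ j, a i j * v j = 0 := by
    have : Nonempty (Fin r) := ⟨⟨0, hr⟩⟩
    have h1 : sInf (Set.range fun i : Fin r => ∑ j, a i j * v j) ∈
        Set.range fun i : Fin r => ∑ j, a i j * v j :=
      Nat.sInf_mem (Set.range_nonempty _)
    obtain ⟨i, hi⟩ := h1
    refine ⟨i, ?_⟩
    have h2 : H22.wmin a v = sInf (Set.range fun i : Fin r => ∑ j, a i j * v j) := by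
      unfold H22.wmin
      rfl
    rw [← hv, h2, ← hi]
  obtain ⟨i, hi⟩ := hex
  rw [hv]
  have h3 : ∀ j, (v j : ℤ) * m0 ≤ (v j : ℤ) * y0 j.succ.succ := by
    intro j
    by_cases hj : v j = 0
    · rw [hj]; simp
    · have h4 : a i j = 0 := by
        have h5 := (Finset.sum_eq_zero_iff.1 hi) j (mem_univ j)
        rcases Nat.mul_eq_zero.1 h5 with h6 | h6
        · exact h6
        · exact absurd h6 hj
      exact mul_le_mul_of_nonneg_left (hyj j ⟨i, h4⟩) (by positivity)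
  rw [vec_surj y0, dt_vec]
  have h6 : (m0 * (H22.wsum v : ℤ)) = ∑ j, (v j : ℤ) * m0 := by
    simp only [H22.wsum]
    push_cast
    rw [mul_sum]
    exact sum_congr rfl fun j _ => mul_comm _ _
  rw [h6]
  have h7 := sum_le_sum (s := univ) fun j _ => h3 j
  simpa using h7

/-- APPL -/
theorem appL {n r : ℕ} (a : Fin r → (Fin n →₀ ℕ)) (κ : Fin r → ℂ)
    (b : Polynomial ℂ) (P : H22.WeylS n)
    (hfe : H22.FunctionalEquation (fpoly a κ) b P) (w : Fin n → ℕ)
    (hN : 0 < H22.wmin a w) (D : Finset (Fin n)) (M : ℤ) (hM : 0 < M)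
    (m0 : ℤ) (hm0 : 0 < m0) (y0 : Lat (n + 2)) (hy0c : InC (A5 a M) y0)
    (hy0 : dt (h5 a w) y0 = 0)
    (hyj : ∀ j, (∃ i, a i j = 0) → m0 ≤ y0 j.succ.succ)
    (lam : Option (Fin n) ⊕ Fin 0 → ℂ)
    (hK : KExactL (A5 a M) (cC κ lam) ev (sh D) (RG (A5 a M) m0 y0)) :
    ExL (pp (-(H22.wsum w : ℂ) / (H22.wmin a w : ℂ)) Complex.I) (A5 a M)
      (cF (A5 a M) (cC κ lam) (h5 a w)) ev (sh D)
      (RG (A5 a M) m0 y0 ∩ {u | dt (h5 a w) u = 0})
      (single 0 (b.eval (-(H22.wsum w : ℂ) / (H22.wmin a w : ℂ)))) := by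
  classical
  have hr := appg_pos a w hN
  have hδ := appg_delta a (noW n) M
  obtain ⟨e, he⟩ := fspan hr a (noW n) M hM
  obtain ⟨mf, h, hh, hprim, hfacet, hfac⟩ := fac (cA a (bbM (noW n) M)) (vec 1 1 0) hδ ⟨e, he⟩
  have hS := appg_sset (cA a (bbM (noW n) M)) h hh hfac
  have hSc : ∀ u, u ∈ Sc h (lev h m0 y0) ↔ InC (cA a (bbM (noW n) M)) (m0 • u + y0) := by
    intro u
    rw [mem_Sc_lev h hm0, hS]
  have hScRG : Sc h (lev h m0 y0) = RG (A5 a M) m0 y0 := by
    ext u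
    exact hSc u
  have hl0 : ∀ v, lev h m0 y0 v ≤ 0 := by
    intro v
    have := appg_lev h m0 hm0 y0 v 0 (by rw [mul_zero]; exact hy0c (h v) (hh v))
    linarith
  have hSδ : ∀ u ∈ Sc h (lev h m0 y0), -|dt (vec 1 1 0) y0| ≤ dt (vec 1 1 0) u := by
    intro u hu
    rw [hSc] at hu
    have h1 := hu (vec 1 1 0) (fun i => by rw [hδ i]; norm_num)
    rw [dt_add, dt_zsmul] at h1
    have h2 := le_abs_self (dt (vec 1 1 0) y0)
    have h3 := abs_nonneg (dt (vec 1 1 0) y0)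
    by_contra hcon
    push Not at hcon
    nlinarith
  have hh0 := appg_h0 a (noW n) M hM w (fun k => k.elim0)
  have hS0 : ∀ u ∈ Sc h (lev h m0 y0), 0 ≤ dt (h5 a w) u := by
    intro u hu
    rw [hSc] at hu
    have h1 := hu _ hh0
    rw [dt_add, dt_zsmul] at h1
    have h2 : dt (vec (-(H22.wmin a w : ℤ)) 0 (fun j => (w j : ℤ))) y0 = 0 := hy0
    rw [h2, add_zero] at h1
    exact nonneg_of_mul_nonneg_right h1 hm0
  have hcases : ∀ v, h v (Fin.succ 0) ≠ 0 ∨ h v = vec 1 0 0 ∨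
      ∃ v' : Fin n → ℕ, RayNormal a (noW n) v' ∧ univ.gcd v' = 1 ∧
        h v = vec (-(H22.wmin a v' : ℤ)) 0 (fun j => (v' j : ℤ)) := by
    intro v
    by_cases h1 : h v (Fin.succ 0) = 0
    · exact Or.inr (fnr hr a (noW n) M hM (h v) (hh v) (hprim v) (hfacet v) h1)
    · exact Or.inl h1
  have hnr : ∀ v, ∀ mm : ℤ, mm < lev h m0 y0 v →
      pv (pp (PowerSeries.C (-(H22.wsum w : ℂ) / (H22.wmin a w : ℂ)) + PowerSeries.X)
        (PowerSeries.C Complex.I)) (h v) + (mm : PA) ≠ 0 := by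
    intro v mm hmm
    refine appn a w hN (h v) (lev h m0 y0 v) ?_ mm hmm
    rcases hcases v with h1 | h1 | ⟨v', -, -, hv'⟩
    · exact Or.inl h1
    · exact Or.inr (Or.inl h1)
    · refine Or.inr (Or.inr ⟨v', hv', fun h0 => ?_⟩)
      have := APPL_wsum hr a m0 y0 hyj v' h0
      rw [← hv'] at this
      exact appg_lev h m0 hm0 y0 v _ this
  have hbad : ∀ v, ¬ (h v (Fin.succ 0) = 0) → ∀ mm : ℤ, mm < lev h m0 y0 v →
      IsUnit (pv (pp (PowerSeries.C (-(H22.wsum w : ℂ) / (H22.wmin a w : ℂ)) + PowerSeries.X)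
        (PowerSeries.C Complex.I)) (h v) + (mm : PA)) := by
    intro v hng mm hmm
    exact appu a w hN (h v) (lev h m0 y0 v) (hl0 v) (Or.inl hng) mm hmm
  obtain ⟨R, x, hex, hx⟩ := mrelL a κ (bbM (noW n) M) (by
      rintro (o | k) j
      · exact appg_bbM_nonneg (noW n) M hM o j
      · exact k.elim0) lam b P hfe
    (-(H22.wsum w : ℂ) / (H22.wmin a w : ℂ)) Complex.I (by
      intro m hm
      have := congrArg Complex.im hm
      simp at this)
  have hxS : Supp {u | (∀ v, h v (Fin.succ 0) = 0 → lev h m0 y0 v ≤ dt (h v) u) ∧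
        0 < dt (h5 a w) u} x := by
    intro u hu
    obtain ⟨ρ, i, rfl, hρ⟩ := hx u hu
    refine ⟨fun v hgood => ?_, ?_⟩
    · refine (hl0 v).trans ?_
      rcases hcases v with h1 | h1 | ⟨v', -, -, hv'⟩
      · exact absurd hgood h1
      · rw [h1, dt_vec]
        simp
      · rw [hv']
        have := APPL_sum_add a v' ρ i R (-(H22.wmin a v' : ℤ)) 0 hρ
        refine le_trans ?_ this
        positivity
    · have := APPL_sum_add a w ρ i R (-(H22.wmin a w : ℤ)) 0 hρ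
      have hN' : (0 : ℤ) < H22.wmin a w := by exact_mod_cast hN
      have h8 : (0 : ℤ) < 0 * (R : ℤ) + (H22.wmin a w : ℤ) := by linarith
      exact lt_of_lt_of_le h8 this
  have hxP : Supp (LL ev (sh D) ∅) x := by
    intro u hu
    obtain ⟨ρ, i, rfl, hρ⟩ := hx u hu
    refine vec_mem_LL D ∅ _ _ _ fun j _ => ?_
    simp only [Pi.add_apply]
    have := hρ j
    positivity
  have hmain := coreL (A5 a M) (cC κ lam)
    (pp (PowerSeries.C (-(H22.wsum w : ℂ) / (H22.wmin a w : ℂ)) + PowerSeries.X)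
        (PowerSeries.C Complex.I)) (sh D)
    (by
      intro k hk
      obtain ⟨j, -, rfl⟩ := mem_sh.1 hk
      simp [pp])
    (by
      intro k hk i
      obtain ⟨j, -, rfl⟩ := mem_sh.1 hk
      rw [dt_ev]
      rcases i with i | (o | k)
      · simp [A5, cA, vec]
      · simp only [A5, cA, vec, Fin.cons_succ]
        exact appg_bbM_nonneg (noW n) M hM o j
      · exact k.elim0)
    h (lev h m0 y0) hl0 (fun v => h v (Fin.succ 0) = 0) (vec 1 1 0) (h5 a w) hδ _ hSδ hh hh0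
    hS0 hnr hbad (by rw [hScRG]; exact hK) _ x hxS hxP
    (ExL.mono (Set.Subset.refl _) (sh_mono (subset_univ D)) hex)
  rw [hScRG, appg_aeval] at hmain
  have hpp : (fun j => PowerSeries.constantCoeff
      ((pp (PowerSeries.C (-(H22.wsum w : ℂ) / (H22.wmin a w : ℂ)) + PowerSeries.X)
        (PowerSeries.C Complex.I) : Fin (n + 2) → PA) j)) =
      pp (-(H22.wsum w : ℂ) / (H22.wmin a w : ℂ)) Complex.I := by
    funext j
    refine Fin.cases ?_ (fun j => Fin.cases ?_ (fun j => ?_) j) j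
    · simp [pp]
    · simp [pp]
    · simp [pp]
  rw [hpp] at hmain
  exact hmain

end Pool.Agent.H56.T5
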