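import Pool.Agent.H56.T5.CFG5
import Pool.Agent.H37.T5.FDefs

/-!
# Definitions for theorem R (simplicial faces, root side)
-/

set_option autoImplicit false

namespace Pool.Agent.H56.T5

open Finset AddMonoidAlgebra
open Pool.Agent.H56.SMC Pool.Agent.H37.T5

/-- The data of a simplicial face over the rationals. -/
structure RD {n r : ℕ} (a : Fin r → (Fin n →₀ ℕ)) (w : Fin n → ℕ) (σ : Finset (Fin r))
    (lam : Fin r → ℚ) (mu : Fin n → ℚ) (th : Fin r → Fin r → ℚ) : Prop where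
  pos : 0 < H22.wmin a w
  on : ∀ b ∈ σ, ∑ j, a b j * w j = H22.wmin a w
  ind : LinearIndependent ℤ (Sum.elim
    (fun b : {b : Fin r // b ∈ σ} => (vec 1 0 (fun j => (a b.1 j : ℤ)) : Lat (n + 2)))
    (fun j : {j : Fin n // w j = 0} => (vec 0 0 (ev j.1) : Lat (n + 2))))
  th0 : ∀ i, ∑ j, a i j * w j = H22.wmin a w → ∀ b ∈ σ, 0 ≤ th i b
  th1 : ∀ i, ∑ j, a i j * w j = H22.wmin a w → ∑ b ∈ σ, th i b = 1
  tha : ∀ i, ∑ j, a i j * w j = H22.wmin a w → ∀ j, (a i j : ℚ) = ∑ b ∈ σ, th i b * (a b j : ℚ)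
  lams : ∑ b ∈ σ, lam b = (H22.wsum w : ℚ) / (H22.wmin a w : ℚ)
  lamj : ∀ j, ∑ b ∈ σ, lam b * (a b j : ℚ) + (if w j = 0 then mu j else 0) = 1

/-- The combinatorial data of the slice. -/
structure SZ {n r : ℕ} (a : Fin r → (Fin n →₀ ℕ)) (w : Fin n → ℕ) (σ : Finset (Fin r))
    (lam : Fin r → ℚ) (th : Fin r → Fin r → ℚ) (m0 : ℤ) (D P : Finset (Fin n))
    (T T' : Fin r → ℤ) : Prop where
  PD : P ⊆ D
  D0 : ∀ j ∈ D, w j ≠ 0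
  T0 : ∀ b ∈ σ, 0 ≤ T b
  TC : ∀ j, w j ≠ 0 → (∃ i, a i j = 0) → m0 ≤ ∑ b ∈ σ, T b * (a b j : ℤ)
  TD : ∀ j ∈ D, ∃ b ∈ σ, a b j ≠ 0 ∧ (∀ b' ∈ σ, b' ≠ b → a b' j = 0) ∧ T b * (a b j : ℤ) = m0
  TT' : ∀ b ∈ σ, T' b = T b ∨ (T' b = 0 ∧
    (lam b ≤ 0 ∨ ∃ j1 ∈ D, ∃ j2 ∈ D, j1 ≠ j2 ∧ a b j1 ≠ 0 ∧ a b j2 ≠ 0))
  TP : ∀ j ∈ P, ∀ b ∈ σ, a b j ≠ 0 → T' b * (a b j : ℤ) = m0 ∧ ∀ j' ∈ D, a b j' ≠ 0 → j' = j
  no : ∀ i, ∑ j, a i j * w j = H22.wmin a w → (∀ b ∈ σ, th i b * (m0 : ℚ) ≤ (T' b : ℚ)) →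
    ¬ ∀ j1 ∈ P, ∀ j2 ∈ P, a i j1 ≠ 0 → a i j2 ≠ 0 → j1 = j2

/-- `∑_{b ∈ σ} T_b (1,0;a_b) + m1 ∑_{w_j=0} (0,1;M e_j)`. -/
noncomputable def yv {n r : ℕ} (a : Fin r → (Fin n →₀ ℕ)) (M : ℤ) (w : Fin n → ℕ) (σ : Finset (Fin r))
    (T : Fin r → ℤ) (m1 : ℤ) : Lat (n + 2) :=
  ∑ b ∈ σ, T b • A5 a M (Sum.inl b) +
    m1 • ∑ j ∈ univ.filter (fun j => w j = 0), A5 a M (Sum.inr (Sum.inl (some j)))

/-- Index type of the generators of the cone over the face. -/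
abbrev TT {n r : ℕ} (w : Fin n → ℕ) (σ : Finset (Fin r)) : Type :=
  {b : Fin r // b ∈ σ} ⊕ Option {j : Fin n // w j = 0}

/-- The generators. -/
def XT {n r : ℕ} (w : Fin n → ℕ) (σ : Finset (Fin r)) :
    TT w σ → Fin r ⊕ (Option (Fin n) ⊕ Fin 0)
  | Sum.inl b => Sum.inl b.1
  | Sum.inr none => Sum.inr (Sum.inl none)
  | Sum.inr (some j) => Sum.inr (Sum.inl (some j.1))

/-- The dual functionals of the generators. -/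
structure GD {n r : ℕ} (a : Fin r → (Fin n →₀ ℕ)) (M : ℤ) (w : Fin n → ℕ) (σ : Finset (Fin r))
    (lam : Fin r → ℚ) (th : Fin r → Fin r → ℚ) (G : ℤ) (γ : TT w σ → Lat (n + 2))
    (q : TT w σ → ℂ) : Prop where
  G0 : 0 < G
  dual : ∀ τ τ', dt (γ τ) (A5 a M (XT w σ τ')) = if τ = τ' then G else 0
  gen : ∀ τ, dt (h5 a w) (A5 a M (XT w σ τ)) = 0
  face : ∀ i, dt (h5 a w) (A5 a M i) = 0 → (∀ τ, 0 ≤ dt (γ τ) (A5 a M i)) ∧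
    G • A5 a M i = ∑ τ, dt (γ τ) (A5 a M i) • A5 a M (XT w σ τ)
  par : ∀ g : Lat (n + 2), pv (pp (-(H22.wsum w : ℂ) / (H22.wmin a w : ℂ)) Complex.I) g =
    ∑ τ, q τ * (dt g (A5 a M (XT w σ τ)) : ℂ)
  qb : ∀ b : {b : Fin r // b ∈ σ}, q (Sum.inl b) = (lam b.1 : ℂ)
  thb : ∀ i, ∑ j, a i j * w j = H22.wmin a w → ∀ b : {b : Fin r // b ∈ σ},
    (dt (γ (Sum.inl b)) (A5 a M (Sum.inl i)) : ℚ) = (G : ℚ) * th i b.1

/-- The lattice points of the span of the face. -/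
def EE {n r : ℕ} (a : Fin r → (Fin n →₀ ℕ)) (M : ℤ) (w : Fin n → ℕ) (σ : Finset (Fin r))
    (G : ℤ) (γ : TT w σ → Lat (n + 2)) : Set (Lat (n + 2)) :=
  {v | G • v = ∑ τ, dt (γ τ) v • A5 a M (XT w σ τ)}

/-- The region on the slice. -/
def RS {n r : ℕ} (a : Fin r → (Fin n →₀ ℕ)) (M : ℤ) (w : Fin n → ℕ) (σ : Finset (Fin r))
    (m0 : ℤ) (T : Fin r → ℤ) (m1 : ℤ) : Set (Lat (n + 2)) :=
  RG (A5 a M) m0 (yv a M w σ T m1) ∩ {u | dt (h5 a w) u = 0}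

/-- The family of functionals used on the slice: `ev_{j}` for `b` with the direction
`j = jb b`, the dual functional for the other `b`, `ev` for the coordinates `l2` and `q_j`,
`w_j = 0`. -/
def fam {n r : ℕ} (w : Fin n → ℕ) (σ : Finset (Fin r)) (γ : TT w σ → Lat (n + 2))
    (jb : Fin r → Option (Fin n)) : TT w σ → Lat (n + 2)
  | Sum.inl b => (jb b.1).elim (γ (Sum.inl b)) (fun j => ev j.succ.succ)
  | Sum.inr none => ev (Fin.succ 0)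
  | Sum.inr (some j) => ev j.1.succ.succ

/-- `jb b` is the direction of `P` at `b`. -/
def JB {n r : ℕ} (a : Fin r → (Fin n →₀ ℕ)) (σ : Finset (Fin r)) (P : Finset (Fin n))
    (jb : Fin r → Option (Fin n)) : Prop :=
  ∀ b ∈ σ, ∀ j, jb b = some j ↔ j ∈ P ∧ a b j ≠ 0

open Classical in
/-- The indices of the directions of `P`. -/
noncomputable def PP {n r s : ℕ} (w : Fin n → ℕ) (σ : Finset (Fin r)) (jb : Fin r → Option (Fin n))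
    (e : Fin s ≃ TT w σ) : Finset (Fin s) :=
  univ.filter (fun k => ∃ b : {b : Fin r // b ∈ σ}, e k = Sum.inl b ∧ jb b.1 ≠ none)

end Pool.Agent.H56.T5
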