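import Pool.Agent.H56.T5.COMB
import Pool.Agent.H56.T5.RDefs

/-!
# COMBZ: the integral data of the slice

Proof.  Apply `comb` with `β = {b // b ∈ σ}`, `ι' = {i // ∑ j, a i j * w j = wmin a w}`, `A b j = a b j`, `C0 = {j : w j ≠ 0 ∧ ∃ i, a i j = 0}`, `lam`, `θ i b = th i b`,
`aI i j = a i j` (`hlam`: `lamj` with `w j ≠ 0`; sums over `σ` and over the subtype: `Finset.sum_coe_sort` or `Finset.sum_attach`).
`hU`: let `b`, `j ∈ C0` be as in the hypothesis of `hU` of `comb`; then `ApexD a w σ b j`, and for every `j'` with `ApexD a w σ b j'`: if some `a i j' = 0`, then `j' ∈ C0`, so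
`j' = j`.  Otherwise all `a i j' ≥ 1`; then `σ = {b}` (`a b' j' = 0` for the other `b'`), `lam b * 1 = 1` (`lamj j'`, `w j' ≠ 0`) and
`lam b = wsum w / wmin a w` (`lams`), so `wsum w = wmin a w`, which contradicts `hs`.  So `UB a w σ` holds, contradiction with `hU`.
From `t, t', D, P` of `comb`: let `m1 > 0` be a common denominator of all `t b`, `t' b` (finitely many; e.g. the product of all denominators), `T b = 2 m1 t b`,
`T' b = 2 m1 t' b` as integers for `b ∈ σ` (`0` for `b ∉ σ`).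
-/

set_option autoImplicit false

namespace Pool.Agent.H56.T5

open Finset AddMonoidAlgebra
open Pool.Agent.H56.SMC Pool.Agent.H37.T5

theorem COMBZ_clear {β : Type} [Fintype β] (f : β → ℚ) :
    ∃ m : ℤ, 0 < m ∧ ∀ b, ∃ z : ℤ, (z : ℚ) = m * f b := by
  classical
  refine ⟨∏ b, ((f b).den : ℤ), Finset.prod_pos fun b _ => by exact_mod_cast (f b).den_pos, ?_⟩
  intro b
  obtain ⟨k, hk⟩ := Finset.dvd_prod_of_mem (fun b => ((f b).den : ℤ)) (Finset.mem_univ b)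
  refine ⟨k * (f b).num, ?_⟩
  rw [hk]
  push_cast
  have := Rat.mul_den_eq_num (f b)
  rw [← this]
  ring

theorem COMBZ_hU {n r : ℕ} (a : Fin r → (Fin n →₀ ℕ)) (w : Fin n → ℕ) (σ : Finset (Fin r))
    (lam : Fin r → ℚ) (mu : Fin n → ℚ) (th : Fin r → Fin r → ℚ) (hR : RD a w σ lam mu th)
    (hs : H22.wsum w ≠ H22.wmin a w) {b : Fin r} (hb : b ∈ σ) {j' : Fin n} (hw : w j' ≠ 0)
    (h1 : a b j' = 1) (h2 : ∀ b' ∈ σ, b' ≠ b → a b' j' = 0) : ∃ i, a i j' = 0 := by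
  by_contra hcon
  push Not at hcon
  have hall : ∀ b' ∈ σ, b' = b := by
    intro b' hb'
    by_contra hne
    exact hcon b' (h2 b' hb' hne)
  have hσ : σ = {b} := by
    ext x
    rw [Finset.mem_singleton]
    exact ⟨hall x, fun h => h ▸ hb⟩
  have e1 := hR.lamj j'
  rw [if_neg hw, add_zero, hσ, Finset.sum_singleton, h1] at e1
  have e2 := hR.lams
  rw [hσ, Finset.sum_singleton] at e2
  have hpos : (0 : ℚ) < (H22.wmin a w : ℚ) := by exact_mod_cast hR.pos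
  have e3 : (H22.wsum w : ℚ) / (H22.wmin a w : ℚ) = 1 := by
    rw [← e2]; simpa using e1
  rw [div_eq_one_iff_eq hpos.ne'] at e3
  exact hs (by exact_mod_cast e3)

/-- COMBZ -/
theorem combZ {n r : ℕ} (a : Fin r → (Fin n →₀ ℕ)) (w : Fin n → ℕ) (σ : Finset (Fin r))
    (lam : Fin r → ℚ) (mu : Fin n → ℚ) (th : Fin r → Fin r → ℚ) (hR : RD a w σ lam mu th)
    (hs : H22.wsum w ≠ H22.wmin a w) (hU : ¬ UB a w σ) :
    ∃ (m1 : ℤ) (D P : Finset (Fin n)) (T T' : Fin r → ℤ), 0 < m1 ∧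
      SZ a w σ lam th (2 * m1) D P T T' := by
  classical
  let β := {b : Fin r // b ∈ σ}
  let ι' := {i : Fin r // ∑ j, a i j * w j = H22.wmin a w}
  let C0 : Finset (Fin n) := univ.filter (fun j => w j ≠ 0 ∧ ∃ i, a i j = 0)
  have hsum : ∀ f : Fin r → ℚ, ∑ b : β, f b.1 = ∑ b ∈ σ, f b := fun f =>
    Finset.sum_coe_sort σ f
  obtain ⟨t, t', D, P, hPD, hDC, ht0, hC, hD, ht', hP, hno⟩ :=
    comb (β := β) (ι' := ι') (fun b j => a b.1 j) C0 (fun b => lam b.1)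
      (by
        intro j hj
        have hj' := (Finset.mem_filter.mp hj).2
        have h1 := hR.lamj j
        rw [if_neg hj'.1, add_zero] at h1
        rw [← h1]
        exact hsum fun b => lam b * (a b j : ℚ))
      (fun i b => th i.1 b.1) (fun i b => hR.th0 i.1 i.2 b.1 b.2)
      (fun i => by rw [← hR.th1 i.1 i.2]; exact hsum fun b => th i.1 b)
      (fun i j => a i.1 j)
      (fun i j => by
        rw [hR.tha i.1 i.2 j]
        exact (hsum fun b => th i.1 b * (a b j : ℚ)).symm)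
      (by
        rintro ⟨b, j, hj, ⟨h1, h2⟩, huniq⟩
        apply hU
        have hj' := (Finset.mem_filter.mp hj).2
        refine ⟨b.1, j, ⟨b.2, hj'.1, h1, fun b' hb' hne => h2 ⟨b', hb'⟩
          (fun h => hne (congrArg Subtype.val h))⟩, ?_⟩
        rintro j' ⟨-, hw', h1', h2'⟩
        have hex := COMBZ_hU a w σ lam mu th hR hs b.2 hw' h1' h2'
        refine huniq j' (Finset.mem_filter.mpr ⟨Finset.mem_univ _, hw', hex⟩) ⟨h1', ?_⟩
        intro b' hb'
        exact h2' b'.1 b'.2 (fun h => hb' (Subtype.ext h)))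
  obtain ⟨m1, hm1, hz⟩ := COMBZ_clear (Sum.elim t t')
  choose z hz using hz
  have hzt : ∀ b : β, ((z (Sum.inl b) : ℤ) : ℚ) = m1 * t b := fun b => hz (Sum.inl b)
  have hzt' : ∀ b : β, ((z (Sum.inr b) : ℤ) : ℚ) = m1 * t' b := fun b => hz (Sum.inr b)
  have hm1q : (0 : ℚ) < (m1 : ℚ) := by exact_mod_cast hm1
  let T : Fin r → ℤ := fun b => if h : b ∈ σ then 2 * z (Sum.inl ⟨b, h⟩) else 0
  let T' : Fin r → ℤ := fun b => if h : b ∈ σ then 2 * z (Sum.inr ⟨b, h⟩) else 0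
  have hT : ∀ b : β, ((T b.1 : ℤ) : ℚ) = 2 * m1 * t b := by
    intro b
    simp only [T]
    rw [dif_pos b.2]
    push_cast
    rw [hzt b]; ring
  have hT' : ∀ b : β, ((T' b.1 : ℤ) : ℚ) = 2 * m1 * t' b := by
    intro b
    simp only [T']
    rw [dif_pos b.2]
    push_cast
    rw [hzt' b]; ring
  refine ⟨m1, D, P, T, T', hm1, ?_⟩
  constructor
  · exact hPD
  · intro j hj
    exact (Finset.mem_filter.mp (hDC hj)).2.1
  · intro b hb
    have h1 : (0 : ℚ) ≤ ((T b : ℤ) : ℚ) := by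
      rw [hT ⟨b, hb⟩]
      have := ht0 ⟨b, hb⟩
      positivity
    exact_mod_cast h1
  · intro j hw hi
    have hj : j ∈ C0 := Finset.mem_filter.mpr ⟨Finset.mem_univ _, hw, hi⟩
    have h1 := hC j hj
    have h2 : ((∑ b ∈ σ, T b * (a b j : ℤ) : ℤ) : ℚ) =
        2 * m1 * ∑ b : β, t b * ((a b.1 j : ℕ) : ℚ) := by
      push_cast
      rw [← hsum fun b => (T b : ℚ) * (a b j : ℚ), Finset.mul_sum]
      refine Finset.sum_congr rfl fun b _ => ?_
      rw [hT b]; ring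
    have h3 : ((2 * m1 : ℤ) : ℚ) ≤ ((∑ b ∈ σ, T b * (a b j : ℤ) : ℤ) : ℚ) := by
      rw [h2]
      push_cast
      nlinarith
    exact_mod_cast h3
  · intro j hj
    obtain ⟨b, h1, h2, h3⟩ := hD j hj
    refine ⟨b.1, b.2, h1, fun b' hb' hne => h2 ⟨b', hb'⟩
      (fun h => hne (congrArg Subtype.val h)), ?_⟩
    have h4 : ((T b.1 * (a b.1 j : ℤ) : ℤ) : ℚ) = ((2 * m1 : ℤ) : ℚ) := by
      push_cast
      rw [hT b]
      calc 2 * (m1 : ℚ) * t b * (a b.1 j : ℚ) = 2 * m1 * (t b * (a b.1 j : ℚ)) := by ring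
        _ = 2 * m1 := by rw [h3, mul_one]
    exact_mod_cast h4
  · intro b hb
    rcases ht' ⟨b, hb⟩ with h | ⟨h, h'⟩
    · left
      have h1 : ((T' b : ℤ) : ℚ) = ((T b : ℤ) : ℚ) := by
        rw [hT' ⟨b, hb⟩, hT ⟨b, hb⟩, h]
      exact_mod_cast h1
    · right
      refine ⟨?_, h'⟩
      have h1 : ((T' b : ℤ) : ℚ) = 0 := by
        rw [hT' ⟨b, hb⟩, h, mul_zero]
      exact_mod_cast h1
  · intro j hj b hb hne
    obtain ⟨h1, h2⟩ := hP j hj ⟨b, hb⟩ hne
    refine ⟨?_, h2⟩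
    have h4 : ((T' b * (a b j : ℤ) : ℤ) : ℚ) = ((2 * m1 : ℤ) : ℚ) := by
      push_cast
      rw [hT' ⟨b, hb⟩]
      calc 2 * (m1 : ℚ) * t' ⟨b, hb⟩ * (a b j : ℚ) = 2 * m1 * (t' ⟨b, hb⟩ * (a b j : ℚ)) := by ring
        _ = 2 * m1 := by rw [h1, mul_one]
    exact_mod_cast h4
  · intro i hi hth
    refine hno ⟨i, hi⟩ fun b => ?_
    have h1 := hth b.1 b.2
    rw [hT' b] at h1
    push_cast at h1
    have h2 : (0 : ℚ) < 2 * m1 := by positivity
    have h3 : th i b.1 * (2 * (m1 : ℚ)) ≤ t' b * (2 * m1) := by linarith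
    exact le_of_mul_le_mul_right h3 h2

end Pool.Agent.H56.T5
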