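import Pool.Agent.H56.T5.YVL
import Pool.Agent.H56.T5.GKX

/-!
# RGE: the region on the slice in the coordinates of the face

Write `v = m0 • u + yv a M w σ T m1`.
Proof.  `ee_of_face`: let `InC (A5 a M) v` and `dt (h5 a w) v = 0`.  `facI` (`GKX.lean`): `N • v = ∑ k_i • A_i`, `N > 0`, `k_i : ℕ`.  `dt (h5 a w) (A_i) ≥ 0` (`appg_h0` with `noW`), so `k_i = 0` unless
`dt (h5 a w) (A_i) = 0`.  `hG.face` for these `i`: `G • (N • v) = ∑_i k_i • ∑_τ dt (γ τ) (A_i) • X_τ = ∑_τ dt (γ τ) (N • v) • X_τ = N • ∑_τ dt (γ τ) v • X_τ`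
(`X_τ = A5 a M (XT w σ τ)`); cancel `N`.  `0 ≤ dt (γ τ) v` in the same way.
`inC_of_ee`: for `g ≥ 0` on the exponents `G * dt g v = ∑_τ dt (γ τ) v * dt g X_τ ≥ 0`.
`rge`: (→) `v` satisfies the hypotheses of `ee_of_face` (`yv_h5`; `hon`); `yv ∈ EE` (`yv_gb`, `yv_g0`, `yv_gj` and the definition), so `m0 • u ∈ EE` and `u ∈ EE` (cancel `m0`);
`dt (γ τ) v = m0 * dt (γ τ) u + dt (γ τ) yv`, and `0 ≤ m0 * x` gives `0 ≤ x`.  (←) `v ∈ EE`, `dt (γ τ) v ≥ 0`: `inC_of_ee`; `dt (h5 a w) u = 0`: `G * dt (h5 a w) u = ∑_τ dt (γ τ) u * 0`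
(`hG.gen`).
`ee_dt`: if `g` vanishes at all generators, `dt g u = 0` for `u ∈ EE`.
-/

set_option autoImplicit false

namespace Pool.Agent.H56.T5

open Finset AddMonoidAlgebra
open Pool.Agent.H56.SMC Pool.Agent.H37.T5

/-- The values of a functional on the span of the face. -/
theorem ee_dt {n r : ℕ} (a : Fin r → (Fin n →₀ ℕ)) (M : ℤ) (w : Fin n → ℕ) (σ : Finset (Fin r))
    (G : ℤ) (γ : TT w σ → Lat (n + 2)) (v : Lat (n + 2)) (hv : v ∈ EE a M w σ G γ)
    (g : Lat (n + 2)) : G * dt g v = ∑ τ, dt (γ τ) v * dt g (A5 a M (XT w σ τ)) := by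
  have h1 : G • v = ∑ τ, dt (γ τ) v • A5 a M (XT w σ τ) := hv
  rw [← dt_zsmul, h1, dt_sum]
  exact sum_congr rfl fun τ _ => dt_zsmul _ _ _

theorem RGE_cancel {d : ℕ} {N : ℤ} (hN : N ≠ 0) {x y : Lat d} (h : N • x = N • y) : x = y := by
  funext j
  have h1 := congrFun h j
  simp only [Pi.smul_apply, smul_eq_mul] at h1
  exact mul_left_cancel₀ hN h1

theorem RGE_rpos {n r : ℕ} (a : Fin r → (Fin n →₀ ℕ)) (w : Fin n → ℕ)
    (hN : 0 < H22.wmin a w) : 0 < r := by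
  rcases Nat.eq_zero_or_pos r with h | h
  · subst h
    have h1 : H22.wmin a w = 0 := by
      unfold H22.wmin
      exact Nat.iInf_of_empty _
    omega
  · exact h

theorem ee_of_face {n r : ℕ} (a : Fin r → (Fin n →₀ ℕ)) (M : ℤ) (hM : 0 < M) (w : Fin n → ℕ)
    (hN : 0 < H22.wmin a w) (σ : Finset (Fin r))
    (lam : Fin r → ℚ) (th : Fin r → Fin r → ℚ) (G : ℤ) (γ : TT w σ → Lat (n + 2))
    (q : TT w σ → ℂ) (hG : GD a M w σ lam th G γ q) (v : Lat (n + 2)) (hv : InC (A5 a M) v)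
    (hv0 : dt (h5 a w) v = 0) : v ∈ EE a M w σ G γ ∧ ∀ τ, 0 ≤ dt (γ τ) v := by
  obtain ⟨N, hNpos, k, hk⟩ := facI (RGE_rpos a w hN) a M hM v hv
  have hh0 : ∀ i, 0 ≤ dt (h5 a w) (A5 a M i) := fun i =>
    appg_h0 a (noW n) M hM w (fun k => k.elim0) i
  have hN' : (0 : ℤ) < (N : ℤ) := by exact_mod_cast hNpos
  have hval : ∀ g : Lat (n + 2), (N : ℤ) * dt g v = ∑ i, (k i : ℤ) * dt g (A5 a M i) := by
    intro g
    rw [← dt_nsmul, hk, dt_sum]
    exact sum_congr rfl fun i _ => dt_nsmul _ _ _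
  have hz : ∀ i, (k i : ℤ) = 0 ∨ dt (h5 a w) (A5 a M i) = 0 := by
    have h1 := hval (h5 a w)
    rw [hv0, mul_zero] at h1
    have h2 := (sum_eq_zero_iff_of_nonneg (fun i _ =>
      mul_nonneg (Int.natCast_nonneg (k i)) (hh0 i))).1 h1.symm
    intro i
    exact mul_eq_zero.mp (h2 i (mem_univ i))
  refine ⟨?_, fun τ => ?_⟩
  · show G • v = ∑ τ, dt (γ τ) v • A5 a M (XT w σ τ)
    refine RGE_cancel (N := (N : ℤ)) hN'.ne' ?_
    have hk' : (N : ℤ) • v = ∑ i, (k i : ℤ) • A5 a M i := by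
      rw [natCast_zsmul, hk]
      exact sum_congr rfl fun i _ => (natCast_zsmul _ _).symm
    rw [smul_comm, hk', smul_sum, smul_sum]
    have h1 : ∀ i ∈ univ, G • (k i : ℤ) • A5 a M i
        = ∑ τ, ((k i : ℤ) * dt (γ τ) (A5 a M i)) • A5 a M (XT w σ τ) := by
      intro i _
      rcases hz i with h | h
      · rw [h, zero_smul, smul_zero]
        symm
        refine sum_eq_zero fun τ _ => ?_
        rw [zero_mul, zero_smul]
      · rw [smul_comm, (hG.face i h).2, smul_sum]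
        exact sum_congr rfl fun τ _ => smul_smul _ _ _
    rw [sum_congr rfl h1, sum_comm]
    refine sum_congr rfl fun τ _ => ?_
    rw [← sum_smul, smul_smul, hval]
  · have h1 : 0 ≤ (N : ℤ) * dt (γ τ) v := by
      rw [hval]
      refine sum_nonneg fun i _ => ?_
      rcases hz i with h | h
      · rw [h, zero_mul]
      · exact mul_nonneg (Int.natCast_nonneg _) ((hG.face i h).1 τ)
    exact nonneg_of_mul_nonneg_right h1 hN'

theorem inC_of_ee {n r : ℕ} (a : Fin r → (Fin n →₀ ℕ)) (M : ℤ) (w : Fin n → ℕ)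
    (σ : Finset (Fin r)) (G : ℤ) (hG0 : 0 < G) (γ : TT w σ → Lat (n + 2))
    (v : Lat (n + 2))
    (hv : v ∈ EE a M w σ G γ) (h0 : ∀ τ, 0 ≤ dt (γ τ) v) : InC (A5 a M) v := by
  intro g hg
  have h1 : 0 ≤ G * dt g v := by
    rw [ee_dt a M w σ G γ v hv g]
    exact sum_nonneg fun τ _ => mul_nonneg (h0 τ) (hg _)
  exact nonneg_of_mul_nonneg_right h1 hG0

theorem RGE_yv {n r : ℕ} (a : Fin r → (Fin n →₀ ℕ)) (M : ℤ) (w : Fin n → ℕ) (σ : Finset (Fin r))
    (lam : Fin r → ℚ) (th : Fin r → Fin r → ℚ) (G : ℤ) (γ : TT w σ → Lat (n + 2))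
    (q : TT w σ → ℂ) (hG : GD a M w σ lam th G γ q) (T : Fin r → ℤ) (m1 : ℤ) :
    G • yv a M w σ T m1 = ∑ τ, dt (γ τ) (yv a M w σ T m1) • A5 a M (XT w σ τ) := by
  rw [Fintype.sum_sum_type, Fintype.sum_option]
  rw [yv_g0 a M w σ lam th G γ q hG T m1, zero_smul, zero_add]
  simp only [yv_gb a M w σ lam th G γ q hG T m1, yv_gj a M w σ lam th G γ q hG T m1, XT]
  unfold yv
  rw [smul_add, smul_sum, smul_smul, smul_sum]
  congr 1
  · rw [← sum_coe_sort σ (fun b => G • T b • A5 a M (Sum.inl b))]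
    refine sum_congr rfl fun b _ => ?_
    rw [smul_smul]
  · rw [← sum_subtype (univ.filter (fun j : Fin n => w j = 0))
      (p := fun j => w j = 0) (fun j => by simp)
      (fun j => (G * m1) • A5 a M (Sum.inr (Sum.inl (some j))))]

/-- RGE -/
theorem rge {n r : ℕ} (a : Fin r → (Fin n →₀ ℕ)) (M : ℤ) (hM : 0 < M) (w : Fin n → ℕ)
    (hN : 0 < H22.wmin a w) (σ : Finset (Fin r))
    (hon : ∀ b ∈ σ, ∑ j, a b j * w j = H22.wmin a w)
    (lam : Fin r → ℚ) (th : Fin r → Fin r → ℚ) (G : ℤ) (γ : TT w σ → Lat (n + 2))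
    (q : TT w σ → ℂ) (hG : GD a M w σ lam th G γ q) (m0 : ℤ) (hm0 : 0 < m0) (T : Fin r → ℤ)
    (m1 : ℤ) (u : Lat (n + 2)) :
    u ∈ RS a M w σ m0 T m1 ↔ u ∈ EE a M w σ G γ ∧
      (∀ b : {b : Fin r // b ∈ σ}, 0 ≤ m0 * dt (γ (Sum.inl b)) u + G * T b.1) ∧
      0 ≤ dt (γ (Sum.inr none)) u ∧
      ∀ j : {j : Fin n // w j = 0}, 0 ≤ m0 * dt (γ (Sum.inr (some j))) u + G * m1 := by
  have hy := RGE_yv a M w σ lam th G γ q hG T m1
  have hγv : ∀ τ, dt (γ τ) (m0 • u + yv a M w σ T m1)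
      = m0 * dt (γ τ) u + dt (γ τ) (yv a M w σ T m1) := fun τ => by rw [dt_add, dt_zsmul]
  constructor
  · rintro ⟨h1, h2⟩
    have h2' : dt (h5 a w) u = 0 := h2
    have hv0 : dt (h5 a w) (m0 • u + yv a M w σ T m1) = 0 := by
      rw [dt_add, dt_zsmul, h2', yv_h5 a M w σ hon T m1]
      ring
    obtain ⟨h3, h4⟩ := ee_of_face a M hM w hN σ lam th G γ q hG _ h1 hv0
    refine ⟨?_, fun b => ?_, ?_, fun j => ?_⟩
    · show G • u = ∑ τ, dt (γ τ) u • A5 a M (XT w σ τ)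
      refine RGE_cancel hm0.ne' ?_
      have h5 : G • (m0 • u + yv a M w σ T m1)
          = ∑ τ, dt (γ τ) (m0 • u + yv a M w σ T m1) • A5 a M (XT w σ τ) := h3
      simp only [hγv, add_smul, sum_add_distrib] at h5
      rw [smul_add, hy] at h5
      have h6 := add_right_cancel h5
      rw [smul_comm, h6, smul_sum]
      exact sum_congr rfl fun τ _ => (smul_smul _ _ _).symm
    · have h5 := h4 (Sum.inl b)
      rwa [hγv, yv_gb a M w σ lam th G γ q hG T m1] at h5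
    · have h5 := h4 (Sum.inr none)
      rw [hγv, yv_g0 a M w σ lam th G γ q hG T m1, add_zero] at h5
      exact nonneg_of_mul_nonneg_right h5 hm0
    · have h5 := h4 (Sum.inr (some j))
      rwa [hγv, yv_gj a M w σ lam th G γ q hG T m1] at h5
  · rintro ⟨h1, h2, h3, h4⟩
    have h1' : G • u = ∑ τ, dt (γ τ) u • A5 a M (XT w σ τ) := h1
    refine ⟨?_, ?_⟩
    · refine inC_of_ee a M w σ G hG.G0 γ _ ?_ ?_
      · show G • (m0 • u + yv a M w σ T m1)
          = ∑ τ, dt (γ τ) (m0 • u + yv a M w σ T m1) • A5 a M (XT w σ τ)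
        simp only [hγv, add_smul, sum_add_distrib]
        rw [smul_add, hy]
        congr 1
        rw [smul_comm, h1', smul_sum]
        exact sum_congr rfl fun τ _ => smul_smul _ _ _
      · rintro (b | (_ | j))
        · rw [hγv, yv_gb a M w σ lam th G γ q hG T m1]
          exact h2 b
        · rw [hγv, yv_g0 a M w σ lam th G γ q hG T m1, add_zero]
          exact mul_nonneg hm0.le h3
        · rw [hγv, yv_gj a M w σ lam th G γ q hG T m1]
          exact h4 j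
    · show dt (h5 a w) u = 0
      have h5 := ee_dt a M w σ G γ u h1 (h5 a w)
      simp only [hG.gen, mul_zero, sum_const_zero] at h5
      rcases mul_eq_zero.mp h5 with h6 | h6
      · exact absurd h6 hG.G0.ne'
      · exact h6

/-- The region is closed under adding exponents of the face. -/
theorem rs_add {n r : ℕ} (a : Fin r → (Fin n →₀ ℕ)) (M : ℤ) (w : Fin n → ℕ) (σ : Finset (Fin r))
    (m0 : ℤ) (hm0 : 0 < m0) (T : Fin r → ℤ) (m1 : ℤ) (u : Lat (n + 2))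
    (hu : u ∈ RS a M w σ m0 T m1) (i : Fin r ⊕ (Option (Fin n) ⊕ Fin 0))
    (hi : dt (h5 a w) (A5 a M i) = 0) : u + A5 a M i ∈ RS a M w σ m0 T m1 := by
  obtain ⟨h1, h2⟩ := hu
  have h2' : dt (h5 a w) u = 0 := h2
  refine ⟨?_, ?_⟩
  · intro g hg
    have h3 := h1 g hg
    have e : m0 • (u + A5 a M i) + yv a M w σ T m1
        = (m0 • u + yv a M w σ T m1) + m0 • A5 a M i := by
      rw [smul_add]
      abel
    rw [e, dt_add, dt_zsmul]
    exact add_nonneg h3 (mul_nonneg hm0.le (hg i))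
  · show dt (h5 a w) (u + A5 a M i) = 0
    rw [dt_add, h2', hi, add_zero]

end Pool.Agent.H56.T5
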