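import Pool.Agent.H56.T5.FAMV
import Pool.Agent.H56.T5.RGE

/-!
# FAMC: change of the family of functionals on the slice

Write `A = A5 a M`, `X τ = A (XT w σ τ)`, `p = pp s0 I`, `c' = cF A c (h5 a w)`, `S' = RS a M w σ m0 T' m1`, `fam = fam w σ γ jb`, `ℓ' k = fam (e k)`, `P' = PP w σ jb e`.
Proof.  (1) If a functional `g` vanishes at all generators `X τ`, then `Dop p A c' g z = 0` for all `z` supported in `S'`: `Dop_coeff`; `pv p g = 0` (`hG.par`), `dt g u = 0` for `u ∈ S'`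
(`rge`: `u ∈ EE`, `ee_dt`, `hG.G0`), and `dt g (A i) = 0` if `c' i ≠ 0` (`hG.face`: `G • A i = ∑ …`).
(2) For `i : Fin (n+2)` there are `N_i ≠ 0` and `k_i : TT w σ → ℤ` with `g = N_i • ev i - ∑ τ, k_i τ • fam τ` vanishing at all generators (`fam_span`); if `i = j.succ.succ` with `j ∈ P`, take `N_i = 1` and `k_i` the unit
vector at `inl b`, `b` the vertex with `a b j ≠ 0` (`hZ.TD`; `jb b = some j`, so `fam (inl b) = ev i`).  By (1) and linearity (`Dop_left`, or `Dop_fam`; or compare coefficients with `Dop_coeff`):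
`Dop p A c' (ev i) z = ∑ τ, ((k_i τ : ℂ) / N_i) • Dop p A c' (fam τ) z` for `z` supported in `S'`.
(3) Given `x = ∑ i, Dop (ev i) (z i)`, put `z' k = ∑ i, ((k_i (e k) : ℂ) / N_i) • z i`; then `x = ∑ k, Dop (ℓ' k) (z' k)` (sum over `k` via `e`).
(4) Supports: `z' k` is supported in `S' ∩ LL ℓ' P' {k}`.  `i` not in `sh P`: for `u` in the support of `z i` all `j ∈ P` have `0 ≤ u j.succ.succ`; for `k' ∈ P'`: `e k' = inl b'`, `jb b' = some j'`,
`ℓ' k' = ev j'.succ.succ`, `j' ∈ P` (`hjb`), so `0 ≤ dt (ℓ' k') u`.  `i = j.succ.succ`, `j ∈ P`: only `k` with `e k = inl b` has a nonzero coefficient; for `k' ∈ P'`, `k' ≠ k`: `b' ≠ b`, so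
`j' ≠ j` (`j` has only one vertex), `0 ≤ u j'.succ.succ`; for `k' = k`: `-1 ≤ u j.succ.succ`.
-/

set_option autoImplicit false

namespace Pool.Agent.H56.T5

open Finset AddMonoidAlgebra
open Pool.Agent.H56.SMC Pool.Agent.H37.T5

theorem FAMC_dt_zero {n r : ℕ} (a : Fin r → (Fin n →₀ ℕ)) (M : ℤ) (w : Fin n → ℕ)
    (σ : Finset (Fin r)) (G : ℤ) (hG0 : 0 < G) (γ : TT w σ → Lat (n + 2)) (v : Lat (n + 2))
    (hv : v ∈ EE a M w σ G γ) (g : Lat (n + 2)) (hg : ∀ τ, dt g (A5 a M (XT w σ τ)) = 0) :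
    dt g v = 0 := by
  have h1 := ee_dt a M w σ G γ v hv g
  have h2 : ∑ τ, dt (γ τ) v * dt g (A5 a M (XT w σ τ)) = 0 :=
    sum_eq_zero fun τ _ => by rw [hg τ, mul_zero]
  rw [h2] at h1
  exact (mul_eq_zero.1 h1).resolve_left hG0.ne'

theorem FAMC_Dop_zero {n r : ℕ} (a : Fin r → (Fin n →₀ ℕ)) (M : ℤ) (hM : 0 < M) (w : Fin n → ℕ)
    (hN : 0 < H22.wmin a w) (σ : Finset (Fin r))
    (hon : ∀ b ∈ σ, ∑ j, a b j * w j = H22.wmin a w)
    (lam : Fin r → ℚ) (th : Fin r → Fin r → ℚ) (G : ℤ) (γ : TT w σ → Lat (n + 2))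
    (q : TT w σ → ℂ) (hG : GD a M w σ lam th G γ q) (m0 : ℤ) (hm0 : 0 < m0)
    (T' : Fin r → ℤ) (m1 : ℤ) (c : Fin r ⊕ (Option (Fin n) ⊕ Fin 0) → ℂ)
    (z : LP ℂ (n + 2)) (hz : Supp (RS a M w σ m0 T' m1) z) (g : Lat (n + 2))
    (hg : ∀ τ, dt g (A5 a M (XT w σ τ)) = 0) :
    Dop (pp (-(H22.wsum w : ℂ) / (H22.wmin a w : ℂ)) Complex.I) (A5 a M)
      (cF (A5 a M) c (h5 a w)) g z = 0 := by
  apply lp_ext
  intro u
  rw [Dop_coeff, coeff_zero']
  have h1 : pv (pp (-(H22.wsum w : ℂ) / (H22.wmin a w : ℂ)) Complex.I) g = 0 := by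
    rw [hG.par]
    exact sum_eq_zero fun τ _ => by rw [hg τ, Int.cast_zero, mul_zero]
  have h2 : (dt g u : ℂ) * z.coeff u = 0 := by
    by_cases hu : z.coeff u = 0
    · rw [hu, mul_zero]
    · have h3 := ((rge a M hM w hN σ hon lam th G γ q hG m0 hm0 T' m1 u).1 (hz u hu)).1
      rw [FAMC_dt_zero a M w σ G hG.G0 γ u h3 g hg, Int.cast_zero, zero_mul]
  have h4 : ∑ i, cF (A5 a M) c (h5 a w) i * (dt g (A5 a M i) : ℂ) * z.coeff (u - A5 a M i) = 0 := by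
    refine sum_eq_zero fun i _ => ?_
    by_cases hi : dt (h5 a w) (A5 a M i) = 0
    · have h5' := (hG.face i hi).2
      rw [FAMC_dt_zero a M w σ G hG.G0 γ (A5 a M i) h5' g hg, Int.cast_zero, mul_zero, zero_mul]
    · have : cF (A5 a M) c (h5 a w) i = 0 := if_neg hi
      rw [this, zero_mul, zero_mul]
  rw [h1, zero_add, h2, h4, sub_zero]

theorem FAMC_Dop_comb {d : ℕ} {ι κ : Type} [Fintype ι] [Fintype κ] (p : Fin d → ℂ)
    (A : ι → Lat d) (c : ι → ℂ) (N : ℤ) (g : Lat d) (k : κ → ℤ) (f : κ → Lat d) (z : LP ℂ d) :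
    Dop p A c (N • g - ∑ τ, k τ • f τ) z =
      (N : ℂ) • Dop p A c g z - ∑ τ, (k τ : ℂ) • Dop p A c (f τ) z := by
  rw [Dop_left p A c (N • g - ∑ τ, k τ • f τ) z, Dop_left p A c g z]
  have e : ∀ τ, Dop p A c (f τ) z = ∑ j, ((f τ j : ℤ) : ℂ) • Dop p A c (ev j) z := fun τ =>
    Dop_left p A c (f τ) z
  simp_rw [e]
  rw [Finset.smul_sum]
  simp_rw [Finset.smul_sum]
  rw [Finset.sum_comm, ← Finset.sum_sub_distrib]
  refine sum_congr rfl fun j _ => ?_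
  rw [smul_smul]
  simp_rw [smul_smul]
  rw [← Finset.sum_smul, ← sub_smul]
  congr 1
  rw [Pi.sub_apply, Finset.sum_apply]
  simp only [Pi.smul_apply, smul_eq_mul]
  push_cast
  ring

theorem FAMC_dt_comb {d : ℕ} {κ : Type} [Fintype κ] (N : ℤ) (g : Lat d) (k : κ → ℤ)
    (f : κ → Lat d) (u : Lat d) : dt (N • g - ∑ τ, k τ • f τ) u =
      N * dt g u - ∑ τ, k τ * dt (f τ) u := by
  rw [dt_comm, dt_sub, dt_zsmul, dt_sum, dt_comm u g]
  congr 1
  refine sum_congr rfl fun τ _ => ?_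
  rw [dt_zsmul, dt_comm]

/-- FAMC -/
theorem famC {n r s : ℕ} (a : Fin r → (Fin n →₀ ℕ)) (M : ℤ) (hM : 0 < M) (w : Fin n → ℕ)
    (hN : 0 < H22.wmin a w) (σ : Finset (Fin r))
    (hon : ∀ b ∈ σ, ∑ j, a b j * w j = H22.wmin a w)
    (lam : Fin r → ℚ) (th : Fin r → Fin r → ℚ) (G : ℤ) (γ : TT w σ → Lat (n + 2))
    (q : TT w σ → ℂ) (hG : GD a M w σ lam th G γ q) (m0 : ℤ) (hm0 : 0 < m0)
    (D P : Finset (Fin n)) (T T' : Fin r → ℤ) (m1 : ℤ) (hZ : SZ a w σ lam th m0 D P T T')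
    (jb : Fin r → Option (Fin n)) (hjb : JB a σ P jb) (e : Fin s ≃ TT w σ)
    (c : Fin r ⊕ (Option (Fin n) ⊕ Fin 0) → ℂ) (x : LP ℂ (n + 2))
    (hex : ExL (pp (-(H22.wsum w : ℂ) / (H22.wmin a w : ℂ)) Complex.I) (A5 a M)
      (cF (A5 a M) c (h5 a w)) ev (sh P) (RS a M w σ m0 T' m1) x) :
    ExL (pp (-(H22.wsum w : ℂ) / (H22.wmin a w : ℂ)) Complex.I) (A5 a M)
      (cF (A5 a M) c (h5 a w)) (fun k => fam w σ γ jb (e k)) (PP w σ jb e)
      (RS a M w σ m0 T' m1) x := by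
  classical
  obtain ⟨z, hz, hx⟩ := hex
  have hK : ∀ i : Fin (n + 2), ∃ (N : ℤ) (k : TT w σ → ℤ), N ≠ 0 ∧
      (∀ τ', N * dt (ev i) (A5 a M (XT w σ τ')) =
        ∑ τ, k τ * dt (fam w σ γ jb τ) (A5 a M (XT w σ τ'))) ∧
      (∀ j ∈ P, i = j.succ.succ → ∀ τ, k τ ≠ 0 → ∃ b : {b : Fin r // b ∈ σ},
        τ = Sum.inl b ∧ jb b.1 = some j) := by
    intro i
    by_cases hi : ∃ j ∈ P, i = j.succ.succ
    · obtain ⟨j, hj, rfl⟩ := hi
      obtain ⟨b, hb, hab, -⟩ := hZ.TD j (hZ.PD hj)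
      have hjb' : jb b = some j := (hjb b hb j).2 ⟨hj, hab⟩
      have hfam : fam w σ γ jb (Sum.inl ⟨b, hb⟩) = ev j.succ.succ := by
        simp only [fam, hjb', Option.elim_some]
      refine ⟨1, Pi.single (Sum.inl ⟨b, hb⟩) 1, one_ne_zero, ?_, ?_⟩
      · intro τ'
        rw [Finset.sum_eq_single (Sum.inl ⟨b, hb⟩)]
        · rw [Pi.single_eq_same, hfam]
        · intro τ _ hτ
          rw [Pi.single_eq_of_ne hτ, zero_mul]
        · intro h
          exact absurd (mem_univ _) h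
      · intro j' _ hjj' τ hτ
        have hτ' : τ = Sum.inl ⟨b, hb⟩ := by
          by_contra h
          exact hτ (Pi.single_eq_of_ne h _)
        have e1 : j = j' := Fin.succ_injective _ (Fin.succ_injective _ hjj')
        subst e1
        exact ⟨⟨b, hb⟩, hτ', hjb'⟩
    · obtain ⟨N, k, hN0, hk⟩ := fam_span a M hM w σ lam th G γ q hG m0 D P T T' hZ jb hjb (ev i)
      exact ⟨N, k, hN0, hk, fun j hj hij => absurd ⟨j, hj, hij⟩ hi⟩
  choose N k hN0 hk hkP using hK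
  have hrel : ∀ i, (N i : ℂ) • Dop (pp (-(H22.wsum w : ℂ) / (H22.wmin a w : ℂ)) Complex.I)
      (A5 a M) (cF (A5 a M) c (h5 a w)) (ev i) (z i) =
      ∑ τ, (k i τ : ℂ) • Dop (pp (-(H22.wsum w : ℂ) / (H22.wmin a w : ℂ)) Complex.I)
      (A5 a M) (cF (A5 a M) c (h5 a w)) (fam w σ γ jb τ) (z i) := by
    intro i
    have h1 := FAMC_Dop_comb (pp (-(H22.wsum w : ℂ) / (H22.wmin a w : ℂ)) Complex.I) (A5 a M)
      (cF (A5 a M) c (h5 a w)) (N i) (ev i) (k i) (fam w σ γ jb) (z i)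
    have h2 := FAMC_Dop_zero a M hM w hN σ hon lam th G γ q hG m0 hm0 T' m1 c (z i)
      ((hz i).mono Set.inter_subset_left) (N i • ev i - ∑ τ, k i τ • fam w σ γ jb τ) (by
        intro τ'
        rw [FAMC_dt_comb, hk i τ', sub_self])
    rw [h2] at h1
    exact (sub_eq_zero.1 h1.symm)
  refine ⟨fun t => ∑ i, ((k i (e t) : ℂ) / (N i : ℂ)) • z i, ?_, ?_⟩
  · intro t
    refine Supp.sum _ fun i _ => ?_
    by_cases h0 : k i (e t) = 0
    · rw [h0, Int.cast_zero, zero_div, zero_smul]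
      exact Supp.zero _
    · refine Supp.smul _ ((hz i).mono ?_)
      rintro u ⟨hu1, hu2⟩
      refine ⟨hu1, ?_⟩
      intro t' ht'
      have ht'' : ∃ b : {b : Fin r // b ∈ σ}, e t' = Sum.inl b ∧ jb b.1 ≠ none := by
        have := ht'
        unfold PP at this
        exact (mem_filter.1 this).2
      obtain ⟨b', hb', hne⟩ := ht''
      obtain ⟨j', hj'⟩ := Option.ne_none_iff_exists'.1 hne
      obtain ⟨hj'P, hab'⟩ := (hjb b'.1 b'.2 j').1 hj'
      have hfam : fam w σ γ jb (e t') = ev j'.succ.succ := by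
        rw [hb']
        simp only [fam, hj', Option.elim_some]
      have hmem : j'.succ.succ ∈ sh P := mem_sh.2 ⟨j', hj'P, rfl⟩
      have h3 := hu2 _ hmem
      simp only [hfam]
      refine ⟨h3.1, fun hne' => h3.2 fun hi => hne' ?_⟩
      rw [Finset.mem_singleton] at hi ⊢
      obtain ⟨b, hb, hjbb⟩ := hkP i j' hj'P hi.symm (e t) h0
      obtain ⟨-, hab⟩ := (hjb b.1 b.2 j').1 hjbb
      obtain ⟨b0, hb0, -, huniq, -⟩ := hZ.TD j' (hZ.PD hj'P)
      have e1 : b.1 = b0 := by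
        by_contra h
        exact hab (huniq b.1 b.2 h)
      have e2 : b'.1 = b0 := by
        by_contra h
        exact hab' (huniq b'.1 b'.2 h)
      have e3 : b' = b := Subtype.ext (e2.trans e1.symm)
      apply e.injective
      rw [hb', hb, e3]
  · rw [hx]
    have e1 : ∀ i, Dop (pp (-(H22.wsum w : ℂ) / (H22.wmin a w : ℂ)) Complex.I)
        (A5 a M) (cF (A5 a M) c (h5 a w)) (ev i) (z i) =
        ∑ t, ((k i (e t) : ℂ) / (N i : ℂ)) •
          Dop (pp (-(H22.wsum w : ℂ) / (H22.wmin a w : ℂ)) Complex.I)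
          (A5 a M) (cF (A5 a M) c (h5 a w)) (fam w σ γ jb (e t)) (z i) := by
      intro i
      have hNi : (N i : ℂ) ≠ 0 := by exact_mod_cast hN0 i
      rw [Equiv.sum_comp e (fun τ => ((k i τ : ℂ) / (N i : ℂ)) •
          Dop (pp (-(H22.wsum w : ℂ) / (H22.wmin a w : ℂ)) Complex.I)
          (A5 a M) (cF (A5 a M) c (h5 a w)) (fam w σ γ jb τ) (z i))]
      have h1 := congrArg (fun y => ((N i : ℂ)⁻¹) • y) (hrel i)
      simp only [smul_smul, inv_mul_cancel₀ hNi, one_smul, Finset.smul_sum] at h1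
      rw [h1]
      refine sum_congr rfl fun τ _ => ?_
      rw [div_eq_inv_mul (k i τ : ℂ) (N i : ℂ)]
    rw [sum_congr rfl fun i _ => e1 i, Finset.sum_comm]
    refine sum_congr rfl fun t _ => ?_
    rw [Dop_sum]
    refine sum_congr rfl fun i _ => ?_
    rw [Dop_smul]

end Pool.Agent.H56.T5
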