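import Pool.Agent.H56.T5.RDefs
import Pool.Agent.H56.SMC.SIMX

/-!
# GDX: the dual functionals of the generators

Proof.  (1) The vectors `A5 a M (XT w σ τ)`, `τ : TT w σ`, i.e. `(1,0;a_b)`, `(0,1;0)`, `(0,1;M e_j)` (`w_j = 0`), are linearly independent over `ℤ`: in a relation with coefficients
`n_b, n_0, n_j` all coordinates except the second give a relation between `(1,0;a_b)` and `(0,0;e_j)` with coefficients `n_b`, `M n_j`, so `n_b = 0`, `n_j = 0` (`hR.ind`); then
`n_0 = 0`.  `dual_exists` gives `G > 0` and `γ` with `dual`.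
(2) `gen`: `dt (h5 a w)` of `(1,0;a_b)` is `-N + ∑ w_j a_bj = 0` (`hR.on`), of `(0,1;0)` is `0`, of `(0,1;M e_j)` is `M w_j = 0`.
(3) `face`: an exponent with `dt (h5 a w) = 0` is `(1,0;a_i)` with `∑ a_ij w_j = N`, or `(0,1;0)`, or `(0,1;M e_j)` with `w_j = 0`.  The last two are generators: `dual`.  For the first
`dt g (1,0;a_i) = ∑ b ∈ σ, th i b * dt g (1,0;a_b)` over `ℚ` for all `g` (`th1`, `tha`), so `dt (γ (inl b)) (1,0;a_i) = G * th i b ≥ 0` (this is `thb`), `dt (γ (inr _)) (1,0;a_i) = 0`, and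
the formula for `G • A5 a M i` (compare coordinates over `ℚ`).
(4) `q (inl b) = lam b`, `q (inr none) = -I - ∑_{w_j=0} mu_j / M`, `q (inr (some j)) = mu_j / M`.  With `g = vec l l2 v`: `pv (pp s0 I) g = -(l s0) - l2 I + ∑ v_j` (`pv_pp`,
`vec_surj`), and `∑ q τ * dt g (…) = ∑_b lam b (l + ∑_j v_j a_bj) + ∑_{w_j=0} (mu_j/M) (l2 + M v_j) + (-I - ∑ mu_j/M) l2
= l * (∑_b lam b) + ∑_j v_j (∑_b lam b a_bj + [w_j=0] mu_j) - I l2 = l * (wsum w / wmin a w) + ∑ v_j - I l2`.
-/

set_option autoImplicit false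

namespace Pool.Agent.H56.T5

open Finset AddMonoidAlgebra
open Pool.Agent.H56.SMC Pool.Agent.H37.T5

private theorem GDX_vec0 {n : ℕ} (l l2 : ℤ) (q : Fin n → ℤ) : vec l l2 q 0 = l := rfl
private theorem GDX_vec1 {n : ℕ} (l l2 : ℤ) (q : Fin n → ℤ) : vec l l2 q (Fin.succ 0) = l2 := rfl
private theorem GDX_vec2 {n : ℕ} (l l2 : ℤ) (q : Fin n → ℤ) (j : Fin n) :
    vec l l2 q j.succ.succ = q j := rfl

private theorem GDX_dt1 {n r : ℕ} (a : Fin r → (Fin n →₀ ℕ)) (M : ℤ) (g : Lat (n + 2)) (i : Fin r) :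
    dt g (A5 a M (Sum.inl i)) = g 0 + ∑ j, g j.succ.succ * (a i j : ℤ) := by
  rw [A5_inl]
  conv_lhs => rw [vec_surj g]
  rw [dt_vec]
  ring

private theorem GDX_dt2 {n r : ℕ} (a : Fin r → (Fin n →₀ ℕ)) (M : ℤ) (g : Lat (n + 2)) :
    dt g (A5 a M (Sum.inr (Sum.inl none))) = g (Fin.succ 0) := by
  rw [A5_none]
  conv_lhs => rw [vec_surj g]
  rw [dt_vec]
  simp

private theorem GDX_dt3 {n r : ℕ} (a : Fin r → (Fin n →₀ ℕ)) (M : ℤ) (g : Lat (n + 2)) (j : Fin n) :
    dt g (A5 a M (Sum.inr (Sum.inl (some j)))) = g (Fin.succ 0) + M * g j.succ.succ := by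
  rw [A5_some]
  conv_lhs => rw [vec_surj g]
  rw [dt_vec]
  simp [ev, Pi.single_apply]
  ring

private theorem GDX_indep {n r : ℕ} (a : Fin r → (Fin n →₀ ℕ)) (M : ℤ) (hM : 0 < M) (w : Fin n → ℕ)
    (σ : Finset (Fin r))
    (hi : LinearIndependent ℤ (Sum.elim
    (fun b : {b : Fin r // b ∈ σ} => (vec 1 0 (fun j => (a b.1 j : ℤ)) : Lat (n + 2)))
    (fun j : {j : Fin n // w j = 0} => (vec 0 0 (ev j.1) : Lat (n + 2))))) :
    LinearIndependent ℤ (fun τ : TT w σ => A5 a M (XT w σ τ)) := by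
  rw [Fintype.linearIndependent_iff] at hi ⊢
  intro m hm
  rw [Fintype.sum_sum_type, Fintype.sum_option] at hm
  have c0 := congrFun hm 0
  have c1 := congrFun hm (Fin.succ 0)
  have c2 : ∀ j : Fin n, _ := fun j => congrFun hm j.succ.succ
  simp only [XT, A5_inl, A5_none, A5_some, Pi.add_apply, Finset.sum_apply, Pi.smul_apply, GDX_vec0,
    smul_eq_mul, mul_one, mul_zero, add_zero, Finset.sum_const_zero, Pi.zero_apply] at c0
  simp only [XT, A5_inl, A5_none, A5_some, Pi.add_apply, Finset.sum_apply, Pi.smul_apply, GDX_vec1,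
    smul_eq_mul, mul_one, mul_zero, zero_add, Finset.sum_const_zero, Pi.zero_apply] at c1
  simp only [XT, A5_inl, A5_none, A5_some, Pi.add_apply, Finset.sum_apply, Pi.smul_apply, GDX_vec2,
    smul_eq_mul, mul_zero, zero_add, Pi.zero_apply] at c2
  have h1 := hi (Sum.elim (fun b => m (Sum.inl b)) (fun j => M * m (Sum.inr (some j)))) (by
    rw [Fintype.sum_sum_type]
    funext i
    refine Fin.cases ?_ (fun i => Fin.cases ?_ (fun i => ?_) i) i
    · simp only [Sum.elim_inl, Sum.elim_inr, Pi.add_apply, Finset.sum_apply, Pi.smul_apply, GDX_vec0,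
        smul_eq_mul, mul_one, mul_zero, add_zero, Finset.sum_const_zero, Pi.zero_apply]
      exact c0
    · simp only [Sum.elim_inl, Sum.elim_inr, Pi.add_apply, Finset.sum_apply, Pi.smul_apply, GDX_vec1,
        smul_eq_mul, mul_zero, add_zero, Finset.sum_const_zero, Pi.zero_apply]
    · simp only [Sum.elim_inl, Sum.elim_inr, Pi.add_apply, Finset.sum_apply, Pi.smul_apply, GDX_vec2,
        smul_eq_mul, Pi.zero_apply]
      rw [← c2 i]
      congr 1
      refine Finset.sum_congr rfl fun j _ => ?_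
      ring)
  have hb : ∀ b, m (Sum.inl b) = 0 := fun b => h1 (Sum.inl b)
  have hj : ∀ j, m (Sum.inr (some j)) = 0 := fun j => by
    have h2 : M * m (Sum.inr (some j)) = 0 := h1 (Sum.inr j)
    exact (mul_eq_zero.1 h2).resolve_left hM.ne'
  have h0 : m (Sum.inr none) = 0 := by
    have h2 : ∑ x : {j : Fin n // w j = 0}, m (Sum.inr (some x)) = 0 :=
      Finset.sum_eq_zero fun j _ => hj j
    rw [h2, add_zero] at c1
    exact c1
  rintro (b | _ | j)
  · exact hb b
  · exact h0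
  · exact hj j

/-- GDX -/
theorem gdX {n r : ℕ} (a : Fin r → (Fin n →₀ ℕ)) (M : ℤ) (hM : 0 < M) (w : Fin n → ℕ)
    (σ : Finset (Fin r)) (lam : Fin r → ℚ) (mu : Fin n → ℚ) (th : Fin r → Fin r → ℚ)
    (hR : RD a w σ lam mu th) :
    ∃ (G : ℤ) (γ : TT w σ → Lat (n + 2)) (q : TT w σ → ℂ), GD a M w σ lam th G γ q := by
  classical
  obtain ⟨D, hD, hdual⟩ := SIMXaux.dual_exists _ (GDX_indep a M hM w σ hR.ind)
  choose G hG using hdual
  set γ : TT w σ → Lat (n + 2) := fun τ => G (Pi.single τ 1) with hγ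
  have dual : ∀ τ τ', dt (γ τ) (A5 a M (XT w σ τ')) = if τ = τ' then D else 0 := by
    intro τ τ'
    have h1 := hG (Pi.single τ 1) τ'
    rw [hγ]
    simp only
    rw [h1, Pi.single_apply]
    by_cases h : τ = τ'
    · simp [h]
    · have h' : ¬ (τ' = τ) := fun e => h e.symm
      simp [h, h']
  have gen : ∀ τ, dt (h5 a w) (A5 a M (XT w σ τ)) = 0 := by
    rintro (b | _ | j)
    · show dt (h5 a w) (A5 a M (Sum.inl b.1)) = 0
      rw [GDX_dt1]
      have h1 := hR.on b.1 b.2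
      have h2 : ∑ j, (h5 a w) j.succ.succ * (a b.1 j : ℤ) = (H22.wmin a w : ℤ) := by
        rw [← h1]
        push_cast
        refine Finset.sum_congr rfl fun j _ => ?_
        show (w j : ℤ) * _ = _
        ring
      rw [h2]
      show -(H22.wmin a w : ℤ) + _ = 0
      ring
    · show dt (h5 a w) (A5 a M (Sum.inr (Sum.inl none))) = 0
      rw [GDX_dt2]
      rfl
    · show dt (h5 a w) (A5 a M (Sum.inr (Sum.inl (some j.1)))) = 0
      rw [GDX_dt3]
      show (0 : ℤ) + M * (w j.1 : ℤ) = 0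
      rw [j.2]
      simp
  -- the exponents on the face
  have hth : ∀ i, ∑ j, a i j * w j = H22.wmin a w → ∀ g : Lat (n + 2),
      (dt g (A5 a M (Sum.inl i)) : ℚ) = ∑ b ∈ σ, th i b * (dt g (A5 a M (Sum.inl b)) : ℚ) := by
    intro i hi g
    simp only [GDX_dt1]
    push_cast
    have h1 : ∀ j, (g j.succ.succ : ℚ) * (a i j : ℚ) = ∑ b ∈ σ, th i b * ((g j.succ.succ : ℚ) * (a b j : ℚ)) := by
      intro j
      rw [hR.tha i hi j, Finset.mul_sum]
      refine Finset.sum_congr rfl fun b _ => ?_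
      ring
    have h2 : (g 0 : ℚ) = ∑ b ∈ σ, th i b * (g 0 : ℚ) := by
      rw [← Finset.sum_mul, hR.th1 i hi, one_mul]
    rw [Finset.sum_congr rfl (fun j _ => h1 j), Finset.sum_comm]
    conv_lhs => rw [h2]
    rw [← Finset.sum_add_distrib]
    refine Finset.sum_congr rfl fun b _ => ?_
    rw [← Finset.mul_sum]
    ring
  have thb : ∀ i, ∑ j, a i j * w j = H22.wmin a w → ∀ b : {b : Fin r // b ∈ σ},
      (dt (γ (Sum.inl b)) (A5 a M (Sum.inl i)) : ℚ) = (D : ℚ) * th i b.1 := by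
    intro i hi b
    rw [hth i hi]
    rw [Finset.sum_eq_single b.1]
    · have h1 := dual (Sum.inl b) (Sum.inl b)
      rw [if_pos rfl] at h1
      have h2 : dt (γ (Sum.inl b)) (A5 a M (Sum.inl b.1)) = D := h1
      rw [h2]
      ring
    · intro b' hb' hne
      have h1 := dual (Sum.inl b) (Sum.inl ⟨b', hb'⟩)
      rw [if_neg (fun h => hne (by
        have := Sum.inl.inj h
        exact (congrArg Subtype.val this).symm))] at h1
      have h2 : dt (γ (Sum.inl b)) (A5 a M (Sum.inl b')) = 0 := h1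
      rw [h2]
      simp
    · intro h
      exact absurd b.2 h
  have thn : ∀ i, ∑ j, a i j * w j = H22.wmin a w → ∀ o,
      dt (γ (Sum.inr o)) (A5 a M (Sum.inl i)) = 0 := by
    intro i hi o
    have h1 := hth i hi (γ (Sum.inr o))
    have h2 : ∑ b ∈ σ, th i b * (dt (γ (Sum.inr o)) (A5 a M (Sum.inl b)) : ℚ) = 0 := by
      refine Finset.sum_eq_zero fun b hb => ?_
      have h3 := dual (Sum.inr o) (Sum.inl ⟨b, hb⟩)
      rw [if_neg (fun h => by simp at h)] at h3
      have h4 : dt (γ (Sum.inr o)) (A5 a M (Sum.inl b)) = 0 := h3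
      rw [h4]
      simp
    rw [h2] at h1
    exact_mod_cast h1
  -- the generators
  have hX : ∀ τ₀ : TT w σ, (∀ τ, 0 ≤ dt (γ τ) (A5 a M (XT w σ τ₀))) ∧
      D • A5 a M (XT w σ τ₀) = ∑ τ, dt (γ τ) (A5 a M (XT w σ τ₀)) • A5 a M (XT w σ τ) := by
    intro τ₀
    refine ⟨fun τ => ?_, ?_⟩
    · rw [dual]
      split_ifs
      · exact hD.le
      · exact le_refl _
    · rw [Finset.sum_eq_single τ₀]
      · rw [dual, if_pos rfl]
      · intro τ _ hne
        rw [dual, if_neg hne, zero_smul]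
      · intro h
        exact absurd (Finset.mem_univ _) h
  have face : ∀ i, dt (h5 a w) (A5 a M i) = 0 → (∀ τ, 0 ≤ dt (γ τ) (A5 a M i)) ∧
      D • A5 a M i = ∑ τ, dt (γ τ) (A5 a M i) • A5 a M (XT w σ τ) := by
    rintro (i | (_ | j) | k) hi
    · have hi' : ∑ j, a i j * w j = H22.wmin a w := by
        rw [GDX_dt1] at hi
        have h2 : ∑ j, (h5 a w) j.succ.succ * (a i j : ℤ) = ((∑ j, a i j * w j : ℕ) : ℤ) := by
          push_cast
          refine Finset.sum_congr rfl fun j _ => ?_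
          show (w j : ℤ) * _ = _
          ring
        rw [h2] at hi
        have h3 : -(H22.wmin a w : ℤ) + ((∑ j, a i j * w j : ℕ) : ℤ) = 0 := hi
        have h4 : ((∑ j, a i j * w j : ℕ) : ℤ) = (H22.wmin a w : ℤ) := by linarith
        exact_mod_cast h4
      have hDQ : (0 : ℚ) < D := by exact_mod_cast hD
      refine ⟨?_, ?_⟩
      · rintro (b | o)
        · have h1 := thb i hi' b
          have h2 := mul_nonneg hDQ.le (hR.th0 i hi' b.1 b.2)
          rw [← h1] at h2
          exact_mod_cast h2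
        · rw [thn i hi' o]
      · rw [Fintype.sum_sum_type]
        have h1 : ∑ o : Option {j : Fin n // w j = 0},
            dt (γ (Sum.inr o)) (A5 a M (Sum.inl i)) • A5 a M (XT w σ (Sum.inr o)) = 0 :=
          Finset.sum_eq_zero fun o _ => by rw [thn i hi' o, zero_smul]
        rw [h1, add_zero]
        have key : ∀ x : Fin (n + 2), ((D : ℚ) * (A5 a M (Sum.inl i) x : ℚ)) =
            ∑ b : {b : Fin r // b ∈ σ}, (dt (γ (Sum.inl b)) (A5 a M (Sum.inl i)) : ℚ) *
              (A5 a M (Sum.inl b.1) x : ℚ) := by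
          intro x
          have h2 := hth i hi' (ev x)
          simp only [dt_ev] at h2
          rw [h2, Finset.mul_sum, ← Finset.sum_coe_sort σ
            (fun b => (D : ℚ) * (th i b * (A5 a M (Sum.inl b) x : ℚ)))]
          refine Finset.sum_congr rfl fun b _ => ?_
          rw [thb i hi' b]
          ring
        funext x
        have h3 := key x
        rw [Finset.sum_apply]
        simp only [Pi.smul_apply, smul_eq_mul]
        exact_mod_cast h3
    · exact hX (Sum.inr none)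
    · have hj : w j = 0 := by
        rw [GDX_dt3] at hi
        have h2 : (0 : ℤ) + M * (w j : ℤ) = 0 := hi
        rw [zero_add] at h2
        have h3 := (mul_eq_zero.1 h2).resolve_left hM.ne'
        exact_mod_cast h3
      exact hX (Sum.inr (some ⟨j, hj⟩))
    · exact k.elim0
  -- the parameter
  have hMC : (M : ℂ) ≠ 0 := by exact_mod_cast hM.ne'
  set S : ℂ := ∑ j : {j : Fin n // w j = 0}, (mu j.1 : ℂ) / (M : ℂ) with hS
  refine ⟨D, γ, fun τ => match τ with
    | Sum.inl b => (lam b.1 : ℂ)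
    | Sum.inr none => -Complex.I - S
    | Sum.inr (some j) => (mu j.1 : ℂ) / (M : ℂ), hD, dual, gen, face, ?_, fun _ => rfl, thb⟩
  intro g
  rw [Fintype.sum_sum_type, Fintype.sum_option]
  simp only [XT, GDX_dt1, GDX_dt2, GDX_dt3]
  conv_lhs => rw [vec_surj g]
  rw [pv_pp]
  push_cast
  have hlam : ∑ b : {b : Fin r // b ∈ σ}, (lam b.1 : ℂ) = (H22.wsum w : ℂ) / (H22.wmin a w : ℂ) := by
    rw [Finset.sum_coe_sort σ (fun b => (lam b : ℂ))]
    have h1 := congrArg (fun x : ℚ => (x : ℂ)) hR.lams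
    push_cast at h1
    exact h1
  have hlamj : ∀ j, ∑ b : {b : Fin r // b ∈ σ}, (lam b.1 : ℂ) * (a b.1 j : ℂ) +
      (if w j = 0 then (mu j : ℂ) else 0) = 1 := by
    intro j
    rw [Finset.sum_coe_sort σ (fun b => (lam b : ℂ) * (a b j : ℂ))]
    have h1 := congrArg (fun x : ℚ => (x : ℂ)) (hR.lamj j)
    push_cast at h1
    split_ifs with h2
    · rw [if_pos h2] at h1
      exact h1
    · rw [if_neg h2] at h1
      simpa using h1
  have e1 : ∑ b : {b : Fin r // b ∈ σ}, (lam b.1 : ℂ) * ((g 0 : ℂ) +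
      ∑ j, (g j.succ.succ : ℂ) * (a b.1 j : ℂ)) =
      (g 0 : ℂ) * ((H22.wsum w : ℂ) / (H22.wmin a w : ℂ)) +
      ∑ j, (g j.succ.succ : ℂ) * ∑ b : {b : Fin r // b ∈ σ}, (lam b.1 : ℂ) * (a b.1 j : ℂ) := by
    rw [← hlam, Finset.mul_sum]
    simp only [Finset.mul_sum, mul_add]
    rw [Finset.sum_add_distrib]
    congr 1
    · refine Finset.sum_congr rfl fun b _ => ?_
      ring
    · rw [Finset.sum_comm]
      refine Finset.sum_congr rfl fun j _ => ?_
      refine Finset.sum_congr rfl fun b _ => ?_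
      ring
  have e2 : ∑ j : {j : Fin n // w j = 0}, (mu j.1 : ℂ) / (M : ℂ) *
      ((g (Fin.succ 0) : ℂ) + (M : ℂ) * (g j.1.succ.succ : ℂ)) =
      S * (g (Fin.succ 0) : ℂ) + ∑ j, (g j.succ.succ : ℂ) * (if w j = 0 then (mu j : ℂ) else 0) := by
    rw [hS, Finset.sum_mul]
    have h1 : ∑ j : Fin n, (g j.succ.succ : ℂ) * (if w j = 0 then (mu j : ℂ) else 0) =
        ∑ j : {j : Fin n // w j = 0}, (g j.1.succ.succ : ℂ) * (mu j.1 : ℂ) := by
      simp only [mul_ite, mul_zero]
      rw [← Finset.sum_filter]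
      exact Finset.sum_subtype _ (by simp) (fun j : Fin n => (g j.succ.succ : ℂ) * (mu j : ℂ))
    rw [h1, ← Finset.sum_add_distrib]
    refine Finset.sum_congr rfl fun j _ => ?_
    field_simp
  rw [e1, e2]
  have e3 : ∑ j : Fin n, (g j.succ.succ : ℂ) = ∑ j : Fin n, (g j.succ.succ : ℂ) *
      (∑ b : {b : Fin r // b ∈ σ}, (lam b.1 : ℂ) * (a b.1 j : ℂ) +
      (if w j = 0 then (mu j : ℂ) else 0)) := by
    refine Finset.sum_congr rfl fun j _ => ?_
    rw [hlamj j, mul_one]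
  rw [e3]
  simp only [mul_add, Finset.sum_add_distrib]
  ring

end Pool.Agent.H56.T5
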