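import Pool.Agent.H56.T5.KEDefs

/-!
# R1K: (B) for `E + p` from (B) for `E` and (A) for `Z + p`

Write `g_k = gs a (cF a c (HZ H ℓ Z)) (ℓ k)`, `g'_k = gs a (cF a c (HZ H ℓ (insert p Z))) (ℓ k)`.
Proof.  Let `r0`, `r_k` be as in `StB … Z (insert p E) J m`.  By `NN_mono` they are as in `StB … Z E J m`, so `r0 = ∑ k ∈ J, g_k y_k` with `y_k` supported in
`NN S ℓ Z E {k}`.  For `k ∈ J`, `k ≠ p` let `ȳ_k` be the part of `y_k` at the points with `dt (ℓ p) u = -1` (`dg` with an indicator function); it is supported in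
`NN S ℓ (insert p Z) E {k}`.  Then `∑ k ∈ J.erase p, g'_k ȳ_k = 0` (*).  By `hA`: `ȳ_k = ∑ l ∈ J.erase p, g'_l z_kl`, `z` antisymmetric, `z_kl` supported in
`NN S ℓ (insert p Z) E {k, l}`.  Put `y'_p = y_p` (if `p ∈ J`) and `y'_k = y_k - ∑ l ∈ J.erase p, g_l z_kl` for `k ∈ J.erase p`.  Then `∑ k ∈ J, g_k y'_k = ∑ k ∈ J, g_k y_k`
(antisymmetry, `∑_k ∑_l g_k g_l z_kl = 0`, `lp_eq_neg_self`).  Supports: `y'_p` is in `NN S ℓ Z E {p} = NN S ℓ Z (insert p E) {p}`; `g_l z_kl` is in `NN S ℓ Z E {k}`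
(exponents `a i` of `g_l` have `dt H (a i) = 0` and `dt (ℓ j) (a i) = 0`, `j ∈ Z` (`cF_ne`, `dt_HZ_eq_zero`), and `dt (ℓ l) (a i) ≥ 1` if the coefficient is not zero; if
`l ∈ E` then `dt (ℓ l) u' ≥ -1` by `hSP`), and `y'_k` has no exponent with `dt (ℓ p) u = -1`: at such `u` the value of `y_k` is that of `ȳ_k` and
`(g_l z_kl)(u) = ∑_i cF_i dt (ℓ l) (a i) z_kl (u - a i)` where `z_kl` lives on `dt (ℓ p) = -1`, so only `i` with `dt (ℓ p) (a i) = 0` contribute and
`(g_l z_kl)(u) = (g'_l z_kl)(u)`.  All exponents of `y'_k` have `dt (ℓ p) u ≥ -1` (`hSP`), so `≥ 0`: `y'_k` is in `NN S ℓ Z (insert p E) {k}`.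
(*): `g'_k ȳ_k` lives on `dt (ℓ p) u = -1`.  At such `u` we have `0 = r0(u) = ∑ k ∈ J, (g_k y_k)(u)` (`r0` has `dt (ℓ p) ≥ 0`); in
`(g_k y_k)(u) = ∑_i cF_i dt (ℓ k) (a i) y_k (u - a i)` the point `u - a i` must have `dt (ℓ p) ≥ -1` (`hSP`), so `dt (ℓ p) (a i) = 0` (`hPa`): for `k = p` the term vanishes, for
`k ≠ p` it is the term of `g'_k ȳ_k`.
-/

set_option autoImplicit false

namespace Pool.Agent.H56.T5

open Finset AddMonoidAlgebra
open Pool.Agent.H56.SMC Pool.Agent.H37.T5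

/-- The part of `z` at the points with `dt q u = -1`. -/
noncomputable def R1K_bar {d : ℕ} (q : Lat d) (z : LP ℂ d) : LP ℂ d :=
  dg (fun v => if dt q v = -1 then 1 else 0) z

theorem R1K_bar_coeff {d : ℕ} (q : Lat d) (z : LP ℂ d) (u : Lat d) :
    (R1K_bar q z).coeff u = if dt q u = -1 then z.coeff u else 0 := by
  unfold R1K_bar
  rw [dg_coeff]
  split_ifs <;> simp

theorem R1K_dt_insert {d s : ℕ} (H : Lat d) (ℓ : Fin s → Lat d) {Z : Finset (Fin s)} {p : Fin s}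
    (hpZ : p ∉ Z) (u : Lat d) : dt (HZ H ℓ (insert p Z)) u = dt (HZ H ℓ Z) u + dt (ℓ p) u := by
  rw [dt_HZ, dt_HZ, sum_insert hpZ]
  ring

/-- the key comparison of the symbols for `Z` and `insert p Z` -/
theorem R1K_key {d : ℕ} {ι : Type} [Fintype ι] (a : ι → Lat d) (c : ι → ℂ)
    (H : Lat d) {s : ℕ} (ℓ : Fin s → Lat d) {Z : Finset (Fin s)} {p : Fin s}
    (hpa : ∀ i, 0 ≤ dt (ℓ p) (a i)) (hpZ : p ∉ Z) (k : Fin s) (z : LP ℂ d)
    (hz : ∀ v, z.coeff v ≠ 0 → -1 ≤ dt (ℓ p) v) (u : Lat d) (hu : dt (ℓ p) u = -1) :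
    (gs a (cF a c (HZ H ℓ Z)) (ℓ k) * z).coeff u =
      (gs a (cF a c (HZ H ℓ (insert p Z))) (ℓ k) * R1K_bar (ℓ p) z).coeff u := by
  rw [gs_mul_coeff, gs_mul_coeff]
  refine sum_congr rfl fun i _ => ?_
  have h0 := hpa i
  have h1 := dt_sub (ℓ p) u (a i)
  rcases eq_or_ne (dt (ℓ p) (a i)) 0 with h2 | h2
  · have h3 : cF a c (HZ H ℓ (insert p Z)) i = cF a c (HZ H ℓ Z) i := by
      unfold cF
      rw [R1K_dt_insert H ℓ hpZ, h2, add_zero]
    rw [h3, R1K_bar_coeff, if_pos (by omega)]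
  · have h3 : z.coeff (u - a i) = 0 := by
      by_contra h4
      have := hz _ h4
      omega
    rw [h3, R1K_bar_coeff, h3, ite_self, mul_zero, mul_zero]

theorem R1K_cF {d : ℕ} {ι : Type} {a : ι → Lat d} {c : ι → ℂ} {H : Lat d} {s : ℕ}
    {ℓ : Fin s → Lat d} {Z : Finset (Fin s)} (hH : ∀ i, 0 ≤ dt H (a i))
    (hZa : ∀ k ∈ Z, ∀ i, 0 ≤ dt (ℓ k) (a i)) {i : ι} (h : cF a c (HZ H ℓ Z) i ≠ 0) :
    dt H (a i) = 0 ∧ ∀ k ∈ Z, dt (ℓ k) (a i) = 0 :=
  (dt_HZ_eq_zero H ℓ Z (a i) (hH i) fun k hk => hZa k hk i).1 (cF_ne h)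

theorem R1K_term {d : ℕ} {ι : Type} [Fintype ι] {a : ι → Lat d} {c : ι → ℂ}
    {h : Lat d} {z : LP ℂ d} {u : Lat d} (hne : (gs a c h * z).coeff u ≠ 0) :
    ∃ i, c i ≠ 0 ∧ dt h (a i) ≠ 0 ∧ z.coeff (u - a i) ≠ 0 := by
  rw [gs_mul_coeff] at hne
  obtain ⟨i, -, hi⟩ := exists_ne_zero_of_sum_ne_zero hne
  refine ⟨i, fun h0 => hi (by rw [h0, zero_mul, zero_mul]), fun h0 => hi (by
    rw [h0, Int.cast_zero, mul_zero, zero_mul]), fun h0 => hi (by rw [h0, mul_zero])⟩

theorem R1K_antisymm {d s : ℕ} (g : Fin s → LP ℂ d) (K : Finset (Fin s))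
    (z : Fin s → Fin s → LP ℂ d) (hz : ∀ k l, z k l = -z l k) :
    ∑ k ∈ K, g k * ∑ l ∈ K, g l * z k l = 0 := by
  apply lp_eq_neg_self
  simp only [mul_sum]
  rw [← sum_neg_distrib]
  conv_lhs => rw [sum_comm]
  refine sum_congr rfl fun j _ => ?_
  rw [← sum_neg_distrib]
  refine sum_congr rfl fun k _ => ?_
  rw [hz k j]
  ring

/-- R1K -/
theorem r1K {d : ℕ} {ι : Type} [Fintype ι] (a : ι → Lat d) (c : ι → ℂ)
    (H : Lat d) (hH : ∀ i, 0 ≤ dt H (a i)) (S : Set (Lat d))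
    (hS : ∀ u ∈ S, ∀ i, dt H (a i) = 0 → u + a i ∈ S) {s : ℕ} (ℓ : Fin s → Lat d)
    (P : Finset (Fin s)) (hPa : ∀ k ∈ P, ∀ i, 0 ≤ dt (ℓ k) (a i))
    (hSP : ∀ u ∈ S, ∀ k ∈ P, -1 ≤ dt (ℓ k) u)
    (Z E J : Finset (Fin s)) (hZ : Z ⊆ P) (hE : E ⊆ P) (m p : Fin s) (hp : p ∈ P) (hpZ : p ∉ Z)
    (hpE : p ∉ E) (hB : StB a c H S ℓ Z E J m) (hA : StA a c H S ℓ (insert p Z) E (J.erase p)) :
    StB a c H S ℓ Z (insert p E) J m := by
  intro r0 r hr0 hr heq
  have hpa := hPa p hp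
  have hpZP : insert p Z ⊆ P := insert_subset hp hZ
  set g : Fin s → LP ℂ d := fun k => gs a (cF a c (HZ H ℓ Z)) (ℓ k) with hg
  set g' : Fin s → LP ℂ d := fun k => gs a (cF a c (HZ H ℓ (insert p Z))) (ℓ k) with hg'
  obtain ⟨y, hy, hry⟩ := hB r0 r (hr0.mono (NN_mono S ℓ Z (subset_insert p E) subset_rfl))
    (fun k hk => (hr k hk).mono (NN_mono S ℓ Z (subset_insert p E) subset_rfl)) heq
  have hSm : ∀ {E' K : Finset (Fin s)} {x : LP ℂ d}, Supp (NN S ℓ Z E' K) x →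
      ∀ v, x.coeff v ≠ 0 → -1 ≤ dt (ℓ p) v := fun hx v hv => hSP v (hx v hv).1 p hp
  -- `g' p = 0`
  have hg'p : ∀ (x : LP ℂ d) (u : Lat d), (g' p * x).coeff u = 0 := by
    intro x u
    by_contra hne
    obtain ⟨i, h1, h2, -⟩ := R1K_term hne
    exact h2 ((R1K_cF hH (fun k hk => hPa k (hpZP hk)) h1).2 p (mem_insert_self p Z))
  have hkey : ∀ k x, (∀ v, x.coeff v ≠ 0 → -1 ≤ dt (ℓ p) v) → ∀ u, dt (ℓ p) u = -1 →
      (g k * x).coeff u = (g' k * R1K_bar (ℓ p) x).coeff u := fun k x hx u hu =>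
    R1K_key a c H ℓ hpa hpZ k x hx u hu
  -- (*)
  have hstar : ∑ k ∈ J.erase p, g' k * R1K_bar (ℓ p) (y k) = 0 := by
    apply lp_ext
    intro u
    rw [coeff_zero', coeff_finsum]
    by_cases hu : dt (ℓ p) u = -1
    · have h1 : ∑ k ∈ J.erase p, (g' k * R1K_bar (ℓ p) (y k)).coeff u =
          ∑ k ∈ J, (g' k * R1K_bar (ℓ p) (y k)).coeff u := sum_erase _ (hg'p _ _)
      have h2 : ∑ k ∈ J, (g' k * R1K_bar (ℓ p) (y k)).coeff u = ∑ k ∈ J, (g k * y k).coeff u :=
        sum_congr rfl fun k hk => (hkey k (y k) (hSm (hy k hk)) u hu).symm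
      rw [h1, h2, ← coeff_finsum, ← hry]
      by_contra h3
      have h4 := (hr0 u h3).2.2 p (mem_insert_self p E) (notMem_empty p)
      omega
    · refine sum_eq_zero fun k hk => ?_
      by_contra hne
      obtain ⟨i, h1, -, h3⟩ := R1K_term hne
      have h4 := (R1K_cF hH (fun k hk => hPa k (hpZP hk)) h1).2 p (mem_insert_self p Z)
      rw [R1K_bar_coeff] at h3
      have h5 := dt_sub (ℓ p) u (a i)
      rw [if_neg (by omega)] at h3
      exact h3 rfl
  -- apply (A)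
  have hbar : ∀ k ∈ J.erase p, Supp (NN S ℓ (insert p Z) E {k}) (R1K_bar (ℓ p) (y k)) := by
    intro k hk u hu
    rw [R1K_bar_coeff] at hu
    by_cases h1 : dt (ℓ p) u = -1
    · rw [if_pos h1] at hu
      obtain ⟨h2, h3, h4⟩ := hy k (mem_of_mem_erase hk) u hu
      refine ⟨h2, fun i hi => ?_, h4⟩
      rcases mem_insert.1 hi with rfl | hi
      · exact h1
      · exact h3 i hi
    · rw [if_neg h1] at hu
      exact absurd rfl hu
  obtain ⟨z, hz, hza, hzs⟩ := hA (fun k => R1K_bar (ℓ p) (y k)) hbar hstar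
  -- the new elements
  refine ⟨fun k => if k = p then y p else y k - ∑ l ∈ J.erase p, g l * z k l, ?_, ?_⟩
  · intro k hk
    show Supp _ (if k = p then y p else y k - ∑ l ∈ J.erase p, g l * z k l)
    by_cases hkp : k = p
    · subst hkp
      rw [if_pos rfl]
      intro u hu
      obtain ⟨h2, h3, h4⟩ := hy k hk u hu
      refine ⟨h2, h3, fun i hi hik => ?_⟩
      rcases mem_insert.1 hi with rfl | hi
      · exact absurd (mem_singleton_self _) hik
      · exact h4 i hi hik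
    · rw [if_neg hkp]
      have hke : k ∈ J.erase p := mem_erase.2 ⟨hkp, hk⟩
      have hsup : Supp (NN S ℓ Z E {k}) (y k - ∑ l ∈ J.erase p, g l * z k l) := by
        refine (hy k hk).sub (Supp.sum _ fun l hl => ?_)
        intro u hu
        obtain ⟨i, h1, h2, h3⟩ := R1K_term hu
        obtain ⟨h4, h5⟩ := R1K_cF hH (fun k hk => hPa k (hZ hk)) h1
        obtain ⟨h6, h7, h8⟩ := hz k hke l hl _ h3
        refine ⟨?_, fun j hj => ?_, fun j hj hjk => ?_⟩
        · have := hS _ h6 i h4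
          rwa [sub_add_cancel] at this
        · have h9 := h7 j (mem_insert_of_mem hj)
          have h10 := h5 j hj
          have h11 := dt_sub (ℓ j) u (a i)
          omega
        · have h11 := dt_sub (ℓ j) u (a i)
          have h12 := hPa j (hE hj) i
          by_cases hjl : j = l
          · subst hjl
            have h13 := hSP _ h6 j (hE hj)
            omega
          · have h13 := h8 j hj (by
              rw [mem_insert, mem_singleton, not_or]
              exact ⟨fun h => hjk (mem_singleton.2 h), hjl⟩)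
            omega
      intro u hu
      obtain ⟨h2, h3, h4⟩ := hsup u hu
      refine ⟨h2, h3, fun i hi hik => ?_⟩
      rcases mem_insert.1 hi with rfl | hi
      · by_contra hneg
        have h5 := hSP u h2 i hp
        have h6 : dt (ℓ i) u = -1 := by omega
        apply hu
        rw [coeff_sub', coeff_finsum]
        have h7 : ∑ l ∈ J.erase i, (g l * z k l).coeff u =
            ∑ l ∈ J.erase i, (g' l * z k l).coeff u := by
          refine sum_congr rfl fun l hl => ?_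
          have hzl : ∀ v, (z k l).coeff v ≠ 0 → dt (ℓ i) v = -1 := fun v hv =>
            (hz k hke l hl v hv).2.1 i (mem_insert_self i Z)
          have hbz : R1K_bar (ℓ i) (z k l) = z k l := by
            apply lp_ext
            intro v
            rw [R1K_bar_coeff]
            by_cases hv : (z k l).coeff v = 0
            · rw [hv, ite_self]
            · rw [if_pos (hzl v hv)]
          rw [hkey l (z k l) (fun v hv => (hzl v hv).ge) u h6, hbz]
        rw [h7, ← coeff_finsum]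
        have h8 := hzs k hke
        have h9 : (R1K_bar (ℓ i) (y k)).coeff u = (y k).coeff u := by
          rw [R1K_bar_coeff, if_pos h6]
        rw [← h9, sub_eq_zero]
        exact congrArg (fun x => x.coeff u) h8
      · exact h4 i hi hik
  · have h1 : ∀ k ∈ J, g k * (if k = p then y p else y k - ∑ l ∈ J.erase p, g l * z k l) =
        g k * y k - (if k = p then 0 else g k * ∑ l ∈ J.erase p, g l * z k l) := by
      intro k _
      by_cases hkp : k = p
      · rw [if_pos hkp, if_pos hkp, hkp, sub_zero]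
      · rw [if_neg hkp, if_neg hkp, mul_sub]
    show r0 = ∑ k ∈ J, g k * (if k = p then y p else y k - ∑ l ∈ J.erase p, g l * z k l)
    rw [sum_congr rfl h1, sum_sub_distrib]
    have h2 : ∑ k ∈ J, (if k = p then 0 else g k * ∑ l ∈ J.erase p, g l * z k l) =
        ∑ k ∈ J.erase p, g k * ∑ l ∈ J.erase p, g l * z k l := by
      rw [← sum_erase (a := p) J (f := fun k => if k = p then 0 else
        g k * ∑ l ∈ J.erase p, g l * z k l) (if_pos rfl)]
      exact sum_congr rfl fun k hk => if_neg (ne_of_mem_erase hk)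
    rw [h2, R1K_antisymm g (J.erase p) z hza, sub_zero]
    exact hry

end Pool.Agent.H56.T5
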