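import Pool.Agent.H56.T5.KEDefs

/-!
# R2K: (A) for `J + p` from (B) and (A) for `J`

Write `g_k = gs a (cF a c (HZ H ℓ Z)) (ℓ k)`.
Proof.  Let `r` be as in `StA … Z E (insert p J)`: `g_p r_p = -∑ k ∈ J, g_k r_k` (`sum_insert hpJ`).  `r_p` is in `NN S ℓ Z E {p} ⊆ NN S ℓ Z (E.erase p) ∅`, `r_k` in
`NN S ℓ Z E {k} ⊆ NN S ℓ Z (E.erase p) {k}`.  By `hB`: `r_p = ∑ k ∈ J, g_k y_k`, `y_k` in `NN S ℓ Z (E.erase p) {k}`.  `r'_k = r_k + g_p y_k` (`k ∈ J`) is in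
`NN S ℓ Z E {k}`: the exponents `a i` of `g_p` have `dt H (a i) = 0` and `dt (ℓ j) (a i) = 0`, `j ∈ Z` (`cF_ne`, `dt_HZ_eq_zero`), and `dt (ℓ p) (a i) ≠ 0`, so if `p ∈ E`
(hence `p ∈ P`) `dt (ℓ p) (a i) ≥ 1` and `dt (ℓ p) ≥ -1` on `S` (`hSP`).  `∑ k ∈ J, g_k r'_k = -g_p r_p + g_p r_p = 0`.  By `hA`: `r'_k = ∑ l ∈ J, g_l y'_kl`.  Put
`Y k l = y'_kl` for `k, l ≠ p`, `Y p l = y_l`, `Y k p = -y_k`, `Y p p = 0`.  (`NN S ℓ Z (E.erase p) {k} ⊆ NN S ℓ Z E {k, p}`.)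
-/

set_option autoImplicit false

namespace Pool.Agent.H56.T5

open Finset AddMonoidAlgebra
open Pool.Agent.H56.SMC Pool.Agent.H37.T5

/-- Multiplication by the symbol of the component `p`. -/
theorem R2K_gs {d : ℕ} {ι : Type} [Fintype ι] (a : ι → Lat d) (c : ι → ℂ)
    (H : Lat d) (hH : ∀ i, 0 ≤ dt H (a i)) (S : Set (Lat d))
    (hS : ∀ u ∈ S, ∀ i, dt H (a i) = 0 → u + a i ∈ S) {s : ℕ} (ℓ : Fin s → Lat d)
    (P : Finset (Fin s)) (hPa : ∀ k ∈ P, ∀ i, 0 ≤ dt (ℓ k) (a i))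
    (hSP : ∀ u ∈ S, ∀ k ∈ P, -1 ≤ dt (ℓ k) u)
    (Z E K : Finset (Fin s)) (hZ : Z ⊆ P) (hE : E ⊆ P) (p : Fin s)
    (y : LP ℂ d) (hy : Supp (NN S ℓ Z (E.erase p) K) y) :
    Supp (NN S ℓ Z E K) (gs a (cF a c (HZ H ℓ Z)) (ℓ p) * y) := by
  intro u hu
  rw [gs_mul_coeff] at hu
  obtain ⟨i, -, hi⟩ := exists_ne_zero_of_sum_ne_zero hu
  have h1 : y.coeff (u - a i) ≠ 0 := fun h0 => hi (by rw [h0, mul_zero])
  have h2 : cF a c (HZ H ℓ Z) i ≠ 0 := fun h0 => hi (by rw [h0, zero_mul, zero_mul])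
  have h3 : dt (ℓ p) (a i) ≠ 0 := fun h0 => hi (by rw [h0, Int.cast_zero, mul_zero, zero_mul])
  obtain ⟨h4, h5, h6⟩ := hy _ h1
  have h7 := (dt_HZ_eq_zero H ℓ Z (a i) (hH i) fun j hj => hPa j (hZ hj) i).1 (cF_ne h2)
  have hu2 : u = (u - a i) + a i := by rw [sub_add_cancel]
  refine ⟨?_, ?_, ?_⟩
  · rw [hu2]
    exact hS _ h4 i h7.1
  · intro j hj
    have h8 := h5 j hj
    have h9 := h7.2 j hj
    rw [dt_sub] at h8
    omega
  · intro j hj hjK
    have h9 := hPa j (hE hj) i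
    by_cases hjp : j = p
    · subst hjp
      have h8 := hSP _ h4 j (hE hj)
      rw [dt_sub] at h8
      omega
    · have h8 := h6 j (Finset.mem_erase.2 ⟨hjp, hj⟩) hjK
      rw [dt_sub] at h8
      omega

/-- R2K -/
theorem r2K {d : ℕ} {ι : Type} [Fintype ι] (a : ι → Lat d) (c : ι → ℂ)
    (H : Lat d) (hH : ∀ i, 0 ≤ dt H (a i)) (S : Set (Lat d))
    (hS : ∀ u ∈ S, ∀ i, dt H (a i) = 0 → u + a i ∈ S) {s : ℕ} (ℓ : Fin s → Lat d)
    (P : Finset (Fin s)) (hPa : ∀ k ∈ P, ∀ i, 0 ≤ dt (ℓ k) (a i))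
    (hSP : ∀ u ∈ S, ∀ k ∈ P, -1 ≤ dt (ℓ k) u)
    (Z E J : Finset (Fin s)) (hZ : Z ⊆ P) (hE : E ⊆ P) (p : Fin s) (hpJ : p ∉ J)
    (hB : StB a c H S ℓ Z (E.erase p) J p) (hA : StA a c H S ℓ Z E J) :
    StA a c H S ℓ Z E (insert p J) := by
  classical
  intro r hr hsum
  rw [sum_insert hpJ] at hsum
  have hrp : Supp (NN S ℓ Z (E.erase p) ∅) (r p) := by
    refine (hr p (mem_insert_self p J)).mono ?_
    rintro u ⟨h1, h2, h3⟩
    refine ⟨h1, h2, fun i hi _ => h3 i (mem_of_mem_erase hi) ?_⟩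
    rw [mem_singleton]
    exact ne_of_mem_erase hi
  obtain ⟨y, hy, hyr⟩ := hB (r p) (fun k => -r k) hrp
    (fun k hk => ((hr k (mem_insert_of_mem hk)).mono
      (NN_mono S ℓ Z (erase_subset p E) (Subset.refl _))).neg)
    (by
      simp only [mul_neg, sum_neg_distrib]
      exact eq_neg_of_add_eq_zero_left hsum)
  obtain ⟨y', hy', hya, hyr'⟩ := hA
    (fun k => r k + gs a (cF a c (HZ H ℓ Z)) (ℓ p) * y k)
    (fun k hk => (hr k (mem_insert_of_mem hk)).add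
      (R2K_gs a c H hH S hS ℓ P hPa hSP Z E {k} hZ hE p (y k) (hy k hk)))
    (by
      have h1 : ∑ k ∈ J, gs a (cF a c (HZ H ℓ Z)) (ℓ k) *
          (r k + gs a (cF a c (HZ H ℓ Z)) (ℓ p) * y k)
          = ∑ k ∈ J, gs a (cF a c (HZ H ℓ Z)) (ℓ k) * r k
            + gs a (cF a c (HZ H ℓ Z)) (ℓ p) *
              ∑ k ∈ J, gs a (cF a c (HZ H ℓ Z)) (ℓ k) * y k := by
        rw [mul_sum, ← sum_add_distrib]
        exact sum_congr rfl fun k _ => by ring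
      rw [h1, ← hyr, add_comm]
      exact hsum)
  have hne : ∀ l ∈ J, l ≠ p := fun l hl h => hpJ (h ▸ hl)
  refine ⟨fun k l => if k = p then (if l = p then 0 else y l) else
    (if l = p then -y k else y' k l), ?_, ?_, ?_⟩
  · intro k hk l hl
    by_cases hkp : k = p
    · by_cases hlp : l = p
      · simp only [hkp, hlp, if_true]
        exact Supp.zero _
      · have hlJ : l ∈ J := (mem_insert.1 hl).resolve_left hlp
        simp only [hkp, hlp, if_true, if_false]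
        refine (hy l hlJ).mono ?_
        rintro u ⟨h1, h2, h3⟩
        refine ⟨h1, h2, fun i hi hiK => ?_⟩
        rw [mem_insert, mem_singleton, not_or] at hiK
        exact h3 i (mem_erase.2 ⟨hiK.1, hi⟩) (by rw [mem_singleton]; exact hiK.2)
    · have hkJ : k ∈ J := (mem_insert.1 hk).resolve_left hkp
      by_cases hlp : l = p
      · simp only [hkp, hlp, if_true, if_false]
        refine Supp.neg ((hy k hkJ).mono ?_)
        rintro u ⟨h1, h2, h3⟩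
        refine ⟨h1, h2, fun i hi hiK => ?_⟩
        rw [mem_insert, mem_singleton, not_or] at hiK
        exact h3 i (mem_erase.2 ⟨hiK.2, hi⟩) (by rw [mem_singleton]; exact hiK.1)
      · have hlJ : l ∈ J := (mem_insert.1 hl).resolve_left hlp
        simp only [hkp, hlp, if_false]
        exact hy' k hkJ l hlJ
  · intro k l
    by_cases hkp : k = p
    · by_cases hlp : l = p
      · simp [hkp, hlp]
      · simp [hkp, hlp]
    · by_cases hlp : l = p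
      · simp [hkp, hlp]
      · simp only [hkp, hlp, if_false]
        exact hya k l
  · intro k hk
    rw [sum_insert hpJ]
    by_cases hkp : k = p
    · simp only [hkp, if_true]
      rw [mul_zero, zero_add, hyr]
      refine sum_congr rfl fun l hl => ?_
      rw [if_neg (hne l hl)]
    · have hkJ : k ∈ J := (mem_insert.1 hk).resolve_left hkp
      simp only [hkp, if_true, if_false]
      have h1 : ∑ l ∈ J, gs a (cF a c (HZ H ℓ Z)) (ℓ l) * (if l = p then -y k else y' k l)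
          = ∑ l ∈ J, gs a (cF a c (HZ H ℓ Z)) (ℓ l) * y' k l :=
        sum_congr rfl fun l hl => by rw [if_neg (hne l hl)]
      rw [h1, ← hyr' k hkJ]
      ring

end Pool.Agent.H56.T5
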