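import Pool.Agent.H56.T5.R0K
import Pool.Agent.H56.T5.R1K
import Pool.Agent.H56.T5.R2K

/-!
# KXL: exactness of the mixed complex of the symbols

Write `S = {u | m0 • u + y0 ∈ Sset h ∧ dt H u = 0}`.
Proof.  (1) `hS` of `r1K`, `r2K`: `m0 • (u + a i) + y0 = (m0 • u + y0) + m0 • a i`, `hh`.  `hSP`: `N • (m0 • u + y0) = ∑ n_i • a i` (`hfac`), so
`0 ≤ dt (ℓ k) (m0 • u + y0) = m0 * (dt (ℓ k) u + 1)`.
(2) Induction on `N`: for all `Z, E ⊆ P` with `Disjoint Z E`, `E.card ≤ N`, and all `J` with `Disjoint Z J`, `k0 ∉ J`: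
  (B) `StB … Z E J m` for all `m ∉ J`, `m ∉ Z` with `m ≠ k0 ∨ Z = ∅`, and (A) `StA … Z E J`.
(B) for `E = ∅`: `r0K`, the independence of `insert m J` on `HZ H ℓ Z`: if `Z = ∅` (`HZ H ℓ ∅ = H`) from `hA` (subsets of independent families), otherwise
from `hB Z` (`insert m J ⊆ (univ \ Z).erase k0`).  (B) for `E = insert p E'`: `r1K` from (B) for `E'` and (A) for `insert p Z`, `E'`, `J.erase p`
(induction hypothesis).  (A): induction on `J` (`Finset.induction_on`): `J = ∅` is trivial; `insert p J` with `r2K` from (B) for `E.erase p`, `J`, `m = p`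
(`card ≤ N`, `p ≠ k0`, `p ∉ Z`; this is (B) with `card ≤ N`, proved before (A)) and (A) for `J`.
(3) For `Z = ∅`, `E = P`, `J = univ.erase k0`: (A) and (B) with `m = k0`; `r2K` with `p = k0` (`P.erase k0 = P`) gives `StA … ∅ P univ`; this is `KExactL`:
`S ∩ LL ℓ P {k} = NN S ℓ ∅ P {k}` and the same for `{k, l}` (by `hSP`), `HZ H ℓ ∅ = H`.
-/

set_option autoImplicit false

namespace Pool.Agent.H56.T5

open Finset AddMonoidAlgebra
open Pool.Agent.H56.SMC Pool.Agent.H37.T5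

theorem KXL_indOn_mono {d s : ℕ} {ι : Type} {a : ι → Lat d} {H : Lat d} {ℓ : Fin s → Lat d}
    {J J' : Finset (Fin s)} (h : IndOn a H ℓ J') (hJ : J ⊆ J') : IndOn a H ℓ J := by
  classical
  intro n hn k hk
  have h1 := h (fun k => if k ∈ J then n k else 0) (by
    intro i hi
    have h2 := hn i hi
    refine Eq.trans ?_ h2
    have h3 : ∀ k ∈ J', (if k ∈ J then n k else 0) * dt (ℓ k) (a i)
        = if k ∈ J then n k * dt (ℓ k) (a i) else 0 := by
      intro k _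
      split_ifs
      · rfl
      · rw [zero_mul]
    rw [sum_congr rfl h3, sum_ite_mem, inter_eq_right.mpr hJ]) k (hJ hk)
  simpa [hk] using h1

theorem KXL_HZ_empty {d s : ℕ} (H : Lat d) (ℓ : Fin s → Lat d) : HZ H ℓ ∅ = H := by
  unfold HZ
  rw [sum_empty, add_zero]

/-- KXL -/
theorem kexL {d : ℕ} {ι κ : Type} [Fintype ι] [Fintype κ] (a : ι → Lat d) (c : ι → ℂ)
    (h : κ → Lat d) (δ : Lat d) (hδ : ∀ i, dt δ (a i) = 1) (hh : ∀ v i, 0 ≤ dt (h v) (a i))
    (hfac : ∀ u ∈ Sset h, ∃ N : ℕ, 0 < N ∧ ∃ n : ι → ℕ, N • u = ∑ i, n i • a i)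
    (hnd : TorusND a c) (H : Lat d) (hH : ∀ i, 0 ≤ dt H (a i)) {s : ℕ} (ℓ : Fin s → Lat d)
    (P : Finset (Fin s)) (hPa : ∀ k ∈ P, ∀ i, 0 ≤ dt (ℓ k) (a i))
    (m0 : ℤ) (hm0 : 0 < m0) (y0 : Lat d) (hy0 : dt H y0 = 0) (hyP : ∀ k ∈ P, dt (ℓ k) y0 = m0)
    (k0 : Fin s) (hk0 : k0 ∉ P) (hA : IndOn a H ℓ univ)
    (hB : ∀ Z ⊆ P, IndOn a (HZ H ℓ Z) ℓ ((univ \ Z).erase k0)) :
    KExactL a (cF a c H) ℓ P {u | m0 • u + y0 ∈ Sset h ∧ dt H u = 0} := by
  classical
  set S : Set (Lat d) := {u | m0 • u + y0 ∈ Sset h ∧ dt H u = 0} with hSdef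
  have hS : ∀ u ∈ S, ∀ i, dt H (a i) = 0 → u + a i ∈ S := by
    rintro u ⟨hu1, hu2⟩ i hi
    refine ⟨fun v => ?_, ?_⟩
    · have h1 : 0 ≤ dt (h v) (m0 • u + y0) := hu1 v
      have h2 := hh v i
      have e : m0 • (u + a i) + y0 = (m0 • u + y0) + m0 • a i := by
        rw [smul_add]
        abel
      rw [e, dt_add, dt_zsmul]
      exact add_nonneg h1 (mul_nonneg hm0.le h2)
    · rw [dt_add, hu2, hi, add_zero]
  have hSP : ∀ u ∈ S, ∀ k ∈ P, -1 ≤ dt (ℓ k) u := by
    rintro u ⟨hu1, _⟩ k hk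
    obtain ⟨N, hN, n, hn⟩ := hfac _ hu1
    have h1 : (N : ℤ) * dt (ℓ k) (m0 • u + y0) = ∑ i, (n i : ℤ) * dt (ℓ k) (a i) := by
      rw [← dt_nsmul, hn, dt_sum]
      exact sum_congr rfl fun i _ => dt_nsmul _ _ _
    have h2 : 0 ≤ (N : ℤ) * dt (ℓ k) (m0 • u + y0) := by
      rw [h1]
      exact sum_nonneg fun i _ => mul_nonneg (Int.natCast_nonneg _) (hPa k hk i)
    have h3 : 0 ≤ dt (ℓ k) (m0 • u + y0) :=
      nonneg_of_mul_nonneg_right h2 (by exact_mod_cast hN)
    rw [dt_add, dt_zsmul, hyP k hk] at h3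
    by_contra hcon
    push Not at hcon
    have h4 : dt (ℓ k) u + 1 ≤ -1 := by omega
    nlinarith
  have hmain : ∀ N : ℕ,
      (∀ Z E : Finset (Fin s), Z ⊆ P → E ⊆ P → Disjoint Z E → E.card ≤ N →
        ∀ J : Finset (Fin s), Disjoint Z J → k0 ∉ J → ∀ m, m ∉ J → m ∉ Z → (m ≠ k0 ∨ Z = ∅) →
          StB a c H S ℓ Z E J m) ∧
      (∀ Z E : Finset (Fin s), Z ⊆ P → E ⊆ P → Disjoint Z E → E.card ≤ N →
        ∀ J : Finset (Fin s), Disjoint Z J → k0 ∉ J → StA a c H S ℓ Z E J) := by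
    -- (B) for the empty set
    have hB0 : ∀ Z : Finset (Fin s), Z ⊆ P → ∀ J : Finset (Fin s), Disjoint Z J → k0 ∉ J →
        ∀ m, m ∉ J → m ∉ Z → (m ≠ k0 ∨ Z = ∅) → StB a c H S ℓ Z ∅ J m := by
      intro Z hZ J hZJ hkJ m hmJ hmZ hm
      refine r0K a c h δ hδ hh hfac hnd H hH ℓ P hPa m0 hm0 y0 hy0 hyP Z J hZ m hmJ ?_
      rcases hm with hm | hm
      · refine KXL_indOn_mono (hB Z hZ) ?_
        intro k hk
        rw [mem_erase, mem_sdiff]
        rcases mem_insert.mp hk with rfl | hk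
        · exact ⟨hm, mem_univ _, hmZ⟩
        · exact ⟨fun e => hkJ (e ▸ hk), mem_univ _, fun hkZ => disjoint_left.mp hZJ hkZ hk⟩
      · rw [hm, KXL_HZ_empty]
        exact KXL_indOn_mono hA (subset_univ _)
    -- (A) from (B) for the same bound
    have hAB : ∀ N : ℕ,
        (∀ Z E : Finset (Fin s), Z ⊆ P → E ⊆ P → Disjoint Z E → E.card ≤ N →
          ∀ J : Finset (Fin s), Disjoint Z J → k0 ∉ J → ∀ m, m ∉ J → m ∉ Z →
            (m ≠ k0 ∨ Z = ∅) → StB a c H S ℓ Z E J m) →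
        (∀ Z E : Finset (Fin s), Z ⊆ P → E ⊆ P → Disjoint Z E → E.card ≤ N →
          ∀ J : Finset (Fin s), Disjoint Z J → k0 ∉ J → StA a c H S ℓ Z E J) := by
      intro N hBN Z E hZ hE hZE hEN J
      induction J using Finset.induction_on with
      | empty =>
        intro _ _ r _ _
        exact ⟨fun _ _ => 0, fun k hk => absurd hk (notMem_empty k), fun _ _ => by rw [neg_zero],
          fun k hk => absurd hk (notMem_empty k)⟩
      | insert p J hpJ ih =>
        intro hZJ hkJ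
        have hZJ' : Disjoint Z J := disjoint_of_subset_right (subset_insert p J) hZJ
        have hkJ' : k0 ∉ J := fun hk => hkJ (mem_insert_of_mem hk)
        have hpZ : p ∉ Z := fun hpZ => disjoint_left.mp hZJ hpZ (mem_insert_self p J)
        have hpk : p ≠ k0 := fun e => hkJ (e ▸ mem_insert_self p J)
        refine r2K a c H hH S hS ℓ P hPa hSP Z E J hZ hE p hpJ ?_ (ih hZJ' hkJ')
        exact hBN Z (E.erase p) hZ ((erase_subset p E).trans hE)
          (disjoint_of_subset_right (erase_subset p E) hZE)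
          ((card_le_card (erase_subset p E)).trans hEN) J hZJ' hkJ' p hpJ hpZ (Or.inl hpk)
    intro N
    induction N with
    | zero =>
      have hb : ∀ Z E : Finset (Fin s), Z ⊆ P → E ⊆ P → Disjoint Z E → E.card ≤ 0 →
          ∀ J : Finset (Fin s), Disjoint Z J → k0 ∉ J → ∀ m, m ∉ J → m ∉ Z →
            (m ≠ k0 ∨ Z = ∅) → StB a c H S ℓ Z E J m := by
        intro Z E hZ _ _ hE0
        have hE' : E = ∅ := card_eq_zero.mp (Nat.le_zero.mp hE0)
        rw [hE']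
        exact hB0 Z hZ
      exact ⟨hb, hAB 0 hb⟩
    | succ N ih =>
      have hb : ∀ Z E : Finset (Fin s), Z ⊆ P → E ⊆ P → Disjoint Z E → E.card ≤ N + 1 →
          ∀ J : Finset (Fin s), Disjoint Z J → k0 ∉ J → ∀ m, m ∉ J → m ∉ Z →
            (m ≠ k0 ∨ Z = ∅) → StB a c H S ℓ Z E J m := by
        intro Z E hZ hE hZE hEN J hZJ hkJ m hmJ hmZ hm
        rcases E.eq_empty_or_nonempty with rfl | ⟨p, hp⟩
        · exact hB0 Z hZ J hZJ hkJ m hmJ hmZ hm
        · have hpE : p ∉ E.erase p := notMem_erase p E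
          have hcard : (E.erase p).card ≤ N := by
            rw [card_erase_of_mem hp]
            omega
          have hE' : E.erase p ⊆ P := (erase_subset p E).trans hE
          have hpZ : p ∉ Z := fun hpZ => disjoint_left.mp hZE hpZ hp
          have hZE' : Disjoint Z (E.erase p) := disjoint_of_subset_right (erase_subset p E) hZE
          have h1 := ih.1 Z (E.erase p) hZ hE' hZE' hcard J hZJ hkJ m hmJ hmZ hm
          have h2 := ih.2 (insert p Z) (E.erase p) (insert_subset (hE hp) hZ) hE'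
            (disjoint_insert_left.mpr ⟨hpE, hZE'⟩) hcard (J.erase p)
            (disjoint_insert_left.mpr ⟨notMem_erase p J,
              disjoint_of_subset_right (erase_subset p J) hZJ⟩)
            (fun hk => hkJ (mem_of_mem_erase hk))
          have h3 := r1K a c H hH S hS ℓ P hPa hSP Z (E.erase p) J hZ hE' m p (hE hp) hpZ hpE h1 h2
          rwa [insert_erase hp] at h3
      exact ⟨hb, hAB (N + 1) hb⟩
  obtain ⟨hb, ha⟩ := hmain P.card
  have hA1 : StA a c H S ℓ ∅ P (univ.erase k0) :=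
    ha ∅ P (empty_subset _) (Subset.refl _) (disjoint_empty_left _) le_rfl _
      (disjoint_empty_left _) (notMem_erase k0 _)
  have hB1 : StB a c H S ℓ ∅ (P.erase k0) (univ.erase k0) k0 :=
    hb ∅ (P.erase k0) (empty_subset _) (erase_subset _ _) (disjoint_empty_left _)
      (card_le_card (erase_subset _ _)) _ (disjoint_empty_left _) (notMem_erase k0 _) k0
      (notMem_erase k0 _) (notMem_empty _) (Or.inr rfl)
  have hA2 : StA a c H S ℓ ∅ P univ := by
    have h1 := r2K a c H hH S hS ℓ P hPa hSP ∅ P (univ.erase k0) (empty_subset _) (Subset.refl _)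
      k0 (notMem_erase k0 _) hB1 hA1
    rwa [insert_erase (mem_univ k0)] at h1
  have hset : ∀ K : Finset (Fin s), NN S ℓ ∅ P K = S ∩ LL ℓ P K := by
    intro K
    ext u
    constructor
    · rintro ⟨h1, _, h3⟩
      exact ⟨h1, fun i hi => ⟨hSP u h1 i hi, h3 i hi⟩⟩
    · rintro ⟨h1, h2⟩
      exact ⟨h1, fun i hi => absurd hi (notMem_empty i), fun i hi hiK => (h2 i hi).2 hiK⟩
  intro r hr hsum
  obtain ⟨y, hy1, hy2, hy3⟩ := hA2 r (fun k _ => by rw [hset]; exact hr k)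
    (by rw [KXL_HZ_empty]; exact hsum)
  refine ⟨y, fun k l => ?_, hy2, fun k => ?_⟩
  · have h1 := hy1 k (mem_univ k) l (mem_univ l)
    rwa [hset] at h1
  · have h1 := hy3 k (mem_univ k)
    rwa [KXL_HZ_empty] at h1

end Pool.Agent.H56.T5
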