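import Pool.Agent.H56.T5.FAMV
import Pool.Agent.H56.T5.RGE
import Pool.Agent.H56.T5.KXL

/-!
# KSL: exactness of the mixed complex on the slice

Write `A = A5 a M`, `ℓ' k = fam w σ γ jb (e k)`, `P' = PP w σ jb e`, `y0 = yv a M w σ T' m1`, `H = h5 a w`.
Proof.  `fspan`, `fac` give `h` with `hh`, `hfac` for `A = cA a (bbM (noW n) M)` (as in `appL`, `Pool/Agent/H56/T5/APPL.lean`; `0 < r` by `appg_pos`), `δ = vec 1 1 0` (`appg_delta`), `0 ≤ dt H (A i)` (`appg_h0`).
`RS a M w σ m0 T' m1 = {u | m0 • u + y0 ∈ Sset h ∧ dt H u = 0}` (`appg_sset`).  Apply `kexL` with `k0 = e.symm (inr none)` (not in `P'`).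
`hPa`: for `k ∈ P'` `ℓ' k = ev j.succ.succ` and the exponents have nonnegative coordinates.  `hy0`: `yv_h5`.  `hyP`: `e k = inl b`, `jb b = some j`, so `j ∈ P`, `a b j ≠ 0` (`hjb`), and
`dt (ev j.succ.succ) y0 = y0 j.succ.succ = ∑_{b' ∈ σ} T' b' * a b' j` (`yv_coord`, `w j ≠ 0`) `= T' b * a b j = m0` (`hZ.TD`: `b` is the only vertex with `a b j ≠ 0`; `hZ.TP`).
`hA`, `hB`: let `n : Fin s → ℤ`, `J = univ` and `Z = ∅`, or `Z ⊆ P'`, `J = (univ \ Z).erase k0`.  Put `k τ = n (e.symm τ)` if `e.symm τ ∈ J` and `0` otherwise; `Z̃ = {τ | e.symm τ ∈ Z}` (all of the form `inl b`).  For every generator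
`τ' ∉ Z̃`: `dt H (X τ') = 0` (`hG.gen`) and `dt (ℓ' i) (X τ') = 0` for `i ∈ Z` (`fam_val`: `e i = inl b`, `τ' ≠ inl b`), so `dt (HZ H ℓ' Z) (X τ') = 0` (`dt_HZ`) and the relation holds at `X τ'`:
`fam_indep` gives `k = 0`.
-/

set_option autoImplicit false

namespace Pool.Agent.H56.T5

open Finset AddMonoidAlgebra
open Pool.Agent.H56.SMC Pool.Agent.H37.T5

/-- KSL -/
theorem kSL {n r s : ℕ} (a : Fin r → (Fin n →₀ ℕ)) (M : ℤ) (hM : 0 < M) (w : Fin n → ℕ)
    (hN : 0 < H22.wmin a w) (σ : Finset (Fin r))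
    (hon : ∀ b ∈ σ, ∑ j, a b j * w j = H22.wmin a w)
    (lam : Fin r → ℚ) (th : Fin r → Fin r → ℚ) (G : ℤ) (γ : TT w σ → Lat (n + 2))
    (q : TT w σ → ℂ) (hG : GD a M w σ lam th G γ q) (m0 : ℤ) (hm0 : 0 < m0)
    (D P : Finset (Fin n)) (T T' : Fin r → ℤ) (m1 : ℤ) (hZ : SZ a w σ lam th m0 D P T T')
    (jb : Fin r → Option (Fin n)) (hjb : JB a σ P jb) (e : Fin s ≃ TT w σ)
    (c : Fin r ⊕ (Option (Fin n) ⊕ Fin 0) → ℂ) (hnd : TorusND (A5 a M) c) :
    KExactL (A5 a M) (cF (A5 a M) c (h5 a w)) (fun k => fam w σ γ jb (e k)) (PP w σ jb e)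
      (RS a M w σ m0 T' m1) := by
  classical
  have hr := appg_pos a w hN
  have hδ := appg_delta a (noW n) M
  obtain ⟨e', he'⟩ := fspan hr a (noW n) M hM
  obtain ⟨mf, h, hh, hprim, hfacet, hfac⟩ := fac (cA a (bbM (noW n) M)) (vec 1 1 0) hδ ⟨e', he'⟩
  have hS := appg_sset (cA a (bbM (noW n) M)) h hh hfac
  have hh0 := appg_h0 a (noW n) M hM w (fun k => k.elim0)
  obtain ⟨hv1, hv2, hv3, -, -, -, -⟩ := fam_val a M hM w σ lam th G γ q hG m0 D P T T' hZ jb hjb
  have hmemPP : ∀ k, k ∈ PP w σ jb e ↔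
      ∃ b : {b : Fin r // b ∈ σ}, e k = Sum.inl b ∧ jb b.1 ≠ none := by
    intro k
    simp [PP]
  -- the functional of an index of `P'`
  have hfamP : ∀ k ∈ PP w σ jb e, ∃ (b : {b : Fin r // b ∈ σ}) (j : Fin n), e k = Sum.inl b ∧
      jb b.1 = some j ∧ fam w σ γ jb (e k) = ev j.succ.succ := by
    intro k hk
    obtain ⟨b, hb, hjb'⟩ := (hmemPP k).1 hk
    obtain ⟨j, hj⟩ := Option.ne_none_iff_exists'.1 hjb'
    refine ⟨b, j, hb, hj, ?_⟩
    rw [hb]
    show (jb b.1).elim (γ (Sum.inl b)) (fun j => ev j.succ.succ) = _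
    rw [hj]
    rfl
  have hPa : ∀ k ∈ PP w σ jb e, ∀ i, 0 ≤ dt (fam w σ γ jb (e k)) (A5 a M i) := by
    intro k hk i
    obtain ⟨b, j, -, -, hf⟩ := hfamP k hk
    rw [hf, dt_ev]
    rcases i with i | (o | k)
    · simp [A5, cA, vec]
    · simp only [A5, cA, vec, Fin.cons_succ]
      exact appg_bbM_nonneg (noW n) M hM o j
    · exact k.elim0
  have hyP : ∀ k ∈ PP w σ jb e, dt (fam w σ γ jb (e k)) (yv a M w σ T' m1) = m0 := by
    intro k hk
    obtain ⟨b, j, -, hj, hf⟩ := hfamP k hk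
    obtain ⟨hjP, hab⟩ := (hjb b.1 b.2 j).1 hj
    have hjD := hZ.PD hjP
    rw [hf, dt_ev, yv_coord, if_neg (hZ.D0 j hjD), add_zero]
    obtain ⟨b1, hb1, hab1, hun, -⟩ := hZ.TD j hjD
    have hbb : b.1 = b1 := by
      by_contra hne
      exact hab (hun b.1 b.2 hne)
    rw [Finset.sum_eq_single b.1]
    · exact (hZ.TP j hjP b.1 b.2 hab).1
    · intro b' hb' hne
      rw [hun b' hb' (by rw [← hbb]; exact hne)]
      simp
    · intro h'
      exact absurd b.2 h'
  have hk0 : e.symm (Sum.inr none) ∉ PP w σ jb e := by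
    intro h'
    obtain ⟨b, hb, -⟩ := (hmemPP _).1 h'
    rw [e.apply_symm_apply] at hb
    simp at hb
  -- independence
  have hgen : ∀ Z ⊆ PP w σ jb e, ∀ J : Finset (Fin s), Disjoint Z J →
      IndOn (A5 a M) (HZ (h5 a w) (fun k => fam w σ γ jb (e k)) Z)
        (fun k => fam w σ γ jb (e k)) J := by
    intro Z hZP J hdis nn hnn k hk
    have hkk := fam_indep a M hM w σ lam th G γ q hG m0 D P T T' hZ jb hjb
      {τ | e.symm τ ∈ Z} (by
        intro τ hτ
        obtain ⟨b, hb, -⟩ := (hmemPP _).1 (hZP hτ)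
        rw [e.apply_symm_apply] at hb
        exact ⟨b, hb⟩)
      (fun τ => if e.symm τ ∈ J then nn (e.symm τ) else 0) (by
        intro τ hτ
        exact if_neg (Finset.disjoint_left.1 hdis hτ)) (by
        intro τ' hτ'
        have h1 : dt (HZ (h5 a w) (fun k => fam w σ γ jb (e k)) Z)
            (A5 a M (XT w σ τ')) = 0 := by
          rw [dt_HZ, hG.gen τ', zero_add]
          refine Finset.sum_eq_zero fun i hi => ?_
          obtain ⟨b, hb, -⟩ := (hmemPP _).1 (hZP hi)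
          show dt (fam w σ γ jb (e i)) _ = 0
          rw [hb]
          rcases τ' with b' | o
          · refine hv2 b b' ?_
            rintro rfl
            apply hτ'
            show e.symm (Sum.inl b) ∈ Z
            rw [← hb, e.symm_apply_apply]
            exact hi
          · exact hv3 b o
        have h2 := hnn _ h1
        refine Eq.trans ?_ h2
        rw [← Equiv.sum_comp e]
        simp only [Equiv.symm_apply_apply, ite_mul, zero_mul]
        rw [Finset.sum_ite_mem, Finset.univ_inter])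
    have := congrFun hkk (e k)
    simpa [hk] using this
  have hset : RS a M w σ m0 T' m1 =
      {u | m0 • u + yv a M w σ T' m1 ∈ Sset h ∧ dt (h5 a w) u = 0} := by
    ext u
    constructor
    · rintro ⟨h1, h2⟩
      exact ⟨(hS _).2 h1, h2⟩
    · rintro ⟨h1, h2⟩
      exact ⟨(hS _).1 h1, h2⟩
  rw [hset]
  refine kexL (A5 a M) c h (vec 1 1 0) hδ hh hfac hnd (h5 a w) hh0
    (fun k => fam w σ γ jb (e k)) (PP w σ jb e) hPa m0 hm0 (yv a M w σ T' m1)
    (yv_h5 a M w σ hon T' m1) hyP (e.symm (Sum.inr none)) hk0 ?_ ?_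
  · have h1 := hgen ∅ (Finset.empty_subset _) univ (Finset.disjoint_empty_left _)
    have h2 : HZ (h5 a w) (fun k => fam w σ γ jb (e k)) (∅ : Finset (Fin s)) = h5 a w := by
      simp [HZ]
    rwa [h2] at h1
  · intro Z hZP
    refine hgen Z hZP _ ?_
    rw [Finset.disjoint_left]
    intro x hx hx'
    have := Finset.mem_of_mem_erase hx'
    exact (Finset.mem_sdiff.1 this).2 hx

end Pool.Agent.H56.T5
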