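import Pool.Agent.H56.T5.RDefs
import Pool.Agent.H56.SMC.SIMX

/-!
# RAT: from the real data `FD` to the rational data `RD`

(`H22.rowR a i = (1; a_i)`, `H22.pointR a i = a_i` as real vectors, `eR j = (0; e_j)`, `p0R a w = (|w|/N(w); 1, …, 1)`: unfold.)
Proof.  (1) `ind`: an integral relation between the vectors `(1,0;a_b)`, `(0,0;e_j)` of `Lat (n+2)` gives a real relation with the same integers between `rowR a b` and `eR j`
(compare coordinates), so all coefficients vanish (`Fintype.linearIndependent_iff`).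
(2) By `dual_exists` (`Pool/Agent/H56/SMC/SIMX.lean`) applied to this family `X` over `{b // b ∈ σ} ⊕ {j // w j = 0}` there is `G > 0` and for every index an integral functional `γ_k`
with `dt (γ_k) (X l) = G` if `k = l` and `0` otherwise.
(3) `th i b := dt (γ_b) (vec 1 0 a_i) / G` (for `b ∈ σ`; `0` otherwise).  Let `i` be on the face.  By `conv` there are real `t_b ≥ 0`, `b ∈ σ`, `∑ t_b = 1`,
`a_i = ∑ t_b a_b` (`pointR` on `σ`: `convexHull_image`-style lemmas, `Finset.mem_convexHull_iff_exists_fintype`, `mem_convexHull_of_exists_fintype`,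
`Set.Finite.convexHull_eq`, `Finset.centerMass`; duplicates may be merged; the points `pointR a b`, `b ∈ σ`, are distinct by `ind`).  Then `(1,0;a_i) = ∑ t_b (1,0;a_b)` over `ℝ`;
applying the functional `γ_b` (real extension): `dt (γ_b) (vec 1 0 a_i) = G t_b`.  So `(th i b : ℝ) = t_b`, which gives `th0`, `th1`, `tha` (cast to `ℝ`).
(4) `span`: there are real `l_b`, `m_j` with `p0R a w = ∑ l_b rowR a b + ∑ m_j eR j` (`Submodule.span_union`, `Submodule.mem_span_range_iff_exists_fun`, or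
`Finsupp.mem_span_range_iff_exists_finsupp`, for the family `Sum.elim …`).  Apply `γ_b`: `G l_b = γ_b(p0)` is rational (`p0` has the rational coordinates `|w|/N`, `1`), the same for
`m_j`.  Let `lam b`, `mu j` be these rationals.  `lams`, `lamj`: coordinates of the equation (cast to `ℝ`).
-/

set_option autoImplicit false

namespace Pool.Agent.H56.T5

open Finset AddMonoidAlgebra
open Pool.Agent.H56.SMC Pool.Agent.H37.T5

/-- the index set -/
private abbrev RATS {n r : ℕ} (w : Fin n → ℕ) (σ : Finset (Fin r)) : Type :=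
  {b : Fin r // b ∈ σ} ⊕ {j : Fin n // w j = 0}

/-- the real family -/
private noncomputable def RATR {n r : ℕ} (a : Fin r → (Fin n →₀ ℕ)) (w : Fin n → ℕ)
    (σ : Finset (Fin r)) : RATS w σ → Unit ⊕ Fin n → ℝ :=
  Sum.elim (fun b => H22.rowR a b.1) (fun j => eR j.1)

/-- the integral family -/
private def RATX {n r : ℕ} (a : Fin r → (Fin n →₀ ℕ)) (w : Fin n → ℕ)
    (σ : Finset (Fin r)) : RATS w σ → Lat (n + 2) :=
  Sum.elim (fun b => vec 1 0 (fun j => (a b.1 j : ℤ))) (fun j => vec 0 0 (ev j.1))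

/-- the real functional -/
private def RATρ {n : ℕ} (γ : Lat (n + 2)) (y : Unit ⊕ Fin n → ℝ) : ℝ :=
  (γ 0 : ℝ) * y (Sum.inl ()) + ∑ j : Fin n, (γ j.succ.succ : ℝ) * y (Sum.inr j)

private theorem RAT_sum {n : ℕ} {S : Type} [Fintype S] (γ : Lat (n + 2)) (c : S → ℝ)
    (Y : S → Unit ⊕ Fin n → ℝ) : RATρ γ (∑ s, c s • Y s) = ∑ s, c s * RATρ γ (Y s) := by
  simp only [RATρ, Finset.sum_apply, Pi.smul_apply, smul_eq_mul, mul_add, sum_add_distrib,
    mul_sum]
  congr 1
  · exact sum_congr rfl fun s _ => by ring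
  · rw [sum_comm]
    exact sum_congr rfl fun s _ => sum_congr rfl fun j _ => by ring

private theorem RAT_dt {n : ℕ} (γ : Lat (n + 2)) (l : ℤ) (q : Fin n → ℤ) :
    dt γ (vec l 0 q) = γ 0 * l + ∑ j : Fin n, γ j.succ.succ * q j := by
  conv_lhs => rw [vec_surj γ]
  rw [dt_vec, mul_zero, add_zero]

private theorem RAT_row {n r : ℕ} (a : Fin r → (Fin n →₀ ℕ)) (γ : Lat (n + 2)) (i : Fin r) :
    RATρ γ (H22.rowR a i) = (dt γ (vec 1 0 (fun j => (a i j : ℤ))) : ℝ) := by
  rw [RAT_dt]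
  simp only [RATρ, H22.rowR, Sum.elim_inl, Sum.elim_inr]
  push_cast
  rfl

private theorem RAT_eR {n : ℕ} (γ : Lat (n + 2)) (k : Fin n) :
    RATρ γ (eR k) = (dt γ (vec 0 0 (ev k)) : ℝ) := by
  rw [RAT_dt]
  simp [RATρ, eR, ev, Pi.single_apply]

private theorem RAT_fam {n r : ℕ} (a : Fin r → (Fin n →₀ ℕ)) (w : Fin n → ℕ)
    (σ : Finset (Fin r)) (γ : Lat (n + 2)) (s : RATS w σ) :
    RATρ γ (RATR a w σ s) = (dt γ (RATX a w σ s) : ℝ) := by
  rcases s with b | j
  · exact RAT_row a γ b.1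
  · exact RAT_eR γ j.1

private theorem RAT_coord {n r : ℕ} (a : Fin r → (Fin n →₀ ℕ)) (w : Fin n → ℕ)
    (σ : Finset (Fin r)) (s : RATS w σ) :
    (RATR a w σ s (Sum.inl ()) = ((RATX a w σ s 0 : ℤ) : ℝ)) ∧
      ∀ j : Fin n, RATR a w σ s (Sum.inr j) = ((RATX a w σ s j.succ.succ : ℤ) : ℝ) := by
  rcases s with b | k
  · refine ⟨?_, fun j => ?_⟩
    · simp [RATR, RATX, H22.rowR, vec]
    · simp [RATR, RATX, H22.rowR, vec]
  · refine ⟨?_, fun j => ?_⟩
    · simp [RATR, RATX, eR, vec]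
    · simp [RATR, RATX, eR, vec, ev, Pi.single_apply]

private theorem RAT_ind {n r : ℕ} (a : Fin r → (Fin n →₀ ℕ)) (w : Fin n → ℕ)
    (σ : Finset (Fin r)) (h : LinearIndependent ℝ (RATR a w σ)) :
    LinearIndependent ℤ (RATX a w σ) := by
  rw [Fintype.linearIndependent_iff] at h ⊢
  intro g hg s
  have h1 : ∑ s, (g s : ℝ) • RATR a w σ s = 0 := by
    funext y
    rw [Finset.sum_apply]
    rcases y with u | j
    · have h2 := congrFun hg 0
      rw [Finset.sum_apply] at h2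
      simp only [Pi.smul_apply, smul_eq_mul, Pi.zero_apply] at h2 ⊢
      have h3 : ∑ s, (g s : ℝ) * RATR a w σ s (Sum.inl u) =
          ((∑ s, g s * RATX a w σ s 0 : ℤ) : ℝ) := by
        push_cast
        exact sum_congr rfl fun s _ => by rw [(RAT_coord a w σ s).1]
      rw [h3, h2, Int.cast_zero]
    · have h2 := congrFun hg j.succ.succ
      rw [Finset.sum_apply] at h2
      simp only [Pi.smul_apply, smul_eq_mul, Pi.zero_apply] at h2 ⊢
      have h3 : ∑ s, (g s : ℝ) * RATR a w σ s (Sum.inr j) =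
          ((∑ s, g s * RATX a w σ s j.succ.succ : ℤ) : ℝ) := by
        push_cast
        exact sum_congr rfl fun s _ => by rw [(RAT_coord a w σ s).2 j]
      rw [h3, h2, Int.cast_zero]
  exact_mod_cast h (fun s => (g s : ℝ)) h1 s

/-- RAT -/
theorem rat {n r : ℕ} (a : Fin r → (Fin n →₀ ℕ)) (w : Fin n → ℕ) (σ : Finset (Fin r))
    (hF : FD a w σ) :
    ∃ (lam : Fin r → ℚ) (mu : Fin n → ℚ) (th : Fin r → Fin r → ℚ), RD a w σ lam mu th := by
  classical
  have hindR : LinearIndependent ℝ (RATR a w σ) := hF.ind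
  have hindX : LinearIndependent ℤ (RATX a w σ) := RAT_ind a w σ hindR
  obtain ⟨D, hD, hdual⟩ := SIMXaux.dual_exists (RATX a w σ) hindX
  choose γ hγ using fun s : RATS w σ => hdual (Pi.single s 1)
  have hDR : (D : ℝ) ≠ 0 := by exact_mod_cast hD.ne'
  have hDQ : (D : ℚ) ≠ 0 := by exact_mod_cast hD.ne'
  have hγR : ∀ s t, RATρ (γ s) (RATR a w σ t) = if t = s then (D : ℝ) else 0 := by
    intro s t
    rw [RAT_fam, hγ s t, Pi.single_apply]
    split_ifs <;> simp
  -- the coefficients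
  have hcoef : ∀ (c : RATS w σ → ℝ) (s : RATS w σ),
      RATρ (γ s) (∑ t, c t • RATR a w σ t) = D * c s := by
    intro c s
    rw [RAT_sum]
    simp only [hγR]
    simp [mul_comm]
  -- the functions
  set th : Fin r → Fin r → ℚ := fun i b =>
    if h : b ∈ σ then ((dt (γ (Sum.inl ⟨b, h⟩)) (vec 1 0 (fun j => (a i j : ℤ))) : ℤ) : ℚ) / D
    else 0 with hth
  set pQ : Lat (n + 2) → ℚ := fun g =>
    (g 0 : ℚ) * ((H22.wsum w : ℚ) / (H22.wmin a w : ℚ)) + ∑ j : Fin n, (g j.succ.succ : ℚ) with hpQ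
  have hpR : ∀ g, RATρ g (p0R a w) = ((pQ g : ℚ) : ℝ) := by
    intro g
    simp only [RATρ, p0R, Sum.elim_inl, Sum.elim_inr, hpQ, mul_one]
    push_cast
    rfl
  set lam : Fin r → ℚ := fun b => if h : b ∈ σ then pQ (γ (Sum.inl ⟨b, h⟩)) / D else 0 with hlam
  set mu : Fin n → ℚ := fun j => if h : w j = 0 then pQ (γ (Sum.inr ⟨j, h⟩)) / D else 0 with hmu
  -- conv
  have hconv : ∀ i, ∑ j, a i j * w j = H22.wmin a w → ∃ t : {b : Fin r // b ∈ σ} → ℝ,
      (∀ b, 0 ≤ t b) ∧ ∑ b, t b = 1 ∧ H22.rowR a i = ∑ b, t b • H22.rowR a b.1 := by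
    intro i hi
    obtain ⟨ι, _, c, z, h0, h1, hz, hx⟩ := mem_convexHull_iff_exists_fintype.1 (hF.conv i hi)
    have hz' : ∀ k, ∃ b : {b : Fin r // b ∈ σ}, H22.pointR a b.1 = z k := by
      intro k
      obtain ⟨b, hb, hbz⟩ := hz k
      exact ⟨⟨b, hb⟩, hbz⟩
    choose f hf using hz'
    have hfib : ∀ F : {b : Fin r // b ∈ σ} → ℝ,
        ∑ b, (∑ k ∈ univ.filter (fun k => f k = b), c k) * F b = ∑ k, c k * F (f k) := by
      intro F
      simp only [sum_mul]
      rw [← Finset.sum_fiberwise univ f (fun k => c k * F (f k))]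
      refine sum_congr rfl fun b _ => sum_congr rfl fun k hk => ?_
      rw [(mem_filter.1 hk).2]
    refine ⟨fun b => ∑ k ∈ univ.filter (fun k => f k = b), c k,
      fun b => sum_nonneg fun k _ => h0 k, ?_, ?_⟩
    · have h2 := hfib (fun _ => 1)
      simp only [mul_one] at h2
      rw [h2, h1]
    · funext y
      rw [Finset.sum_apply]
      simp only [Pi.smul_apply, smul_eq_mul]
      rcases y with u | j
      · rw [hfib (fun b => H22.rowR a b.1 (Sum.inl u))]
        simp only [H22.rowR, Sum.elim_inl, mul_one]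
        exact h1.symm
      · rw [hfib (fun b => H22.rowR a b.1 (Sum.inr j))]
        have h3 := congrFun hx j
        rw [Finset.sum_apply] at h3
        simp only [H22.rowR, Sum.elim_inr]
        have h4 : (a i j : ℝ) = H22.pointR a i j := rfl
        rw [h4, ← h3]
        refine sum_congr rfl fun k _ => ?_
        rw [Pi.smul_apply, smul_eq_mul, ← hf k]
        rfl
  have hthR : ∀ i, ∑ j, a i j * w j = H22.wmin a w → ∃ t : {b : Fin r // b ∈ σ} → ℝ,
      (∀ b, 0 ≤ t b) ∧ ∑ b, t b = 1 ∧ H22.rowR a i = ∑ b, t b • H22.rowR a b.1 ∧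
      ∀ b : {b : Fin r // b ∈ σ}, ((th i b.1 : ℚ) : ℝ) = t b := by
    intro i hi
    obtain ⟨t, h0, h1, h2⟩ := hconv i hi
    refine ⟨t, h0, h1, h2, fun b => ?_⟩
    have h3 := hcoef (Sum.elim t (fun _ => 0)) (Sum.inl b)
    have h4 : ∑ s, (Sum.elim t (fun _ => 0) : RATS w σ → ℝ) s • RATR a w σ s = H22.rowR a i := by
      rw [Fintype.sum_sum_type, h2]
      simp [RATR]
    rw [h4, RAT_row] at h3
    simp only [hth, dif_pos b.2]
    push_cast
    rw [Sum.elim_inl] at h3
    rw [h3]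
    field_simp
  -- span
  have hspan : ∃ c : RATS w σ → ℝ, p0R a w = ∑ s, c s • RATR a w σ s := by
    have h1 := hF.span
    have h2 : ({y | ∃ b ∈ σ, y = H22.rowR a b} ∪ {y | ∃ j, w j = 0 ∧ y = eR j} :
        Set (Unit ⊕ Fin n → ℝ)) = Set.range (RATR a w σ) := by
      ext y
      constructor
      · rintro (⟨b, hb, rfl⟩ | ⟨j, hj, rfl⟩)
        · exact ⟨Sum.inl ⟨b, hb⟩, rfl⟩
        · exact ⟨Sum.inr ⟨j, hj⟩, rfl⟩
      · rintro ⟨s, rfl⟩
        rcases s with b | j
        · exact Or.inl ⟨b.1, b.2, rfl⟩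
        · exact Or.inr ⟨j.1, j.2, rfl⟩
    rw [h2, Submodule.mem_span_range_iff_exists_fun] at h1
    obtain ⟨c, hc⟩ := h1
    exact ⟨c, hc.symm⟩
  obtain ⟨c, hc⟩ := hspan
  have hlamc : ∀ b : {b : Fin r // b ∈ σ}, ((lam b.1 : ℚ) : ℝ) = c (Sum.inl b) := by
    intro b
    have h3 := hcoef c (Sum.inl b)
    rw [← hc, hpR] at h3
    simp only [hlam, dif_pos b.2]
    push_cast
    rw [h3]
    field_simp
  have hmuc : ∀ j : {j : Fin n // w j = 0}, ((mu j.1 : ℚ) : ℝ) = c (Sum.inr j) := by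
    intro j
    have h3 := hcoef c (Sum.inr j)
    rw [← hc, hpR] at h3
    simp only [hmu, dif_pos j.2]
    push_cast
    rw [h3]
    field_simp
  refine ⟨lam, mu, th, hF.pos, hF.on, hindX, ?_, ?_, ?_, ?_, ?_⟩
  · intro i hi b hb
    obtain ⟨t, h0, -, -, h3⟩ := hthR i hi
    have h4 := h3 ⟨b, hb⟩
    have h5 := h0 ⟨b, hb⟩
    rw [← h4] at h5
    exact_mod_cast h5
  · intro i hi
    obtain ⟨t, -, h1, -, h3⟩ := hthR i hi
    have h4 : ((∑ b ∈ σ, th i b : ℚ) : ℝ) = 1 := by
      push_cast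
      rw [← Finset.sum_coe_sort σ (fun b => ((th i b : ℚ) : ℝ)), ← h1]
      exact sum_congr rfl fun b _ => h3 b
    exact_mod_cast h4
  · intro i hi j
    obtain ⟨t, -, -, h2, h3⟩ := hthR i hi
    have h5 := congrFun h2 (Sum.inr j)
    rw [Finset.sum_apply] at h5
    simp only [Pi.smul_apply, smul_eq_mul, H22.rowR, Sum.elim_inr] at h5
    have h4 : ((a i j : ℚ) : ℝ) = ((∑ b ∈ σ, th i b * (a b j : ℚ) : ℚ) : ℝ) := by
      push_cast
      rw [← Finset.sum_coe_sort σ (fun b => ((th i b : ℚ) : ℝ) * (a b j : ℝ)), h5]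
      exact sum_congr rfl fun b _ => by rw [h3 b]
    exact_mod_cast h4
  · have h5 := congrFun hc (Sum.inl ())
    rw [Finset.sum_apply, Fintype.sum_sum_type] at h5
    simp only [Pi.smul_apply, smul_eq_mul, RATR, Sum.elim_inl, Sum.elim_inr, H22.rowR, eR, p0R,
      mul_one, mul_zero, sum_const_zero, add_zero] at h5
    have h4 : ((∑ b ∈ σ, lam b : ℚ) : ℝ) =
        (((H22.wsum w : ℚ) / (H22.wmin a w : ℚ) : ℚ) : ℝ) := by
      push_cast
      rw [← Finset.sum_coe_sort σ (fun b => ((lam b : ℚ) : ℝ)), h5]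
      exact sum_congr rfl fun b _ => hlamc b
    exact_mod_cast h4
  · intro j
    have h5 := congrFun hc (Sum.inr j)
    rw [Finset.sum_apply, Fintype.sum_sum_type] at h5
    simp only [Pi.smul_apply, smul_eq_mul, RATR, Sum.elim_inl, Sum.elim_inr, H22.rowR, eR,
      p0R] at h5
    have h6 : ∑ k : {j : Fin n // w j = 0}, c (Sum.inr k) * (Pi.single k.1 (1 : ℝ) : Fin n → ℝ) j =
        if w j = 0 then ((mu j : ℚ) : ℝ) else 0 := by
      by_cases hj : w j = 0
      · rw [if_pos hj, Finset.sum_eq_single (⟨j, hj⟩ : {j : Fin n // w j = 0})]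
        · rw [Pi.single_eq_same, mul_one, ← hmuc]
        · intro k _ hk
          rw [Pi.single_apply, if_neg, mul_zero]
          intro h
          exact hk (Subtype.ext h.symm)
        · intro h
          exact absurd (mem_univ _) h
      · rw [if_neg hj]
        refine sum_eq_zero fun k _ => ?_
        rw [Pi.single_apply, if_neg, mul_zero]
        intro h
        exact hj (h ▸ k.2)
    rw [h6] at h5
    have h4 : ((∑ b ∈ σ, lam b * (a b j : ℚ) + (if w j = 0 then mu j else 0) : ℚ) : ℝ) =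
        ((1 : ℚ) : ℝ) := by
      push_cast
      rw [← Finset.sum_coe_sort σ (fun b => ((lam b : ℚ) : ℝ) * (a b j : ℝ)), h5]
      congr 1
      · exact sum_congr rfl fun b _ => by rw [hlamc b]
      · split_ifs <;> simp
    exact_mod_cast h4

end Pool.Agent.H56.T5
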