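import Pool.Agent.H56.T5.LB

/-!
# DEGL: reduction of the degree

ADAPT the second half of the proof of `sl` (`Pool/Agent/H56/SMC/SL.lean`, lowering of the degrees and the end; there a further relation
`h0` has to be carried along, here there is none).

Proof.  Claim: there is a representation `single 0 b = ∑ D_k z_k` with all `z_k` supported in `S ∩ LL ℓ P {k}` and in degrees
`dt δ u ≤ -1`.  Downward induction on the maximal degree `N ≥ 0` of the `z_k`: let `t_k` = part of degree `N` of `z_k`; the part of degree
`N+1 ≥ 1` of the equation: `∑ g_k * t_k = 0` (`g_k = gs a c (ℓ k)` raises the degree by one: `hδ` for the `i` with `c i ≠ 0`).  By `hK`: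
`t_k = ∑_l g_l y_kl`; replace `y_kl` by its part of degree `N-1`.  `z'_k = z_k + ∑_l D_l y_kl` is supported in `S ∩ LL ℓ P {k}` (`LL_Dop`) in
degrees `≤ N-1`, and `∑ D_k z'_k = ∑ D_k z_k` (`Dop_antisymmL`, `lp_eq_neg_self`).  With the `z_k` in degrees `≤ -1` the part of degree `0`
of the equation is `single 0 b = -∑_k g_k t_k`, `t_k` the part of degree `-1` of `z_k`.
-/

set_option autoImplicit false

namespace Pool.Agent.H56.T5

open Finset AddMonoidAlgebra
open Pool.Agent.H56.SMC Pool.Agent.H37.T5

/-- DEGL -/
theorem degL {d s : ℕ} {ι : Type} [Fintype ι] (a : ι → Lat d) (c : ι → ℂ) (p : Fin d → ℂ)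
    (ℓ : Fin s → Lat d) (P : Finset (Fin s)) (hP1 : ∀ k ∈ P, pv p (ℓ k) = 1)
    (hPa : ∀ k ∈ P, ∀ i, 0 ≤ dt (ℓ k) (a i))
    (S : Set (Lat d)) (δ : Lat d) (hδ : ∀ i, c i ≠ 0 → dt δ (a i) = 1)
    (hS : ∀ u ∈ S, ∀ i, c i ≠ 0 → u + a i ∈ S) (hK : KExactL a c ℓ P S)
    (b : ℂ) (hex : ExL p a c ℓ P S (single 0 b)) :
    ∃ t : Fin s → LP ℂ d, (∀ k, Supp {u | u ∈ S ∧ u ∈ LL ℓ P {k} ∧ dt δ u = -1} (t k)) ∧
      (single 0 b : LP ℂ d) = ∑ k, gs a c (ℓ k) * t k := by
  classical
  obtain ⟨z0, hz0, heq0⟩ := hex
  -- lowering of the degrees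
  have key : ∀ (n : ℕ) (z : Fin s → LP ℂ d), (∀ j, Supp (S ∩ LL ℓ P {j}) (z j)) →
      (∀ j, Supp {u | dt δ u < n} (z j)) →
      (single 0 b : LP ℂ d) = ∑ j, Dop p a c (ℓ j) (z j) →
      ∃ z' : Fin s → LP ℂ d, (∀ j, Supp (S ∩ LL ℓ P {j}) (z' j)) ∧
        (∀ j, Supp {u | dt δ u < 0} (z' j)) ∧
        (single 0 b : LP ℂ d) = ∑ j, Dop p a c (ℓ j) (z' j) := by
    intro n
    induction n with
    | zero =>
      intro z hzS hz hzz
      exact ⟨z, hzS, fun j u hu => by simpa using hz j u hu, hzz⟩
    | succ n ih =>
      intro z hzS hz hzz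
      set N : ℤ := (n : ℤ) with hN
      have hN0 : 0 ≤ N := Int.natCast_nonneg n
      let t : Fin s → LP ℂ d := fun j => dg (fun u => if dt δ u = N then (1 : ℂ) else 0) (z j)
      have ht : ∀ j u, (t j).coeff u = (if dt δ u = N then (1 : ℂ) else 0) * (z j).coeff u :=
        fun j u => dg_coeff _ _ _
      have htS : ∀ j, Supp (S ∩ LL ℓ P {j}) (t j) := fun j => (hzS j).dg _
      have htop : ∀ j u, dt δ u = N + 1 → (z j).coeff u = 0 := by
        intro j u hu
        by_contra h1
        have : dt δ u < ((n + 1 : ℕ) : ℤ) := hz j u h1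
        push_cast at this
        omega
      have hgt : ∑ j, gs a c (ℓ j) * t j = 0 := by
        apply lp_ext
        intro u
        rw [coeff_finsum, coeff_zero']
        by_cases hu : dt δ u = N + 1
        · have h1 : (∑ j, Dop p a c (ℓ j) (z j)).coeff u = 0 := by
            rw [← hzz, coeff_single', if_neg]
            rintro rfl
            rw [dt_zero] at hu
            omega
          rw [coeff_finsum] at h1
          have h2 : ∀ j, (Dop p a c (ℓ j) (z j)).coeff u = -(gs a c (ℓ j) * t j).coeff u := by
            intro j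
            rw [Dop_coeff, htop j u hu, mul_zero, zero_sub, gs_mul_coeff]
            congr 1
            refine Finset.sum_congr rfl fun i _ => ?_
            by_cases hci : c i = 0
            · rw [hci]; ring
            · have h3 : dt δ (u - a i) = N := by rw [dt_sub, hδ i hci, hu]; ring
              rw [ht, if_pos h3, one_mul]
          simp only [h2, Finset.sum_neg_distrib, neg_eq_zero] at h1
          exact h1
        · refine Finset.sum_eq_zero fun j _ => ?_
          rw [gs_mul_coeff]
          refine Finset.sum_eq_zero fun i _ => ?_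
          by_cases hci : c i = 0
          · rw [hci]; ring
          · have h3 : dt δ (u - a i) ≠ N := by rw [dt_sub, hδ i hci]; omega
            rw [ht, if_neg h3, zero_mul, mul_zero]
      obtain ⟨y0, hy0S, hy0a, hy0⟩ := hK t htS hgt
      let y : Fin s → Fin s → LP ℂ d :=
        fun j k => dg (fun u => if dt δ u = N - 1 then (1 : ℂ) else 0) (y0 j k)
      have hy : ∀ j k u, (y j k).coeff u =
          (if dt δ u = N - 1 then (1 : ℂ) else 0) * (y0 j k).coeff u := fun j k u => dg_coeff _ _ _
      have hyS : ∀ j k, Supp (S ∩ LL ℓ P {j, k}) (y j k) := fun j k => (hy0S j k).dg _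
      have hya : ∀ j k, y j k = -y k j := by
        intro j k
        apply lp_ext
        intro u
        rw [coeff_neg', hy, hy, hy0a j k, coeff_neg', mul_neg]
      have hyt : ∀ j, t j = ∑ k, gs a c (ℓ k) * y j k := by
        intro j
        apply lp_ext
        intro u
        rw [coeff_finsum]
        by_cases hu : dt δ u = N
        · have h1 : (t j).coeff u =
              (∑ k, gs a c (ℓ k) * y0 j k).coeff u := by rw [← hy0 j]
          rw [h1, coeff_finsum]
          refine Finset.sum_congr rfl fun k _ => ?_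
          rw [gs_mul_coeff, gs_mul_coeff]
          refine Finset.sum_congr rfl fun i _ => ?_
          by_cases hci : c i = 0
          · rw [hci]; ring
          · have h3 : dt δ (u - a i) = N - 1 := by rw [dt_sub, hδ i hci, hu]
            rw [hy, if_pos h3, one_mul]
        · rw [ht, if_neg hu, zero_mul]
          symm
          refine Finset.sum_eq_zero fun k _ => ?_
          rw [gs_mul_coeff]
          refine Finset.sum_eq_zero fun i _ => ?_
          by_cases hci : c i = 0
          · rw [hci]; ring
          · have h3 : dt δ (u - a i) ≠ N - 1 := by rw [dt_sub, hδ i hci]; omega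
            rw [hy, if_neg h3, zero_mul, mul_zero]
      refine ih (fun j => z j + ∑ k, Dop p a c (ℓ k) (y j k)) ?_ ?_ ?_
      · intro j
        refine (hzS j).add (Supp.sum _ fun k _ => ?_)
        refine LL_Dop p a c ℓ P {j} hP1 hPa S hS k (y j k) ?_
        rw [Finset.pair_comm]
        exact hyS j k
      · intro j
        have e1 : z j + ∑ k, Dop p a c (ℓ k) (y j k) = (z j - t j) +
            ∑ k, dg (fun u => pv p (ℓ k) + (dt (ℓ k) u : ℂ)) (y j k) := by
          have e2 : ∀ k, Dop p a c (ℓ k) (y j k) =
              dg (fun u => pv p (ℓ k) + (dt (ℓ k) u : ℂ)) (y j k) - gs a c (ℓ k) * y j k :=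
            fun k => rfl
          simp only [e2, Finset.sum_sub_distrib]
          rw [hyt j]
          abel
        show Supp {u | dt δ u < n} (z j + ∑ k, Dop p a c (ℓ k) (y j k))
        rw [e1]
        refine Supp.add ?_ (Supp.sum _ fun k _ => Supp.dg _ ?_)
        · intro u hu
          rw [coeff_sub', ht] at hu
          have h1 : (z j).coeff u ≠ 0 := by
            intro h; apply hu; rw [h, mul_zero, sub_zero]
          have h3 : dt δ u < ((n + 1 : ℕ) : ℤ) := hz j u h1
          show dt δ u < (n : ℤ)
          by_contra h4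
          have h5 : dt δ u = N := by
            push_cast at h3
            omega
          apply hu
          rw [if_pos h5, one_mul, sub_self]
        · intro u hu
          rw [hy] at hu
          have h1 : dt δ u = N - 1 := by
            by_contra h
            apply hu
            rw [if_neg h, zero_mul]
          show dt δ u < (n : ℤ)
          omega
      · have e3 : ∑ j, Dop p a c (ℓ j) (∑ k, Dop p a c (ℓ k) (y j k)) = 0 :=
          Dop_antisymmL p a c ℓ lp_eq_neg_self y hya
        simp only [Dop_add, Finset.sum_add_distrib]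
        rw [e3, ← hzz, add_zero]
  obtain ⟨z', hz'S, hz', hzz'⟩ := key (∑ j, ∑ u ∈ (z0 j).coeff.support, (dt δ u + 1).toNat) z0
    hz0
    (fun j u hu => by
      show dt δ u < ((∑ j, ∑ u ∈ (z0 j).coeff.support, (dt δ u + 1).toNat : ℕ) : ℤ)
      have h1 : (dt δ u + 1).toNat ≤
          ∑ j, ∑ u ∈ (z0 j).coeff.support, (dt δ u + 1).toNat := by
        refine le_trans ?_ (Finset.single_le_sum (f := fun j => ∑ u ∈ (z0 j).coeff.support,
          (dt δ u + 1).toNat) (fun _ _ => Nat.zero_le _) (Finset.mem_univ j))
        exact Finset.single_le_sum (f := fun u => (dt δ u + 1).toNat)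
          (fun _ _ => Nat.zero_le _) (Finsupp.mem_support_iff.2 hu)
      omega) heq0
  -- the part of degree `-1`
  let t : Fin s → LP ℂ d := fun j => dg (fun u => if dt δ u = -1 then (-1 : ℂ) else 0) (z' j)
  have ht : ∀ j u, (t j).coeff u = (if dt δ u = -1 then (-1 : ℂ) else 0) * (z' j).coeff u :=
    fun j u => dg_coeff _ _ _
  refine ⟨t, fun j u hu => ?_, ?_⟩
  · rw [ht] at hu
    have h1 := hz'S j u (fun h => hu (by rw [h, mul_zero]))
    refine ⟨h1.1, h1.2, ?_⟩
    by_contra h
    exact hu (by rw [if_neg h, zero_mul])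
  · apply lp_ext
    intro u
    rw [coeff_finsum]
    by_cases hu : dt δ u = 0
    · rw [hzz', coeff_finsum]
      refine Finset.sum_congr rfl fun j _ => ?_
      have h1 : (z' j).coeff u = 0 := by
        by_contra h
        have h2 : dt δ u < 0 := hz' j u h
        omega
      rw [Dop_coeff, h1, mul_zero, zero_sub, gs_mul_coeff, ← Finset.sum_neg_distrib]
      refine Finset.sum_congr rfl fun i _ => ?_
      by_cases hci : c i = 0
      · rw [hci]; ring
      · have h3 : dt δ (u - a i) = -1 := by rw [dt_sub, hδ i hci, hu]; ring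
        rw [ht, if_pos h3]
        ring
    · have h1 : (single 0 b : LP ℂ d).coeff u = 0 := by
        rw [coeff_single', if_neg]
        rintro rfl
        exact hu (dt_zero δ)
      rw [h1]
      symm
      refine Finset.sum_eq_zero fun j _ => ?_
      rw [gs_mul_coeff]
      refine Finset.sum_eq_zero fun i _ => ?_
      by_cases hci : c i = 0
      · rw [hci]; ring
      · have h3 : dt δ (u - a i) ≠ -1 := by rw [dt_sub, hδ i hci]; omega
        rw [ht, if_neg h3, zero_mul, mul_zero]

end Pool.Agent.H56.T5
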