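import Pool.Agent.H56.T5.FAMV
import Pool.Agent.H56.T5.RGE
import Pool.Agent.H56.T5.DEGL
import Pool.Agent.H56.SMC.APPG

/-!
# SLF: the contradiction on the slice

Write `A = A5 a M`, `X τ = A (XT w σ τ)`, `c' = cF A c (h5 a w)`, `S' = RS a M w σ m0 T' m1`, `ℓ' k = fam w σ γ jb (e k)`, `P' = PP w σ jb e`, `m0 = M * m1`.
Proof.  `degL` (`Pool/Agent/H56/T5/DEGL.lean`) with `δ = vec 1 1 0` (`appg_delta`): `hP1`: for `k ∈ P'` `ℓ' k = ev j.succ.succ`, `pv (pp …) (ev j.succ.succ) = 1`; `hPa`; `hS`: `rs_add` (`c' i ≠ 0` gives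
`dt (h5 a w) (A i) = 0`).  It gives `t k` supported in `{u ∈ S', u ∈ LL ℓ' P' {k}}` and `single 0 β = ∑ k, gs A c' (ℓ' k) * t k`.  Suppose `β ≠ 0`.  The coefficient at `0` (`gs_mul_coeff`): some `k`, `i` with
`c' i ≠ 0` (so `dt (h5 a w) (A i) = 0`) and `(t k).coeff (0 - A i) ≠ 0`, so `-A i ∈ S'` and `-A i ∈ LL ℓ' P' {k}`.  By `rge`:
`0 ≤ dt (γ (inr none)) (-A i)`, `0 ≤ m0 * dt (γ (inr (some j))) (-A i) + G * m1`, `0 ≤ m0 * dt (γ (inl b)) (-A i) + G * T' b`.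
`i = inr (inl none)` is a generator: `dt (γ (inr none)) (-A i) = -G < 0`, contradiction.  `i = inr (inl (some j))`: `dt (h5 a w) (A i) = M * w j`, so `w j = 0` and it is a generator:
`0 ≤ -m0 G + G m1 = G m1 (1 - M) < 0` (`M ≥ 2`), contradiction.  `i = inl i0`: `dt (h5 a w) (A i) = 0` means that `i0` is on the face (`∑ j, a i0 j * w j = wmin a w`);
`0 ≤ -m0 * (G * th i0 b) + G * T' b` (`hG.thb`), so `th i0 b * m0 ≤ T' b` for all `b ∈ σ`.  By `hZ.no` there are `j1, j2 ∈ P` with `a i0 j1 ≠ 0`, `a i0 j2 ≠ 0`, `j1 ≠ j2`.  Let `b1, b2 ∈ σ` be vertices with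
`a b1 j1 ≠ 0`, `a b2 j2 ≠ 0` (`hZ.TD`), so `jb b1 = some j1`, `jb b2 = some j2` (`hjb`), `b1 ≠ b2`; `k1 = e.symm (inl b1)`, `k2 = e.symm (inl b2)` are in `P'` and different, so one of them,
say `k1`, is `≠ k`, and `0 ≤ dt (ℓ' k1) (-A i) = -(a i0 j1)`, contradiction.
-/

set_option autoImplicit false

namespace Pool.Agent.H56.T5

open Finset AddMonoidAlgebra
open Pool.Agent.H56.SMC Pool.Agent.H37.T5

theorem SLF_pv {n : ℕ} (s t : ℂ) (j : Fin n) :
    pv (pp s t) (ev j.succ.succ : Lat (n + 2)) = 1 := by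
  have h : (ev j.succ.succ : Lat (n + 2)) = vec 0 0 (ev j) := by
    funext i
    refine Fin.cases ?_ (fun i => Fin.cases ?_ (fun i => ?_) i) i
    · simp [vec, ev, Pi.single_apply]
    · simp only [vec, ev, Fin.cons_succ, Fin.cons_zero, Pi.single_apply]
      rw [if_neg]
      intro h
      exact Fin.succ_ne_zero _ (Fin.succ_injective _ h).symm
    · simp [vec, ev, Pi.single_apply]
  rw [h, pv_pp]
  simp [ev, Pi.single_apply]

theorem SLF_coord {n r : ℕ} (a : Fin r → (Fin n →₀ ℕ)) (M : ℤ) (hM : 0 < M) (j : Fin n)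
    (i : Fin r ⊕ (Option (Fin n) ⊕ Fin 0)) : 0 ≤ dt (ev j.succ.succ) (A5 a M i) := by
  rw [dt_ev]
  rcases i with i | (o | k)
  · rw [A5_inl]
    simp [vec]
  · have h := appg_bbM_nonneg (noW n) M hM o j
    simpa [A5, cA, vec] using h
  · exact k.elim0

theorem SLF_inl {n r : ℕ} (a : Fin r → (Fin n →₀ ℕ)) (M : ℤ) (j : Fin n) (i : Fin r) :
    dt (ev j.succ.succ) (A5 a M (Sum.inl i)) = (a i j : ℤ) := by
  rw [dt_ev, A5_inl]
  simp [vec]

theorem SLF_h5_inl {n r : ℕ} (a : Fin r → (Fin n →₀ ℕ)) (M : ℤ) (w : Fin n → ℕ) (i : Fin r)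
    (h : dt (h5 a w) (A5 a M (Sum.inl i)) = 0) : ∑ j, a i j * w j = H22.wmin a w := by
  rw [A5_inl, h5, dt_vec] at h
  have h2 : ((∑ j, a i j * w j : ℕ) : ℤ) = (H22.wmin a w : ℤ) := by
    push_cast
    have h3 : ∑ j, (w j : ℤ) * (a i j : ℤ) = ∑ j, (a i j : ℤ) * (w j : ℤ) :=
      sum_congr rfl fun j _ => mul_comm _ _
    linarith
  exact_mod_cast h2

theorem SLF_h5_some {n r : ℕ} (a : Fin r → (Fin n →₀ ℕ)) (M : ℤ) (hM : 0 < M) (w : Fin n → ℕ)
    (j : Fin n) (h : dt (h5 a w) (A5 a M (Sum.inr (Sum.inl (some j)))) = 0) : w j = 0 := by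
  rw [A5_some, h5, dt_vec] at h
  simp only [ev, Pi.smul_apply, Pi.single_apply, smul_eq_mul, mul_ite, mul_one, mul_zero,
    Finset.sum_ite_eq', mem_univ, if_true, add_zero, zero_add, zero_mul] at h
  rcases mul_eq_zero.1 h with h1 | h1
  · exact_mod_cast h1
  · exact absurd h1 hM.ne'

/-- SLF -/
theorem slF {n r s : ℕ} (a : Fin r → (Fin n →₀ ℕ)) (M : ℤ) (hM : 2 ≤ M) (w : Fin n → ℕ)
    (hN : 0 < H22.wmin a w) (σ : Finset (Fin r))
    (hon : ∀ b ∈ σ, ∑ j, a b j * w j = H22.wmin a w)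
    (lam : Fin r → ℚ) (th : Fin r → Fin r → ℚ) (G : ℤ) (γ : TT w σ → Lat (n + 2))
    (q : TT w σ → ℂ) (hG : GD a M w σ lam th G γ q) (m1 : ℤ) (hm1 : 0 < m1)
    (D P : Finset (Fin n)) (T T' : Fin r → ℤ) (hZ : SZ a w σ lam th (M * m1) D P T T')
    (jb : Fin r → Option (Fin n)) (hjb : JB a σ P jb) (e : Fin s ≃ TT w σ)
    (c : Fin r ⊕ (Option (Fin n) ⊕ Fin 0) → ℂ)
    (hK : KExactL (A5 a M) (cF (A5 a M) c (h5 a w)) (fun k => fam w σ γ jb (e k)) (PP w σ jb e)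
      (RS a M w σ (M * m1) T' m1)) (β : ℂ)
    (hex : ExL (pp (-(H22.wsum w : ℂ) / (H22.wmin a w : ℂ)) Complex.I) (A5 a M)
      (cF (A5 a M) c (h5 a w)) (fun k => fam w σ γ jb (e k)) (PP w σ jb e)
      (RS a M w σ (M * m1) T' m1) (single 0 β)) : β = 0 := by
  classical
  have hM0 : 0 < M := by linarith
  have hm0 : 0 < M * m1 := mul_pos hM0 hm1
  have hP : ∀ k ∈ PP w σ jb e, ∃ j : Fin n, fam w σ γ jb (e k) = ev j.succ.succ := by
    intro k hk
    rw [PP, mem_filter] at hk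
    obtain ⟨-, b, hb, hjbn⟩ := hk
    obtain ⟨j, hj⟩ := Option.ne_none_iff_exists'.1 hjbn
    refine ⟨j, ?_⟩
    rw [hb]
    simp only [fam]
    rw [hj]
    rfl
  obtain ⟨t, ht, hsum⟩ := degL (A5 a M) (cF (A5 a M) c (h5 a w))
    (pp (-(H22.wsum w : ℂ) / (H22.wmin a w : ℂ)) Complex.I) (fun k => fam w σ γ jb (e k))
    (PP w σ jb e)
    (fun k hk => by
      obtain ⟨j, hj⟩ := hP k hk
      simp only [hj]
      exact SLF_pv _ _ j)
    (fun k hk i => by
      obtain ⟨j, hj⟩ := hP k hk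
      simp only [hj]
      exact SLF_coord a M hM0 j i)
    (RS a M w σ (M * m1) T' m1) (vec 1 1 0) (fun i _ => appg_delta a (noW n) M i)
    (fun u hu i hi => rs_add a M w σ (M * m1) hm0 T' m1 u hu i (cF_ne hi)) hK β hex
  by_contra hβ
  -- a nonzero coefficient
  have h0 : (∑ k, gs (A5 a M) (cF (A5 a M) c (h5 a w)) (fam w σ γ jb (e k)) * t k).coeff 0 ≠ 0 := by
    rw [← hsum, coeff_single', if_pos rfl]
    exact hβ
  rw [coeff_finsum] at h0
  obtain ⟨k, -, hk⟩ := Finset.exists_ne_zero_of_sum_ne_zero h0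
  rw [gs_mul_coeff] at hk
  obtain ⟨i, -, hi⟩ := Finset.exists_ne_zero_of_sum_ne_zero hk
  have hci : cF (A5 a M) c (h5 a w) i ≠ 0 := fun h => hi (by rw [h, zero_mul, zero_mul])
  have hti : (t k).coeff (0 - A5 a M i) ≠ 0 := fun h => hi (by rw [h, mul_zero])
  have hface := cF_ne hci
  obtain ⟨hS, hLL, -⟩ := ht k _ hti
  rw [zero_sub] at hS hLL
  obtain ⟨-, hb, h00, hjj⟩ := (rge a M hM0 w hN σ hon lam th G γ q hG (M * m1) hm0 T' m1 _).1 hS
  have hG0 := hG.G0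
  rcases i with i0 | (o | k0)
  · -- an exponent of the polynomial
    have hf := SLF_h5_inl a M w i0 hface
    have hth : ∀ b ∈ σ, th i0 b * ((M * m1 : ℤ) : ℚ) ≤ (T' b : ℚ) := by
      intro b hbσ
      have h1 := hb ⟨b, hbσ⟩
      rw [dt_neg] at h1
      have h2 := hG.thb i0 hf ⟨b, hbσ⟩
      have h3 : (0 : ℚ) ≤ ((M * m1 : ℤ) : ℚ) *
          -(dt (γ (Sum.inl ⟨b, hbσ⟩)) (A5 a M (Sum.inl i0)) : ℚ) + (G : ℚ) * (T' b : ℚ) := by
        exact_mod_cast h1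
      rw [h2] at h3
      have h4 : (0 : ℚ) < G := by exact_mod_cast hG0
      have h5 : (0 : ℚ) ≤ (G : ℚ) * ((T' b : ℚ) - th i0 b * ((M * m1 : ℤ) : ℚ)) := by
        have : (G : ℚ) * ((T' b : ℚ) - th i0 b * ((M * m1 : ℤ) : ℚ)) =
            ((M * m1 : ℤ) : ℚ) * -((G : ℚ) * th i0 b) + (G : ℚ) * (T' b : ℚ) := by ring
        rw [this]
        exact h3
      have h6 := nonneg_of_mul_nonneg_right h5 h4
      linarith
    have hno := hZ.no i0 hf hth
    push Not at hno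
    obtain ⟨j1, hj1, j2, hj2, ha1, ha2, hne⟩ := hno
    -- the vertex of a direction is at `k`
    have key : ∀ j ∈ P, a i0 j ≠ 0 → ∃ b : {b : Fin r // b ∈ σ}, jb b.1 = some j ∧
        e k = Sum.inl b := by
      intro j hj haj
      obtain ⟨b, hbσ, hbj, -, -⟩ := hZ.TD j (hZ.PD hj)
      have hjbj : jb b = some j := (hjb b hbσ j).2 ⟨hj, hbj⟩
      refine ⟨⟨b, hbσ⟩, hjbj, ?_⟩
      by_contra hek
      set k1 := e.symm (Sum.inl ⟨b, hbσ⟩) with hk1
      have hek1 : e k1 = Sum.inl ⟨b, hbσ⟩ := by rw [hk1, Equiv.apply_symm_apply]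
      have hk1P : k1 ∈ PP w σ jb e := by
        rw [PP, mem_filter]
        refine ⟨mem_univ _, ⟨b, hbσ⟩, hek1, ?_⟩
        rw [hjbj]
        exact Option.some_ne_none j
      have hk1k : k1 ∉ ({k} : Finset (Fin s)) := by
        intro h
        rw [mem_singleton] at h
        apply hek
        rw [← h, hek1]
      have h1 := (hLL k1 hk1P).2 hk1k
      have h2 : fam w σ γ jb (e k1) = ev j.succ.succ := by
        rw [hek1]
        simp only [fam]
        rw [hjbj]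
        rfl
      simp only [h2] at h1
      rw [dt_neg, SLF_inl] at h1
      have h3 : (0 : ℤ) < (a i0 j : ℤ) := by
        have : 0 < a i0 j := Nat.pos_of_ne_zero haj
        exact_mod_cast this
      linarith
    obtain ⟨b1, hb1, he1⟩ := key j1 hj1 ha1
    obtain ⟨b2, hb2, he2⟩ := key j2 hj2 ha2
    have hbb : b1 = b2 := Sum.inl_injective (he1.symm.trans he2)
    subst hbb
    rw [hb1] at hb2
    exact hne (Option.some_injective _ hb2)
  · rcases o with _ | j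
    · have h1 := hG.dual (Sum.inr none) (Sum.inr none)
      rw [if_pos rfl] at h1
      rw [dt_neg] at h00
      have h2 : dt (γ (Sum.inr none)) (A5 a M (Sum.inr (Sum.inl none))) = G := h1
      rw [h2] at h00
      linarith
    · have hw := SLF_h5_some a M hM0 w j hface
      have h1 := hG.dual (Sum.inr (some ⟨j, hw⟩)) (Sum.inr (some ⟨j, hw⟩))
      rw [if_pos rfl] at h1
      have h2 : dt (γ (Sum.inr (some ⟨j, hw⟩))) (A5 a M (Sum.inr (Sum.inl (some j)))) = G := h1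
      have h3 := hjj ⟨j, hw⟩
      rw [dt_neg, h2] at h3
      have h4 : 0 < G * m1 := mul_pos hG0 hm1
      nlinarith
  · exact k0.elim0

end Pool.Agent.H56.T5
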