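import Pool.Agent.H56.T5.RGE
import Pool.Agent.H56.T5.RKL

/-!
# SLZ: raising of the levels on the slice

Write `A = A5 a M`, `X τ = A (XT w σ τ)`, `p = pp s0 I`, `S = RS a M w σ m0 T m1`, `S' = RS a M w σ m0 T' m1`, `B2 = {b ∈ σ : ∃ j1 ≠ j2 in D, a b j1 ≠ 0, a b j2 ≠ 0}`.
Proof.  (1) Let `u ∈ S ∩ LL ev (sh D) {k}` and `b ∈ B2`, with `j1 ≠ j2`.  One of them, `j`, has `j.succ.succ ≠ k`, so `0 ≤ u j.succ.succ` (`dt_ev`, `mem_sh`).  By
`rge` `u ∈ EE`, and `ee_dt` with `g = ev j.succ.succ`: `G * u j.succ.succ = ∑_τ dt (γ τ) u * (X τ) j.succ.succ`; only the generator `b` has `(X τ) j.succ.succ ≠ 0` (`hZ.TD j`: there is a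
unique vertex with `a b' j ≠ 0`, it is `b`; `w j ≠ 0` by `hZ.D0`, so the generators `(0,1;M e_j')`, `w_j' = 0`, have `j`-coordinate `0`), so
`G * u j.succ.succ = dt (γ (inl b)) u * a b j` and `0 ≤ dt (γ (inl b)) u`.  So the relation `hex` is an `ExL` with
`S0 = S ∩ {u | ∀ b ∈ B2, 0 ≤ dt (γ (inl b)) u}` in place of `S` (same `z`).
(2) `rkL` (`Pool/Agent/H56/T5/RKL.lean`) with this `S0`, `ℓ = ev`, `P = sh D`, `κ = {b : {b // b ∈ σ} // lam b ≤ 0}`, `g = γ (inl b)`, `θ v k = g v k` (`g = ∑ k, g k • ev k`),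
`l = 0`.  `hP1`: `pv p (ev j.succ.succ) = 1`.  `hPa`: the exponents have nonnegative coordinates.  `hh`, `hS0`: `hG.face` for the exponents with `cF … ≠ 0` (they have `dt (h5 a w) = 0`), `rs_add`.
`hnr`: `pv p (γ (inl b)) = ∑ q τ * dt (γ (inl b)) (X τ) = G * lam b` (`hG.par`, `hG.dual`, `hG.qb`), and `G * lam b + m < 0` for `m < 0` (cast from `ℚ`).
`hx`: `dt g 0 = 0`.
(3) `ExL.mono` with `sh P ⊆ sh D` (`sh_mono`, `hZ.PD`) and `S0 ∩ Sc g 0 ⊆ S'`: by `rge` for `T` and for `T'`: for `b` with `T' b = T b` nothing changes; for the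
other `b` (`T' b = 0`; `lam b ≤ 0` or `b ∈ B2`, `hZ.TT'`) `0 ≤ dt (γ (inl b)) u`, so `0 ≤ m0 * dt (γ (inl b)) u + G * 0`.
-/

set_option autoImplicit false

namespace Pool.Agent.H56.T5

open Finset AddMonoidAlgebra
open Pool.Agent.H56.SMC Pool.Agent.H37.T5

theorem slz_coord {n r : ℕ} (a : Fin r → (Fin n →₀ ℕ)) (M : ℤ) (j : Fin n)
    (i : Fin r) : dt (ev j.succ.succ) (A5 a M (Sum.inl i)) = (a i j : ℤ) := by
  rw [dt_ev, A5_inl]
  simp [vec]

theorem slz_coord0 {n r : ℕ} (a : Fin r → (Fin n →₀ ℕ)) (M : ℤ) (j : Fin n) :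
    dt (ev j.succ.succ) (A5 a M (Sum.inr (Sum.inl none))) = 0 := by
  rw [dt_ev, A5_none]
  simp [vec]

theorem slz_coordj {n r : ℕ} (a : Fin r → (Fin n →₀ ℕ)) (M : ℤ) (j j' : Fin n) :
    dt (ev j.succ.succ) (A5 a M (Sum.inr (Sum.inl (some j')))) = if j = j' then M else 0 := by
  rw [dt_ev, A5_some]
  simp [vec, ev, Pi.single_apply]

theorem slz_nonneg {n r : ℕ} (a : Fin r → (Fin n →₀ ℕ)) (M : ℤ) (hM : 0 < M) (j : Fin n)
    (i : Fin r ⊕ (Option (Fin n) ⊕ Fin 0)) : 0 ≤ dt (ev j.succ.succ) (A5 a M i) := by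
  rcases i with i | ((_ | j') | k)
  · rw [slz_coord]; exact Int.natCast_nonneg _
  · rw [slz_coord0]
  · rw [slz_coordj]; split_ifs
    · exact hM.le
    · exact le_rfl
  · exact k.elim0

/-- the dual functional of a vertex in the coordinate `j` -/
theorem slz_vertex {n r : ℕ} (a : Fin r → (Fin n →₀ ℕ)) (M : ℤ) (w : Fin n → ℕ)
    (σ : Finset (Fin r)) (G : ℤ) (hG0 : 0 < G) (γ : TT w σ → Lat (n + 2)) (u : Lat (n + 2))
    (hu : u ∈ EE a M w σ G γ) (j : Fin n) (hwj : w j ≠ 0) (b : {b : Fin r // b ∈ σ})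
    (hbj : a b.1 j ≠ 0) (huniq : ∀ b' ∈ σ, b' ≠ b.1 → a b' j = 0)
    (h0 : 0 ≤ dt (ev j.succ.succ) u) : 0 ≤ dt (γ (Sum.inl b)) u := by
  have h1 := ee_dt a M w σ G γ u hu (ev j.succ.succ)
  rw [Finset.sum_eq_single (Sum.inl b)] at h1
  · have h2 : dt (ev j.succ.succ) (A5 a M (XT w σ (Sum.inl b))) = (a b.1 j : ℤ) := slz_coord a M j b.1
    rw [h2] at h1
    have h3 : 0 ≤ dt (γ (Sum.inl b)) u * (a b.1 j : ℤ) := by
      rw [← h1]
      exact mul_nonneg hG0.le h0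
    have h4 : (0 : ℤ) < (a b.1 j : ℤ) := by
      have := Nat.pos_of_ne_zero hbj
      exact_mod_cast this
    exact nonneg_of_mul_nonneg_left h3 h4
  · rintro (b' | (_ | j')) _ hne
    · have h2 : dt (ev j.succ.succ) (A5 a M (XT w σ (Sum.inl b'))) = (a b'.1 j : ℤ) :=
        slz_coord a M j b'.1
      rw [h2, huniq b'.1 b'.2 (fun h => hne (by rw [Subtype.ext h]))]
      simp
    · have h2 : dt (ev j.succ.succ) (A5 a M (XT w σ (Sum.inr none))) = 0 := slz_coord0 a M j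
      rw [h2, mul_zero]
    · have h2 : dt (ev j.succ.succ) (A5 a M (XT w σ (Sum.inr (some j')))) =
          if j = j'.1 then M else 0 := slz_coordj a M j j'.1
      rw [h2, if_neg, mul_zero]
      intro h
      exact hwj (by rw [h]; exact j'.2)
  · intro h
    exact absurd (Finset.mem_univ _) h

theorem slz_ev_sum {d : ℕ} (g : Lat d) : g = ∑ k, g k • (ev k : Lat d) := by
  funext i
  simp [ev, Finset.sum_apply, Pi.single_apply]

theorem slz_pv_ev {d : ℕ} {R : Type} [CommRing R] (p : Fin d → R) (k : Fin d) :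
    pv p (ev k) = p k := by
  simp [pv, ev, Pi.single_apply]

/-- SLZ -/
theorem slZ {n r : ℕ} (a : Fin r → (Fin n →₀ ℕ)) (M : ℤ) (hM : 0 < M) (w : Fin n → ℕ)
    (hN : 0 < H22.wmin a w) (σ : Finset (Fin r))
    (hon : ∀ b ∈ σ, ∑ j, a b j * w j = H22.wmin a w)
    (lam : Fin r → ℚ) (th : Fin r → Fin r → ℚ) (G : ℤ) (γ : TT w σ → Lat (n + 2))
    (q : TT w σ → ℂ) (hG : GD a M w σ lam th G γ q) (m0 : ℤ) (hm0 : 0 < m0)
    (D P : Finset (Fin n)) (T T' : Fin r → ℤ) (m1 : ℤ) (hZ : SZ a w σ lam th m0 D P T T')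
    (c : Fin r ⊕ (Option (Fin n) ⊕ Fin 0) → ℂ) (β : ℂ)
    (hex : ExL (pp (-(H22.wsum w : ℂ) / (H22.wmin a w : ℂ)) Complex.I) (A5 a M)
      (cF (A5 a M) c (h5 a w)) ev (sh D) (RS a M w σ m0 T m1) (single 0 β)) :
    ExL (pp (-(H22.wsum w : ℂ) / (H22.wmin a w : ℂ)) Complex.I) (A5 a M)
      (cF (A5 a M) c (h5 a w)) ev (sh P) (RS a M w σ m0 T' m1) (single 0 β) := by
  classical
  set p := (pp (-(H22.wsum w : ℂ) / (H22.wmin a w : ℂ)) Complex.I : Fin (n + 2) → ℂ) with hp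
  set B2 : {b : Fin r // b ∈ σ} → Prop := fun b =>
    ∃ j1 ∈ D, ∃ j2 ∈ D, j1 ≠ j2 ∧ a b.1 j1 ≠ 0 ∧ a b.1 j2 ≠ 0 with hB2
  set S0 : Set (Lat (n + 2)) := RS a M w σ m0 T m1 ∩
    {u | ∀ b : {b : Fin r // b ∈ σ}, B2 b → 0 ≤ dt (γ (Sum.inl b)) u} with hS0
  have hc0 : ∀ i, cF (A5 a M) c (h5 a w) i ≠ 0 → dt (h5 a w) (A5 a M i) = 0 := by
    intro i hi
    unfold cF at hi
    by_contra h1
    exact hi (if_neg h1)
  -- (1)
  have hex1 : ExL p (A5 a M) (cF (A5 a M) c (h5 a w)) ev (sh D) S0 (single 0 β) := by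
    obtain ⟨z, hz, hxz⟩ := hex
    refine ⟨z, fun k u hu => ?_, hxz⟩
    obtain ⟨huS, huL⟩ := hz k u hu
    refine ⟨⟨huS, ?_⟩, huL⟩
    rintro b ⟨j1, hj1, j2, hj2, hne, hb1, hb2⟩
    have hEE : u ∈ EE a M w σ G γ :=
      ((rge a M hM w hN σ hon lam th G γ q hG m0 hm0 T m1 u).1 huS).1
    have key : ∀ j ∈ D, a b.1 j ≠ 0 → j.succ.succ ≠ k → 0 ≤ dt (γ (Sum.inl b)) u := by
      intro j hj hbj hjk
      have h1 : 0 ≤ dt (ev j.succ.succ) u :=
        (huL j.succ.succ (mem_sh.2 ⟨j, hj, rfl⟩)).2 (by simpa using hjk)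
      obtain ⟨b0, hb0, hb0j, huniq, -⟩ := hZ.TD j hj
      have hbb : b.1 = b0 := by
        by_contra hcon
        exact hbj (huniq b.1 b.2 hcon)
      exact slz_vertex a M w σ G hG.G0 γ u hEE j (hZ.D0 j hj) b hbj
        (fun b' hb' hne' => huniq b' hb' (by rw [← hbb]; exact hne')) h1
    by_cases hk : j1.succ.succ = k
    · apply key j2 hj2 hb2
      intro h
      apply hne
      have h3 : j1.succ.succ = j2.succ.succ := by rw [hk, h]
      simpa using h3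
    · exact key j1 hj1 hb1 hk
  -- (2)
  let κ := {b : {b : Fin r // b ∈ σ} // lam b.1 ≤ 0}
  have hex2 : ExL p (A5 a M) (cF (A5 a M) c (h5 a w)) ev (sh D)
      (S0 ∩ Sc (fun v : κ => γ (Sum.inl v.1)) (fun _ => 0)) (single 0 β) := by
    refine rkL (κ := κ) (A5 a M) (cF (A5 a M) c (h5 a w)) p ev (sh D) ?_ ?_
      (fun v => γ (Sum.inl v.1)) (fun v k => γ (Sum.inl v.1) k) ?_ ?_ (fun _ => 0) ?_ S0 ?_
      (single 0 β) ?_ hex1
    · intro k hk
      obtain ⟨j, -, rfl⟩ := mem_sh.1 hk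
      rw [slz_pv_ev, hp]
      simp [pp]
    · intro k hk i
      obtain ⟨j, -, rfl⟩ := mem_sh.1 hk
      exact slz_nonneg a M hM j i
    · intro v
      exact slz_ev_sum _
    · intro v i hi
      exact (hG.face i (hc0 i hi)).1 _
    · intro v m hm
      have h1 : pv p (γ (Sum.inl v.1)) = ((lam v.1.1 * (G : ℚ) : ℚ) : ℂ) := by
        rw [hp, hG.par, Finset.sum_eq_single (Sum.inl v.1)]
        · rw [hG.dual, if_pos rfl, hG.qb]
          push_cast
          ring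
        · intro τ _ hne
          rw [hG.dual, if_neg (Ne.symm hne)]
          simp
        · intro h
          exact absurd (Finset.mem_univ _) h
      show pv p (γ (Sum.inl v.1)) + (m : ℂ) ≠ 0
      rw [h1]
      intro h2
      have h3 : ((lam v.1.1 * (G : ℚ) + (m : ℚ) : ℚ) : ℂ) = 0 := by
        push_cast
        push_cast at h2
        exact h2
      have h4 : lam v.1.1 * (G : ℚ) + (m : ℚ) = 0 := by exact_mod_cast h3
      have h5 : lam v.1.1 * (G : ℚ) ≤ 0 := by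
        apply mul_nonpos_of_nonpos_of_nonneg v.2
        have := hG.G0.le
        exact_mod_cast this
      have h6 : (m : ℚ) < 0 := by exact_mod_cast hm
      linarith
    · rintro u ⟨hu1, hu2⟩ i hi
      refine ⟨rs_add a M w σ m0 hm0 T m1 u hu1 i (hc0 i hi), fun b hb => ?_⟩
      rw [dt_add]
      have h1 := hu2 b hb
      have h2 := (hG.face i (hc0 i hi)).1 (Sum.inl b)
      exact add_nonneg h1 h2
    · intro u hu v
      have h1 : u = 0 := by
        by_contra hne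
        apply hu
        rw [AddMonoidAlgebra.coeff_single]
        exact Finsupp.single_eq_of_ne hne
      rw [h1]
      show (0 : ℤ) ≤ dt (γ (Sum.inl v.1)) 0
      rw [dt_zero]
  -- (3)
  refine ExL.mono ?_ (sh_mono hZ.PD) hex2
  rintro u ⟨⟨hu1, hu2⟩, hu3⟩
  obtain ⟨h1, h2, h3, h4⟩ := (rge a M hM w hN σ hon lam th G γ q hG m0 hm0 T m1 u).1 hu1
  refine (rge a M hM w hN σ hon lam th G γ q hG m0 hm0 T' m1 u).2 ⟨h1, fun b => ?_, h3, h4⟩
  rcases hZ.TT' b.1 b.2 with h5 | ⟨h5, h6⟩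
  · rw [h5]; exact h2 b
  · rw [h5, mul_zero, add_zero]
    apply mul_nonneg hm0.le
    rcases h6 with h7 | h7
    · exact hu3 (⟨b, h7⟩ : κ)
    · exact hu2 b h7

end Pool.Agent.H56.T5
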