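import Pool.Agent.H56.T5.APPL
import Pool.Agent.H56.T5.COMBZ
import Pool.Agent.H56.T5.RAT
import Pool.Agent.H56.T5.GDX
import Pool.Agent.H56.T5.SLZ
import Pool.Agent.H56.T5.FAMC
import Pool.Agent.H56.T5.KSL
import Pool.Agent.H56.T5.SLF
import Pool.Agent.H56.SMC.LAM
import Pool.Agent.H56.SMC.NDG

/-!
# RTH: theorem R
-/

set_option autoImplicit false

namespace Pool.Agent.H56.T5

open Finset AddMonoidAlgebra
open Pool.Agent.H56.SMC Pool.Agent.H37.T5

/-- Theorem R -/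
theorem rth {n r : ℕ} (a : Fin r → (Fin n →₀ ℕ)) (κ : Fin r → ℂ) (hnd : Nondeg a κ)
    (b : Polynomial ℂ) (P : H22.WeylS n) (hfe : H22.FunctionalEquation (fpoly a κ) b P)
    (w : Fin n → ℕ) (σ : Finset (Fin r)) (hF : FD a w σ) (hs : H22.wsum w ≠ H22.wmin a w)
    (hU : ¬ UB a w σ) : b.IsRoot (-(H22.wsum w : ℂ) / (H22.wmin a w : ℂ)) := by
  classical
  obtain ⟨lam, mu, th, hR⟩ := rat a w σ hF
  obtain ⟨m1, D, P', T, T', hm1, hZ⟩ := combZ a w σ lam mu th hR hs hU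
  obtain ⟨G, γ, q, hG⟩ := gdX a 2 (by norm_num) w σ lam mu th hR
  have hN := hR.pos
  have hr := appg_pos a w hN
  have hm0 : (0 : ℤ) < 2 * m1 := by linarith
  -- the coefficients
  obtain ⟨lm, hlm⟩ := lam_exists (Finset.univ.image κ) (Option (Fin n) ⊕ Fin 0)
  have hlm' : AlgebraicIndependent (Algebra.adjoin ℚ (Set.range κ)) lm := by
    have h1 : ((Finset.univ.image κ : Finset ℂ) : Set ℂ) = Set.range κ := by
      simp
    rwa [h1] at hlm
  have hT : TorusND (A5 a 2) (cC κ lm) := ndg a κ hnd (bbM (noW n) 2) lm hlm'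
  -- the shift
  set y0 : Lat (n + 2) := yv a 2 w σ T m1 with hy0
  have hyC : InC (A5 a 2) y0 := yv_inC a 2 w σ T m1 hZ.T0 hm1.le
  have hyh : dt (h5 a w) y0 = 0 := yv_h5 a 2 w σ hR.on T m1
  have hyj : ∀ j, (∃ i, a i j = 0) → 2 * m1 ≤ y0 j.succ.succ := by
    intro j hj
    rw [hy0, yv_coord]
    by_cases hw : w j = 0
    · rw [if_pos hw]
      have h1 : 0 ≤ ∑ b ∈ σ, T b * (a b j : ℤ) :=
        sum_nonneg fun b hb => mul_nonneg (hZ.T0 b hb) (by positivity)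
      linarith
    · rw [if_neg hw, add_zero]
      exact hZ.TC j hw hj
  have hyD : ∀ j ∈ D, y0 j.succ.succ = 2 * m1 := by
    intro j hj
    rw [hy0, yv_coord, if_neg (hZ.D0 j hj), add_zero]
    obtain ⟨b', hb', -, h2, h3⟩ := hZ.TD j hj
    rw [Finset.sum_eq_single b', h3]
    · intro b'' hb'' hne
      rw [h2 b'' hb'' hne]
      simp
    · intro h
      exact absurd hb' h
  have hK := gkx hr a κ 2 (by norm_num) lm hT D (2 * m1) hm0 y0 hyD
  have hex := appL a κ b P hfe w hN D 2 (by norm_num) (2 * m1) hm0 y0 hyC hyh hyj lm hK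
  have hex1 := slZ a 2 (by norm_num) w hN σ hR.on lam th G γ q hG (2 * m1) hm0 D P' T T' m1 hZ
    (cC κ lm) _ hex
  obtain ⟨jb, hjb⟩ := jb_exists a w σ lam th (2 * m1) D P' T T' hZ
  let e : Fin (Fintype.card (TT w σ)) ≃ TT w σ := (Fintype.equivFin (TT w σ)).symm
  have hex2 := famC a 2 (by norm_num) w hN σ hR.on lam th G γ q hG (2 * m1) hm0 D P' T T' m1 hZ
    jb hjb e (cC κ lm) _ hex1
  have hKS := kSL a 2 (by norm_num) w hN σ hR.on lam th G γ q hG (2 * m1) hm0 D P' T T' m1 hZ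
    jb hjb e (cC κ lm) hT
  have hfin := slF a 2 le_rfl w hN σ hR.on lam th G γ q hG m1 hm1 D P' T T' hZ jb hjb e
    (cC κ lm) hKS _ hex2
  exact hfin

end Pool.Agent.H56.T5
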