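import Mathlib

/-!
# COMB: the choice of the levels (finite combinatorics over `ℚ`)

Notation: `τ_j = {b : A b j ≠ 0}`; `D0 = {j ∈ C0 : A b j ≠ 0 → 0 < lam b}`; `A0 = {b : ∃ j ∈ D0, A b j ≠ 0}` (so `lam b > 0` for `b ∈ A0`);
`Rel b b' := ∃ j ∈ D0, A b j ≠ 0 ∧ A b' j ≠ 0`, classes = classes of `Relation.EqvGen Rel`; `S1 = {b : ∃ j ∈ D0, A b j ≠ 0 ∧ ∀ b' ≠ b, A b' j = 0}`;
a class is GOOD if all its elements are in `S1`; for every class which is not good choose ONE element `star` of it outside `S1`.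
`C = ∑ b, ∑ j, A b j` (so `A b j ≤ C`).  Choose a rational `ε > 0` with `ε ≤ lam b` whenever `lam b > 0`, and `C * ε < θ i b - lam b` whenever
`lam b < θ i b` (finitely many conditions).
`t b = ` : if `b ∉ A0`: `1` if `lam b ≤ 0`, `0` if `lam b > 0`; if `b ∈ A0` and the class of `b` is good: `lam b`; if `b ∈ A0` is the star of its class: `lam b - ε`; the other
`b ∈ A0` (class not good): `lam b + C ε`.
`D = {j ∈ D0 : ∃ b, A b j ≠ 0, A b' j = 0 for b' ≠ b, the class of b is good}`.
`t' b = 0` if `lam b ≤ 0` or if there are `j1 ≠ j2` in `D` with `A b j1 ≠ 0`, `A b j2 ≠ 0`; `t' b = t b` otherwise.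
`P = {j ∈ D : the b with A b j ≠ 0 has no other j' ∈ D with A b j' ≠ 0}`.

(1) `1 ≤ ∑ b, t b * A b j`, `j ∈ C0`.  `j ∈ D0`: all `b ∈ τ_j` are in one class (and `τ_j` is not empty by `hlam`).  Good class: the sum is `∑ lam b * A b j = 1`.  Not good, star not in `τ_j`:
`≥ ∑ lam b * A b j = 1`.  Not good, star in `τ_j`: the star is not in `S1`, so `τ_j` has another element `b'`; the sum is
`≥ 1 - ε * A star j + C * ε * A b' j ≥ 1 - ε C + C ε = 1`.  `j ∉ D0`: there is `b` with `A b j ≠ 0`, `lam b ≤ 0`, so `b ∉ A0`, `t b = 1`, `t b * A b j ≥ 1`, all terms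
are `≥ 0`.
(2) `j ∈ D`: `t b * A b j = lam b * A b j = 1` (`hlam`, one term).
(3) the condition for `P`: clear from the definitions (`lam b > 0` and no second direction, so `t' b = t b`).
(4) Last condition: let `θ i b ≤ t' b` for all `b` and `j1 = j2` for all `j1, j2 ∈ P` with `aI i j1, aI i j2 ≠ 0`.  Let `θ i b ≠ 0`.  Then `t' b > 0`, so `b ∈ A0`, `lam b > 0`
(for `b ∉ A0`: `t b = 0` or `lam b ≤ 0`).  For every `j ∈ D0` with `A b j ≠ 0`: `aI i j = ∑ θ i b' * A b' j > 0`, so `aI i j ≥ 1`; for `b' ∈ τ_j`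
`θ i b' ≤ t' b' ≤ t b' ≤ lam b' + C ε`, so `θ i b' ≤ lam b'` by the choice of `ε`; so `1 ≤ ∑ θ i b' * A b' j ≤ ∑ lam b' * A b' j = 1` and `θ i b' = lam b'` for all
`b' ∈ τ_j`; in particular `θ i b' ≠ 0` and `b'` is not the star of a class which is not good (`θ i star ≤ lam star - ε`).  So the set `{b : θ i b ≠ 0}` is closed under `Rel`, hence a
union of classes, and none of its elements is a star: all its classes are good.  So every such `b` is in `S1`: there is `j ∈ D0` with `τ_j = {b}`, so `j ∈ D`; by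
`t' b ≠ 0` there is no other direction of `D` at `b`: `j ∈ P`, call it `j(b)`, and `aI i j(b) = θ i b * A b j(b) = lam b * A b j(b) = 1 ≠ 0`.  By the hypothesis
`j(b) = j(b')` for all such `b, b'`, so `b = b'`: there is exactly one `b` with `θ i b ≠ 0`, `θ i b = 1` (`hθ1`), `lam b = 1`, `A b j(b) = 1`.  So `j(b)` is an apex direction
of `b`; every apex direction `j' ∈ C0` of `b` is in `D0` (`lam b > 0`) and in `D` (`τ_j' = {b}`, good class), so `j' = j(b)`: contradiction with `hU`.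
-/

set_option autoImplicit false

namespace Pool.Agent.H56.T5

open Finset

/-- good classes and the chosen elements of the other classes -/
theorem COMB_star {β : Type} (Rel : β → β → Prop) (S1 : β → Prop) :
    ∃ Good Star : β → Prop, (∀ b b', Relation.EqvGen Rel b b' → (Good b ↔ Good b')) ∧
      (∀ b, Good b → S1 b) ∧ (∀ b, ¬ Good b → ∃ s, Relation.EqvGen Rel b s ∧ Star s) ∧
      (∀ s s', Star s → Star s' → Relation.EqvGen Rel s s' → s = s') ∧
      (∀ s, Star s → ¬ S1 s) := by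
  classical
  let st : Setoid β := Relation.EqvGen.setoid Rel
  have hq : ∀ b b' : β, (Quotient.mk st b = Quotient.mk st b') ↔ Relation.EqvGen Rel b b' :=
    fun b b' => Quotient.eq
  let Q := {q : Quotient st // ∃ b, Quotient.mk st b = q ∧ ¬ S1 b}
  let f : Q → β := fun q => q.2.choose
  have hf : ∀ q : Q, Quotient.mk st (f q) = q.1 ∧ ¬ S1 (f q) := fun q => q.2.choose_spec
  refine ⟨fun b => ∀ b', Relation.EqvGen Rel b b' → S1 b', fun s => ∃ q : Q, f q = s,
    ?_, ?_, ?_, ?_, ?_⟩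
  · intro b b' h
    constructor
    · intro hb c hc
      exact hb c (Relation.EqvGen.trans _ _ _ h hc)
    · intro hb c hc
      exact hb c (Relation.EqvGen.trans _ _ _ (Relation.EqvGen.symm _ _ h) hc)
  · intro b hb
    exact hb b (Relation.EqvGen.refl b)
  · intro b hb
    push Not at hb
    obtain ⟨b', h1, h2⟩ := hb
    have hex : ∃ c, Quotient.mk st c = Quotient.mk st b ∧ ¬ S1 c :=
      ⟨b', (hq _ _).2 (Relation.EqvGen.symm _ _ h1), h2⟩
    refine ⟨f ⟨Quotient.mk st b, hex⟩, ?_, ⟨Quotient.mk st b, hex⟩, rfl⟩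
    exact (hq _ _).1 (hf ⟨Quotient.mk st b, hex⟩).1.symm
  · rintro s s' ⟨q, rfl⟩ ⟨q', rfl⟩ h
    have h1 : q.1 = q'.1 := by
      rw [← (hf q).1, ← (hf q').1]
      exact (hq _ _).2 h
    rw [Subtype.ext h1]
  · rintro s ⟨q, rfl⟩
    exact (hf q).2

theorem COMB_eps {κ : Type} [Fintype κ] (x : κ → ℚ) :
    ∃ ε : ℚ, 0 < ε ∧ ∀ k, 0 < x k → ε < x k := by
  classical
  have key : ∀ s : Finset κ, ∃ ε : ℚ, 0 < ε ∧ ∀ k ∈ s, 0 < x k → ε < x k := by
    intro s
    induction s using Finset.induction_on with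
    | empty => exact ⟨1, one_pos, fun k hk => absurd hk (notMem_empty k)⟩
    | insert a s _ ih =>
      obtain ⟨ε, hε, h⟩ := ih
      by_cases ha : 0 < x a
      · refine ⟨min ε (x a / 2), lt_min hε (by linarith), fun k hk hxk => ?_⟩
        rcases mem_insert.1 hk with rfl | hk
        · exact lt_of_le_of_lt (min_le_right _ _) (by linarith)
        · exact lt_of_le_of_lt (min_le_left _ _) (h k hk hxk)
      · refine ⟨ε, hε, fun k hk hxk => ?_⟩
        rcases mem_insert.1 hk with rfl | hk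
        · exact absurd hxk ha
        · exact h k hk hxk
  obtain ⟨ε, hε, h⟩ := key univ
  exact ⟨ε, hε, fun k => h k (mem_univ k)⟩

/-- COMB -/
theorem comb {β ι' : Type} [Fintype β] [DecidableEq β] [Fintype ι'] {n : ℕ} (A : β → Fin n → ℕ)
    (C0 : Finset (Fin n)) (lam : β → ℚ) (hlam : ∀ j ∈ C0, ∑ b, lam b * (A b j : ℚ) = 1)
    (θ : ι' → β → ℚ) (hθ0 : ∀ i b, 0 ≤ θ i b) (hθ1 : ∀ i, ∑ b, θ i b = 1)
    (aI : ι' → Fin n → ℕ) (haI : ∀ i j, (aI i j : ℚ) = ∑ b, θ i b * (A b j : ℚ))
    (hU : ¬ ∃ b, ∃ j ∈ C0, (A b j = 1 ∧ ∀ b', b' ≠ b → A b' j = 0) ∧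
      ∀ j' ∈ C0, (A b j' = 1 ∧ ∀ b', b' ≠ b → A b' j' = 0) → j' = j) :
    ∃ (t t' : β → ℚ) (D P : Finset (Fin n)), P ⊆ D ∧ D ⊆ C0 ∧ (∀ b, 0 ≤ t b) ∧
      (∀ j ∈ C0, 1 ≤ ∑ b, t b * (A b j : ℚ)) ∧
      (∀ j ∈ D, ∃ b, A b j ≠ 0 ∧ (∀ b', b' ≠ b → A b' j = 0) ∧ t b * (A b j : ℚ) = 1) ∧
      (∀ b, t' b = t b ∨ (t' b = 0 ∧
        (lam b ≤ 0 ∨ ∃ j1 ∈ D, ∃ j2 ∈ D, j1 ≠ j2 ∧ A b j1 ≠ 0 ∧ A b j2 ≠ 0))) ∧
      (∀ j ∈ P, ∀ b, A b j ≠ 0 → t' b * (A b j : ℚ) = 1 ∧ ∀ j' ∈ D, A b j' ≠ 0 → j' = j) ∧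
      ∀ i, (∀ b, θ i b ≤ t' b) → ¬ ∀ j1 ∈ P, ∀ j2 ∈ P, aI i j1 ≠ 0 → aI i j2 ≠ 0 → j1 = j2 := by
  classical
  -- the sets of the header
  set D0 : Fin n → Prop := fun j => j ∈ C0 ∧ ∀ b, A b j ≠ 0 → 0 < lam b with hD0
  set A0 : β → Prop := fun b => ∃ j, D0 j ∧ A b j ≠ 0 with hA0
  set Rel : β → β → Prop := fun b b' => ∃ j, D0 j ∧ A b j ≠ 0 ∧ A b' j ≠ 0 with hRel
  set S1 : β → Prop := fun b => ∃ j, D0 j ∧ A b j ≠ 0 ∧ ∀ b', b' ≠ b → A b' j = 0 with hS1
  obtain ⟨Good, Star, hG1, hG2, hG3, hG4, hG5⟩ := COMB_star Rel S1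
  set C : ℕ := ∑ b, ∑ j, A b j with hC
  have hAC : ∀ b j, A b j ≤ C := by
    intro b j
    calc A b j ≤ ∑ j, A b j := single_le_sum (f := fun j => A b j) (fun _ _ => Nat.zero_le _)
          (mem_univ j)
      _ ≤ C := single_le_sum (f := fun b => ∑ j, A b j) (fun _ _ => Nat.zero_le _) (mem_univ b)
  have hC0 : (0 : ℚ) ≤ (C : ℚ) := Nat.cast_nonneg _
  obtain ⟨ε, hε, hεx⟩ := COMB_eps (Sum.elim lam
    (fun p : ι' × β => (θ p.1 p.2 - lam p.2) / ((C : ℚ) + 1)))
  have hε1 : ∀ b, 0 < lam b → ε < lam b := fun b hb => hεx (Sum.inl b) hb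
  have hε2 : ∀ i b, lam b < θ i b → (C : ℚ) * ε < θ i b - lam b := by
    intro i b h
    have h1 : 0 < (θ i b - lam b) / ((C : ℚ) + 1) := by
      apply div_pos (by linarith) (by linarith)
    have h2 := hεx (Sum.inr (i, b)) h1
    simp only [Sum.elim_inr] at h2
    rw [lt_div_iff₀ (by linarith)] at h2
    linarith
  have hA0lam : ∀ b, A0 b → 0 < lam b := by
    rintro b ⟨j, hj, hbj⟩
    exact hj.2 b hbj
  set t : β → ℚ := fun b => if A0 b then
      (if Good b then lam b else if Star b then lam b - ε else lam b + (C : ℚ) * ε)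
    else (if lam b ≤ 0 then 1 else 0) with ht
  have hCε : 0 ≤ (C : ℚ) * ε := by positivity
  have ht0 : ∀ b, 0 ≤ t b := by
    intro b
    simp only [ht]
    by_cases h1 : A0 b
    · have h2 := hA0lam b h1
      have h3 := hε1 b h2
      rw [if_pos h1]
      split_ifs
      · exact h2.le
      · linarith
      · linarith
    · rw [if_neg h1]
      split_ifs <;> norm_num
  have htle : ∀ b, A0 b → t b ≤ lam b + (C : ℚ) * ε := by
    intro b h1
    simp only [ht]
    rw [if_pos h1]
    split_ifs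
    · linarith
    · linarith
    · exact le_rfl
  have htgood : ∀ b, A0 b → Good b → t b = lam b := by
    intro b h1 h2
    simp only [ht]
    rw [if_pos h1, if_pos h2]
  have htstar : ∀ b, A0 b → ¬ Good b → Star b → t b = lam b - ε := by
    intro b h1 h2 h3
    simp only [ht]
    rw [if_pos h1, if_neg h2, if_pos h3]
  have htother : ∀ b, A0 b → ¬ Good b → ¬ Star b → t b = lam b + (C : ℚ) * ε := by
    intro b h1 h2 h3
    simp only [ht]
    rw [if_pos h1, if_neg h2, if_neg h3]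
  set D : Finset (Fin n) := univ.filter (fun j => D0 j ∧ ∃ b, A b j ≠ 0 ∧
    (∀ b', b' ≠ b → A b' j = 0) ∧ Good b) with hD
  have hmD : ∀ j, j ∈ D ↔ D0 j ∧ ∃ b, A b j ≠ 0 ∧ (∀ b', b' ≠ b → A b' j = 0) ∧ Good b := by
    intro j
    rw [hD, mem_filter]
    simp
  set two : β → Prop := fun b => ∃ j1 ∈ D, ∃ j2 ∈ D, j1 ≠ j2 ∧ A b j1 ≠ 0 ∧ A b j2 ≠ 0
    with htwo
  set t' : β → ℚ := fun b => if lam b ≤ 0 ∨ two b then 0 else t b with ht'
  have ht't : ∀ b, t' b ≤ t b := by
    intro b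
    simp only [ht']
    split_ifs
    · exact ht0 b
    · exact le_rfl
  set P : Finset (Fin n) := D.filter (fun j => ∀ b, A b j ≠ 0 → ∀ j' ∈ D, A b j' ≠ 0 → j' = j)
    with hP
  -- the main property of the directions of D
  have hDt : ∀ j ∈ D, ∃ b, A b j ≠ 0 ∧ (∀ b', b' ≠ b → A b' j = 0) ∧ Good b ∧
      lam b * (A b j : ℚ) = 1 ∧ t b * (A b j : ℚ) = 1 := by
    intro j hj
    obtain ⟨h0, b, hb1, hb2, hb3⟩ := (hmD j).1 hj
    have h1 := hlam j h0.1
    rw [sum_eq_single_of_mem b (mem_univ b)] at h1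
    · refine ⟨b, hb1, hb2, hb3, h1, ?_⟩
      rw [htgood b ⟨j, h0, hb1⟩ hb3, h1]
    · intro b' _ hb'
      rw [hb2 b' hb']
      simp
  refine ⟨t, t', D, P, filter_subset _ _, ?_, ht0, ?_, ?_, ?_, ?_, ?_⟩
  · intro j hj
    exact ((hmD j).1 hj).1.1
  · -- the sums are at least one
    intro j hj
    by_cases h0 : D0 j
    · have hA0j : ∀ b, A b j ≠ 0 → A0 b := fun b hb => ⟨j, h0, hb⟩
      have hsum := hlam j hj
      obtain ⟨b0, hb0⟩ : ∃ b, A b j ≠ 0 := by
        by_contra hcon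
        push Not at hcon
        rw [sum_eq_zero] at hsum
        · exact absurd hsum (by norm_num)
        · intro b _
          rw [hcon b]
          simp
      have heq : ∀ b, A b j ≠ 0 → Relation.EqvGen Rel b0 b := fun b hb =>
        Relation.EqvGen.rel _ _ ⟨j, h0, hb0, hb⟩
      -- it is enough to look at the differences
      have hgoal : 0 ≤ ∑ b, (t b - lam b) * (A b j : ℚ) → 1 ≤ ∑ b, t b * (A b j : ℚ) := by
        intro h
        have h1 : ∑ b, (t b - lam b) * (A b j : ℚ)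
            = ∑ b, t b * (A b j : ℚ) - ∑ b, lam b * (A b j : ℚ) := by
          rw [← sum_sub_distrib]
          apply sum_congr rfl
          intro b _
          ring
        rw [h1, hsum] at h
        linarith
      apply hgoal
      by_cases hg : Good b0
      · apply le_of_eq
        symm
        apply sum_eq_zero
        intro b _
        by_cases hb : A b j = 0
        · rw [hb]; simp
        · rw [htgood b (hA0j b hb) ((hG1 _ _ (heq b hb)).1 hg)]
          ring
      · have hng : ∀ b, A b j ≠ 0 → ¬ Good b := fun b hb h => hg ((hG1 _ _ (heq b hb)).2 h)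
        by_cases hst : ∃ s, A s j ≠ 0 ∧ Star s
        · obtain ⟨s, hs1, hs2⟩ := hst
          have hother : ∀ b, A b j ≠ 0 → b ≠ s → ¬ Star b := by
            intro b hb hbs hb2
            apply hbs
            apply hG4 b s hb2 hs2
            exact Relation.EqvGen.rel _ _ ⟨j, h0, hb, hs1⟩
          obtain ⟨b', hb's, hb'⟩ : ∃ b', b' ≠ s ∧ A b' j ≠ 0 := by
            by_contra hcon
            push Not at hcon
            exact hG5 s hs2 ⟨j, h0, hs1, hcon⟩
          rw [← add_sum_erase univ _ (mem_univ s)]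
          have h1 : (t s - lam s) * (A s j : ℚ) ≥ -(ε * (C : ℚ)) := by
            rw [htstar s (hA0j s hs1) (hng s hs1) hs2]
            have h2 : (A s j : ℚ) ≤ (C : ℚ) := by exact_mod_cast hAC s j
            have h3 : ε * (A s j : ℚ) ≤ ε * (C : ℚ) := mul_le_mul_of_nonneg_left h2 hε.le
            have h4 : (lam s - ε - lam s) * (A s j : ℚ) = -(ε * (A s j : ℚ)) := by ring
            rw [h4]
            linarith
          have hterm : ∀ b ∈ univ.erase s, 0 ≤ (t b - lam b) * (A b j : ℚ) := by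
            intro b hb
            by_cases hbj : A b j = 0
            · rw [hbj]; simp
            · rw [htother b (hA0j b hbj) (hng b hbj) (hother b hbj (ne_of_mem_erase hb))]
              have : lam b + (C : ℚ) * ε - lam b = (C : ℚ) * ε := by ring
              rw [this]
              positivity
          have h5 : (t b' - lam b') * (A b' j : ℚ) ≤
              ∑ b ∈ univ.erase s, (t b - lam b) * (A b j : ℚ) :=
            single_le_sum (f := fun b => (t b - lam b) * (A b j : ℚ)) hterm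
              (mem_erase.2 ⟨hb's, mem_univ b'⟩)
          have h6 : (C : ℚ) * ε ≤ (t b' - lam b') * (A b' j : ℚ) := by
            rw [htother b' (hA0j b' hb') (hng b' hb') (hother b' hb' hb's)]
            have h7 : (1 : ℚ) ≤ (A b' j : ℚ) := by
              exact_mod_cast Nat.one_le_iff_ne_zero.2 hb'
            have h8 : (C : ℚ) * ε * 1 ≤ (C : ℚ) * ε * (A b' j : ℚ) :=
              mul_le_mul_of_nonneg_left h7 hCε
            have h9 : (lam b' + (C : ℚ) * ε - lam b') * (A b' j : ℚ)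
                = (C : ℚ) * ε * (A b' j : ℚ) := by ring
            rw [h9]
            linarith
          linarith
        · push Not at hst
          apply sum_nonneg
          intro b _
          by_cases hbj : A b j = 0
          · rw [hbj]; simp
          · rw [htother b (hA0j b hbj) (hng b hbj) (hst b hbj)]
            have : lam b + (C : ℚ) * ε - lam b = (C : ℚ) * ε := by ring
            rw [this]
            positivity
    · obtain ⟨b, hb1, hb2⟩ : ∃ b, A b j ≠ 0 ∧ lam b ≤ 0 := by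
        by_contra hcon
        push Not at hcon
        exact h0 ⟨hj, hcon⟩
      have h1 : t b = 1 := by
        simp only [ht]
        rw [if_neg (fun h => absurd (hA0lam b h) (not_lt.2 hb2)), if_pos hb2]
      have h2 : t b * (A b j : ℚ) ≤ ∑ b, t b * (A b j : ℚ) :=
        single_le_sum (f := fun b => t b * (A b j : ℚ))
          (fun b _ => mul_nonneg (ht0 b) (Nat.cast_nonneg _)) (mem_univ b)
      have h3 : (1 : ℚ) ≤ (A b j : ℚ) := by exact_mod_cast Nat.one_le_iff_ne_zero.2 hb1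
      rw [h1, one_mul] at h2
      linarith
  · intro j hj
    obtain ⟨b, h1, h2, -, -, h3⟩ := hDt j hj
    exact ⟨b, h1, h2, h3⟩
  · intro b
    simp only [ht']
    by_cases h : lam b ≤ 0 ∨ two b
    · rw [if_pos h]
      exact Or.inr ⟨rfl, h⟩
    · rw [if_neg h]
      exact Or.inl rfl
  · intro j hj b hb
    obtain ⟨hjD, hjP⟩ := mem_filter.1 hj
    refine ⟨?_, hjP b hb⟩
    obtain ⟨b0, h1, h2, -, -, h3⟩ := hDt j hjD
    have hbb : b = b0 := by
      by_contra hne
      exact hb (h2 b hne)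
    subst hbb
    have h4 : ¬ (lam b ≤ 0 ∨ two b) := by
      rintro (h | ⟨j1, hj1, j2, hj2, hne, ha1, ha2⟩)
      · exact absurd (((hmD j).1 hjD).1.2 b hb) (not_lt.2 h)
      · exact hne ((hjP b hb j1 hj1 ha1).trans (hjP b hb j2 hj2 ha2).symm)
    simp only [ht']
    rw [if_neg h4, h3]
  · intro i hθt hall
    -- (A)
    have hstepA : ∀ b, θ i b ≠ 0 → A0 b ∧ ¬ two b := by
      intro b hb
      have hpos : 0 < θ i b := lt_of_le_of_ne (hθ0 i b) (Ne.symm hb)
      have h1 := hθt b
      have h2 : ¬ (lam b ≤ 0 ∨ two b) := by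
        intro h
        simp only [ht'] at h1
        rw [if_pos h] at h1
        linarith
      push Not at h2
      refine ⟨?_, h2.2⟩
      by_contra hcon
      have h3 : t b = 0 := by
        simp only [ht]
        rw [if_neg hcon, if_neg (not_le.2 h2.1)]
      have h4 := h1.trans (ht't b)
      linarith
    -- (B)
    have hstepB : ∀ j, D0 j → ∀ b, A b j ≠ 0 → θ i b ≠ 0 → ∀ b', A b' j ≠ 0 →
        θ i b' = lam b' := by
      intro j hj b hbj hb b' hb'j
      have hle : ∀ c, A c j ≠ 0 → θ i c ≤ lam c := by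
        intro c hc
        by_contra hcon
        push Not at hcon
        have h1 := hε2 i c hcon
        have h2 := (hθt c).trans (ht't c)
        have h3 := htle c ⟨j, hj, hc⟩
        linarith
      have hpos : 0 < θ i b := lt_of_le_of_ne (hθ0 i b) (Ne.symm hb)
      have h1 : 0 < ∑ c, θ i c * (A c j : ℚ) := by
        have h2 : θ i b * (A b j : ℚ) ≤ ∑ c, θ i c * (A c j : ℚ) :=
          single_le_sum (f := fun c => θ i c * (A c j : ℚ))
            (fun c _ => mul_nonneg (hθ0 i c) (Nat.cast_nonneg _)) (mem_univ b)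
        have h3 : (0 : ℚ) < (A b j : ℚ) := by exact_mod_cast Nat.pos_of_ne_zero hbj
        have h4 : 0 < θ i b * (A b j : ℚ) := mul_pos hpos h3
        linarith
      rw [← haI i j] at h1
      have h2 : (1 : ℚ) ≤ (aI i j : ℚ) := by
        have : 0 < aI i j := by exact_mod_cast h1
        exact_mod_cast this
      have h3 : ∑ c, (lam c - θ i c) * (A c j : ℚ) = 1 - (aI i j : ℚ) := by
        rw [haI i j, ← hlam j hj.1, ← sum_sub_distrib]
        apply sum_congr rfl
        intro c _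
        ring
      have hnn : ∀ c ∈ (univ : Finset β), 0 ≤ (lam c - θ i c) * (A c j : ℚ) := by
        intro c _
        by_cases hc : A c j = 0
        · rw [hc]; simp
        · have := hle c hc
          apply mul_nonneg (by linarith) (Nat.cast_nonneg _)
      have h4 : ∑ c, (lam c - θ i c) * (A c j : ℚ) = 0 := by
        apply le_antisymm _ (sum_nonneg hnn)
        rw [h3]
        linarith
      have h5 := (sum_eq_zero_iff_of_nonneg hnn).1 h4 b' (mem_univ b')
      have h6 : (A b' j : ℚ) ≠ 0 := by exact_mod_cast hb'j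
      have h7 := (mul_eq_zero.1 h5).resolve_right h6
      linarith
    have hB1 : ∀ b, θ i b ≠ 0 → θ i b = lam b := by
      intro b hb
      obtain ⟨⟨j, hj, hbj⟩, -⟩ := hstepA b hb
      exact hstepB j hj b hbj hb b hbj
    -- (C)
    have hstepC1 : ∀ b b', Rel b b' → θ i b ≠ 0 → θ i b' ≠ 0 := by
      rintro b b' ⟨j, hj, hb, hb'⟩ h
      rw [hstepB j hj b hb h b' hb']
      exact (hj.2 b' hb').ne'
    have hstepC : ∀ b b', Relation.EqvGen Rel b b' → (θ i b ≠ 0 ↔ θ i b' ≠ 0) := by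
      intro b b' h
      induction h with
      | rel x y hxy =>
        refine ⟨hstepC1 x y hxy, hstepC1 y x ?_⟩
        obtain ⟨j, hj, h1, h2⟩ := hxy
        exact ⟨j, hj, h2, h1⟩
      | refl x => exact Iff.rfl
      | symm x y _ ih => exact ih.symm
      | trans x y z _ _ ih1 ih2 => exact ih1.trans ih2
    -- (D)
    have hstepD : ∀ b, θ i b ≠ 0 → Good b := by
      intro b hb
      by_contra hcon
      obtain ⟨s, hs1, hs2⟩ := hG3 b hcon
      have hs3 : ¬ Good s := fun h => hcon ((hG1 _ _ hs1).2 h)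
      have hs4 := (hstepC b s hs1).1 hb
      have h1 := htstar s (hstepA s hs4).1 hs3 hs2
      have h2 := (hθt s).trans (ht't s)
      rw [hB1 s hs4] at h2
      linarith
    have hdir : ∀ b, θ i b ≠ 0 → ∃ j ∈ P, D0 j ∧ A b j ≠ 0 ∧ (∀ b', b' ≠ b → A b' j = 0) ∧
        aI i j ≠ 0 ∧ (∀ j' ∈ D, A b j' ≠ 0 → j' = j) ∧ lam b * (A b j : ℚ) = 1 := by
      intro b hb
      obtain ⟨j, hj1, hj2, hj3⟩ := hG2 b (hstepD b hb)
      have hjD : j ∈ D := (hmD j).2 ⟨hj1, b, hj2, hj3, hstepD b hb⟩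
      have huniq : ∀ j' ∈ D, A b j' ≠ 0 → j' = j := by
        intro j' hj' hb'
        by_contra hne
        exact (hstepA b hb).2 ⟨j', hj', j, hjD, hne, hb', hj2⟩
      have h1 := hlam j hj1.1
      rw [sum_eq_single_of_mem b (mem_univ b)
        (fun b' _ hb' => by rw [hj3 b' hb']; simp)] at h1
      refine ⟨j, ?_, hj1, hj2, hj3, ?_, huniq, h1⟩
      · rw [hP, mem_filter]
        refine ⟨hjD, fun c hc j' hj' hcj' => ?_⟩
        have hcb : c = b := by
          by_contra hne
          exact hc (hj3 c hne)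
        rw [hcb] at hcj'
        exact huniq j' hj' hcj'
      · intro h0
        have h2 := haI i j
        rw [h0, sum_eq_single_of_mem b (mem_univ b)
          (fun b' _ hb' => by rw [hj3 b' hb']; simp), hB1 b hb, h1] at h2
        norm_num at h2
    obtain ⟨b, hb⟩ : ∃ b, θ i b ≠ 0 := by
      by_contra hcon
      push Not at hcon
      have := hθ1 i
      rw [sum_eq_zero (fun b _ => hcon b)] at this
      norm_num at this
    obtain ⟨j, hjP, hj0, hbj, hbu, haj, huniq, hlj⟩ := hdir b hb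
    have hsingle : ∀ b', b' ≠ b → θ i b' = 0 := by
      intro b' hne
      by_contra hb'
      obtain ⟨j', hj'P, -, hb'j', -, haj', -, -⟩ := hdir b' hb'
      have h1 : j' = j := hall j' hj'P j hjP haj' haj
      rw [h1] at hb'j'
      exact hb'j' (hbu b' hne)
    have hone : θ i b = 1 := by
      have := hθ1 i
      rw [sum_eq_single_of_mem b (mem_univ b) (fun b' _ hb' => hsingle b' hb')] at this
      exact this
    have hlam1 : lam b = 1 := by rw [← hB1 b hb, hone]
    have hA1 : A b j = 1 := by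
      rw [hlam1, one_mul] at hlj
      exact_mod_cast hlj
    apply hU
    refine ⟨b, j, hj0.1, ⟨hA1, hbu⟩, ?_⟩
    rintro j' hj' ⟨hA1', hbu'⟩
    have hne' : A b j' ≠ 0 := by rw [hA1']; norm_num
    apply huniq j' _ hne'
    rw [hmD]
    refine ⟨⟨hj', ?_⟩, b, hne', hbu', hstepD b hb⟩
    intro c hc
    have hcb : c = b := by
      by_contra hne
      exact hc (hbu' c hne)
    rw [hcb, hlam1]
    norm_num

end Pool.Agent.H56.T5
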