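import Pool.Agent.H56.T5.KEDefs
import Pool.Agent.H56.SMC.FAC

/-!
# EXTB: extension of an independent family of functionals on a face to a generating family

Let `T = {i : H·a_i = 0}`, `V = span_ℚ {a_i : i ∈ T} ⊆ ℚ^d` (`facV`, `facL` of `FAC.lean` are the casts to `ℚ`).

Proof.  (1) Choose `e : Fin s' → ι` with values in `T` such that the `a (e k)` are a basis of `V` (`exists_linearIndependent'`, or
`Submodule.exists_fun_fin_finrank_span_eq`, or `exists_linearIndependent` for the family `i : T ↦ facV (a i)`; `fac_li` translates between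
linear independence over `ℤ` and `ℚ`).  For every `i ∈ T` there are `N ≠ 0` and integers with `N a_i = ∑ n_k a (e k)`.
(2) The functionals `ℓ_k` restricted to `V` are independent over `ℚ` (`hind` with `J = univ`, clear denominators, `fac_den`); a functional on `V` is given by its values at
the basis, i.e. by a vector in `ℚ^{s'}`: `g ↦ (dt g (a (e k)))_k`; the vectors of `ev j`, `j : Fin d`, span `ℚ^{s'}` (the matrix with rows `a (e k)` has rank `s'`).  So the
independent family of vectors `(dt (ℓ k) (a (e ·)))_k` can be extended by vectors of some `ev j` to a basis of `ℚ^{s'}`: this gives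
`ℓ' : Fin (m + t) → Lat d` with `m + t = s'`.  (3) `hℓ'`: every `g` has `N * dt g (a (e j)) = ∑ n_k * dt (ℓ' k) (a (e j))` for all `j`
(basis, clear denominators), hence for all `i ∈ T` by (1) (multiply by the denominator of (1) of that `i`: linear combination, the relation with the
same `N`, `n` holds at `a_i` because it holds at all `a (e j)` and `N' a_i = ∑ n'_j a (e j)`, `N' ≠ 0`).
-/

set_option autoImplicit false

namespace Pool.Agent.H56.T5

open Finset AddMonoidAlgebra
open Pool.Agent.H56.SMC Pool.Agent.H37.T5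

theorem EXTB_dt {d : ℕ} {κ : Type*} (K : Finset κ) (n : κ → ℤ) (ℓ : κ → Lat d) (u : Lat d) :
    dt (∑ k ∈ K, n k • ℓ k) u = ∑ k ∈ K, n k * dt (ℓ k) u := by
  rw [dt_comm, dt_sum]
  refine sum_congr rfl fun k _ => ?_
  rw [dt_zsmul, dt_comm]

/-- EXTB -/
theorem extB {d : ℕ} {ι : Type} [Fintype ι] (a : ι → Lat d) (H : Lat d) {m : ℕ}
    (ℓ : Fin m → Lat d) (hind : IndOn a H ℓ univ) :
    ∃ (t : ℕ) (ℓ' : Fin (m + t) → Lat d) (e : Fin (m + t) → ι),
      (∀ k : Fin m, ℓ' (Fin.castAdd t k) = ℓ k) ∧ (∀ k, dt H (a (e k)) = 0) ∧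
      LinearIndependent ℤ (fun k => a (e k)) ∧
      ∀ g : Lat d, ∃ N : ℤ, N ≠ 0 ∧ ∃ n : Fin (m + t) → ℤ, ∀ i, dt H (a i) = 0 →
        N * dt g (a i) = ∑ k, n k * dt (ℓ' k) (a i) := by
  classical
  let T := {i : ι // dt H (a i) = 0}
  let v : T → (Fin d → ℚ) := fun i => facV (a i.1)
  obtain ⟨κ, e, he, hspan, hli⟩ := exists_linearIndependent' ℚ v
  have hfin : Finite κ := Finite.of_injective e he
  have hft : Fintype κ := Fintype.ofFinite κ
  -- functionals vanishing at the chosen exponents
  have hvan : ∀ L : Lat d, (∀ k, dt L (a (e k).1) = 0) → ∀ i, dt H (a i) = 0 →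
      dt L (a i) = 0 := by
    intro L hL i hi
    have h1 : v ⟨i, hi⟩ ∈ Submodule.span ℚ (Set.range (v ∘ e)) := by
      rw [hspan]
      exact Submodule.subset_span ⟨_, rfl⟩
    have h2 : Submodule.span ℚ (Set.range (v ∘ e)) ≤ LinearMap.ker (facL L) := by
      rw [Submodule.span_le]
      rintro _ ⟨k, rfl⟩
      show facL L (facV (a (e k).1)) = 0
      rw [facL_facV, hL k, Int.cast_zero]
    have h3 : facL L (facV (a i)) = 0 := h2 h1
    rw [facL_facV] at h3
    exact_mod_cast h3
  let D : Lat d → (κ → ℚ) := fun g k => (dt g (a (e k).1) : ℚ)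
  have hD : LinearIndependent ℚ (fun k => D (ℓ k)) := by
    rw [Fintype.linearIndependent_iff]
    intro q hq
    obtain ⟨N, hN, n, hn⟩ := fac_den q
    have h1 : ∀ i, dt H (a i) = 0 → ∑ k ∈ univ, n k * dt (ℓ k) (a i) = 0 := by
      intro i hi
      rw [← EXTB_dt]
      refine hvan _ (fun k => ?_) i hi
      rw [EXTB_dt]
      have h2 := congrFun hq k
      have h3 : ((∑ x, n x * dt (ℓ x) (a (e k).1) : ℤ) : ℚ) = 0 := by
        push_cast
        have h4 : ∑ x, q x * (dt (ℓ x) (a (e k).1) : ℚ) = 0 := by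
          simpa [D, Finset.sum_apply] using h2
        have h5 : ∑ x, (n x : ℚ) * (dt (ℓ x) (a (e k).1) : ℚ) =
            N * ∑ x, q x * (dt (ℓ x) (a (e k).1) : ℚ) := by
          rw [mul_sum]
          refine sum_congr rfl fun x _ => ?_
          rw [← hn x]
          ring
        rw [h5, h4, mul_zero]
      exact_mod_cast h3
    intro k
    have h6 := hind n h1 k (mem_univ k)
    have h7 := hn k
    rw [h6, Int.cast_zero] at h7
    have h8 : (N : ℚ) ≠ 0 := by exact_mod_cast hN.ne'
    exact (mul_eq_zero.1 h7).resolve_left h8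
  -- every vector is a multiple of some `D h`
  have hsurj : ∀ w : κ → ℚ, ∃ (h : Lat d) (γ : ℚ), w = γ • D h := by
    intro w
    obtain ⟨φ, hφ⟩ : ∃ φ : (Fin d → ℚ) →ₗ[ℚ] ℚ, ∀ k, φ (v (e k)) = w k := by
      let b := Module.Basis.span hli
      let f : Submodule.span ℚ (Set.range (v ∘ e)) →ₗ[ℚ] ℚ := b.constr ℚ w
      obtain ⟨φ, hφ⟩ := LinearMap.exists_extend f
      refine ⟨φ, fun k => ?_⟩
      have h1 : f (b k) = w k := b.constr_basis ℚ w k
      have h2 : ((b k : Submodule.span ℚ (Set.range (v ∘ e))) : Fin d → ℚ) = v (e k) := by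
        have h3 := Module.Basis.span_apply hli k
        rw [show b k = (Module.Basis.span hli) k from rfl, h3]
        rfl
      rw [← h1, ← hφ, LinearMap.comp_apply, Submodule.subtype_apply, h2]
    by_cases h0 : φ = 0
    · refine ⟨0, 0, ?_⟩
      funext k
      rw [← hφ k, h0]
      simp
    · obtain ⟨h, γ, hγ, hφγ, -⟩ := fac_scale φ h0
      refine ⟨h, γ, ?_⟩
      funext k
      rw [← hφ k, hφγ, LinearMap.smul_apply, smul_eq_mul, Pi.smul_apply, smul_eq_mul]
      show γ * facL h (facV (a (e k).1)) = _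
      rw [facL_facV]
  set W := Submodule.span ℚ (Set.range fun k => D (ℓ k)) with hW
  obtain ⟨W', hWW⟩ := Submodule.exists_isCompl W
  let t := Module.finrank ℚ W'
  let bw : Module.Basis (Fin t) ℚ W' := Module.finBasis ℚ W'
  choose hh γ hγ using fun x : Fin t => hsurj (bw x : κ → ℚ)
  have hcard : m + t = Fintype.card κ := by
    have h1 := Submodule.finrank_add_eq_of_isCompl hWW
    have h2 : Module.finrank ℚ W = m := by
      rw [hW, finrank_span_eq_card hD, Fintype.card_fin]
    rw [Module.finrank_fintype_fun_eq_card, h2] at h1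
    exact h1
  let E : Fin (m + t) ≃ κ := (finCongr hcard).trans (Fintype.equivFin κ).symm
  refine ⟨t, Fin.append ℓ hh, fun k => (e (E k)).1, fun k => Fin.append_left _ _ k,
    fun k => (e (E k)).2, ?_, ?_⟩
  · rw [fac_li]
    exact hli.comp E E.injective
  · intro g
    -- the coefficients
    have h1 : D g ∈ W ⊔ W' := by
      rw [hWW.sup_eq_top]; trivial
    obtain ⟨w, hw, w', hw', hsum⟩ := Submodule.mem_sup.1 h1
    obtain ⟨c, hc⟩ := (Submodule.mem_span_range_iff_exists_fun ℚ).1 hw
    have h2 : w' = ∑ x, (bw.repr ⟨w', hw'⟩ x * γ x) • D (hh x) := by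
      have h3 := congrArg (Subtype.val) (bw.sum_repr ⟨w', hw'⟩)
      rw [show ((⟨w', hw'⟩ : W') : κ → ℚ) = w' from rfl] at h3
      refine h3.symm.trans ?_
      rw [Submodule.coe_sum]
      refine sum_congr rfl fun x _ => ?_
      rw [mul_smul, ← hγ x]
      rfl
    let q : Fin (m + t) → ℚ := Fin.append c (fun x => bw.repr ⟨w', hw'⟩ x * γ x)
    have h4 : D g = ∑ k, q k • D (Fin.append ℓ hh k) := by
      rw [Fin.sum_univ_add]
      simp only [q, Fin.append_left, Fin.append_right]
      rw [← h2, hc, hsum]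
    obtain ⟨N, hN, n, hn⟩ := fac_den q
    refine ⟨N, by exact_mod_cast hN.ne', n, fun i hi => ?_⟩
    have h5 : dt ((N : ℤ) • g - ∑ k, n k • Fin.append ℓ hh k) (a i) = 0 := by
      refine hvan _ (fun k => ?_) i hi
      rw [dt_comm, dt_sub, dt_comm _ (∑ k, n k • Fin.append ℓ hh k), EXTB_dt, dt_zsmul, dt_comm]
      have h6 := congrFun h4 k
      simp only [D, Finset.sum_apply, Pi.smul_apply, smul_eq_mul] at h6
      have h7 : (((N : ℤ) * dt g (a (e k).1) -
          ∑ x, n x * dt (Fin.append ℓ hh x) (a (e k).1) : ℤ) : ℚ) = 0 := by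
        push_cast
        rw [h6, mul_sum, sub_eq_zero]
        refine sum_congr rfl fun x _ => ?_
        rw [← hn x]
        ring
      exact_mod_cast h7
    rw [dt_comm, dt_sub, dt_comm _ (∑ k, n k • Fin.append ℓ hh k), EXTB_dt, dt_zsmul, dt_comm,
      sub_eq_zero] at h5
    exact h5

end Pool.Agent.H56.T5
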