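import Pool.Agent.H56.T5.RDefs

/-!
# FAMV: the family of functionals on the slice

Write `X τ = A5 a M (XT w σ τ)`, `fam = fam w σ γ jb`.
`jb_exists`: `jb b = some j` for the `j ∈ P` with `a b j ≠ 0` (unique by `hZ.TP`: for `j, j' ∈ P ⊆ D` with `a b j, a b j' ≠ 0` one has `j' = j`), `none` if there is none (and for `b ∉ σ`).
`fam_val`: the values at the generators: `dt (fam (inl b)) (X (inl b')) = 0` for `b' ≠ b`, `≠ 0` for `b' = b` (if `jb b = none` it is `G` or `0` by `hG.dual`; if `jb b = some j`: `a b' j`, which is `≠ 0` for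
`b' = b` and `0` for `b' ≠ b`, as `j ∈ D` has a unique vertex, `hZ.TD`); `dt (fam (inl b)) (X (inr o)) = 0` (`hG.dual`; for `jb b = some j`: `w j ≠ 0` by `hZ.D0`, so `X (inr o)` has `q_j = 0`);
`dt (fam (inr none)) (X (inl b)) = 0`, `dt (fam (inr none)) (X (inr o)) = 1`; `dt (fam (inr (some j))) (X (inr none)) = 0`,
`dt (fam (inr (some j))) (X (inr (some j'))) = M` if `j = j'`, otherwise `0`.
`fam_indep`: let `∑ τ, k τ * dt (fam τ) (X τ') = 0` for all `τ' ∉ Z` (`Z` a set of `inl` indices) where `k τ = 0` for `τ ∈ Z`.  `τ' = inr none`: `k (inr none) = 0`; `τ' = inr (some j)`: `M * k (inr (some j)) = 0`;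
`τ' = inl b ∉ Z`: then `k (inl b) * (nonzero) = 0`.
`fam_span`: the matrix `Q τ τ' = dt (fam τ) (X τ')` has nonzero determinant (by `fam_indep` with `Z = ∅` and `Matrix.exists_vecMul_eq_zero_iff`); for a functional `g` let
`N = det Q`, `k = (τ' ↦ dt g (X τ')) ᵥ* adjugate Q` (`Matrix.vecMul_vecMul`, `Matrix.adjugate_mul`).
-/

set_option autoImplicit false

namespace Pool.Agent.H56.T5

open Finset AddMonoidAlgebra
open Pool.Agent.H56.SMC Pool.Agent.H37.T5

theorem jb_exists {n r : ℕ} (a : Fin r → (Fin n →₀ ℕ)) (w : Fin n → ℕ) (σ : Finset (Fin r))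
    (lam : Fin r → ℚ) (th : Fin r → Fin r → ℚ) (m0 : ℤ) (D P : Finset (Fin n))
    (T T' : Fin r → ℤ) (hZ : SZ a w σ lam th m0 D P T T') :
    ∃ jb : Fin r → Option (Fin n), JB a σ P jb := by
  classical
  refine ⟨fun b => if h : ∃ j, j ∈ P ∧ a b j ≠ 0 then some h.choose else none, ?_⟩
  intro b hb j
  beta_reduce
  constructor
  · intro h
    by_cases hx : ∃ j, j ∈ P ∧ a b j ≠ 0
    · rw [dif_pos hx] at h
      have h2 : hx.choose = j := Option.some.inj h
      rw [← h2]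
      exact hx.choose_spec
    · rw [dif_neg hx] at h
      cases h
  · rintro ⟨hj, hab⟩
    have hx : ∃ j, j ∈ P ∧ a b j ≠ 0 := ⟨j, hj, hab⟩
    rw [dif_pos hx]
    have h2 := (hZ.TP j hj b hb hab).2 hx.choose (hZ.PD hx.choose_spec.1) hx.choose_spec.2
    rw [h2]

theorem FAMV_ev {n : ℕ} (j : Fin n) (l l2 : ℤ) (q : Fin n → ℤ) :
    dt (ev j.succ.succ) (vec l l2 q) = q j := by
  rw [dt_ev]
  simp [vec]

theorem FAMV_ev1 {n : ℕ} (l l2 : ℤ) (q : Fin n → ℤ) :
    dt (ev (Fin.succ 0) : Lat (n + 2)) (vec l l2 q) = l2 := by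
  rw [dt_ev]
  simp [vec]

/-- The values at the generators. -/
theorem fam_val {n r : ℕ} (a : Fin r → (Fin n →₀ ℕ)) (M : ℤ) (hM : 0 < M) (w : Fin n → ℕ)
    (σ : Finset (Fin r)) (lam : Fin r → ℚ) (th : Fin r → Fin r → ℚ) (G : ℤ)
    (γ : TT w σ → Lat (n + 2)) (q : TT w σ → ℂ) (hG : GD a M w σ lam th G γ q) (m0 : ℤ)
    (D P : Finset (Fin n)) (T T' : Fin r → ℤ) (hZ : SZ a w σ lam th m0 D P T T')
    (jb : Fin r → Option (Fin n)) (hjb : JB a σ P jb) :
    (∀ b, dt (fam w σ γ jb (Sum.inl b)) (A5 a M (XT w σ (Sum.inl b))) ≠ 0) ∧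
    (∀ b b', b ≠ b' → dt (fam w σ γ jb (Sum.inl b)) (A5 a M (XT w σ (Sum.inl b'))) = 0) ∧
    (∀ b o, dt (fam w σ γ jb (Sum.inl b)) (A5 a M (XT w σ (Sum.inr o))) = 0) ∧
    (∀ b, dt (fam w σ γ jb (Sum.inr none)) (A5 a M (XT w σ (Sum.inl b))) = 0) ∧
    (∀ o, dt (fam w σ γ jb (Sum.inr none)) (A5 a M (XT w σ (Sum.inr o))) = 1) ∧
    (∀ j, dt (fam w σ γ jb (Sum.inr (some j))) (A5 a M (XT w σ (Sum.inr none))) = 0) ∧
    ∀ j j', dt (fam w σ γ jb (Sum.inr (some j))) (A5 a M (XT w σ (Sum.inr (some j')))) =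
      if j = j' then M else 0 := by
  refine ⟨fun b => ?_, fun b b' hbb => ?_, fun b o => ?_, fun b => ?_, fun o => ?_, fun j => ?_,
    fun j j' => ?_⟩
  · rcases hjo : jb b.1 with _ | j
    · have h1 : fam w σ γ jb (Sum.inl b) = γ (Sum.inl b) := by
        simp only [fam, hjo, Option.elim]
      rw [h1, hG.dual, if_pos rfl]
      exact hG.G0.ne'
    · have h1 : fam w σ γ jb (Sum.inl b) = ev j.succ.succ := by
        simp only [fam, hjo, Option.elim]
      have h2 : A5 a M (XT w σ (Sum.inl b)) = vec 1 0 (fun j => (a b.1 j : ℤ)) := rfl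
      rw [h1, h2, FAMV_ev]
      have h3 := ((hjb b.1 b.2 j).1 hjo).2
      exact_mod_cast h3
  · rcases hjo : jb b.1 with _ | j
    · have h1 : fam w σ γ jb (Sum.inl b) = γ (Sum.inl b) := by
        simp only [fam, hjo, Option.elim]
      rw [h1, hG.dual, if_neg]
      intro h2
      exact hbb (Sum.inl.inj h2)
    · have h1 : fam w σ γ jb (Sum.inl b) = ev j.succ.succ := by
        simp only [fam, hjo, Option.elim]
      have h2 : A5 a M (XT w σ (Sum.inl b')) = vec 1 0 (fun j => (a b'.1 j : ℤ)) := rfl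
      rw [h1, h2, FAMV_ev]
      obtain ⟨hjP, hab⟩ := (hjb b.1 b.2 j).1 hjo
      obtain ⟨b0, -, -, hu, -⟩ := hZ.TD j (hZ.PD hjP)
      have h3 : b.1 = b0 := by
        by_contra hne
        exact hab (hu b.1 b.2 hne)
      have h4 : a b'.1 j = 0 := by
        refine hu b'.1 b'.2 fun h5 => hbb ?_
        apply Subtype.ext
        rw [h3, h5]
      rw [h4]
      rfl
  · rcases hjo : jb b.1 with _ | j
    · have h1 : fam w σ γ jb (Sum.inl b) = γ (Sum.inl b) := by
        simp only [fam, hjo, Option.elim]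
      rw [h1, hG.dual, if_neg]
      intro h2
      cases h2
    · have h1 : fam w σ γ jb (Sum.inl b) = ev j.succ.succ := by
        simp only [fam, hjo, Option.elim]
      rw [h1]
      rcases o with _ | j'
      · have h2 : A5 a M (XT w σ (Sum.inr none)) = vec 0 1 0 := rfl
        rw [h2, FAMV_ev]
        rfl
      · have h2 : A5 a M (XT w σ (Sum.inr (some j'))) = vec 0 1 (M • ev j'.1) := rfl
        rw [h2, FAMV_ev]
        have h3 : w j ≠ 0 := hZ.D0 j (hZ.PD ((hjb b.1 b.2 j).1 hjo).1)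
        have h4 : j ≠ j'.1 := by
          intro h5
          rw [h5] at h3
          exact h3 j'.2
        simp [ev, h4]
  · have h2 : A5 a M (XT w σ (Sum.inl b)) = vec 1 0 (fun j => (a b.1 j : ℤ)) := rfl
    have h1 : fam w σ γ jb (Sum.inr none) = ev (Fin.succ 0) := rfl
    rw [h1, h2, FAMV_ev1]
  · have h1 : fam w σ γ jb (Sum.inr none) = ev (Fin.succ 0) := rfl
    rw [h1]
    rcases o with _ | j'
    · have h2 : A5 a M (XT w σ (Sum.inr none)) = vec 0 1 0 := rfl
      rw [h2, FAMV_ev1]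
    · have h2 : A5 a M (XT w σ (Sum.inr (some j'))) = vec 0 1 (M • ev j'.1) := rfl
      rw [h2, FAMV_ev1]
  · have h1 : fam w σ γ jb (Sum.inr (some j)) = ev j.1.succ.succ := rfl
    have h2 : A5 a M (XT w σ (Sum.inr none)) = vec 0 1 0 := rfl
    rw [h1, h2, FAMV_ev]
    rfl
  · have h1 : fam w σ γ jb (Sum.inr (some j)) = ev j.1.succ.succ := rfl
    have h2 : A5 a M (XT w σ (Sum.inr (some j'))) = vec 0 1 (M • ev j'.1) := rfl
    rw [h1, h2, FAMV_ev]
    by_cases hjj : j = j'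
    · subst hjj
      simp [ev]
    · have h3 : j.1 ≠ j'.1 := fun h => hjj (Subtype.ext h)
      simp [ev, h3, hjj]

/-- Independence on the generators outside a set `Z` of vertices. -/
theorem fam_indep {n r : ℕ} (a : Fin r → (Fin n →₀ ℕ)) (M : ℤ) (hM : 0 < M) (w : Fin n → ℕ)
    (σ : Finset (Fin r)) (lam : Fin r → ℚ) (th : Fin r → Fin r → ℚ) (G : ℤ)
    (γ : TT w σ → Lat (n + 2)) (q : TT w σ → ℂ) (hG : GD a M w σ lam th G γ q) (m0 : ℤ)
    (D P : Finset (Fin n)) (T T' : Fin r → ℤ) (hZ : SZ a w σ lam th m0 D P T T')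
    (jb : Fin r → Option (Fin n)) (hjb : JB a σ P jb) (Z : Set (TT w σ))
    (hZl : ∀ τ ∈ Z, ∃ b, τ = Sum.inl b) (k : TT w σ → ℤ) (hk : ∀ τ ∈ Z, k τ = 0)
    (h0 : ∀ τ', τ' ∉ Z →
      ∑ τ, k τ * dt (fam w σ γ jb τ) (A5 a M (XT w σ τ')) = 0) : k = 0 := by
  obtain ⟨v1, v2, v3, v4, v5, v6, v7⟩ :=
    fam_val a M hM w σ lam th G γ q hG m0 D P T T' hZ jb hjb
  have hZr : ∀ o, (Sum.inr o : TT w σ) ∉ Z := by
    intro o ho
    obtain ⟨b, hb⟩ := hZl _ ho
    cases hb
  have k0 : k (Sum.inr none) = 0 := by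
    have h1 := h0 (Sum.inr none) (hZr none)
    rw [Fintype.sum_sum_type, Fintype.sum_option] at h1
    have h2 : ∑ b, k (Sum.inl b) * dt (fam w σ γ jb (Sum.inl b))
        (A5 a M (XT w σ (Sum.inr none))) = 0 :=
      Finset.sum_eq_zero fun b _ => by rw [v3 b none, mul_zero]
    have h3 : ∑ j, k (Sum.inr (some j)) * dt (fam w σ γ jb (Sum.inr (some j)))
        (A5 a M (XT w σ (Sum.inr none))) = 0 :=
      Finset.sum_eq_zero fun j _ => by rw [v6 j, mul_zero]
    rw [h2, h3, v5 none] at h1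
    linarith
  have k1 : ∀ j, k (Sum.inr (some j)) = 0 := by
    intro j
    have h1 := h0 (Sum.inr (some j)) (hZr (some j))
    rw [Fintype.sum_sum_type, Fintype.sum_option] at h1
    have h2 : ∑ b, k (Sum.inl b) * dt (fam w σ γ jb (Sum.inl b))
        (A5 a M (XT w σ (Sum.inr (some j)))) = 0 :=
      Finset.sum_eq_zero fun b _ => by rw [v3 b (some j), mul_zero]
    have h3 : ∑ i, k (Sum.inr (some i)) * dt (fam w σ γ jb (Sum.inr (some i)))
        (A5 a M (XT w σ (Sum.inr (some j)))) = k (Sum.inr (some j)) * M := by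
      rw [Finset.sum_eq_single j]
      · rw [v7 j j, if_pos rfl]
      · intro i _ hij
        rw [v7 i j, if_neg hij, mul_zero]
      · intro h
        exact absurd (Finset.mem_univ j) h
    rw [h2, h3, k0, zero_mul, zero_add, zero_add] at h1
    rcases mul_eq_zero.1 h1 with h4 | h4
    · exact h4
    · exact absurd h4 hM.ne'
  have k2 : ∀ b, k (Sum.inl b) = 0 := by
    intro b
    by_cases hb : (Sum.inl b : TT w σ) ∈ Z
    · exact hk _ hb
    · have h1 := h0 (Sum.inl b) hb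
      rw [Fintype.sum_sum_type, Fintype.sum_option] at h1
      have h2 : ∑ i, k (Sum.inl i) * dt (fam w σ γ jb (Sum.inl i))
          (A5 a M (XT w σ (Sum.inl b))) =
          k (Sum.inl b) * dt (fam w σ γ jb (Sum.inl b)) (A5 a M (XT w σ (Sum.inl b))) := by
        rw [Finset.sum_eq_single b]
        · intro i _ hib
          rw [v2 i b hib, mul_zero]
        · intro h
          exact absurd (Finset.mem_univ b) h
      have h3 : ∑ i, k (Sum.inr (some i)) * dt (fam w σ γ jb (Sum.inr (some i)))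
          (A5 a M (XT w σ (Sum.inl b))) = 0 :=
        Finset.sum_eq_zero fun i _ => by rw [k1 i, zero_mul]
      rw [h2, h3, k0, zero_mul, zero_add, add_zero] at h1
      rcases mul_eq_zero.1 h1 with h4 | h4
      · exact h4
      · exact absurd h4 (v1 b)
  funext τ
  rcases τ with b | o
  · exact k2 b
  · rcases o with _ | j
    · exact k0
    · exact k1 j

/-- Every functional is a rational combination of the family on the span of the face. -/
theorem fam_span {n r : ℕ} (a : Fin r → (Fin n →₀ ℕ)) (M : ℤ) (hM : 0 < M) (w : Fin n → ℕ)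
    (σ : Finset (Fin r)) (lam : Fin r → ℚ) (th : Fin r → Fin r → ℚ) (G : ℤ)
    (γ : TT w σ → Lat (n + 2)) (q : TT w σ → ℂ) (hG : GD a M w σ lam th G γ q) (m0 : ℤ)
    (D P : Finset (Fin n)) (T T' : Fin r → ℤ) (hZ : SZ a w σ lam th m0 D P T T')
    (jb : Fin r → Option (Fin n)) (hjb : JB a σ P jb) (g : Lat (n + 2)) :
    ∃ (N : ℤ) (k : TT w σ → ℤ), N ≠ 0 ∧ ∀ τ', N * dt g (A5 a M (XT w σ τ')) =
      ∑ τ, k τ * dt (fam w σ γ jb τ) (A5 a M (XT w σ τ')) := by
  classical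
  let Q : Matrix (TT w σ) (TT w σ) ℤ :=
    Matrix.of fun τ τ' => dt (fam w σ γ jb τ) (A5 a M (XT w σ τ'))
  have hdet : Q.det ≠ 0 := by
    intro hd
    obtain ⟨v, hv, hv0⟩ := Matrix.exists_vecMul_eq_zero_iff.2 hd
    apply hv
    refine fam_indep a M hM w σ lam th G γ q hG m0 D P T T' hZ jb hjb ∅ (by simp) v (by simp) ?_
    intro τ' _
    have h1 := congrFun hv0 τ'
    exact h1
  refine ⟨Q.det, Matrix.vecMul (fun τ' => dt g (A5 a M (XT w σ τ'))) Q.adjugate, hdet, ?_⟩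
  intro τ'
  have h1 : Matrix.vecMul (Matrix.vecMul (fun τ' => dt g (A5 a M (XT w σ τ'))) Q.adjugate) Q =
      Q.det • (fun τ' => dt g (A5 a M (XT w σ τ'))) := by
    rw [Matrix.vecMul_vecMul, Matrix.adjugate_mul, Matrix.vecMul_smul, Matrix.vecMul_one]
  have h2 := congrFun h1 τ'
  have h3 : (Q.det • (fun τ' => dt g (A5 a M (XT w σ τ')))) τ' =
      Q.det * dt g (A5 a M (XT w σ τ')) := rfl
  rw [← h3, ← h2]
  rfl

end Pool.Agent.H56.T5
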