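import Pool.Agent.H56.T5.LB
import Pool.Agent.H56.SMC.JF

/-!
# JFL: the formal integrals, polynomial supports

ADAPT `JF.lean` (`Pool/Agent/H56/SMC/JF.lean`).  The only change: the submodule `exS` of all relations is replaced by the submodule `exLS`
(`LB`) of the relations with mixed supports in ALL coordinate directions (`P = sh univ`, `ℓ = ev`): component `k` of a chain is supported in the
`vec l l2 q` with `q_j ≥ -1`, and `q_j ≥ 0` if `j.succ.succ ≠ k`.

Proof.  `JF_rec`, `JF_emb`, `JF_L`, `JF_I` (for a general submodule `S`) and the other auxiliary lemmas of `JF` can be used as they are.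
Analogues of `JF_rel`, `JF_D0`, `JF_D1`, `JF_D2` in the quotient by `exLS`: the relation `D_k e_u = 0` holds for
`u ∈ LL ev (sh univ) {k}` (`ExL.single_comp`, `Supp.single`).  For `D_0`, `D_1`: `u = vec l l2 q` with `q ≥ 0` (`vec_mem_LL`).  For
`D_{j+2}`: `u = vec l l2 (-ev j + q)` with `q ≥ 0`: `u_j = q_j - 1 ≥ -1`, the other `u_i ≥ 0` (component `j+2` of mixed type).  The statements
`h1`, `h2`, `h3` are now for `g` with polynomial support (`Supp (Pos n) g`): write `g` as the sum of its terms (induction on the support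
inside `Pos n`, or `g = ∑ u ∈ g.coeff.support, single u (g.coeff u)`).
-/

set_option autoImplicit false

namespace Pool.Agent.H56.T5

open Finset AddMonoidAlgebra
open Pool.Agent.H56.SMC Pool.Agent.H37.T5

/-- the relation `D_j e_u = 0` -/
theorem JFL_rel {R : Type} [CommRing R] {d : ℕ} {ι : Type} [Fintype ι] (p : Fin d → R)
    (a : ι → Lat d) (c : ι → R) {P : Finset (Fin d)} (j : Fin d) (u : Lat d)
    (hu : u ∈ LL ev P {j}) (r : R) :
    (exLS p a c ev P Set.univ).mkQ (single u ((p j + (u j : R)) * r)) =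
      ∑ i, (exLS p a c ev P Set.univ).mkQ (single (u + a i) (c i * (a i j : R) * r)) := by
  rw [← map_sum, ← sub_eq_zero, ← map_sub, Submodule.mkQ_apply, Submodule.Quotient.mk_eq_zero,
    mem_exLS]
  have h := ExL.single_comp (p := p) (a := a) (c := c) (ℓ := ev) (P := P) (S := Set.univ) j
    (Supp.single (show u ∈ Set.univ ∩ LL ev P {j} from ⟨Set.mem_univ u, hu⟩) r)
  convert h using 1
  apply lp_ext; intro u'
  rw [Dop_coeff, coeff_sub', coeff_finsum, JF_pv_ev, coeff_single', coeff_single']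
  congr 1
  · rw [dt_ev]
    split_ifs with h1
    · rw [h1]
    · rw [mul_zero]
  · refine sum_congr rfl fun i _ => ?_
    rw [coeff_single', coeff_single', dt_ev]
    have e : (u' = u + a i) = (u' - a i = u) := by
      rw [sub_eq_iff_eq_add]
    simp only [e]
    split_ifs
    · rfl
    · rw [mul_zero]

/-- an element is the sum of its terms -/
theorem JFL_sum_single {R : Type} [CommRing R] {n : ℕ} (g : LP R n) :
    g = ∑ u ∈ g.coeff.support, (single u (g.coeff u) : LP R n) := by
  classical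
  apply lp_ext; intro u
  rw [coeff_finsum]
  simp only [coeff_single']
  rw [Finset.sum_ite_eq]
  split_ifs with h
  · rfl
  · exact Finsupp.notMem_support_iff.mp h

/-- induction for polynomial supports -/
theorem JFL_ind {R : Type} [CommRing R] {n : ℕ} {S : Set (Lat n)} {M : LP R n → Prop}
    (h0 : M 0) (hadd : ∀ x y, M x → M y → M (x + y))
    (hs : ∀ q ∈ S, ∀ x : R, M (single q x)) {g : LP R n} (hg : Supp S g) : M g := by
  rw [JFL_sum_single g]
  refine Finset.sum_induction _ M hadd h0 ?_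
  intro u hu
  exact hs u (hg u (Finsupp.mem_support_iff.mp hu)) _

theorem JFL_mem {n : ℕ} (l l2 : ℤ) (q : Lat n) (hq : ∀ j, 0 ≤ q j) (j : Fin n) :
    vec l l2 (-ev j + q) ∈ LL ev (sh univ) {j.succ.succ} := by
  intro k hk
  obtain ⟨j', -, rfl⟩ := mem_sh.1 hk
  have h1 : dt (ev j'.succ.succ) (vec l l2 (-ev j + q)) = (-ev j + q) j' := by
    rw [dt_ev]; simp [vec]
  rw [h1]
  have h2 := hq j'
  have h3 : (-ev j + q : Lat n) j' = -(if j' = j then 1 else 0) + q j' := by
    simp [ev, Pi.single_apply]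
  rw [h3]
  constructor
  · split_ifs <;> omega
  · intro h4
    have h5 : j' ≠ j := by
      rintro rfl
      exact h4 (Finset.mem_singleton_self _)
    rw [if_neg h5]
    omega

section main

variable {n r : ℕ} {ϑ : Type} [Fintype ϑ] (a : Fin r → (Fin n →₀ ℕ)) (κ : Fin r → ℂ)
    (bb : ϑ → Lat n) (lam : ϑ → ℂ) (s0 t0 : ℂ)

/-- the submodule of the relations -/
noncomputable abbrev JFL_S : Submodule KA (LP KA (n + 2)) :=
  exLS (fun j => jK (pp (PowerSeries.C s0 + PowerSeries.X) (PowerSeries.C t0) j)) (cA a bb)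
        (fun i => jK (PowerSeries.C (cC κ lam i))) ev (sh univ) Set.univ

theorem JFL_D0 (l l2 : ℤ) (q : Lat n) (hq : ∀ j, 0 ≤ q j) (x : KA) :
    (JFL_S a κ bb lam s0 t0).mkQ (single (vec l l2 q)
      ((-jK (PowerSeries.C s0 + PowerSeries.X) + (l : KA)) * x)) =
    ∑ i, (JFL_S a κ bb lam s0 t0).mkQ (single (vec (l + 1) l2 (q + fun j => (a i j : ℤ)))
      (jK (PowerSeries.C (κ i)) * x)) := by
  have h := JFL_rel (fun j : Fin (n + 2) =>
    jK (pp (PowerSeries.C s0 + PowerSeries.X) (PowerSeries.C t0) j)) (cA a bb)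
    (fun i => jK (PowerSeries.C (cC κ lam i))) 0 (vec l l2 q)
    (vec_mem_LL univ _ l l2 q fun j _ => hq j) x
  rw [Fintype.sum_sum_type] at h
  have e1 : (vec l l2 q : Lat (n + 2)) 0 = l := rfl
  have e2 : jK (pp (n := n) (PowerSeries.C s0 + PowerSeries.X) (PowerSeries.C t0) 0) =
      -jK (PowerSeries.C s0 + PowerSeries.X) := by
    rw [← map_neg]; rfl
  simp only [e1, e2] at h
  rw [h]
  have e3 : ∀ k : ϑ, (JFL_S a κ bb lam s0 t0).mkQ (single (vec l l2 q + cA a bb (Sum.inr k))
      (jK (PowerSeries.C (cC κ lam (Sum.inr k))) * ((cA a bb (Sum.inr k) 0 : ℤ) : KA) * x)) = 0 := by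
    intro k
    have : (cA a bb (Sum.inr k) 0 : ℤ) = 0 := rfl
    rw [this]
    simp
  rw [sum_congr rfl (fun k _ => e3 k), sum_const_zero, add_zero]
  refine sum_congr rfl fun i _ => ?_
  have e4 : (cA a bb (Sum.inl i) 0 : ℤ) = 1 := rfl
  have e5 : vec l l2 q + cA a bb (Sum.inl i) = vec (l + 1) l2 (q + fun j => (a i j : ℤ)) := by
    show vec l l2 q + vec 1 0 (fun j => (a i j : ℤ)) = _
    rw [vec_add, add_zero]
  rw [e4, e5]
  simp only [Int.cast_one, mul_one]
  rfl

theorem JFL_D1 (l l2 : ℤ) (q : Lat n) (hq : ∀ j, 0 ≤ q j) (x : KA) :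
    (JFL_S a κ bb lam s0 t0).mkQ (single (vec l l2 q)
      ((-jK (PowerSeries.C t0) + (l2 : KA)) * x)) =
    ∑ k, (JFL_S a κ bb lam s0 t0).mkQ (single (vec l (l2 + 1) (q + bb k))
      (jK (PowerSeries.C (lam k)) * x)) := by
  have h := JFL_rel (fun j : Fin (n + 2) =>
    jK (pp (PowerSeries.C s0 + PowerSeries.X) (PowerSeries.C t0) j)) (cA a bb)
    (fun i => jK (PowerSeries.C (cC κ lam i))) (Fin.succ 0) (vec l l2 q)
    (vec_mem_LL univ _ l l2 q fun j _ => hq j) x
  rw [Fintype.sum_sum_type] at h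
  have e1 : (vec l l2 q : Lat (n + 2)) (Fin.succ 0) = l2 := rfl
  have e2 : jK (pp (n := n) (PowerSeries.C s0 + PowerSeries.X) (PowerSeries.C t0)
      (Fin.succ 0)) = -jK (PowerSeries.C t0) := by
    rw [← map_neg]; rfl
  simp only [e1, e2] at h
  rw [h]
  have e3 : ∀ k : Fin r, (JFL_S a κ bb lam s0 t0).mkQ (single (vec l l2 q + cA a bb (Sum.inl k))
      (jK (PowerSeries.C (cC κ lam (Sum.inl k))) *
        ((cA a bb (Sum.inl k) (Fin.succ 0) : ℤ) : KA) * x)) = 0 := by
    intro k
    have : (cA a bb (Sum.inl k) (Fin.succ 0) : ℤ) = 0 := rfl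
    rw [this]
    simp
  rw [sum_congr rfl (fun k _ => e3 k), sum_const_zero, zero_add]
  refine sum_congr rfl fun i _ => ?_
  have e4 : (cA a bb (Sum.inr i) (Fin.succ 0) : ℤ) = 1 := rfl
  have e5 : vec l l2 q + cA a bb (Sum.inr i) = vec l (l2 + 1) (q + bb i) := by
    show vec l l2 q + vec 0 1 (bb i) = _
    rw [vec_add, add_zero]
  rw [e4, e5]
  simp only [Int.cast_one, mul_one]
  rfl

theorem JFL_D2 (l l2 : ℤ) (q : Lat n) (j : Fin n)
    (hq : vec l l2 q ∈ LL ev (sh univ) {j.succ.succ}) (x : KA) :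
    (JFL_S a κ bb lam s0 t0).mkQ (single (vec l l2 q) ((1 + (q j : KA)) * x)) =
    ∑ i, (JFL_S a κ bb lam s0 t0).mkQ (single (vec (l + 1) l2 (q + fun j => (a i j : ℤ)))
      (jK (PowerSeries.C (κ i)) * (a i j : KA) * x)) +
    ∑ k, (JFL_S a κ bb lam s0 t0).mkQ (single (vec l (l2 + 1) (q + bb k))
      (jK (PowerSeries.C (lam k)) * (bb k j : KA) * x)) := by
  have h := JFL_rel (fun j : Fin (n + 2) =>
    jK (pp (PowerSeries.C s0 + PowerSeries.X) (PowerSeries.C t0) j)) (cA a bb)
    (fun i => jK (PowerSeries.C (cC κ lam i))) j.succ.succ (vec l l2 q) hq x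
  rw [Fintype.sum_sum_type] at h
  have e1 : (vec l l2 q : Lat (n + 2)) j.succ.succ = q j := rfl
  have e2 : jK (pp (n := n) (PowerSeries.C s0 + PowerSeries.X) (PowerSeries.C t0)
      j.succ.succ) = 1 := by
    rw [← map_one jK]; rfl
  simp only [e1, e2] at h
  rw [h]
  congr 1
  · refine sum_congr rfl fun i _ => ?_
    have e4 : (cA a bb (Sum.inl i) j.succ.succ : ℤ) = (a i j : ℤ) := rfl
    have e5 : vec l l2 q + cA a bb (Sum.inl i) = vec (l + 1) l2 (q + fun j => (a i j : ℤ)) := by
      show vec l l2 q + vec 1 0 (fun j => (a i j : ℤ)) = _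
      rw [vec_add, add_zero]
    rw [e4, e5]
    simp only [Int.cast_natCast]
    rfl
  · refine sum_congr rfl fun i _ => ?_
    have e4 : (cA a bb (Sum.inr i) j.succ.succ : ℤ) = bb i j := rfl
    have e5 : vec l l2 q + cA a bb (Sum.inr i) = vec l (l2 + 1) (q + bb i) := by
      show vec l l2 q + vec 0 1 (bb i) = _
      rw [vec_add, add_zero]
    rw [e4, e5]
    rfl

end main

/-- JFL -/
theorem jfL {n r : ℕ} {ϑ : Type} [Fintype ϑ] (a : Fin r → (Fin n →₀ ℕ)) (κ : Fin r → ℂ)
    (bb : ϑ → Lat n) (hbb : ∀ k j, 0 ≤ bb k j) (lam : ϑ → ℂ) (s0 t0 : ℂ)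
    (ht0 : ∀ m : ℤ, t0 ≠ (m : ℂ)) :
    ∃ I : ℤ → ℤ → LP PA n →ₗ[PA] (LP KA (n + 2) ⧸ exLS
        (fun j => jK (pp (PowerSeries.C s0 + PowerSeries.X) (PowerSeries.C t0) j)) (cA a bb)
        (fun i => jK (PowerSeries.C (cC κ lam i))) ev (sh univ) Set.univ),
      (∀ i m g, Supp (Pos n) g →
        I i m g = I (i - 1) m (lmap (algebraMap ℂ PA) (toL ℂ (fpoly a κ)) * g)) ∧
      (∀ i m g, Supp (Pos n) g →
        I i m g = I i (m - 1) (lmap (algebraMap ℂ PA) (Hl bb lam) * g)) ∧
      (∀ i m j g, Supp (Pos n) g → I i m (dL j g) +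
        ((PowerSeries.C s0 + PowerSeries.X) + (i : PA)) •
          I (i - 1) m (dL j (lmap (algebraMap ℂ PA) (toL ℂ (fpoly a κ))) * g) +
        (PowerSeries.C t0 + (m : PA)) •
          I i (m - 1) (dL j (lmap (algebraMap ℂ PA) (Hl bb lam)) * g) = 0) ∧
      I 0 0 1 = Submodule.Quotient.mk (single 0 1) ∧
      ∀ R : ℕ, ∃ ρ : ℂ, ∀ g, I 0 (-(R : ℤ)) g =
        Submodule.Quotient.mk (lmap jK (PowerSeries.C ρ • emb (R : ℤ) g)) := by
  have hD : ∀ i : ℤ, -jK (PowerSeries.C s0 + PowerSeries.X) - (i : KA) ≠ 0 := by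
    intro i h
    have h1 : jK (-(PowerSeries.C s0 + PowerSeries.X) - (i : PA)) = 0 := by
      rw [map_sub, map_neg, map_intCast]; exact h
    have h2 : (-(PowerSeries.C s0 + PowerSeries.X) - (i : PA)) = 0 :=
      (IsFractionRing.injective PA KA) (by rw [map_zero]; exact h1)
    have h3 := congrArg (PowerSeries.coeff 1) h2
    have h4 : ((i : ℤ) : PA) = PowerSeries.C (i : ℂ) := by simp
    rw [h4, map_sub, map_neg, map_add, PowerSeries.coeff_C, PowerSeries.coeff_one_X,
      PowerSeries.coeff_C, map_zero, if_neg one_ne_zero, if_neg one_ne_zero] at h3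
    norm_num at h3
  have hE : ∀ m : ℤ, -t0 - (m : ℂ) ≠ 0 := by
    intro m h
    apply ht0 (-m)
    push_cast
    linear_combination -h
  obtain ⟨ρ, hρ0, hρ⟩ := JF_rec _ hD
  obtain ⟨σ, hσ0, hσ⟩ := JF_rec _ hE
  have hσ' : ∀ m, jK (PowerSeries.C (σ m)) = jK (PowerSeries.C (σ (m - 1))) *
      (-jK (PowerSeries.C t0) - (m : KA)) := by
    intro m
    rw [hσ m]
    simp only [map_mul, map_sub, map_neg, map_intCast]
  refine ⟨fun i m => JF_I _ ρ σ i m, ?_, ?_, ?_, ?_, ?_⟩
  · intro i m g hg
    refine JFL_ind (M := fun g => JF_I (JFL_S a κ bb lam s0 t0) ρ σ i m g =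
      JF_I (JFL_S a κ bb lam s0 t0) ρ σ (i - 1) m
        (lmap (algebraMap ℂ PA) (toL ℂ (fpoly a κ)) * g)) ?_ ?_ ?_ hg
    · simp only [mul_zero, map_zero]
    · intro x y hx hy
      rw [mul_add, map_add, map_add, hx, hy]
    · intro q hq x
      rw [JF_I_single, JF_mapf, sum_mul, map_sum]
      have h := JFL_D0 a κ bb lam s0 t0 (-i) (-m) q hq (ρ (i - 1) * jK (PowerSeries.C (σ m)) * jK x)
      have e1 : (-jK (PowerSeries.C s0 + PowerSeries.X) + ((-i : ℤ) : KA)) *
          (ρ (i - 1) * jK (PowerSeries.C (σ m)) * jK x) =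
          ρ i * jK (PowerSeries.C (σ m)) * jK x := by
        rw [hρ i]; push_cast; ring
      rw [e1] at h
      rw [h]
      refine sum_congr rfl fun k _ => ?_
      rw [single_mul_single, JF_I_single]
      congr 2
      · congr 1
        · ring
        · rw [add_comm]
      · rw [map_mul]; ring
  · intro i m g hg
    refine JFL_ind (M := fun g => JF_I (JFL_S a κ bb lam s0 t0) ρ σ i m g =
      JF_I (JFL_S a κ bb lam s0 t0) ρ σ i (m - 1)
        (lmap (algebraMap ℂ PA) (Hl bb lam) * g)) ?_ ?_ ?_ hg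
    · simp only [mul_zero, map_zero]
    · intro x y hx hy
      rw [mul_add, map_add, map_add, hx, hy]
    · intro q hq x
      rw [JF_I_single, JF_mapH, sum_mul, map_sum]
      have h := JFL_D1 a κ bb lam s0 t0 (-i) (-m) q hq (ρ i * jK (PowerSeries.C (σ (m - 1))) * jK x)
      have e1 : (-jK (PowerSeries.C t0) + ((-m : ℤ) : KA)) *
          (ρ i * jK (PowerSeries.C (σ (m - 1))) * jK x) =
          ρ i * jK (PowerSeries.C (σ m)) * jK x := by
        rw [hσ' m]; push_cast; ring
      rw [e1] at h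
      rw [h]
      refine sum_congr rfl fun k _ => ?_
      rw [single_mul_single, JF_I_single]
      congr 2
      · congr 1
        · ring
        · rw [add_comm]
      · rw [map_mul]; ring
  · intro i m j g hg
    refine JFL_ind (M := fun g => JF_I (JFL_S a κ bb lam s0 t0) ρ σ i m (dL j g) +
        ((PowerSeries.C s0 + PowerSeries.X) + (i : PA)) •
          JF_I (JFL_S a κ bb lam s0 t0) ρ σ (i - 1) m
            (dL j (lmap (algebraMap ℂ PA) (toL ℂ (fpoly a κ))) * g) +
        (PowerSeries.C t0 + (m : PA)) •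
          JF_I (JFL_S a κ bb lam s0 t0) ρ σ i (m - 1)
            (dL j (lmap (algebraMap ℂ PA) (Hl bb lam)) * g) = 0) ?_ ?_ ?_ hg
    · simp only [JF_dL_zero, mul_zero, map_zero, smul_zero, add_zero]
    · intro x y hx hy
      rw [JF_dL_add, mul_add, mul_add, map_add, map_add, map_add, smul_add, smul_add]
      calc _ = _ + _ := by abel
        _ = 0 + 0 := congrArg₂ (· + ·) hx hy
        _ = 0 := add_zero 0
    · intro q hq x
      rw [JF_mapf, JF_mapH, JF_dL_sum, JF_dL_sum, sum_mul, sum_mul, map_sum, map_sum, smul_sum,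
        smul_sum]
      have h := JFL_D2 a κ bb lam s0 t0 (-i) (-m) (-ev j + q) j
        (JFL_mem _ _ q hq j)
        (ρ i * jK (PowerSeries.C (σ m)) * jK x)
      have e0 : ((-ev j + q : Lat n) j : ℤ) = -1 + q j := by
        simp [ev]
      have e1 : (1 + (((-ev j + q : Lat n) j : ℤ) : KA)) *
          (ρ i * jK (PowerSeries.C (σ m)) * jK x) =
          ρ i * jK (PowerSeries.C (σ m)) * jK ((q j : PA) * x) := by
        rw [e0, map_mul, map_intCast]; push_cast; ring
      rw [e1] at h
      rw [JF_dL_single, JF_I_single, h]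
      have f1 : ∀ k : Fin r, ((PowerSeries.C s0 + PowerSeries.X) + (i : PA)) •
          JF_I (JFL_S a κ bb lam s0 t0) ρ σ (i - 1) m
            (dL j (single (fun j => (a k j : ℤ)) (PowerSeries.C (κ k))) * single q x) =
          -(JFL_S a κ bb lam s0 t0).mkQ (single (vec (-i + 1) (-m)
            ((-ev j + q) + fun j => (a k j : ℤ)))
            (jK (PowerSeries.C (κ k)) * (a k j : KA) *
              (ρ i * jK (PowerSeries.C (σ m)) * jK x))) := by
        intro k
        rw [JF_dL_single, single_mul_single, ← map_smul, JF_smul_single, JF_I_single, ← map_neg]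
        congr 1
        rw [← AddMonoidAlgebra.single_neg]
        congr 1
        · congr 1
          · ring
          · abel
        · rw [hρ i]
          simp only [map_mul, map_add, map_intCast]
          push_cast
          ring
      have f2 : ∀ k : ϑ, (PowerSeries.C t0 + (m : PA)) •
          JF_I (JFL_S a κ bb lam s0 t0) ρ σ i (m - 1)
            (dL j (single (bb k) (PowerSeries.C (lam k))) * single q x) =
          -(JFL_S a κ bb lam s0 t0).mkQ (single (vec (-i) (-m + 1) ((-ev j + q) + bb k))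
            (jK (PowerSeries.C (lam k)) * (bb k j : KA) *
              (ρ i * jK (PowerSeries.C (σ m)) * jK x))) := by
        intro k
        rw [JF_dL_single, single_mul_single, ← map_smul, JF_smul_single, JF_I_single, ← map_neg]
        congr 1
        rw [← AddMonoidAlgebra.single_neg]
        congr 1
        · congr 1
          · ring
          · abel
        · rw [hσ' m]
          simp only [map_mul, map_add, map_intCast]
          ring
      rw [sum_congr rfl (fun k _ => f1 k), sum_congr rfl (fun k _ => f2 k), sum_neg_distrib,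
        sum_neg_distrib]
      abel
  · have h1 : (1 : LP PA n) = single 0 1 := rfl
    rw [h1, JF_I_single, hρ0, hσ0]
    simp only [map_one, mul_one, neg_zero]
    have h2 : (vec 0 0 (0 : Lat n) : Lat (n + 2)) = 0 := by
      funext k
      refine Fin.cases rfl (fun k => Fin.cases rfl (fun k => rfl) k) k
    rw [h2]
    rfl
  · intro R
    refine ⟨σ (-(R : ℤ)), ?_⟩
    intro g
    show Submodule.Quotient.mk ((ρ 0 * jK (PowerSeries.C (σ (-(R : ℤ))))) •
      JF_emb (-0) (- -(R : ℤ)) (lmap jK g)) = _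
    rw [hρ0, one_mul, neg_zero, neg_neg, lmap_smul]
    congr 2
    induction g using AddMonoidAlgebra.induction_linear with
    | zero =>
      have z1 : lmap jK (0 : LP PA n) = 0 := by
        apply lp_ext; intro u
        rw [lmap_coeff, coeff_zero', coeff_zero', map_zero]
      have z2 : emb (R : ℤ) (0 : LP PA n) = 0 := JF_emb_zero 0 (R : ℤ)
      have z3 : lmap jK (0 : LP PA (n + 2)) = 0 := by
        apply lp_ext; intro u
        rw [lmap_coeff, coeff_zero', coeff_zero', map_zero]
      rw [z1, z2, z3, JF_emb_zero]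
    | add x y hx hy =>
      rw [lmap_add, JF_emb_add, hx, hy, ← lmap_add]
      congr 1
      exact (JF_emb_add (0 : ℤ) (R : ℤ) x y).symm
    | single q x =>
      rw [JF_lmap_single, JF_emb_single]
      have h1 : emb (R : ℤ) (single q x : LP PA n) = single (vec 0 (R : ℤ) q) x :=
        JF_emb_single (0 : ℤ) (R : ℤ) q x
      rw [h1, JF_lmap_single]

end Pool.Agent.H56.T5
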