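import Pool.Agent.H56.T5.LB

/-!
# KDL: Koszul exactness of the operators from Koszul exactness of the symbols, mixed supports

ADAPT the proof of `kd` (`Pool/Agent/H56/SMC/KD.lean`): there `ℓ = ev`, `P = ∅`.

Proof.  Induction on `n`: the claim for `z` with `dt δ u < C + n` on the supports (`dt δ u ≥ C` on `S`; for `n = 0` `z = 0`).  Let `t_k` be
the part of `z_k` with `dt δ u = N = C + n`.  `D_k = dg(..) - g_k`, `dg` preserves the degree `dt δ`, `g_k` raises it by `1` (`hδ`).  The
part of `∑ D_k z_k = 0` of degree `N+1` is `-∑ g_k t_k = 0`.  `hK` gives `t_k = ∑_l g_l y_kl`, `y_kl` supported in `S ∩ LL ℓ P {k, l}`;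
replace `y_kl` by its part of degree `N-1` (still antisymmetric, same supports, same equation).  Then `z'_k = z_k + ∑_l D_l y_kl` is
supported in `S ∩ LL ℓ P {k}` (`LL_Dop` of `LB` with `K = {k}`, after rewriting `{k, l} = insert l {k}`), in degrees `< N`, and
`∑_k D_k z'_k = 0` (`Dop_antisymmL`, `lp_eq_neg_self`), so `z'_k = ∑_l D_l y'_kl` and `z_k = ∑_l D_l (y'_kl - y_kl)`.
-/

set_option autoImplicit false

namespace Pool.Agent.H56.T5

open Finset AddMonoidAlgebra
open Pool.Agent.H56.SMC Pool.Agent.H37.T5

/-- KDL -/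
theorem kdL {d s : ℕ} {ι : Type} [Fintype ι] (a : ι → Lat d) (c : ι → ℂ) (p : Fin d → ℂ)
    (ℓ : Fin s → Lat d) (P : Finset (Fin s)) (hP1 : ∀ k ∈ P, pv p (ℓ k) = 1)
    (hPa : ∀ k ∈ P, ∀ i, 0 ≤ dt (ℓ k) (a i))
    (S : Set (Lat d)) (δ : Lat d) (hδ : ∀ i, dt δ (a i) = 1) (C : ℤ) (hSδ : ∀ u ∈ S, C ≤ dt δ u)
    (hS : ∀ u ∈ S, ∀ i, c i ≠ 0 → u + a i ∈ S) (hK : KExactL a c ℓ P S)
    (z : Fin s → LP ℂ d) (hz : ∀ k, Supp (S ∩ LL ℓ P {k}) (z k))
    (h0 : ∑ k, Dop p a c (ℓ k) (z k) = 0) :
    ∃ y : Fin s → Fin s → LP ℂ d, (∀ k l, Supp (S ∩ LL ℓ P {k, l}) (y k l)) ∧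
      (∀ k l, y k l = -y l k) ∧ ∀ k, z k = ∑ l, Dop p a c (ℓ l) (y k l) := by
  classical
  have hDy : ∀ (y : Fin s → Fin s → LP ℂ d), (∀ k l, Supp (S ∩ LL ℓ P {k, l}) (y k l)) →
      ∀ k, Supp (S ∩ LL ℓ P {k}) (∑ l, Dop p a c (ℓ l) (y k l)) := by
    intro y hy k
    refine Supp.sum _ fun l _ => ?_
    apply LL_Dop p a c ℓ P {k} hP1 hPa S hS l
    have := hy k l
    rwa [Finset.pair_comm] at this
  have key : ∀ (n : ℕ) (z : Fin s → LP ℂ d), (∀ k, Supp (S ∩ LL ℓ P {k}) (z k)) →
      (∀ k, Supp {u | dt δ u < C + n} (z k)) →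
      ∑ k, Dop p a c (ℓ k) (z k) = 0 →
      ∃ y : Fin s → Fin s → LP ℂ d, (∀ k l, Supp (S ∩ LL ℓ P {k, l}) (y k l)) ∧
        (∀ k l, y k l = -y l k) ∧ ∀ k, z k = ∑ l, Dop p a c (ℓ l) (y k l) := by
    intro n
    induction n with
    | zero =>
      intro z hzS hz _
      have hz0 : ∀ j, z j = 0 := by
        intro j
        apply lp_ext
        intro u
        by_contra hu
        have h1 := (hzS j u hu).1
        have h2 := hz j u hu
        have h3 := hSδ u h1
        simp only [Set.mem_setOf_eq] at h2
        push_cast at h2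
        omega
      refine ⟨fun _ _ => 0, fun _ _ => Supp.zero _, fun _ _ => neg_zero.symm, fun j => ?_⟩
      rw [hz0 j]
      simp [Dop_zero]
    | succ n ih =>
      intro z hzS hz h0
      set N : ℤ := C + n with hN
      let t : Fin s → LP ℂ d := fun j => dg (fun u => if dt δ u = N then (1 : ℂ) else 0) (z j)
      have ht : ∀ j u, (t j).coeff u = (if dt δ u = N then (1 : ℂ) else 0) * (z j).coeff u :=
        fun j u => dg_coeff _ _ _
      have htS : ∀ j, Supp (S ∩ LL ℓ P {j}) (t j) := fun j => (hzS j).dg _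
      have htop : ∀ j u, dt δ u = N + 1 → (z j).coeff u = 0 := by
        intro j u hu
        by_contra h1
        have h2 := hz j u h1
        simp only [Set.mem_setOf_eq] at h2
        rw [hN] at hu
        push_cast at h2
        omega
      have hgt : ∑ j, gs a c (ℓ j) * t j = 0 := by
        apply lp_ext
        intro u
        rw [coeff_finsum, coeff_zero']
        by_cases hu : dt δ u = N + 1
        · have h1 : (∑ j, Dop p a c (ℓ j) (z j)).coeff u = 0 := by rw [h0]; rfl
          rw [coeff_finsum] at h1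
          have h2 : ∀ j, (Dop p a c (ℓ j) (z j)).coeff u = -(gs a c (ℓ j) * t j).coeff u := by
            intro j
            rw [Dop_coeff, htop j u hu, mul_zero, zero_sub, gs_mul_coeff]
            congr 1
            refine Finset.sum_congr rfl fun i _ => ?_
            have h3 : dt δ (u - a i) = N := by rw [dt_sub, hδ, hu]; ring
            rw [ht, if_pos h3, one_mul]
          simp only [h2, Finset.sum_neg_distrib, neg_eq_zero] at h1
          exact h1
        · refine Finset.sum_eq_zero fun j _ => ?_
          rw [gs_mul_coeff]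
          refine Finset.sum_eq_zero fun i _ => ?_
          have h3 : dt δ (u - a i) ≠ N := by rw [dt_sub, hδ]; omega
          rw [ht, if_neg h3, zero_mul, mul_zero]
      obtain ⟨y0, hy0S, hy0a, hy0⟩ := hK t htS hgt
      let y : Fin s → Fin s → LP ℂ d :=
        fun j k => dg (fun u => if dt δ u = N - 1 then (1 : ℂ) else 0) (y0 j k)
      have hy : ∀ j k u, (y j k).coeff u =
          (if dt δ u = N - 1 then (1 : ℂ) else 0) * (y0 j k).coeff u := fun j k u => dg_coeff _ _ _
      have hyS : ∀ j k, Supp (S ∩ LL ℓ P {j, k}) (y j k) := fun j k => (hy0S j k).dg _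
      have hya : ∀ j k, y j k = -y k j := by
        intro j k
        apply lp_ext
        intro u
        rw [coeff_neg', hy, hy, hy0a j k, coeff_neg', mul_neg]
      have hyt : ∀ j, t j = ∑ k, gs a c (ℓ k) * y j k := by
        intro j
        apply lp_ext
        intro u
        rw [coeff_finsum]
        by_cases hu : dt δ u = N
        · have h1 : (t j).coeff u = (∑ k, gs a c (ℓ k) * y0 j k).coeff u := by rw [← hy0 j]
          rw [h1, coeff_finsum]
          refine Finset.sum_congr rfl fun k _ => ?_
          rw [gs_mul_coeff, gs_mul_coeff]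
          refine Finset.sum_congr rfl fun i _ => ?_
          have h3 : dt δ (u - a i) = N - 1 := by rw [dt_sub, hδ, hu]
          rw [hy, if_pos h3, one_mul]
        · rw [ht, if_neg hu, zero_mul]
          symm
          refine Finset.sum_eq_zero fun k _ => ?_
          rw [gs_mul_coeff]
          refine Finset.sum_eq_zero fun i _ => ?_
          have h3 : dt δ (u - a i) ≠ N - 1 := by rw [dt_sub, hδ]; omega
          rw [hy, if_neg h3, zero_mul, mul_zero]
      obtain ⟨y', hy'S, hy'a, hy'⟩ := ih (fun j => z j + ∑ k, Dop p a c (ℓ k) (y j k))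
        (fun j => (hzS j).add (hDy y hyS j)) (by
        intro j
        have e1 : z j + ∑ k, Dop p a c (ℓ k) (y j k) = (z j - t j) +
            ∑ k, dg (fun u => pv p (ℓ k) + (dt (ℓ k) u : ℂ)) (y j k) := by
          have e2 : ∀ k, Dop p a c (ℓ k) (y j k) =
              dg (fun u => pv p (ℓ k) + (dt (ℓ k) u : ℂ)) (y j k) - gs a c (ℓ k) * y j k :=
            fun k => rfl
          simp only [e2, Finset.sum_sub_distrib]
          rw [← hyt j]
          abel
        rw [e1]
        refine Supp.add ?_ (Supp.sum _ fun k _ => Supp.dg _ ?_)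
        · intro u hu
          rw [coeff_sub', ht] at hu
          have h1 : (z j).coeff u ≠ 0 := by
            intro h; apply hu; rw [h, mul_zero, sub_zero]
          have h3 := hz j u h1
          simp only [Set.mem_setOf_eq] at h3
          show dt δ u < C + n
          by_contra h4
          have h5 : dt δ u = N := by
            rw [hN]
            push_cast at h3
            omega
          apply hu
          rw [if_pos h5, one_mul, sub_self]
        · intro u hu
          rw [hy] at hu
          have h1 : dt δ u = N - 1 := by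
            by_contra h
            apply hu
            rw [if_neg h, zero_mul]
          show dt δ u < C + n
          omega) (by
        simp only [Dop_add, Finset.sum_add_distrib]
        rw [h0, zero_add]
        exact Dop_antisymmL p a c ℓ lp_eq_neg_self y hya)
      refine ⟨fun j k => y' j k - y j k, fun j k => (hy'S j k).sub (hyS j k), fun j k => ?_,
        fun j => ?_⟩
      · change y' j k - y j k = -(y' k j - y k j)
        rw [hy'a j k, hya j k]
        abel
      · simp only [Dop_sub, Finset.sum_sub_distrib]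
        rw [← hy' j]
        abel
  refine key (∑ j, ∑ u ∈ (z j).coeff.support, (dt δ u - C + 1).toNat) z hz (fun j u hu => ?_) h0
  show dt δ u < C + _
  have h1 : (dt δ u - C + 1).toNat ≤
      ∑ j, ∑ u ∈ (z j).coeff.support, (dt δ u - C + 1).toNat := by
    refine le_trans ?_ (Finset.single_le_sum (f := fun j => ∑ u ∈ (z j).coeff.support,
      (dt δ u - C + 1).toNat) (fun _ _ => Nat.zero_le _) (Finset.mem_univ j))
    exact Finset.single_le_sum (f := fun u => (dt δ u - C + 1).toNat)
      (fun _ _ => Nat.zero_le _) (Finsupp.mem_support_iff.2 hu)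
  omega

end Pool.Agent.H56.T5
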