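import Pool.Agent.H37.T5.LDefs

/-!
# LB: basic lemmas on mixed supports
-/

set_option autoImplicit false

namespace Pool.Agent.H56.T5

open Finset AddMonoidAlgebra
open Pool.Agent.H56.SMC Pool.Agent.H37.T5

theorem LL_mono {d s : ℕ} (ℓ : Fin s → Lat d) {P P' K K' : Finset (Fin s)} (hP : P ⊆ P')
    (hK : K ⊆ K') : LL ℓ P' K ⊆ LL ℓ P K' := by
  intro u hu i hi
  exact ⟨(hu i (hP hi)).1, fun h => (hu i (hP hi)).2 fun h' => h (hK h')⟩

theorem LL_empty {d s : ℕ} (ℓ : Fin s → Lat d) (P K : Finset (Fin s)) :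
    LL ℓ P ∅ ⊆ LL ℓ P K := LL_mono ℓ (Subset.refl P) (Finset.empty_subset K)

theorem LL_add {d s : ℕ} (ℓ : Fin s → Lat d) (P K : Finset (Fin s)) (b : Lat d)
    (hb : ∀ i ∈ P, 0 ≤ dt (ℓ i) b) (u : Lat d) (hu : u ∈ LL ℓ P K) : u + b ∈ LL ℓ P K := by
  intro i hi
  have h1 := hb i hi
  rw [dt_add]
  refine ⟨by have := (hu i hi).1; omega, fun h => ?_⟩
  have := (hu i hi).2 h
  omega

section
variable {R : Type} [CommRing R] {d s : ℕ} {ι : Type} [Fintype ι]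

/-- The symbol of the component `k` raises the level of `ℓ_k`. -/
theorem LL_gs (a : ι → Lat d) (c : ι → R) (ℓ : Fin s → Lat d) (P K : Finset (Fin s))
    (hPa : ∀ k ∈ P, ∀ i, 0 ≤ dt (ℓ k) (a i)) (S : Set (Lat d))
    (hS : ∀ u ∈ S, ∀ i, c i ≠ 0 → u + a i ∈ S) (k : Fin s) (z : LP R d)
    (hz : Supp (S ∩ LL ℓ P (insert k K)) z) : Supp (S ∩ LL ℓ P K) (gs a c (ℓ k) * z) := by
  intro u hu
  rw [gs_mul_coeff] at hu
  obtain ⟨i, -, hi⟩ := exists_ne_zero_of_sum_ne_zero hu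
  have h1 : z.coeff (u - a i) ≠ 0 := fun h0 => hi (by rw [h0, mul_zero])
  have h2 : c i ≠ 0 := fun h0 => hi (by rw [h0, zero_mul, zero_mul])
  have h3 : dt (ℓ k) (a i) ≠ 0 := fun h0 => hi (by rw [h0, Int.cast_zero, mul_zero, zero_mul])
  obtain ⟨h4, h5⟩ := hz _ h1
  refine ⟨by have := hS _ h4 i h2; rwa [sub_add_cancel] at this, ?_⟩
  intro j hj
  have h6 := h5 j hj
  have h7 := hPa j hj i
  rw [dt_sub] at h6
  refine ⟨by have := h6.1; omega, fun hjK => ?_⟩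
  by_cases hjk : j = k
  · subst hjk
    have := h6.1
    omega
  · have := h6.2 (by simp [hjk, hjK])
    omega

/-- The operator of the component `k` maps to the supports without `k`. -/
theorem LL_Dop (p : Fin d → R) (a : ι → Lat d) (c : ι → R) (ℓ : Fin s → Lat d)
    (P K : Finset (Fin s)) (hP1 : ∀ k ∈ P, pv p (ℓ k) = 1)
    (hPa : ∀ k ∈ P, ∀ i, 0 ≤ dt (ℓ k) (a i)) (S : Set (Lat d))
    (hS : ∀ u ∈ S, ∀ i, c i ≠ 0 → u + a i ∈ S) (k : Fin s) (z : LP R d)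
    (hz : Supp (S ∩ LL ℓ P (insert k K)) z) : Supp (S ∩ LL ℓ P K) (Dop p a c (ℓ k) z) := by
  unfold Dop
  refine Supp.sub ?_ (LL_gs a c ℓ P K hPa S hS k z hz)
  intro u hu
  rw [dg_coeff] at hu
  have h1 : z.coeff u ≠ 0 := fun h0 => hu (by rw [h0, mul_zero])
  obtain ⟨h4, h5⟩ := hz _ h1
  refine ⟨h4, fun j hj => ⟨(h5 j hj).1, fun hjK => ?_⟩⟩
  by_cases hjk : j = k
  · subst hjk
    have h6 := (h5 j hj).1
    rcases h6.lt_or_eq with h7 | h7
    · omega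
    · exfalso
      apply hu
      rw [hP1 j hj, ← h7]
      push_cast
      ring
  · exact (h5 j hj).2 (by simp [hjk, hjK])

/-- All operators preserve the supports. -/
theorem LL_Dop_any (p : Fin d → R) (a : ι → Lat d) (c : ι → R) (ℓ : Fin s → Lat d)
    (P K : Finset (Fin s)) (hPa : ∀ k ∈ P, ∀ i, 0 ≤ dt (ℓ k) (a i)) (S : Set (Lat d))
    (hS : ∀ u ∈ S, ∀ i, c i ≠ 0 → u + a i ∈ S) (g : Lat d) (z : LP R d)
    (hz : Supp (S ∩ LL ℓ P K) z) : Supp (S ∩ LL ℓ P K) (Dop p a c g z) :=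
  hz.Dop p a c g (fun (u : Lat d) (hu : u ∈ S ∩ LL ℓ P K) i hi =>
    (⟨hS u hu.1 i hi, LL_add ℓ P K (a i) (fun k hk => hPa k hk i) u hu.2⟩ :
      u + a i ∈ S ∩ LL ℓ P K))

theorem pv_fam (p : Fin d → R) (ℓ : Fin s → Lat d) (θ : Fin s → ℤ) :
    pv p (∑ k, θ k • ℓ k) = ∑ k, (θ k : R) * pv p (ℓ k) := by
  unfold pv
  simp only [Finset.sum_apply, Pi.smul_apply, smul_eq_mul, Int.cast_sum, Int.cast_mul,
    Finset.sum_mul, Finset.mul_sum]
  rw [Finset.sum_comm]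
  exact sum_congr rfl fun k _ => sum_congr rfl fun j _ => by ring

theorem dt_fam (ℓ : Fin s → Lat d) (θ : Fin s → ℤ) (u : Lat d) :
    dt (∑ k, θ k • ℓ k) u = ∑ k, θ k * dt (ℓ k) u := by
  rw [dt_comm, dt_sum]
  exact sum_congr rfl fun k _ => by rw [dt_zsmul, dt_comm]

/-- `D_g = ∑ θ_k D_{ℓ_k}` for `g = ∑ θ_k ℓ_k`. -/
theorem Dop_fam (p : Fin d → R) (a : ι → Lat d) (c : ι → R) (ℓ : Fin s → Lat d)
    (θ : Fin s → ℤ) (x : LP R d) :
    Dop p a c (∑ k, θ k • ℓ k) x = ∑ k, (θ k : R) • Dop p a c (ℓ k) x := by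
  apply lp_ext; intro u
  rw [coeff_finsum]
  simp only [Dop_coeff, coeff_smul', mul_sub, mul_sum, sum_sub_distrib, pv_fam, dt_fam]
  congr 1
  · push_cast
    rw [← sum_add_distrib, sum_mul]
    exact sum_congr rfl fun k _ => by ring
  · rw [sum_comm]
    refine sum_congr rfl fun i _ => ?_
    push_cast
    rw [mul_sum, sum_mul]
    exact sum_congr rfl fun k _ => by ring

/-- Koszul boundaries are cycles. -/
theorem Dop_antisymmL (p : Fin d → R) (a : ι → Lat d) (c : ι → R) (ℓ : Fin s → Lat d)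
    (h2 : ∀ x : LP R d, x = -x → x = 0) (y : Fin s → Fin s → LP R d)
    (hy : ∀ j k, y j k = -y k j) :
    ∑ j, Dop p a c (ℓ j) (∑ k, Dop p a c (ℓ k) (y j k)) = 0 := by
  apply h2
  simp only [Dop_sum]
  rw [← sum_neg_distrib]
  conv_lhs => rw [sum_comm]
  refine sum_congr rfl fun j _ => ?_
  rw [← sum_neg_distrib]
  refine sum_congr rfl fun k _ => ?_
  rw [hy k j, Dop_neg, Dop_neg, Dop_comm]

variable {p : Fin d → R} {a : ι → Lat d} {c : ι → R} {ℓ : Fin s → Lat d} {P : Finset (Fin s)}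

theorem ExL.add {S : Set (Lat d)} {x y : LP R d} (hx : ExL p a c ℓ P S x)
    (hy : ExL p a c ℓ P S y) : ExL p a c ℓ P S (x + y) := by
  obtain ⟨z, hz, rfl⟩ := hx
  obtain ⟨w, hw, rfl⟩ := hy
  exact ⟨fun j => z j + w j, fun j => (hz j).add (hw j), by
    simp only [Dop_add, sum_add_distrib]⟩

theorem ExL.smul {S : Set (Lat d)} {x : LP R d} (r : R) (hx : ExL p a c ℓ P S x) :
    ExL p a c ℓ P S (r • x) := by
  obtain ⟨z, hz, rfl⟩ := hx
  exact ⟨fun j => r • z j, fun j => (hz j).smul r, by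
    simp only [Dop_smul, smul_sum]⟩

theorem ExL.neg {S : Set (Lat d)} {x : LP R d} (hx : ExL p a c ℓ P S x) :
    ExL p a c ℓ P S (-x) := by
  have := ExL.smul (-1) hx
  rwa [neg_one_smul] at this

theorem ExL.sub {S : Set (Lat d)} {x y : LP R d} (hx : ExL p a c ℓ P S x)
    (hy : ExL p a c ℓ P S y) : ExL p a c ℓ P S (x - y) := by
  rw [sub_eq_add_neg]; exact ExL.add hx (ExL.neg hy)

theorem ExL.zero {S : Set (Lat d)} : ExL p a c ℓ P S 0 :=
  ⟨fun _ => 0, fun _ => Supp.zero _, by simp [Dop_zero]⟩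

theorem ExL.mono {S T : Set (Lat d)} {P' : Finset (Fin s)} (hST : S ⊆ T) (hP : P' ⊆ P)
    {x : LP R d} (hx : ExL p a c ℓ P S x) : ExL p a c ℓ P' T x := by
  obtain ⟨z, hz, rfl⟩ := hx
  exact ⟨z, fun k => (hz k).mono (fun u (hu : u ∈ S ∩ LL ℓ P {k}) =>
    (⟨hST hu.1, LL_mono ℓ hP (Subset.refl _) hu.2⟩ : u ∈ T ∩ LL ℓ P' {k})), rfl⟩

/-- `D_g z` is exact for every combination `g` of the `ℓ_k` if `z` has no logarithmic poles. -/
theorem ExL.of_Dop {S : Set (Lat d)} (g : Lat d) (θ : Fin s → ℤ) (hg : g = ∑ k, θ k • ℓ k)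
    {z : LP R d} (hz : Supp (S ∩ LL ℓ P ∅) z) : ExL p a c ℓ P S (Dop p a c g z) := by
  refine ⟨fun k => (θ k : R) • z, fun k => (hz.mono (fun u (hu : u ∈ S ∩ LL ℓ P ∅) =>
    (⟨hu.1, LL_empty ℓ P {k} hu.2⟩ : u ∈ S ∩ LL ℓ P {k}))).smul _, ?_⟩
  rw [hg, Dop_fam]
  simp only [Dop_smul]

/-- one term -/
theorem ExL.single_comp {S : Set (Lat d)} (k : Fin s) {z : LP R d}
    (hz : Supp (S ∩ LL ℓ P {k}) z) : ExL p a c ℓ P S (Dop p a c (ℓ k) z) := by
  classical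
  refine ⟨fun j => if j = k then z else 0, fun j => ?_, ?_⟩
  · by_cases h : j = k
    · subst h; simpa using hz
    · simp only [h, if_false]; exact Supp.zero _
  · rw [Finset.sum_eq_single k]
    · simp
    · intro j _ hj
      simp [hj, Dop_zero]
    · intro h
      exact absurd (Finset.mem_univ _) h

/-- The exact elements as a submodule. -/
def exLS (p : Fin d → R) (a : ι → Lat d) (c : ι → R) (ℓ : Fin s → Lat d) (P : Finset (Fin s))
    (S : Set (Lat d)) : Submodule R (LP R d) where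
  carrier := {x | ExL p a c ℓ P S x}
  add_mem' := fun hx hy => ExL.add hx hy
  zero_mem' := ExL.zero
  smul_mem' := fun r _ hx => ExL.smul r hx

theorem mem_exLS (p : Fin d → R) (a : ι → Lat d) (c : ι → R) (ℓ : Fin s → Lat d)
    (P : Finset (Fin s)) (S : Set (Lat d)) (x : LP R d) :
    x ∈ exLS p a c ℓ P S ↔ ExL p a c ℓ P S x := Iff.rfl

end

theorem ExL.lmap {R R' : Type} [CommRing R] [CommRing R'] {d s : ℕ} {ι : Type} [Fintype ι]
    {S : Set (Lat d)} (f : R →+* R') {p : Fin d → R} {a : ι → Lat d} {c : ι → R}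
    {ℓ : Fin s → Lat d} {P : Finset (Fin s)} {x : LP R d} (hx : ExL p a c ℓ P S x) :
    ExL (fun j => f (p j)) a (fun i => f (c i)) ℓ P S (SMC.lmap f x) := by
  obtain ⟨z, hz, rfl⟩ := hx
  refine ⟨fun j => SMC.lmap f (z j), fun j => (hz j).lmap f, ?_⟩
  rw [lmap_sum]
  exact sum_congr rfl fun j _ => lmap_Dop f p a c _ _

/-- The shift of the indices of the coordinates `q_j`. -/
def sh {n : ℕ} (D : Finset (Fin n)) : Finset (Fin (n + 2)) :=
  D.map ⟨fun j => j.succ.succ, fun i j h => by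
    simpa using h⟩

theorem mem_sh {n : ℕ} {D : Finset (Fin n)} {k : Fin (n + 2)} :
    k ∈ sh D ↔ ∃ j ∈ D, j.succ.succ = k := by
  unfold sh
  rw [Finset.mem_map]
  rfl

theorem sh_mono {n : ℕ} {D D' : Finset (Fin n)} (h : D ⊆ D') : sh D ⊆ sh D' :=
  Finset.map_subset_map.2 h

/-- Polynomial supports. -/
def Pos (n : ℕ) : Set (Lat n) := {u | ∀ j, 0 ≤ u j}

/-- `vec l l2 q` without logarithmic poles. -/
theorem vec_mem_LL {n : ℕ} (D : Finset (Fin n)) (K : Finset (Fin (n + 2))) (l l2 : ℤ)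
    (q : Lat n) (hq : ∀ j ∈ D, 0 ≤ q j) : vec l l2 q ∈ LL ev (sh D) K := by
  intro k hk
  obtain ⟨j, hj, rfl⟩ := mem_sh.1 hk
  have h1 : dt (ev j.succ.succ) (vec l l2 q) = q j := by
    rw [dt_ev]; simp [vec]
  rw [h1]
  have := hq j hj
  exact ⟨by omega, fun _ => this⟩

end Pool.Agent.H56.T5
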