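import Pool.Agent.H56.T5.REGF

/-!
# R0K: the statement (B) for `E = ∅`

Write `S = {u | m0 • u + y0 ∈ Sset h ∧ dt H u = 0}`.
Proof.  (1) `NN S ℓ Z ∅ K = Lay h (HZ H ℓ Z) m0 y0` for every `K`: on `Sset h` all functionals which are nonnegative on the exponents are
nonnegative (`hfac`: `N • v = ∑ n_i • a i`), so for `v = m0 • u + y0 ∈ Sset h`: `dt (HZ H ℓ Z) v = 0` iff `dt H v = 0` and `dt (ℓ k) v = 0` for all
`k ∈ Z` (`dt_HZ_eq_zero`); `dt H v = m0 * dt H u` (`hy0`), `dt (ℓ k) v = m0 * dt (ℓ k) u + m0` (`hyP`), `m0 > 0`.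
(2) `HZ H ℓ Z` is nonnegative on all exponents (`dt_HZ`).  Apply `regFJ` with the functional `HZ H ℓ Z`, the finset `insert m J` and `x_m = r0`, `x_k = -r_k` (`k ∈ J`,
so `k ≠ m`): `r0 = x_m = ∑ l ∈ insert m J, g_l * y m l`, `y m m = 0` (`y = -y`, `lp_eq_neg_self`), so take `y_k = y m k`.
-/

set_option autoImplicit false

namespace Pool.Agent.H56.T5

open Finset AddMonoidAlgebra
open Pool.Agent.H56.SMC Pool.Agent.H37.T5

/-- Functionals nonnegative on the exponents are nonnegative on the cone. -/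
theorem R0K_nonneg {d : ℕ} {ι κ : Type} [Fintype ι] (a : ι → Lat d) (h : κ → Lat d)
    (hfac : ∀ u ∈ Sset h, ∃ N : ℕ, 0 < N ∧ ∃ n : ι → ℕ, N • u = ∑ i, n i • a i)
    (H : Lat d) (hH : ∀ i, 0 ≤ dt H (a i)) (v : Lat d) (hv : v ∈ Sset h) : 0 ≤ dt H v := by
  obtain ⟨N, hN, n, hn⟩ := hfac v hv
  have h1 : dt H (N • v) = ∑ i, (n i : ℤ) * dt H (a i) := by
    rw [hn, dt_sum]
    exact sum_congr rfl fun i _ => dt_nsmul _ _ _
  rw [dt_nsmul] at h1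
  have h2 : 0 ≤ (N : ℤ) * dt H v := by
    rw [h1]
    exact sum_nonneg fun i _ => mul_nonneg (by positivity) (hH i)
  have h3 : (0 : ℤ) < N := by exact_mod_cast hN
  exact nonneg_of_mul_nonneg_right h2 h3

theorem R0K_NN {d : ℕ} {ι κ : Type} [Fintype ι] (a : ι → Lat d)
    (h : κ → Lat d)
    (hfac : ∀ u ∈ Sset h, ∃ N : ℕ, 0 < N ∧ ∃ n : ι → ℕ, N • u = ∑ i, n i • a i)
    (H : Lat d) (hH : ∀ i, 0 ≤ dt H (a i)) {s : ℕ} (ℓ : Fin s → Lat d)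
    (P : Finset (Fin s)) (hPa : ∀ k ∈ P, ∀ i, 0 ≤ dt (ℓ k) (a i))
    (m0 : ℤ) (hm0 : 0 < m0) (y0 : Lat d) (hy0 : dt H y0 = 0) (hyP : ∀ k ∈ P, dt (ℓ k) y0 = m0)
    (Z : Finset (Fin s)) (hZ : Z ⊆ P) (K : Finset (Fin s)) :
    NN {u | m0 • u + y0 ∈ Sset h ∧ dt H u = 0} ℓ Z ∅ K = Lay h (HZ H ℓ Z) m0 y0 := by
  ext u
  have hl : ∀ i ∈ Z, dt (ℓ i) (m0 • u + y0) = m0 * (dt (ℓ i) u + 1) := by
    intro i hi
    rw [dt_add, dt_zsmul, hyP i (hZ hi)]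
    ring
  have hHv : dt H (m0 • u + y0) = m0 * dt H u := by
    rw [dt_add, dt_zsmul, hy0, add_zero]
  constructor
  · rintro ⟨⟨h1, h2⟩, h3, -⟩
    refine ⟨h1, ?_⟩
    rw [dt_HZ_eq_zero H ℓ Z _ (R0K_nonneg a h hfac H hH _ h1)
      (fun i hi => R0K_nonneg a h hfac (ℓ i) (hPa i (hZ hi)) _ h1)]
    refine ⟨by rw [hHv, h2, mul_zero], fun i hi => ?_⟩
    rw [hl i hi, h3 i hi]
    ring
  · rintro ⟨h1, h2⟩
    rw [dt_HZ_eq_zero H ℓ Z _ (R0K_nonneg a h hfac H hH _ h1)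
      (fun i hi => R0K_nonneg a h hfac (ℓ i) (hPa i (hZ hi)) _ h1)] at h2
    obtain ⟨h3, h4⟩ := h2
    refine ⟨⟨h1, ?_⟩, fun i hi => ?_, fun i hi => absurd hi (Finset.notMem_empty i)⟩
    · rw [hHv] at h3
      rcases mul_eq_zero.1 h3 with h5 | h5
      · omega
      · exact h5
    · have h5 := h4 i hi
      rw [hl i hi] at h5
      rcases mul_eq_zero.1 h5 with h6 | h6
      · omega
      · omega

/-- R0K -/
theorem r0K {d : ℕ} {ι κ : Type} [Fintype ι] [Fintype κ] (a : ι → Lat d) (c : ι → ℂ)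
    (h : κ → Lat d) (δ : Lat d) (hδ : ∀ i, dt δ (a i) = 1) (hh : ∀ v i, 0 ≤ dt (h v) (a i))
    (hfac : ∀ u ∈ Sset h, ∃ N : ℕ, 0 < N ∧ ∃ n : ι → ℕ, N • u = ∑ i, n i • a i)
    (hnd : TorusND a c) (H : Lat d) (hH : ∀ i, 0 ≤ dt H (a i)) {s : ℕ} (ℓ : Fin s → Lat d)
    (P : Finset (Fin s)) (hPa : ∀ k ∈ P, ∀ i, 0 ≤ dt (ℓ k) (a i))
    (m0 : ℤ) (hm0 : 0 < m0) (y0 : Lat d) (hy0 : dt H y0 = 0) (hyP : ∀ k ∈ P, dt (ℓ k) y0 = m0)
    (Z J : Finset (Fin s)) (hZ : Z ⊆ P) (m : Fin s) (hmJ : m ∉ J)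
    (hind : IndOn a (HZ H ℓ Z) ℓ (insert m J)) :
    StB a c H {u | m0 • u + y0 ∈ Sset h ∧ dt H u = 0} ℓ Z ∅ J m := by
  classical
  intro r0 r hr0 hr heq
  have hNN := fun K => R0K_NN a h hfac H hH ℓ P hPa m0 hm0 y0 hy0 hyP Z hZ K
  rw [hNN] at hr0
  have hHZ : ∀ i, 0 ≤ dt (HZ H ℓ Z) (a i) := by
    intro i
    rw [dt_HZ]
    exact add_nonneg (hH i) (sum_nonneg fun k hk => hPa k (hZ hk) i)
  have hx : ∀ k ∈ insert m J, Supp (Lay h (HZ H ℓ Z) m0 y0) (if k = m then r0 else -r k) := by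
    intro k hk
    by_cases hkm : k = m
    · rw [if_pos hkm]
      exact hr0
    · rw [if_neg hkm]
      rcases mem_insert.1 hk with h1 | h1
      · exact absurd h1 hkm
      · have h2 := hr k h1
        rw [hNN] at h2
        exact h2.neg
  have h0 : ∑ k ∈ insert m J, gs a (cF a c (HZ H ℓ Z)) (ℓ k) * (if k = m then r0 else -r k) = 0 := by
    rw [sum_insert hmJ, if_pos rfl, heq, ← sum_add_distrib]
    refine sum_eq_zero fun k hk => ?_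
    rw [if_neg (show ¬ k = m by rintro rfl; exact hmJ hk)]
    ring
  obtain ⟨y, hy1, hy2, hy3⟩ := regFJ a c h δ hδ hh hfac hnd (HZ H ℓ Z) hHZ ℓ (insert m J) hind
    m0 hm0 y0 _ hx h0
  have hmm : y m m = 0 := lp_eq_neg_self _ (hy2 m m)
  refine ⟨fun k => y m k, fun k hk => ?_, ?_⟩
  · rw [hNN]
    exact hy1 m (mem_insert_self m J) k (mem_insert_of_mem hk)
  · have h1 := hy3 m (mem_insert_self m J)
    rw [if_pos rfl, sum_insert hmJ, hmm, mul_zero, zero_add] at h1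
    exact h1

end Pool.Agent.H56.T5
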