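import Pool.Agent.H56.T5.KEDefs

/-!
# REGD: if the complex of `m + 1` functionals is exact so is the complex of the first `m`

(all symbols are homogeneous of degree `1` with respect to `δ`, the degrees on `S` are bounded below.)

Proof.  Claim for all `N : ℕ`: every cycle `x` of the first `m` functionals (`∑ k : Fin m, gs a c (ℓ k.castSucc) * x k = 0`) supported in
`S ∩ {dt δ u < L + N}` is a boundary.  `N = 0`: `x = 0`.  Step: `x` supported in `dt δ u < L + N + 1`.  `x̂ = Fin.snoc x 0` is a cycle for
`ℓ` (`Fin.sum_univ_castSucc`), so `x̂_j = ∑ k, g_k y_jk`, `g_k = gs a c (ℓ k)`.  Replace `y_jk` by its part of degree `< L + N` (`dg` with an indicator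
function): still antisymmetric, supported in `S`, and the relation still holds: `g_k` raises the degree by exactly one (`hδ`), so at a
point `u` of degree `< L + N + 1` nothing changes, and at other points both sides are `0`.  The last equation is
`0 = ∑ l : Fin m, g_l y_{last,l} + g_last y_{last,last}` and `y_{last,last} = 0` (`y = -y`, `lp_eq_neg_self`).  So `(y_{last,l})_l` is a cycle of
the first `m` functionals supported in `S ∩ {dt δ u < L + N}`: by induction `y_{last,l} = ∑ j, g_j w_lj`, `w` antisymmetric.  Then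
`x_k = ∑_{l : Fin m} g_l y_kl + g_last y_{k,last} = ∑_l g_l y_kl - g_last ∑_l g_l w_kl = ∑_l g_l (y_kl - g_last w_kl)`, and
`y_kl - g_last w_kl` is antisymmetric and supported in `S` (`hS`, `Supp.gs_mul`).
Finally every cycle has bounded degrees (finite supports).
-/

set_option autoImplicit false

namespace Pool.Agent.H56.T5

open Finset AddMonoidAlgebra
open Pool.Agent.H56.SMC Pool.Agent.H37.T5

/-- The part of degree `< D`. -/
noncomputable def REGD_tr {d : ℕ} (δ : Lat d) (D : ℤ) (x : LP ℂ d) : LP ℂ d :=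
  dg (fun u => if dt δ u < D then (1 : ℂ) else 0) x

theorem REGD_tr_coeff {d : ℕ} (δ : Lat d) (D : ℤ) (x : LP ℂ d) (u : Lat d) :
    (REGD_tr δ D x).coeff u = (if dt δ u < D then (1 : ℂ) else 0) * x.coeff u := dg_coeff _ _ _

theorem REGD_gs_tr {d : ℕ} {ι : Type} [Fintype ι] (a : ι → Lat d) (c : ι → ℂ) (δ : Lat d)
    (hδ : ∀ i, dt δ (a i) = 1) (h : Lat d) (D : ℤ) (x : LP ℂ d) (u : Lat d) :
    (gs a c h * REGD_tr δ D x).coeff u =
      (if dt δ u < D + 1 then (1 : ℂ) else 0) * (gs a c h * x).coeff u := by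
  rw [gs_mul_coeff, gs_mul_coeff, mul_sum]
  refine sum_congr rfl fun i _ => ?_
  rw [REGD_tr_coeff, dt_sub, hδ]
  by_cases hu : dt δ u < D + 1
  · rw [if_pos hu, if_pos (by omega)]
    ring
  · rw [if_neg hu, if_neg (by omega)]
    ring

/-- REGD -/
theorem regD {d : ℕ} {ι : Type} [Fintype ι] (a : ι → Lat d) (c : ι → ℂ) (δ : Lat d)
    (hδ : ∀ i, dt δ (a i) = 1) (S : Set (Lat d)) (hS : ∀ u ∈ S, ∀ i, c i ≠ 0 → u + a i ∈ S)
    (L : ℤ) (hL : ∀ u ∈ S, L ≤ dt δ u) {m : ℕ} (ℓ : Fin (m + 1) → Lat d)
    (hK : KExS a c ℓ S) : KExS a c (fun k : Fin m => ℓ k.castSucc) S := by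
  classical
  have key : ∀ (N : ℕ) (x : Fin m → LP ℂ d), (∀ k, Supp S (x k)) →
      (∀ k, Supp {u | dt δ u < L + N} (x k)) →
      ∑ k : Fin m, gs a c (ℓ k.castSucc) * x k = 0 →
      ∃ y : Fin m → Fin m → LP ℂ d, (∀ j k, Supp S (y j k)) ∧ (∀ j k, y j k = -y k j) ∧
        ∀ j, x j = ∑ k : Fin m, gs a c (ℓ k.castSucc) * y j k := by
    intro N
    induction N with
    | zero =>
      intro x hxS hx _
      have hx0 : ∀ j, x j = 0 := by
        intro j
        apply lp_ext
        intro u
        by_contra hu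
        have h1 := hL u (hxS j u hu)
        have h2 : dt δ u < L + ((0 : ℕ) : ℤ) := hx j u hu
        push_cast at h2
        omega
      refine ⟨fun _ _ => 0, fun _ _ => Supp.zero _, fun _ _ => neg_zero.symm, fun j => ?_⟩
      rw [hx0 j]
      simp
    | succ N ih =>
      intro x hxS hx hcyc
      let xh : Fin (m + 1) → LP ℂ d := Fin.snoc (α := fun _ => LP ℂ d) x 0
      have hxh1 : ∀ k : Fin m, xh k.castSucc = x k := fun k => Fin.snoc_castSucc _ _ _
      have hxh2 : xh (Fin.last m) = 0 := Fin.snoc_last _ _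
      have hxhS : ∀ k, Supp S (xh k) := by
        intro k
        refine Fin.lastCases ?_ (fun k => ?_) k
        · rw [hxh2]; exact Supp.zero _
        · rw [hxh1]; exact hxS k
      have hxhD : ∀ k, Supp {u | dt δ u < L + N + 1} (xh k) := by
        intro k
        refine Fin.lastCases ?_ (fun k => ?_) k
        · rw [hxh2]; exact Supp.zero _
        · rw [hxh1]
          intro u hu
          have h2 : dt δ u < L + ((N + 1 : ℕ) : ℤ) := hx k u hu
          show dt δ u < L + N + 1
          push_cast at h2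
          omega
      have hxhc : ∑ k, gs a c (ℓ k) * xh k = 0 := by
        rw [Fin.sum_univ_castSucc, hxh2, mul_zero, add_zero]
        simp only [hxh1]
        exact hcyc
      obtain ⟨y0, hy0S, hy0a, hy0⟩ := hK xh hxhS hxhc
      let y : Fin (m + 1) → Fin (m + 1) → LP ℂ d := fun j k => REGD_tr δ (L + N) (y0 j k)
      have hyS : ∀ j k, Supp S (y j k) := fun j k => (hy0S j k).dg _
      have hyD : ∀ j k, Supp {u | dt δ u < L + N} (y j k) := by
        intro j k u hu
        show dt δ u < L + N
        by_contra h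
        apply hu
        show (REGD_tr δ (L + N) (y0 j k)).coeff u = 0
        rw [REGD_tr_coeff, if_neg h, zero_mul]
      have hya : ∀ j k, y j k = -y k j := by
        intro j k
        apply lp_ext
        intro u
        show (REGD_tr δ (L + N) (y0 j k)).coeff u = (-REGD_tr δ (L + N) (y0 k j)).coeff u
        rw [coeff_neg', REGD_tr_coeff, REGD_tr_coeff, hy0a j k, coeff_neg', mul_neg]
      have hyx : ∀ j, xh j = ∑ k, gs a c (ℓ k) * y j k := by
        intro j
        apply lp_ext
        intro u
        rw [coeff_finsum]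
        have h1 : ∀ k, (gs a c (ℓ k) * y j k).coeff u =
            (if dt δ u < L + N + 1 then (1 : ℂ) else 0) * (gs a c (ℓ k) * y0 j k).coeff u :=
          fun k => REGD_gs_tr a c δ hδ (ℓ k) (L + N) (y0 j k) u
        simp only [h1]
        rw [← mul_sum, ← coeff_finsum, ← hy0 j]
        by_cases hu : dt δ u < L + N + 1
        · rw [if_pos hu, one_mul]
        · rw [if_neg hu, zero_mul]
          by_contra h
          exact hu (hxhD j u h)
      have hyll : y (Fin.last m) (Fin.last m) = 0 := lp_eq_neg_self _ (hya _ _)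
      obtain ⟨w, hwS, hwa, hw⟩ := ih (fun l => y (Fin.last m) l.castSucc) (fun l => hyS _ _)
        (fun l => hyD _ _) (by
        have h1 := hyx (Fin.last m)
        rw [hxh2, Fin.sum_univ_castSucc, hyll, mul_zero, add_zero] at h1
        exact h1.symm)
      refine ⟨fun k l => y k.castSucc l.castSucc - gs a c (ℓ (Fin.last m)) * w k l, fun k l =>
        (hyS _ _).sub ((hwS k l).gs_mul a c _ hS), fun k l => ?_, fun k => ?_⟩
      · show y k.castSucc l.castSucc - gs a c (ℓ (Fin.last m)) * w k l =
          -(y l.castSucc k.castSucc - gs a c (ℓ (Fin.last m)) * w l k)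
        rw [hya k.castSucc l.castSucc, hwa k l, mul_neg]
        abel
      · have h1 := hyx k.castSucc
        rw [hxh1, Fin.sum_univ_castSucc, hya k.castSucc (Fin.last m), hw k] at h1
        rw [h1]
        simp only [mul_sub, sum_sub_distrib]
        rw [mul_neg, mul_sum, ← sub_eq_add_neg]
        exact congrArg (HSub.hSub _) (sum_congr rfl fun l _ => mul_left_comm _ _ _)
  intro x hxS hcyc
  refine key (∑ j, ∑ u ∈ (x j).coeff.support, (dt δ u - L + 1).toNat) x hxS (fun j u hu => ?_) hcyc
  show dt δ u < L + _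
  have h1 : (dt δ u - L + 1).toNat ≤
      ∑ j, ∑ u ∈ (x j).coeff.support, (dt δ u - L + 1).toNat := by
    refine le_trans ?_ (Finset.single_le_sum (f := fun j => ∑ u ∈ (x j).coeff.support,
      (dt δ u - L + 1).toNat) (fun _ _ => Nat.zero_le _) (Finset.mem_univ j))
    exact Finset.single_le_sum (f := fun u => (dt δ u - L + 1).toNat)
      (fun _ _ => Nat.zero_le _) (Finsupp.mem_support_iff.2 hu)
  omega

end Pool.Agent.H56.T5
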