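import Pool.Agent.H56.T5.KEDefs

/-!
# REGL: the face exactness `kexg` on a layer

`kexg` (`Pool/Agent/H56/SMC/KEXG.lean`) is the case `dt H y0 = 0` (then `Lay h H m0 y0 = {u | m0 • u + y0 ∈ Sset h ∧ dt H u = 0}`, `m0 > 0`).

Proof.  If `Lay h H m0 y0` is empty all `x k = 0` (`lp_ext`), take `y = 0`.  Otherwise choose `u0 ∈ Lay`, `y0' = m0 • u0 + y0`, so
`dt H y0' = 0`.  For `u = u0 + u'`: `m0 • u + y0 = m0 • u' + y0'`, so `u ∈ Lay h H m0 y0` iff `m0 • u' + y0' ∈ Sset h ∧ dt H u' = 0`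
(`dt H (m0 • u' + y0') = m0 * dt H u'`, `m0 > 0`).  Apply `kexg` with `y0'` to `x' k = single (-u0) 1 * x k` (`single_mul_coeff` with
`r = 1`: coefficient at `u'` is the coefficient of `x k` at `u' + u0`), and put `y = single u0 1 * y'`.
-/

set_option autoImplicit false

namespace Pool.Agent.H56.T5

open Finset AddMonoidAlgebra
open Pool.Agent.H56.SMC Pool.Agent.H37.T5

/-- REGL -/
theorem regL {d : ℕ} {ι κ : Type} [Fintype ι] [Fintype κ] (a : ι → Lat d) (c : ι → ℂ)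
    (h : κ → Lat d) (δ : Lat d) (hδ : ∀ i, dt δ (a i) = 1) (hh : ∀ v i, 0 ≤ dt (h v) (a i))
    (hfac : ∀ u ∈ Sset h, ∃ N : ℕ, 0 < N ∧ ∃ n : ι → ℕ, N • u = ∑ i, n i • a i)
    (hnd : TorusND a c) (H : Lat d) (hH : ∀ i, 0 ≤ dt H (a i)) {s : ℕ} (ℓ : Fin s → Lat d)
    (hℓ : ∀ g : Lat d, ∃ N : ℤ, N ≠ 0 ∧ ∃ n : Fin s → ℤ, ∀ i, dt H (a i) = 0 →
      N * dt g (a i) = ∑ k, n k * dt (ℓ k) (a i))
    (e : Fin s → ι) (he : ∀ k, dt H (a (e k)) = 0) (hind : LinearIndependent ℤ (fun k => a (e k)))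
    (m0 : ℤ) (hm0 : 0 < m0) (y0 : Lat d) : KExS a (cF a c H) ℓ (Lay h H m0 y0) := by
  classical
  intro x hx h0
  by_cases hne : ∃ u0, u0 ∈ Lay h H m0 y0
  swap
  · have hx0 : ∀ k, x k = 0 := by
      intro k
      apply lp_ext
      intro u
      by_contra hcon
      exact hne ⟨u, hx k u hcon⟩
    refine ⟨fun _ _ => 0, ?_, ?_, ?_⟩
    · intro j k u hu
      exact absurd rfl hu
    · intro j k
      simp
    · intro j
      simp [hx0 j]
  obtain ⟨u0, hu0⟩ := hne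
  have hy0 : dt H (m0 • u0 + y0) = 0 := hu0.2
  set y0' : Lat d := m0 • u0 + y0 with hy0'
  have key : ∀ u' : Lat d, m0 • (u' + u0) + y0 = m0 • u' + y0' := by
    intro u'
    rw [hy0', smul_add, add_assoc]
  have hdt : ∀ u' : Lat d, dt H (m0 • u' + y0') = m0 * dt H u' := by
    intro u'
    rw [dt_add, dt_zsmul, hy0, add_zero]
  have hx' : ∀ k, Supp {u | m0 • u + y0' ∈ Sset h ∧ dt H u = 0} (single (-u0) 1 * x k) := by
    intro k u' hu'
    rw [single_mul_coeff, one_mul, sub_neg_eq_add] at hu'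
    have h1 := hx k _ hu'
    have h2 : m0 • (u' + u0) + y0 ∈ Sset h := h1.1
    have h3 : dt H (m0 • (u' + u0) + y0) = 0 := h1.2
    rw [key] at h2 h3
    rw [hdt] at h3
    refine ⟨h2, ?_⟩
    rcases mul_eq_zero.1 h3 with h4 | h4
    · omega
    · exact h4
  have h0' : ∑ k, gs a (cF a c H) (ℓ k) * (single (-u0) 1 * x k) = 0 := by
    have h1 : ∀ k, gs a (cF a c H) (ℓ k) * (single (-u0) 1 * x k) =
        single (-u0) 1 * (gs a (cF a c H) (ℓ k) * x k) := fun k => by ring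
    rw [sum_congr rfl fun k _ => h1 k, ← mul_sum, h0, mul_zero]
  obtain ⟨y, hy1, hy2, hy3⟩ := kexg a c h δ hδ hh hfac hnd H hH ℓ hℓ e he hind m0 hm0 y0' hy0
    (fun k => single (-u0) 1 * x k) hx' h0'
  have hone : (single u0 1 : LP ℂ d) * single (-u0) 1 = 1 := by
    rw [AddMonoidAlgebra.single_mul_single, add_neg_cancel, one_mul]
    rfl
  refine ⟨fun j k => single u0 1 * y j k, ?_, ?_, ?_⟩
  · intro j k u hu
    rw [single_mul_coeff, one_mul] at hu
    have h1 := hy1 j k _ hu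
    have h2 : m0 • (u - u0) + y0' ∈ Sset h := h1.1
    have h3 : dt H (u - u0) = 0 := h1.2
    have h4 : m0 • u + y0 = m0 • (u - u0) + y0' := by
      rw [← key, sub_add_cancel]
    show m0 • u + y0 ∈ Sset h ∧ dt H (m0 • u + y0) = 0
    rw [h4]
    exact ⟨h2, by rw [hdt, h3, mul_zero]⟩
  · intro j k
    show single u0 1 * y j k = -(single u0 1 * y k j)
    rw [hy2 j k, mul_neg]
  · intro j
    have h1 : x j = single u0 1 * (single (-u0) 1 * x j) := by
      rw [← mul_assoc, hone, one_mul]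
    rw [h1, show (single (-u0) 1 : LP ℂ d) * x j = ∑ k, gs a (cF a c H) (ℓ k) * y j k from hy3 j,
      mul_sum]
    exact sum_congr rfl fun k _ => by ring

end Pool.Agent.H56.T5
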