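import Pool.Agent.H56.T5.EXTB
import Pool.Agent.H56.T5.REGL
import Pool.Agent.H56.T5.REGD

/-!
# REGF: exactness on a layer for functionals which are independent on the face

Proof.  (1) `m` functionals `ℓ : Fin m → Lat d` (theorem `regF`): `extB` gives `ℓ' : Fin (m + t) → Lat d`, `e`; `regL` gives `KExS` for `ℓ'`; descend
`t` times with `regD` (induction on `t` for the statement `KExS a c' ℓ' S → KExS a c' (fun k : Fin m => ℓ' (Fin.castAdd t k)) S`; `c' = cF a c H`).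
The layer is closed under adding `a i` with `c' i ≠ 0` (`cF_ne`; `m0 • (u + a i) + y0 = (m0 • u + y0) + m0 • a i`, `Sset h` by `hh`, `dt H (a i) = 0`).  Bound for
the degree: `m0 • u + y0 ∈ Sset h` gives `N • (m0 • u + y0) = ∑ n_i • a i` so `0 ≤ dt δ (m0 • u + y0) = m0 * dt δ u + dt δ y0`, so
`-|dt δ y0| ≤ dt δ u`.
(2) `regFJ`: a finset `J` of indices of `ℓ : Fin s → Lat d`: apply `regF` to `fun k => ℓ (J.orderEmbOfFin rfl k)` (or another enumeration `Fin J.card ≃ J`), extend by zero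
outside `J`.
-/

set_option autoImplicit false

namespace Pool.Agent.H56.T5

open Finset AddMonoidAlgebra
open Pool.Agent.H56.SMC Pool.Agent.H37.T5

/-- the degree is bounded below on a layer -/
theorem REGF_bound {d : ℕ} {ι κ : Type} [Fintype ι] (a : ι → Lat d)
    (h : κ → Lat d) (δ : Lat d) (hδ : ∀ i, dt δ (a i) = 1)
    (hfac : ∀ u ∈ Sset h, ∃ N : ℕ, 0 < N ∧ ∃ n : ι → ℕ, N • u = ∑ i, n i • a i)
    (H : Lat d) (m0 : ℤ) (hm0 : 0 < m0) (y0 : Lat d) :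
    ∀ u ∈ Lay h H m0 y0, -|dt δ y0| ≤ dt δ u := by
  rintro u ⟨hu, -⟩
  obtain ⟨N, hN, n, hn⟩ := hfac _ hu
  have h1 : (N : ℤ) * dt δ (m0 • u + y0) = ∑ i, (n i : ℤ) := by
    rw [← dt_nsmul, hn, dt_sum]
    refine sum_congr rfl fun i _ => ?_
    rw [dt_nsmul, hδ, mul_one]
  have h2 : 0 ≤ (N : ℤ) * dt δ (m0 • u + y0) := by
    rw [h1]; exact sum_nonneg fun i _ => Int.natCast_nonneg _
  have h3 : 0 ≤ dt δ (m0 • u + y0) := by
    by_contra hc
    push Not at hc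
    have : (N : ℤ) * dt δ (m0 • u + y0) < 0 := mul_neg_of_pos_of_neg (by exact_mod_cast hN) hc
    omega
  rw [dt_add, dt_zsmul] at h3
  have h4 : dt δ y0 ≤ |dt δ y0| := le_abs_self _
  have h5 : 0 ≤ |dt δ y0| := abs_nonneg _
  rcases le_or_gt 0 (dt δ u) with h6 | h6
  · omega
  · have h7 : m0 * dt δ u ≤ 1 * dt δ u := mul_le_mul_of_nonpos_right (by omega) h6.le
    omega

/-- the descent -/
theorem REGF_desc {d : ℕ} {ι : Type} [Fintype ι] (a : ι → Lat d) (c : ι → ℂ) (δ : Lat d)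
    (hδ : ∀ i, dt δ (a i) = 1) (S : Set (Lat d)) (hS : ∀ u ∈ S, ∀ i, c i ≠ 0 → u + a i ∈ S)
    (L : ℤ) (hL : ∀ u ∈ S, L ≤ dt δ u) {m : ℕ} (t : ℕ) :
    ∀ ℓ : Fin (m + t) → Lat d, KExS a c ℓ S →
      KExS a c (fun k : Fin m => ℓ (Fin.castAdd t k)) S := by
  induction t with
  | zero => intro ℓ h; exact h
  | succ t ih =>
    intro ℓ h
    have h1 := regD (m := m + t) a c δ hδ S hS L hL ℓ h
    have h2 := ih (fun k => ℓ k.castSucc) h1
    have h3 : (fun k : Fin m => ℓ (Fin.castAdd (t + 1) k)) =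
        (fun k : Fin m => ℓ (Fin.castAdd t k).castSucc) := by
      funext k
      congr 1
    rw [h3]
    exact h2

/-- REGF -/
theorem regF {d : ℕ} {ι κ : Type} [Fintype ι] [Fintype κ] (a : ι → Lat d) (c : ι → ℂ)
    (h : κ → Lat d) (δ : Lat d) (hδ : ∀ i, dt δ (a i) = 1) (hh : ∀ v i, 0 ≤ dt (h v) (a i))
    (hfac : ∀ u ∈ Sset h, ∃ N : ℕ, 0 < N ∧ ∃ n : ι → ℕ, N • u = ∑ i, n i • a i)
    (hnd : TorusND a c) (H : Lat d) (hH : ∀ i, 0 ≤ dt H (a i)) {m : ℕ} (ℓ : Fin m → Lat d)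
    (hind : IndOn a H ℓ univ) (m0 : ℤ) (hm0 : 0 < m0) (y0 : Lat d) :
    KExS a (cF a c H) ℓ (Lay h H m0 y0) := by
  obtain ⟨t, ℓ', e, h1, h2, h3, h4⟩ := extB a H ℓ hind
  have h5 := regL a c h δ hδ hh hfac hnd H hH ℓ' h4 e h2 h3 m0 hm0 y0
  have hS : ∀ u ∈ Lay h H m0 y0, ∀ i, cF a c H i ≠ 0 → u + a i ∈ Lay h H m0 y0 := by
    rintro u ⟨hu1, hu2⟩ i hi
    have hi0 := cF_ne hi
    have heq : m0 • (u + a i) + y0 = (m0 • u + y0) + m0 • a i := by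
      rw [smul_add]; abel
    refine ⟨?_, ?_⟩
    · intro v
      rw [heq, dt_add, dt_zsmul]
      exact add_nonneg (hu1 v) (mul_nonneg hm0.le (hh v i))
    · rw [heq, dt_add, dt_zsmul, hi0, hu2]; ring
  have h6 := REGF_desc a (cF a c H) δ hδ _ hS _
    (REGF_bound a h δ hδ hfac H m0 hm0 y0) t ℓ' h5
  have h7 : (fun k : Fin m => ℓ' (Fin.castAdd t k)) = ℓ := funext h1
  rwa [h7] at h6

/-- sums over `J` by the enumeration -/
theorem REGF_sum {s : ℕ} {A : Type*} [AddCommMonoid A] (J : Finset (Fin s))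
    (σ : Fin J.card ≃ J) (f : Fin s → A) : ∑ k ∈ J, f k = ∑ k : Fin J.card, f (σ k) := by
  rw [← Finset.sum_coe_sort J f]
  exact (Equiv.sum_comp σ (fun i : J => f i)).symm

/-- REGF for a finset of indices -/
theorem regFJ {d : ℕ} {ι κ : Type} [Fintype ι] [Fintype κ] (a : ι → Lat d) (c : ι → ℂ)
    (h : κ → Lat d) (δ : Lat d) (hδ : ∀ i, dt δ (a i) = 1) (hh : ∀ v i, 0 ≤ dt (h v) (a i))
    (hfac : ∀ u ∈ Sset h, ∃ N : ℕ, 0 < N ∧ ∃ n : ι → ℕ, N • u = ∑ i, n i • a i)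
    (hnd : TorusND a c) (H : Lat d) (hH : ∀ i, 0 ≤ dt H (a i)) {s : ℕ} (ℓ : Fin s → Lat d)
    (J : Finset (Fin s)) (hind : IndOn a H ℓ J) (m0 : ℤ) (hm0 : 0 < m0) (y0 : Lat d)
    (x : Fin s → LP ℂ d) (hx : ∀ k ∈ J, Supp (Lay h H m0 y0) (x k))
    (h0 : ∑ k ∈ J, gs a (cF a c H) (ℓ k) * x k = 0) :
    ∃ y : Fin s → Fin s → LP ℂ d, (∀ k ∈ J, ∀ l ∈ J, Supp (Lay h H m0 y0) (y k l)) ∧
      (∀ k l, y k l = -y l k) ∧ ∀ k ∈ J, x k = ∑ l ∈ J, gs a (cF a c H) (ℓ l) * y k l := by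
  classical
  set σ : Fin J.card ≃ J := J.equivFin.symm with hσ
  have hind' : IndOn a H (fun k : Fin J.card => ℓ (σ k)) univ := by
    intro n hn k _
    have h1 := hind (fun k => if hk : k ∈ J then n (σ.symm ⟨k, hk⟩) else 0) (by
      intro i hi
      rw [REGF_sum J σ]
      rw [← hn i hi]
      refine sum_congr rfl fun k _ => ?_
      rw [dif_pos (σ k).2]
      simp) (σ k) (σ k).2
    rw [dif_pos (σ k).2] at h1
    simpa using h1
  have h1 := regF a c h δ hδ hh hfac hnd H hH (fun k : Fin J.card => ℓ (σ k)) hind' m0 hm0 y0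
  obtain ⟨y, hy1, hy2, hy3⟩ := h1 (fun k => x (σ k)) (fun k => hx _ (σ k).2) (by
    rw [← h0, REGF_sum J σ])
  refine ⟨fun k l => if hkl : k ∈ J ∧ l ∈ J then y (σ.symm ⟨k, hkl.1⟩) (σ.symm ⟨l, hkl.2⟩) else 0,
    ?_, ?_, ?_⟩
  · intro k hk l hl
    simp only [dif_pos (And.intro hk hl)]
    exact hy1 _ _
  · intro k l
    by_cases hkl : k ∈ J ∧ l ∈ J
    · simp only [dif_pos hkl, dif_pos (And.intro hkl.2 hkl.1)]
      exact hy2 _ _
    · have hlk : ¬ (l ∈ J ∧ k ∈ J) := fun hc => hkl ⟨hc.2, hc.1⟩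
      simp only [dif_neg hkl, dif_neg hlk, neg_zero]
  · intro k hk
    have h2 := hy3 (σ.symm ⟨k, hk⟩)
    simp only [Equiv.apply_symm_apply] at h2
    rw [h2, REGF_sum J σ]
    refine sum_congr rfl fun l _ => ?_
    beta_reduce
    rw [dif_pos (And.intro hk (σ l).2)]
    simp

end Pool.Agent.H56.T5
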