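import Pool.Agent.H56.T5.KDL
import Pool.Agent.H56.SMC.TF

/-!
# TFL: `H_0` has no `ε`-torsion (`ε = PowerSeries.X`), mixed supports

ADAPT the proof of `tf` (`Pool/Agent/H56/SMC/TF.lean`).

Proof.  `X • x = ∑ D_k z_k`.  Reduce modulo `X` (`lmap PowerSeries.constantCoeff`, `lmap_Dop`): `∑ D̄_k z̄_k = 0` (the operators over `ℂ` have
the parameter `constantCoeff (p j)`; `pv` of it at `ℓ k` is `constantCoeff (pv p (ℓ k)) = 1` for `k ∈ P`), so by `kdL`
`z̄_k = ∑_l D̄_l ȳ_kl`.  Lift `y_kl = lmap PowerSeries.C ȳ_kl` (antisymmetric, same supports).  All coefficients of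
`w_k = z_k - ∑_l D_l y_kl` (supported in `S ∩ LL ℓ P {k}` by `LL_Dop`) have constant coefficient `0`, so `w_k = X • z'_k` with `z'_k` with the
same supports (`tfq`, `tf_X_mul_tfq` of `TF`).  `X • x = ∑ D_k w_k` (by `Dop_antisymmL`) `= X • ∑ D_k z'_k`, and `X` is a
non-zero-divisor, so `x = ∑ D_k z'_k`.
-/

set_option autoImplicit false

namespace Pool.Agent.H56.T5

open Finset AddMonoidAlgebra
open Pool.Agent.H56.SMC Pool.Agent.H37.T5

/-- TFL -/
theorem tfL {d s : ℕ} {ι : Type} [Fintype ι] (a : ι → Lat d) (c : ι → ℂ) (p : Fin d → PA)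
    (ℓ : Fin s → Lat d) (P : Finset (Fin s)) (hP1 : ∀ k ∈ P, pv p (ℓ k) = 1)
    (hPa : ∀ k ∈ P, ∀ i, 0 ≤ dt (ℓ k) (a i))
    (S : Set (Lat d)) (δ : Lat d) (hδ : ∀ i, dt δ (a i) = 1) (C : ℤ) (hSδ : ∀ u ∈ S, C ≤ dt δ u)
    (hS : ∀ u ∈ S, ∀ i, u + a i ∈ S) (hK : KExactL a c ℓ P S) (x : LP PA d)
    (h : ExL p a (fun i => PowerSeries.C (c i)) ℓ P S ((PowerSeries.X : PA) • x)) :
    ExL p a (fun i => PowerSeries.C (c i)) ℓ P S x := by
  classical
  obtain ⟨z, hz, hx⟩ := h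
  obtain ⟨cc, hcc⟩ : ∃ cc : ι → PA, cc = fun i => PowerSeries.C (c i) := ⟨_, rfl⟩
  rw [← hcc] at hx ⊢
  obtain ⟨f, hf⟩ : ∃ f : PA →+* ℂ, f = PowerSeries.constantCoeff := ⟨_, rfl⟩
  have hfc : (fun i => f (cc i)) = c := by
    funext i
    rw [hf, hcc]
    exact PowerSeries.constantCoeff_C _
  have h0 : ∑ j, Dop (fun j => f (p j)) a c (ℓ j) (lmap f (z j)) = 0 := by
    have h1 := congrArg (lmap f) hx
    rw [lmap_smul, lmap_sum] at h1
    simp only [lmap_Dop, hfc] at h1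
    rw [← h1, hf, PowerSeries.constantCoeff_X, zero_smul]
  have hP1' : ∀ k ∈ P, pv (fun j => f (p j)) (ℓ k) = 1 := by
    intro k hk
    have h1 : pv (fun j => f (p j)) (ℓ k) = f (pv p (ℓ k)) := by
      simp only [pv, map_sum, map_mul, map_intCast]
    rw [h1, hP1 k hk, map_one]
  obtain ⟨yb, hybS, hyba, hyb⟩ := kdL a c (fun j => f (p j)) ℓ P hP1' hPa S δ hδ C hSδ
    (fun u hu i _ => hS u hu i) hK (fun j => lmap f (z j)) (fun j => (hz j).lmap f) h0
  let y : Fin s → Fin s → LP PA d := fun j k => lmap PowerSeries.C (yb j k)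
  have hyS : ∀ j k, Supp (S ∩ LL ℓ P {j, k}) (y j k) := fun j k => (hybS j k).lmap _
  have hya : ∀ j k, y j k = -y k j := by
    intro j k
    change lmap PowerSeries.C (yb j k) = -lmap PowerSeries.C (yb k j)
    rw [hyba j k, tf_lmap_neg]
  have hfy : ∀ j k, lmap f (y j k) = yb j k := by
    intro j k
    apply lp_ext
    intro u
    rw [lmap_coeff]
    change f (PowerSeries.C ((yb j k).coeff u)) = _
    rw [hf]
    exact PowerSeries.constantCoeff_C _
  let w : Fin s → LP PA d := fun j => z j - ∑ k, Dop p a cc (ℓ k) (y j k)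
  have hwS : ∀ j, Supp (S ∩ LL ℓ P {j}) (w j) := fun j =>
    (hz j).sub (Supp.sum _ fun k _ => LL_Dop p a cc ℓ P {j} hP1 hPa S (fun u hu i _ => hS u hu i) k
      _ (by
        have := hyS j k
        rwa [Finset.pair_comm] at this))
  have hw0 : ∀ j u, PowerSeries.constantCoeff ((w j).coeff u) = 0 := by
    intro j u
    have h1 : lmap f (w j) = 0 := by
      change lmap f (z j - ∑ k, Dop p a cc (ℓ k) (y j k)) = 0
      rw [lmap_sub, lmap_sum]
      simp only [lmap_Dop, hfc, hfy]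
      rw [← hyb j, sub_self]
    have h2 : (lmap f (w j)).coeff u = 0 := by rw [h1]; rfl
    rw [lmap_coeff, hf] at h2
    exact h2
  let z' : Fin s → LP PA d := fun j => ofCoeff ((w j).coeff.mapRange tfq tfq_zero)
  have hz'c : ∀ j u, (z' j).coeff u = tfq ((w j).coeff u) := fun j u => rfl
  have hz'S : ∀ j, Supp (S ∩ LL ℓ P {j}) (z' j) := by
    intro j u hu
    apply hwS j u
    intro h1
    apply hu
    rw [hz'c, h1, tfq_zero]
  have hwz : ∀ j, w j = (PowerSeries.X : PA) • z' j := by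
    intro j
    apply lp_ext
    intro u
    rw [coeff_smul', hz'c, tf_X_mul_tfq (hw0 j u)]
  refine ⟨z', hz'S, ?_⟩
  have h1 : (PowerSeries.X : PA) • x = (PowerSeries.X : PA) • ∑ j, Dop p a cc (ℓ j) (z' j) := by
    rw [hx, Finset.smul_sum]
    have h2 : ∑ j, Dop p a cc (ℓ j) (z j) = ∑ j, Dop p a cc (ℓ j) (w j) := by
      have h3 : ∀ j, Dop p a cc (ℓ j) (z j) =
          Dop p a cc (ℓ j) (w j) + Dop p a cc (ℓ j) (∑ k, Dop p a cc (ℓ k) (y j k)) := by
        intro j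
        rw [← Dop_add]
        congr 1
        change z j = z j - ∑ k, Dop p a cc (ℓ k) (y j k) + ∑ k, Dop p a cc (ℓ k) (y j k)
        rw [sub_add_cancel]
      rw [Finset.sum_congr rfl fun j _ => h3 j, Finset.sum_add_distrib,
        Dop_antisymmL p a cc ℓ lp_eq_neg_self y hya, add_zero]
    rw [h2]
    refine Finset.sum_congr rfl fun j _ => ?_
    rw [hwz j, Dop_smul]
  apply lp_ext
  intro u
  have h2 : ((PowerSeries.X : PA) • x).coeff u =
      ((PowerSeries.X : PA) • ∑ j, Dop p a cc (ℓ j) (z' j)).coeff u := by rw [h1]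
  rw [coeff_smul', coeff_smul'] at h2
  exact mul_left_cancel₀ PowerSeries.X_ne_zero h2

end Pool.Agent.H56.T5
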