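import Pool.Agent.H56.T5.RDefs

/-!
# YVL: values of functionals at `yv`

`yv a M w σ T m1 = ∑_{b ∈ σ} T_b (1,0;a_b) + m1 ∑_{w_j=0} (0,1;M e_j)`.
Proofs.  `yv_dt`: `dt_add`, `dt_sum`, `dt_zsmul`.  The others follow from it (`dt_vec`, `dt_ev`, `A5_inl`, `A5_some`; `h5 a w = vec (-N) 0 w`).
-/

set_option autoImplicit false

namespace Pool.Agent.H56.T5

open Finset AddMonoidAlgebra
open Pool.Agent.H56.SMC Pool.Agent.H37.T5

theorem yv_dt {n r : ℕ} (a : Fin r → (Fin n →₀ ℕ)) (M : ℤ) (w : Fin n → ℕ) (σ : Finset (Fin r))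
    (T : Fin r → ℤ) (m1 : ℤ) (g : Lat (n + 2)) :
    dt g (yv a M w σ T m1) = ∑ b ∈ σ, T b * dt g (A5 a M (Sum.inl b)) +
      m1 * ∑ j ∈ univ.filter (fun j => w j = 0), dt g (A5 a M (Sum.inr (Sum.inl (some j)))) := by
  unfold yv
  rw [dt_add, dt_sum, dt_zsmul, dt_sum]
  congr 1
  exact sum_congr rfl fun b _ => dt_zsmul _ _ _

theorem yv_h5 {n r : ℕ} (a : Fin r → (Fin n →₀ ℕ)) (M : ℤ) (w : Fin n → ℕ) (σ : Finset (Fin r))
    (hon : ∀ b ∈ σ, ∑ j, a b j * w j = H22.wmin a w)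
    (T : Fin r → ℤ) (m1 : ℤ) : dt (h5 a w) (yv a M w σ T m1) = 0 := by
  rw [yv_dt]
  have h1 : ∀ b ∈ σ, T b * dt (h5 a w) (A5 a M (Sum.inl b)) = 0 := by
    intro b hb
    have h2 : (∑ j, (w j : ℤ) * (a b j : ℤ)) = (H22.wmin a w : ℤ) := by
      rw [← hon b hb]
      push_cast
      exact sum_congr rfl fun j _ => mul_comm _ _
    rw [A5_inl, h5, dt_vec, h2]
    ring
  have h2 : ∀ j ∈ univ.filter (fun j => w j = 0),
      dt (h5 a w) (A5 a M (Sum.inr (Sum.inl (some j)))) = 0 := by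
    intro j hj
    rw [mem_filter] at hj
    rw [A5_some, h5, dt_vec]
    have h3 : ∑ k, (w k : ℤ) * (M • (ev j : Lat n)) k = 0 := by
      apply sum_eq_zero
      intro k _
      by_cases hk : k = j
      · rw [hk, hj.2]; simp
      · simp [ev, Pi.single_apply, hk]
    rw [h3]
    ring
  rw [sum_eq_zero h1, sum_eq_zero h2]
  ring

theorem yv_coord {n r : ℕ} (a : Fin r → (Fin n →₀ ℕ)) (M : ℤ) (w : Fin n → ℕ)
    (σ : Finset (Fin r)) (T : Fin r → ℤ) (m1 : ℤ) (j : Fin n) :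
    yv a M w σ T m1 j.succ.succ = ∑ b ∈ σ, T b * (a b j : ℤ) + (if w j = 0 then m1 * M else 0) := by
  rw [← dt_ev j.succ.succ (yv a M w σ T m1), yv_dt]
  congr 1
  · apply sum_congr rfl
    intro b _
    rw [dt_ev, A5_inl]
    rfl
  · have h1 : ∀ k ∈ univ.filter (fun k => w k = 0),
        dt (ev j.succ.succ) (A5 a M (Sum.inr (Sum.inl (some k)))) = if j = k then M else 0 := by
      intro k _
      rw [dt_ev, A5_some]
      show (M • (ev k : Lat n)) j = _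
      by_cases hk : j = k
      · simp [ev, hk]
      · simp [ev, Pi.single_apply, hk]
    rw [sum_congr rfl h1, sum_ite_eq]
    by_cases hj : w j = 0
    · simp [hj]
    · simp [hj]

theorem yv_inC {n r : ℕ} (a : Fin r → (Fin n →₀ ℕ)) (M : ℤ) (w : Fin n → ℕ) (σ : Finset (Fin r))
    (T : Fin r → ℤ) (m1 : ℤ) (hT : ∀ b ∈ σ, 0 ≤ T b) (hm : 0 ≤ m1) :
    InC (A5 a M) (yv a M w σ T m1) := by
  intro h hh
  rw [yv_dt]
  have h1 : 0 ≤ ∑ b ∈ σ, T b * dt h (A5 a M (Sum.inl b)) :=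
    sum_nonneg fun b hb => mul_nonneg (hT b hb) (hh _)
  have h2 : 0 ≤ ∑ j ∈ univ.filter (fun j => w j = 0), dt h (A5 a M (Sum.inr (Sum.inl (some j)))) :=
    sum_nonneg fun j _ => hh _
  have h3 := mul_nonneg hm h2
  linarith

theorem yv_gb {n r : ℕ} (a : Fin r → (Fin n →₀ ℕ)) (M : ℤ) (w : Fin n → ℕ) (σ : Finset (Fin r))
    (lam : Fin r → ℚ) (th : Fin r → Fin r → ℚ) (G : ℤ) (γ : TT w σ → Lat (n + 2))
    (q : TT w σ → ℂ) (hG : GD a M w σ lam th G γ q) (T : Fin r → ℤ) (m1 : ℤ)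
    (b : {b : Fin r // b ∈ σ}) : dt (γ (Sum.inl b)) (yv a M w σ T m1) = G * T b.1 := by
  rw [yv_dt]
  have h1 : ∀ b' ∈ σ, T b' * dt (γ (Sum.inl b)) (A5 a M (Sum.inl b')) =
      if b.1 = b' then G * T b.1 else 0 := by
    intro b' hb'
    have := hG.dual (Sum.inl b) (Sum.inl ⟨b', hb'⟩)
    simp only [XT] at this
    rw [this]
    by_cases hbb : b.1 = b'
    · have : b = ⟨b', hb'⟩ := Subtype.ext hbb
      rw [if_pos (by rw [this]), if_pos hbb, ← hbb]
      ring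
    · rw [if_neg, if_neg hbb, mul_zero]
      intro h
      exact hbb (congrArg Subtype.val (Sum.inl.inj h))
  have h2 : ∀ j ∈ univ.filter (fun j => w j = 0),
      dt (γ (Sum.inl b)) (A5 a M (Sum.inr (Sum.inl (some j)))) = 0 := by
    intro j hj
    rw [mem_filter] at hj
    have := hG.dual (Sum.inl b) (Sum.inr (some ⟨j, hj.2⟩))
    simp only [XT] at this
    rw [this, if_neg (by simp)]
  rw [sum_congr rfl h1, sum_ite_eq, if_pos b.2, sum_eq_zero h2]
  ring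

theorem yv_g0 {n r : ℕ} (a : Fin r → (Fin n →₀ ℕ)) (M : ℤ) (w : Fin n → ℕ) (σ : Finset (Fin r))
    (lam : Fin r → ℚ) (th : Fin r → Fin r → ℚ) (G : ℤ) (γ : TT w σ → Lat (n + 2))
    (q : TT w σ → ℂ) (hG : GD a M w σ lam th G γ q) (T : Fin r → ℤ) (m1 : ℤ) :
    dt (γ (Sum.inr none)) (yv a M w σ T m1) = 0 := by
  rw [yv_dt]
  have h1 : ∀ b' ∈ σ, T b' * dt (γ (Sum.inr none)) (A5 a M (Sum.inl b')) = 0 := by
    intro b' hb'
    have := hG.dual (Sum.inr none) (Sum.inl ⟨b', hb'⟩)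
    simp only [XT] at this
    rw [this, if_neg (by simp), mul_zero]
  have h2 : ∀ j ∈ univ.filter (fun j => w j = 0),
      dt (γ (Sum.inr none)) (A5 a M (Sum.inr (Sum.inl (some j)))) = 0 := by
    intro j hj
    rw [mem_filter] at hj
    have := hG.dual (Sum.inr none) (Sum.inr (some ⟨j, hj.2⟩))
    simp only [XT] at this
    rw [this, if_neg (by simp)]
  rw [sum_eq_zero h1, sum_eq_zero h2]
  ring

theorem yv_gj {n r : ℕ} (a : Fin r → (Fin n →₀ ℕ)) (M : ℤ) (w : Fin n → ℕ) (σ : Finset (Fin r))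
    (lam : Fin r → ℚ) (th : Fin r → Fin r → ℚ) (G : ℤ) (γ : TT w σ → Lat (n + 2))
    (q : TT w σ → ℂ) (hG : GD a M w σ lam th G γ q) (T : Fin r → ℤ) (m1 : ℤ)
    (j : {j : Fin n // w j = 0}) :
    dt (γ (Sum.inr (some j))) (yv a M w σ T m1) = G * m1 := by
  rw [yv_dt]
  have h1 : ∀ b' ∈ σ, T b' * dt (γ (Sum.inr (some j))) (A5 a M (Sum.inl b')) = 0 := by
    intro b' hb'
    have := hG.dual (Sum.inr (some j)) (Sum.inl ⟨b', hb'⟩)
    simp only [XT] at this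
    rw [this, if_neg (by simp), mul_zero]
  have h2 : ∀ j' ∈ univ.filter (fun j => w j = 0),
      dt (γ (Sum.inr (some j))) (A5 a M (Sum.inr (Sum.inl (some j')))) =
        if j.1 = j' then G else 0 := by
    intro j' hj'
    rw [mem_filter] at hj'
    have := hG.dual (Sum.inr (some j)) (Sum.inr (some ⟨j', hj'.2⟩))
    simp only [XT] at this
    rw [this]
    by_cases hjj : j.1 = j'
    · have h3 : j = ⟨j', hj'.2⟩ := Subtype.ext hjj
      rw [if_pos (by rw [h3]), if_pos hjj]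
    · rw [if_neg, if_neg hjj]
      intro h
      exact hjj (congrArg Subtype.val (Option.some.inj (Sum.inr.inj h)))
  rw [sum_eq_zero h1, sum_congr rfl h2, sum_ite_eq, if_pos (by simp [j.2])]
  ring

end Pool.Agent.H56.T5
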